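import Pool.Agent.Lib.MP_e8b094_gt.DefsK

/-!
# MP_e8b094_gt, stage 2, piece K16: finiteness of the functionals `CK`
-/

namespace Pool.Agent.CubeWidth

open MeasureTheory Real Set Filter Topology
open scoped ENNReal

lemma ckfin_rho_zero {z : ℝ} (h1 : -1 ≤ z) (h2 : z ≤ 1) : rho z = 0 := by
  unfold rho cl
  rw [min_eq_right h2, max_eq_right h1, sub_self]

lemma ckfin_abs_le (z : ℝ) : |z| ≤ 1 + |rho z| := by
  have h1 : |cl z| ≤ 1 := by
    rw [abs_le]
    unfold cl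
    exact ⟨le_max_left _ _, max_le (by norm_num) (min_le_left _ _)⟩
  have h2 : z = cl z + rho z := by unfold rho; ring
  calc |z| = |cl z + rho z| := by rw [← h2]
    _ ≤ |cl z| + |rho z| := abs_add_le _ _
    _ ≤ _ := by linarith

/-- pointwise bound of the integrand. -/
lemma ckfin_pt {n : ℕ} (u : Fin (n + 1) → ℝ) (hu0 : ∀ i, 0 ≤ u i) (hu : ∑ i, u i ^ 2 = 1)
    (p : ℕ) (i : Fin (n + 1)) (hi : 0 < u i) : ∃ C b : ℝ, 0 < C ∧ 0 < b ∧
    ∀ (s : ℝ) (z : Fin n → ℝ), -(u i) < Ti u i z → Ti u i z ≤ u i →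
      (1 + ∑ j, |rho (ins u i z j)|) ^ p *
        Real.exp (-(qsq u s (fun j => rho (ins u i z j))) / 2) ≤
      C * Real.exp (-b * s ^ 2) * ∏ j, Real.exp (-b * z j ^ 2) := by
  set N : ℝ := (n : ℝ) + 1 with hN
  have hN0 : 0 < N := by positivity
  set D : ℝ := 1 + 1 / u i with hD
  have hD0 : 0 < D := by positivity
  set b : ℝ := 1 / (8 * N * D ^ 2) with hb
  have hb0 : 0 < b := by positivity
  refine ⟨Real.exp ((p * N * D) ^ 2 + 2 * N * b), b, Real.exp_pos _, hb0, ?_⟩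
  intro s z h1 h2
  set r : Fin (n + 1) → ℝ := fun j => rho (ins u i z j) with hr
  set q : ℝ := qsq u s r with hq
  have hu1 : ∀ j, u j ≤ 1 := by
    intro j
    have h3 : u j ^ 2 ≤ 1 := by
      rw [← hu]
      exact Finset.single_le_sum (f := fun j => u j ^ 2) (fun j _ => sq_nonneg _)
        (Finset.mem_univ j)
    nlinarith [hu0 j]
  have hri : r i = 0 := by
    simp only [hr, ins, Fin.insertNth_apply_same]
    apply ckfin_rho_zero
    · rw [le_div_iff₀ hi]
      linarith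
    · rw [div_le_iff₀ hi]
      linarith
  have hrj : ∀ j : Fin n, r (i.succAbove j) = rho (z j) := by
    intro j
    simp only [hr, ins, Fin.insertNth_apply_succAbove]
  have hq0 : 0 ≤ q := by
    rw [hq]
    unfold qsq
    exact Finset.sum_nonneg fun j _ => sq_nonneg _
  set t : ℝ := √q with ht
  have ht0 : 0 ≤ t := Real.sqrt_nonneg _
  have htq : t ^ 2 = q := Real.sq_sqrt hq0
  have h3 : ∀ j, |s * u j + r j| ≤ t := by
    intro j
    apply Real.abs_le_sqrt
    rw [hq]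
    unfold qsq
    exact Finset.single_le_sum (f := fun j => (s * u j + r j) ^ 2) (fun j _ => sq_nonneg _)
      (Finset.mem_univ j)
  have h4 : |s| ≤ t / u i := by
    rw [le_div_iff₀ hi]
    have := h3 i
    rw [hri, add_zero, abs_mul, abs_of_pos hi] at this
    exact this
  have h4' : |s| ≤ D * t := by
    rw [hD]
    have : (1 + 1 / u i) * t = t + t / u i := by ring
    linarith
  have h5 : ∀ j, |r j| ≤ D * t := by
    intro j
    have h6 : |r j| ≤ |s * u j + r j| + |s| * u j := by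
      have h7 : r j = (s * u j + r j) - s * u j := by ring
      calc |r j| = |(s * u j + r j) - s * u j| := by rw [← h7]
        _ ≤ |s * u j + r j| + |s * u j| := abs_sub _ _
        _ = _ := by rw [abs_mul, abs_of_nonneg (hu0 j)]
    have h7 : |s| * u j ≤ |s| := by
      have := mul_le_mul_of_nonneg_left (hu1 j) (abs_nonneg s)
      linarith
    have h8 : D * t = t + t / u i := by rw [hD]; ring
    linarith [h3 j]
  have h6 : ∑ j, |r j| ≤ N * (D * t) := by
    calc ∑ j, |r j| ≤ ∑ _j : Fin (n + 1), D * t := Finset.sum_le_sum fun j _ => h5 j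
      _ = N * (D * t) := by
        rw [Finset.sum_const, Finset.card_univ, Fintype.card_fin, nsmul_eq_mul, hN]
        push_cast
        ring
  have h7 : (1 + ∑ j, |r j|) ^ p ≤ Real.exp (p * (N * (D * t))) := by
    rw [Real.exp_nat_mul]
    apply pow_le_pow_left₀
    · exact add_nonneg zero_le_one (Finset.sum_nonneg fun j _ => abs_nonneg _)
    · refine le_trans ?_ (Real.exp_le_exp.2 h6)
      rw [add_comm]
      exact Real.add_one_le_exp _
  have h8 : (p : ℝ) * (N * (D * t)) ≤ (p * N * D) ^ 2 + q / 4 := by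
    rw [← htq]
    nlinarith [sq_nonneg ((p : ℝ) * N * D - t / 2)]
  have h9 : s ^ 2 ≤ D ^ 2 * q := by
    rw [← htq, ← mul_pow, ← sq_abs s]
    exact pow_le_pow_left₀ (abs_nonneg _) h4' 2
  have h10 : ∀ j : Fin n, z j ^ 2 ≤ 2 + 2 * (D ^ 2 * q) := by
    intro j
    have h11 := ckfin_abs_le (z j)
    have h12 := h5 (i.succAbove j)
    rw [hrj] at h12
    have h13 : |z j| ≤ 1 + D * t := by linarith
    have h14 : z j ^ 2 ≤ (1 + D * t) ^ 2 := by
      rw [← sq_abs (z j)]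
      exact pow_le_pow_left₀ (abs_nonneg _) h13 2
    rw [← htq]
    nlinarith [sq_nonneg (1 - D * t)]
  have h11 : ∑ j, z j ^ 2 ≤ n * (2 + 2 * (D ^ 2 * q)) := by
    calc ∑ j, z j ^ 2 ≤ ∑ _j : Fin n, (2 + 2 * (D ^ 2 * q)) := Finset.sum_le_sum fun j _ => h10 j
      _ = _ := by rw [Finset.sum_const, Finset.card_univ, Fintype.card_fin, nsmul_eq_mul]
  have h12 : s ^ 2 + ∑ j, z j ^ 2 ≤ 2 * N + 2 * N * (D ^ 2 * q) := by
    have h13 : 0 ≤ D ^ 2 * q := by positivity
    rw [hN]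
    nlinarith
  have h13 : b * (s ^ 2 + ∑ j, z j ^ 2) ≤ 2 * N * b + q / 4 := by
    calc b * (s ^ 2 + ∑ j, z j ^ 2) ≤ b * (2 * N + 2 * N * (D ^ 2 * q)) :=
          mul_le_mul_of_nonneg_left h12 hb0.le
      _ = 2 * N * b + q / 4 := by
        rw [hb]
        field_simp
        ring
  calc (1 + ∑ j, |r j|) ^ p * Real.exp (-q / 2)
      ≤ Real.exp (p * (N * (D * t))) * Real.exp (-q / 2) :=
        mul_le_mul_of_nonneg_right h7 (Real.exp_pos _).le
    _ = Real.exp (p * (N * (D * t)) + -q / 2) := by rw [Real.exp_add]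
    _ ≤ Real.exp (((p * N * D) ^ 2 + 2 * N * b) + (-b * s ^ 2) + ∑ j, (-b * z j ^ 2)) := by
      apply Real.exp_le_exp.2
      rw [← Finset.mul_sum]
      nlinarith
    _ = _ := by rw [Real.exp_add, Real.exp_add, Real.exp_sum]

lemma ckfin_gen {n : ℕ} (u : Fin (n + 1) → ℝ) (hu0 : ∀ i, 0 ≤ u i) (hu : ∑ i, u i ^ 2 = 1)
    (k : ℕ) (p : ℕ) (c : ℝ) (hc : 0 ≤ c) (Γ : ℝ → (Fin (n + 1) → ℝ) → ℝ≥0∞)
    (hΓ : ∀ s r, Γ s r ≤ ENNReal.ofReal (c *
      ((1 + ∑ j, |r j|) ^ p * Real.exp (-(qsq u s r) / 2)))) :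
    CK u k Γ < ⊤ := by
  unfold CK
  apply ENNReal.sum_lt_top.2
  intro i _
  rcases (hu0 i).eq_or_lt with hi | hi
  · rw [← hi]
    simp
  apply ENNReal.mul_lt_top ENNReal.ofReal_lt_top
  obtain ⟨C, b, hC, hb, h⟩ := ckfin_pt u hu0 hu p i hi
  have hI : Integrable (fun z : Fin n → ℝ => ∏ j, Real.exp (-b * z j ^ 2)) :=
    Integrable.fintype_prod (f := fun (_ : Fin n) (x : ℝ) => Real.exp (-b * x ^ 2))
      (fun _ => integrable_exp_neg_mul_sq hb)
  have hJ : Integrable (fun s : ℝ => c * C * Real.exp (-b * s ^ 2)) :=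
    (integrable_exp_neg_mul_sq hb).const_mul _
  have h1 : ∀ s : ℝ, ∫⁻ z : Fin n → ℝ,
      {z : Fin n → ℝ | -(u i) < Ti u i z ∧ Ti u i z ≤ u i ∧ fr z = k}.indicator
        (fun z => Γ s (fun j => rho (ins u i z j))) z ≤
      ENNReal.ofReal (c * C * Real.exp (-b * s ^ 2)) *
        ∫⁻ z : Fin n → ℝ, ENNReal.ofReal (∏ j, Real.exp (-b * z j ^ 2)) := by
    intro s
    rw [← lintegral_const_mul _ (by fun_prop)]
    apply lintegral_mono
    intro z
    by_cases hz : z ∈ {z : Fin n → ℝ | -(u i) < Ti u i z ∧ Ti u i z ≤ u i ∧ fr z = k}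
    · rw [indicator_of_mem hz]
      refine (hΓ _ _).trans ?_
      beta_reduce
      rw [← ENNReal.ofReal_mul (by positivity)]
      apply ENNReal.ofReal_le_ofReal
      have h2 := mul_le_mul_of_nonneg_left (h s z hz.1 hz.2.1) hc
      refine h2.trans (le_of_eq ?_)
      ring
    · rw [indicator_of_notMem hz]
      exact bot_le
  refine (lintegral_mono h1).trans_lt ?_
  rw [lintegral_mul_const _ (by fun_prop)]
  exact ENNReal.mul_lt_top hJ.lintegral_lt_top hI.lintegral_lt_top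

theorem CK_gauss_lt_top {n : ℕ} (u : Fin (n + 1) → ℝ) (hu0 : ∀ i, 0 ≤ u i) (hu : ∑ i, u i ^ 2 = 1)
    (k : ℕ) (p : ℕ) :
    CK u k (fun s r => ENNReal.ofReal ((1 + ∑ j, |r j|) ^ p * Real.exp (-(qsq u s r) / 2))) < ⊤ :=
  ckfin_gen u hu0 hu k p 1 zero_le_one _ fun s r => by rw [one_mul]

theorem CK_ball_lt_top {n : ℕ} (u : Fin (n + 1) → ℝ) (hu0 : ∀ i, 0 ≤ u i) (hu : ∑ i, u i ^ 2 = 1)
    (k : ℕ) : CK u k (fun s r => if qsq u s r ≤ 1 then 1 else 0) < ⊤ := by
  refine ckfin_gen u hu0 hu k 0 (Real.exp (1 / 2)) (Real.exp_pos _).le _ fun s r => ?_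
  split_ifs with h
  · rw [pow_zero, one_mul, ← Real.exp_add, ← ENNReal.ofReal_one]
    apply ENNReal.ofReal_le_ofReal
    apply Real.one_le_exp
    linarith
  · exact bot_le

end Pool.Agent.CubeWidth
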