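import Pool.Agent.Lib.MP_e8b094_gt.SxBasic
import Mathlib.MeasureTheory.Function.JacobianOneDim
import Mathlib.MeasureTheory.Constructions.Pi

/-!
Change of variables for the nearest point map.
-/

namespace Pool.Agent.CubeWidth

open MeasureTheory Real Set Filter Topology
open scoped ENNReal

/-! ### the clamp -/

theorem coarea_continuous_cl : Continuous cl := by
  unfold cl
  fun_prop

theorem coarea_cl_of_mem {z : ℝ} (h1 : -1 ≤ z) (h2 : z ≤ 1) : cl z = z := by
  unfold cl
  rw [min_eq_right h2, max_eq_right h1]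

theorem coarea_hasDerivAt_cl {z : ℝ} (hz : |z| ≠ 1) :
    HasDerivAt cl (if |z| < 1 then 1 else 0) z := by
  by_cases h : |z| < 1
  · rw [if_pos h]
    have h2 := abs_lt.1 h
    have hev : cl =ᶠ[𝓝 z] fun x => x := by
      filter_upwards [Ioo_mem_nhds h2.1 h2.2] with x hx
      exact coarea_cl_of_mem hx.1.le hx.2.le
    exact (hasDerivAt_id' z).congr_of_eventuallyEq hev
  · rw [if_neg h]
    have h1 : 1 < |z| := lt_of_le_of_ne (not_lt.1 h) (Ne.symm hz)
    rcases lt_abs.1 h1 with h2 | h2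
    · have hev : cl =ᶠ[𝓝 z] fun _ => (1 : ℝ) := by
        filter_upwards [Ioi_mem_nhds h2] with x hx
        unfold cl
        rw [min_eq_left (le_of_lt hx)]
        norm_num
      exact (hasDerivAt_const z (1 : ℝ)).congr_of_eventuallyEq hev
    · have h3 : z < -1 := by linarith
      have hev : cl =ᶠ[𝓝 z] fun _ => (-1 : ℝ) := by
        filter_upwards [Iio_mem_nhds h3] with x hx
        unfold cl
        have hx' : x < -1 := hx
        rw [min_eq_right (by linarith), max_eq_left (by linarith)]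
      exact (hasDerivAt_const z (-1 : ℝ)).congr_of_eventuallyEq hev

/-! ### the one dimensional map -/

/-- the translate of the coordinates other than `i`. -/
noncomputable def coarea_z {n : ℕ} (u : Fin (n + 1) → ℝ) (i : Fin (n + 1)) (w : Fin n → ℝ)
    (s : ℝ) : Fin n → ℝ := fun j => w j - s * u (i.succAbove j)

/-- the one dimensional map. -/
noncomputable def coarea_p {n : ℕ} (u : Fin (n + 1) → ℝ) (i : Fin (n + 1)) (w : Fin n → ℝ)
    (s : ℝ) : ℝ := s * u i - Ti u i (coarea_z u i w s) / u i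

/-- its derivative. -/
noncomputable def coarea_dp {n : ℕ} (u : Fin (n + 1) → ℝ) (i : Fin (n + 1)) (w : Fin n → ℝ)
    (s : ℝ) : ℝ := u i + (∑ j, u (i.succAbove j) ^ 2 *
      (if |coarea_z u i w s j| < 1 then 1 else 0)) / u i

/-- the exceptional set. -/
def coarea_F {n : ℕ} (u : Fin (n + 1) → ℝ) (i : Fin (n + 1)) (w : Fin n → ℝ) : Set ℝ :=
  ⋃ j : Fin n, {s | u (i.succAbove j) ≠ 0 ∧ |coarea_z u i w s j| = 1}

theorem coarea_F_finite {n : ℕ} (u : Fin (n + 1) → ℝ) (i : Fin (n + 1)) (w : Fin n → ℝ) :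
    (coarea_F u i w).Finite := by
  unfold coarea_F
  refine Set.finite_iUnion fun j => ?_
  by_cases hj : u (i.succAbove j) = 0
  · refine Set.Finite.subset Set.finite_empty ?_
    rintro s ⟨h, -⟩
    exact (h hj).elim
  · refine Set.Finite.subset (Set.toFinite
      {(w j - 1) / u (i.succAbove j), (w j + 1) / u (i.succAbove j)}) ?_
    rintro s ⟨-, h⟩
    unfold coarea_z at h
    rcases (abs_eq (by norm_num : (0 : ℝ) ≤ 1)).1 h with h | h
    · left
      rw [eq_div_iff hj]
      linarith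
    · right
      rw [Set.mem_singleton_iff, eq_div_iff hj]
      linarith

theorem coarea_hasDerivAt {n : ℕ} (u : Fin (n + 1) → ℝ) (i : Fin (n + 1)) (w : Fin n → ℝ)
    (s : ℝ) (hs : s ∉ coarea_F u i w) :
    HasDerivAt (coarea_p u i w) (coarea_dp u i w s) s := by
  have hj : ∀ j : Fin n, HasDerivAt (fun s => u (i.succAbove j) * cl (coarea_z u i w s j))
      (-(u (i.succAbove j) ^ 2 * (if |coarea_z u i w s j| < 1 then 1 else 0))) s := by
    intro j
    by_cases hu : u (i.succAbove j) = 0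
    · simp only [hu]
      simpa using hasDerivAt_const s (0 : ℝ)
    · have h1 : |coarea_z u i w s j| ≠ 1 := by
        intro h
        exact hs (Set.mem_iUnion.2 ⟨j, hu, h⟩)
      have h2 : HasDerivAt (fun s => coarea_z u i w s j) (-(u (i.succAbove j))) s := by
        unfold coarea_z
        have := ((hasDerivAt_id' s).mul_const (u (i.succAbove j))).const_sub (w j)
        simpa using this
      have h3 := ((coarea_hasDerivAt_cl h1).comp s h2).const_mul (u (i.succAbove j))
      refine h3.congr_deriv ?_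
      ring
  have hsum : HasDerivAt (fun s => Ti u i (coarea_z u i w s))
      (∑ j, -(u (i.succAbove j) ^ 2 * (if |coarea_z u i w s j| < 1 then 1 else 0))) s := by
    unfold Ti
    exact HasDerivAt.fun_sum fun j _ => hj j
  have h := ((hasDerivAt_id' s).mul_const (u i)).sub (hsum.div_const (u i))
  unfold coarea_p
  refine h.congr_deriv ?_
  unfold coarea_dp
  rw [Finset.sum_neg_distrib, neg_div]
  ring

theorem coarea_dp_pos {n : ℕ} (u : Fin (n + 1) → ℝ) (i : Fin (n + 1)) (hi : 0 < u i)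
    (w : Fin n → ℝ) (s : ℝ) : 0 < coarea_dp u i w s := by
  unfold coarea_dp
  have : 0 ≤ (∑ j, u (i.succAbove j) ^ 2 *
      (if |coarea_z u i w s j| < 1 then (1 : ℝ) else 0)) / u i := by
    apply div_nonneg _ hi.le
    exact Finset.sum_nonneg fun j _ => mul_nonneg (sq_nonneg _) (by split_ifs <;> norm_num)
  linarith

/-- the point with coordinates `(s, w)`. -/
theorem coarea_insert {n : ℕ} (u : Fin (n + 1) → ℝ) (i : Fin (n + 1)) (w : Fin n → ℝ) (s : ℝ) :
    (i.insertNth (coarea_p u i w s) w : Fin (n + 1) → ℝ) =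
      fun j => ins u i (coarea_z u i w s) j + s * u j := by
  funext j
  refine Fin.succAboveCases i ?_ (fun k => ?_) j
  · simp only [ins, Fin.insertNth_apply_same]
    unfold coarea_p
    ring
  · simp only [ins, Fin.insertNth_apply_succAbove]
    unfold coarea_z
    ring

theorem coarea_measurable_ins {n : ℕ} (u : Fin (n + 1) → ℝ) (i : Fin (n + 1)) :
    Measurable (ins u i) := by
  have h : Measurable (Ti u i) := by
    unfold Ti
    exact (continuous_finsetSum _ fun j _ =>
      continuous_const.mul (coarea_continuous_cl.comp (continuous_apply j))).measurable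
  have h2 : ins u i = fun z => (MeasurableEquiv.piFinSuccAbove (fun _ : Fin (n + 1) => ℝ) i).symm
      (-(Ti u i z) / u i, z) := rfl
  rw [h2]
  exact (MeasurableEquiv.measurable _).comp ((h.neg.div_const _).prodMk measurable_id)

/-! ### the weights -/

/-- the partition of unity. -/
noncomputable def coarea_om {m : ℕ} (u : Fin m → ℝ) (i : Fin m) (x : Fin m → ℝ) : ℝ≥0∞ :=
  if -1 ≤ xp u x i ∧ xp u x i < 1 then
    ENNReal.ofReal (u i ^ 2) /
      ENNReal.ofReal (∑ l, if -1 ≤ xp u x l ∧ xp u x l < 1 then u l ^ 2 else 0)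
  else 0

theorem coarea_measurable_xp {m : ℕ} (u : Fin m → ℝ) (hu0 : ∀ i, 0 ≤ u i) (hu : ∃ i, 0 < u i)
    (i : Fin m) : Measurable (fun x => xp u x i) := by
  unfold xp
  exact (measurable_pi_apply i).sub ((measurable_Sx u hu0 hu).mul_const _)

theorem coarea_measurableSet_free {m : ℕ} (u : Fin m → ℝ) (hu0 : ∀ i, 0 ≤ u i)
    (hu : ∃ i, 0 < u i) (i : Fin m) : MeasurableSet {x | -1 ≤ xp u x i ∧ xp u x i < 1} :=
  (measurableSet_le measurable_const (coarea_measurable_xp u hu0 hu i)).inter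
    (measurableSet_lt (coarea_measurable_xp u hu0 hu i) measurable_const)

theorem coarea_measurable_om {m : ℕ} (u : Fin m → ℝ) (hu0 : ∀ i, 0 ≤ u i) (hu : ∃ i, 0 < u i)
    (i : Fin m) : Measurable (coarea_om u i) := by
  unfold coarea_om
  refine Measurable.ite (coarea_measurableSet_free u hu0 hu i) ?_ measurable_const
  refine Measurable.const_div ?_ _
  refine ENNReal.measurable_ofReal.comp ?_
  refine Finset.measurable_sum _ fun l _ => ?_
  exact Measurable.ite (coarea_measurableSet_free u hu0 hu l) measurable_const measurable_const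

theorem coarea_den_pos {m : ℕ} (u : Fin m → ℝ) (hu0 : ∀ i, 0 ≤ u i) (hu : ∃ i, 0 < u i)
    (x : Fin m → ℝ) : 0 < ∑ l, if -1 ≤ xp u x l ∧ xp u x l < 1 then u l ^ 2 else 0 := by
  obtain ⟨i, hi, h1, h2⟩ := exists_free u hu0 hu x
  refine Finset.sum_pos' (fun l _ => ?_) ⟨i, Finset.mem_univ i, ?_⟩
  · split_ifs
    · exact sq_nonneg _
    · exact le_rfl
  · rw [if_pos ⟨h1, h2⟩]
    positivity

theorem coarea_sum_om {m : ℕ} (u : Fin m → ℝ) (hu0 : ∀ i, 0 ≤ u i) (hu : ∃ i, 0 < u i)
    (x : Fin m → ℝ) : ∑ i, coarea_om u i x = 1 := by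
  have hD := coarea_den_pos u hu0 hu x
  set D : ℝ := ∑ l, if -1 ≤ xp u x l ∧ xp u x l < 1 then u l ^ 2 else 0 with hDdef
  have h1 : ∀ i, coarea_om u i x =
      ENNReal.ofReal (if -1 ≤ xp u x i ∧ xp u x i < 1 then u i ^ 2 else 0) / ENNReal.ofReal D := by
    intro i
    unfold coarea_om
    split_ifs with h
    · rfl
    · simp
  simp_rw [h1, ENNReal.div_eq_inv_mul]
  rw [← Finset.mul_sum, ← ENNReal.ofReal_sum_of_nonneg]
  · rw [← hDdef]
    exact ENNReal.inv_mul_cancel (by simpa using hD) ENNReal.ofReal_ne_top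
  · intro l _
    split_ifs
    · exact sq_nonneg _
    · exact le_rfl

/-! ### the inner integral -/

/-- the set of multipliers. -/
def coarea_A {n : ℕ} (u : Fin (n + 1) → ℝ) (i : Fin (n + 1)) (w : Fin n → ℝ) : Set ℝ :=
  {s | -(u i) < Ti u i (coarea_z u i w s) ∧ Ti u i (coarea_z u i w s) ≤ u i}

theorem coarea_continuous_T {n : ℕ} (u : Fin (n + 1) → ℝ) (i : Fin (n + 1)) (w : Fin n → ℝ) :
    Continuous (fun s => Ti u i (coarea_z u i w s)) := by
  unfold Ti coarea_z
  exact continuous_finsetSum _ fun j _ => continuous_const.mul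
    (coarea_continuous_cl.comp (by fun_prop))

theorem coarea_measurableSet_A {n : ℕ} (u : Fin (n + 1) → ℝ) (i : Fin (n + 1))
    (w : Fin n → ℝ) : MeasurableSet (coarea_A u i w) :=
  (measurableSet_lt measurable_const (coarea_continuous_T u i w).measurable).inter
    (measurableSet_le (coarea_continuous_T u i w).measurable measurable_const)

theorem coarea_Sx {n : ℕ} (u : Fin (n + 1) → ℝ) (hu0 : ∀ i, 0 ≤ u i) (i : Fin (n + 1))
    (hi : 0 < u i) (w : Fin n → ℝ) {s : ℝ} (hs : s ∈ coarea_A u i w) :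
    Sx u (i.insertNth (coarea_p u i w s) w : Fin (n + 1) → ℝ) = s := by
  rw [coarea_insert]
  exact Sx_ins u hu0 i hi _ hs.1 hs.2 s

theorem coarea_xp {n : ℕ} (u : Fin (n + 1) → ℝ) (hu0 : ∀ i, 0 ≤ u i) (i : Fin (n + 1))
    (hi : 0 < u i) (w : Fin n → ℝ) {s : ℝ} (hs : s ∈ coarea_A u i w) :
    xp u (i.insertNth (coarea_p u i w s) w : Fin (n + 1) → ℝ) = ins u i (coarea_z u i w s) := by
  funext j
  unfold xp
  rw [coarea_Sx u hu0 i hi w hs, coarea_insert]
  ring

theorem coarea_injOn {n : ℕ} (u : Fin (n + 1) → ℝ) (hu0 : ∀ i, 0 ≤ u i) (i : Fin (n + 1))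
    (hi : 0 < u i) (w : Fin n → ℝ) : InjOn (coarea_p u i w) (coarea_A u i w) := by
  intro s hs s' hs' h
  have h1 := coarea_Sx u hu0 i hi w hs
  have h2 := coarea_Sx u hu0 i hi w hs'
  rw [h] at h1
  exact h1.symm.trans h2

/-- a point whose `i`-th coordinate is free comes from the set of multipliers. -/
theorem coarea_mem_image {n : ℕ} (u : Fin (n + 1) → ℝ) (hu0 : ∀ i, 0 ≤ u i) (i : Fin (n + 1))
    (hi : 0 < u i) (w : Fin n → ℝ) (a : ℝ)
    (h : -1 ≤ xp u (i.insertNth a w : Fin (n + 1) → ℝ) i ∧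
      xp u (i.insertNth a w : Fin (n + 1) → ℝ) i < 1) :
    a ∈ coarea_p u i w '' coarea_A u i w := by
  have h0 := Phi_xp u hu0 ⟨i, hi⟩ (i.insertNth a w : Fin (n + 1) → ℝ)
  set x : Fin (n + 1) → ℝ := i.insertNth a w with hx
  have hxi : x i = a := by rw [hx]; simp
  have hxj : ∀ j, x (i.succAbove j) = w j := by intro j; rw [hx]; simp
  unfold Phi at h0
  rw [Fin.sum_univ_succAbove _ i] at h0
  have hT : ∑ j : Fin n, u (i.succAbove j) * cl (xp u x (i.succAbove j)) =
      Ti u i (coarea_z u i w (Sx u x)) := by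
    unfold Ti coarea_z xp
    refine Finset.sum_congr rfl fun j _ => ?_
    rw [hxj]
  rw [hT, coarea_cl_of_mem h.1 h.2.le] at h0
  have hT2 : Ti u i (coarea_z u i w (Sx u x)) = -(u i * xp u x i) := by linarith
  refine ⟨Sx u x, ⟨?_, ?_⟩, ?_⟩
  · rw [hT2]
    nlinarith [h.2]
  · rw [hT2]
    nlinarith [h.1]
  · unfold coarea_p
    rw [hT2]
    have : xp u x i = a - Sx u x * u i := by
      unfold xp
      rw [hxi]
    rw [this]
    field_simp
    ring

theorem coarea_om_mul {n : ℕ} (u : Fin (n + 1) → ℝ) (hu0 : ∀ i, 0 ≤ u i) (i : Fin (n + 1))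
    (hi : 0 < u i) (w : Fin n → ℝ) {s : ℝ} (hs : s ∈ coarea_A u i w)
    (hF : s ∉ coarea_F u i w) :
    ENNReal.ofReal |coarea_dp u i w s| *
      coarea_om u i (i.insertNth (coarea_p u i w s) w : Fin (n + 1) → ℝ) =
      ENNReal.ofReal (u i) := by
  have hpos := coarea_dp_pos u i hi w s
  rw [abs_of_pos hpos]
  have hfree : -1 ≤ xp u (i.insertNth (coarea_p u i w s) w : Fin (n + 1) → ℝ) i ∧
      xp u (i.insertNth (coarea_p u i w s) w : Fin (n + 1) → ℝ) i < 1 := by
    rw [coarea_xp u hu0 i hi w hs]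
    simp only [ins, Fin.insertNth_apply_same]
    constructor
    · rw [le_div_iff₀ hi]
      linarith [hs.2]
    · rw [div_lt_iff₀ hi]
      linarith [hs.1]
  have hden : (∑ l, if -1 ≤ xp u (i.insertNth (coarea_p u i w s) w : Fin (n + 1) → ℝ) l ∧
      xp u (i.insertNth (coarea_p u i w s) w : Fin (n + 1) → ℝ) l < 1 then u l ^ 2 else 0) =
      u i * coarea_dp u i w s := by
    rw [Fin.sum_univ_succAbove _ i, if_pos hfree]
    unfold coarea_dp
    rw [mul_add, mul_div_cancel₀ _ hi.ne', sq]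
    congr 1
    refine Finset.sum_congr rfl fun j _ => ?_
    rw [coarea_xp u hu0 i hi w hs]
    simp only [ins, Fin.insertNth_apply_succAbove]
    by_cases hj : u (i.succAbove j) = 0
    · rw [hj]; simp
    · have h1 : |coarea_z u i w s j| ≠ 1 := by
        intro h
        exact hF (Set.mem_iUnion.2 ⟨j, hj, h⟩)
      by_cases h2 : |coarea_z u i w s j| < 1
      · rw [if_pos h2, if_pos ⟨(abs_lt.1 h2).1.le, (abs_lt.1 h2).2⟩, mul_one]
      · rw [if_neg h2, if_neg, mul_zero]
        rintro ⟨h3, h4⟩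
        have h5 : 1 < |coarea_z u i w s j| := lt_of_le_of_ne (not_lt.1 h2) (Ne.symm h1)
        rcases lt_abs.1 h5 with h6 | h6
        · linarith
        · linarith
  unfold coarea_om
  rw [if_pos hfree, hden, ← ENNReal.ofReal_div_of_pos (by positivity),
    ← ENNReal.ofReal_mul hpos.le]
  congr 1
  field_simp

/-- the integrand in the new coordinates. -/
noncomputable def coarea_f {n : ℕ} (u : Fin (n + 1) → ℝ) (i : Fin (n + 1))
    (G : (Fin (n + 1) → ℝ) → ℝ≥0∞) (s : ℝ) (z : Fin n → ℝ) : ℝ≥0∞ :=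
  {z : Fin n → ℝ | -(u i) < Ti u i z ∧ Ti u i z ≤ u i}.indicator
        (fun z => G (fun j => ins u i z j + s * u j)) z

theorem coarea_inner {n : ℕ} (u : Fin (n + 1) → ℝ) (hu0 : ∀ i, 0 ≤ u i) (i : Fin (n + 1))
    (hi : 0 < u i) (G : (Fin (n + 1) → ℝ) → ℝ≥0∞) (w : Fin n → ℝ) :
    ∫⁻ a : ℝ, coarea_om u i (i.insertNth a w : Fin (n + 1) → ℝ) * G (i.insertNth a w) =
      ∫⁻ s : ℝ, ENNReal.ofReal (u i) * coarea_f u i G s (coarea_z u i w s) := by
  set A' := coarea_A u i w \ coarea_F u i w with hA'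
  have hFfin := coarea_F_finite u i w
  have hA'm : MeasurableSet A' := (coarea_measurableSet_A u i w).diff hFfin.measurableSet
  have himm : MeasurableSet (coarea_p u i w '' A') :=
    hA'm.image_of_continuousOn_injOn (by
      intro s hs
      exact (coarea_hasDerivAt u i w s hs.2).continuousAt.continuousWithinAt)
      ((coarea_injOn u hu0 i hi w).mono sdiff_subset)
  -- left side is an integral over the image
  have h1 : ∫⁻ a : ℝ, coarea_om u i (i.insertNth a w : Fin (n + 1) → ℝ) * G (i.insertNth a w) =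
      ∫⁻ a in coarea_p u i w '' A',
        coarea_om u i (i.insertNth a w : Fin (n + 1) → ℝ) * G (i.insertNth a w) := by
    rw [← lintegral_indicator himm]
    refine lintegral_congr_ae ?_
    have hnull : volume (coarea_p u i w '' coarea_F u i w) = 0 :=
      (hFfin.image _).measure_zero _
    filter_upwards [measure_eq_zero_iff_ae_notMem.1 hnull] with a ha
    by_cases hm : a ∈ coarea_p u i w '' A'
    · rw [indicator_of_mem hm]
    · rw [indicator_of_notMem hm]
      have : coarea_om u i (i.insertNth a w : Fin (n + 1) → ℝ) = 0 := by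
        unfold coarea_om
        rw [if_neg]
        intro h
        obtain ⟨s, hs, rfl⟩ := coarea_mem_image u hu0 i hi w a h
        by_cases hsF : s ∈ coarea_F u i w
        · exact ha ⟨s, hsF, rfl⟩
        · exact hm ⟨s, ⟨hs, hsF⟩, rfl⟩
      rw [this, zero_mul]
  rw [h1, lintegral_image_eq_lintegral_abs_deriv_mul hA'm
    (fun s hs => (coarea_hasDerivAt u i w s hs.2).hasDerivWithinAt)
    ((coarea_injOn u hu0 i hi w).mono sdiff_subset)]
  rw [← lintegral_indicator hA'm]
  refine lintegral_congr_ae ?_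
  filter_upwards [measure_eq_zero_iff_ae_notMem.1 (hFfin.measure_zero volume)] with s hs
  by_cases hsA : s ∈ coarea_A u i w
  · have hm : s ∈ A' := ⟨hsA, hs⟩
    rw [indicator_of_mem hm]
    unfold coarea_f
    rw [indicator_of_mem (show coarea_z u i w s ∈ {z : Fin n → ℝ | -(u i) < Ti u i z ∧
      Ti u i z ≤ u i} from hsA), ← mul_assoc, coarea_om_mul u hu0 i hi w hsA hs, coarea_insert]
  · have hm : s ∉ A' := fun h => hsA h.1
    rw [indicator_of_notMem hm]
    unfold coarea_f
    rw [indicator_of_notMem (show coarea_z u i w s ∉ {z : Fin n → ℝ | -(u i) < Ti u i z ∧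
      Ti u i z ≤ u i} from hsA), mul_zero]

theorem coarea_measurable_Ti {n : ℕ} (u : Fin (n + 1) → ℝ) (i : Fin (n + 1)) :
    Measurable (Ti u i) := by
  unfold Ti
  exact (continuous_finsetSum _ fun j _ =>
    continuous_const.mul (coarea_continuous_cl.comp (continuous_apply j))).measurable

theorem coarea_measurable_f {n : ℕ} (u : Fin (n + 1) → ℝ) (i : Fin (n + 1))
    (G : (Fin (n + 1) → ℝ) → ℝ≥0∞) (hG : Measurable G) :
    Measurable (fun q : ℝ × (Fin n → ℝ) => coarea_f u i G q.1 q.2) := by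
  unfold coarea_f
  have hset : MeasurableSet {q : ℝ × (Fin n → ℝ) | -(u i) < Ti u i q.2 ∧ Ti u i q.2 ≤ u i} :=
    (measurableSet_lt measurable_const ((coarea_measurable_Ti u i).comp measurable_snd)).inter
      (measurableSet_le ((coarea_measurable_Ti u i).comp measurable_snd) measurable_const)
  have h2 : (fun q : ℝ × (Fin n → ℝ) => {z : Fin n → ℝ | -(u i) < Ti u i z ∧
      Ti u i z ≤ u i}.indicator (fun z => G (fun j => ins u i z j + q.1 * u j)) q.2) =
      {q : ℝ × (Fin n → ℝ) | -(u i) < Ti u i q.2 ∧ Ti u i q.2 ≤ u i}.indicator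
        (fun q => G (fun j => ins u i q.2 j + q.1 * u j)) := by
    funext q
    by_cases hq : -(u i) < Ti u i q.2 ∧ Ti u i q.2 ≤ u i
    · rw [indicator_of_mem (show q.2 ∈ {z : Fin n → ℝ | -(u i) < Ti u i z ∧ Ti u i z ≤ u i}
        from hq), indicator_of_mem (show q ∈ {q : ℝ × (Fin n → ℝ) | -(u i) < Ti u i q.2 ∧
        Ti u i q.2 ≤ u i} from hq)]
    · rw [indicator_of_notMem (show q.2 ∉ {z : Fin n → ℝ | -(u i) < Ti u i z ∧ Ti u i z ≤ u i}
        from hq), indicator_of_notMem (show q ∉ {q : ℝ × (Fin n → ℝ) | -(u i) < Ti u i q.2 ∧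
        Ti u i q.2 ≤ u i} from hq)]
  rw [h2]
  refine Measurable.indicator ?_ hset
  refine hG.comp (measurable_pi_iff.2 fun j => ?_)
  have h3 := (measurable_pi_apply j).comp ((coarea_measurable_ins u i).comp
    (measurable_snd : Measurable (Prod.snd : ℝ × (Fin n → ℝ) → (Fin n → ℝ))))
  exact h3.add (measurable_fst.mul_const _)

theorem coarea_one {n : ℕ} (u : Fin (n + 1) → ℝ) (hu0 : ∀ i, 0 ≤ u i) (i : Fin (n + 1))
    (hi : 0 < u i) (G : (Fin (n + 1) → ℝ) → ℝ≥0∞) (hG : Measurable G) :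
    ∫⁻ x, coarea_om u i x * G x = ENNReal.ofReal (u i) * ∫⁻ s : ℝ, ∫⁻ z : Fin n → ℝ,
      {z : Fin n → ℝ | -(u i) < Ti u i z ∧ Ti u i z ≤ u i}.indicator
        (fun z => G (fun j => ins u i z j + s * u j)) z := by
  have hu : ∃ i, 0 < u i := ⟨i, hi⟩
  have hmp := (volume_preserving_piFinSuccAbove (fun _ : Fin (n + 1) => ℝ) i).symm
  have hH : Measurable (fun x => coarea_om u i x * G x) :=
    (coarea_measurable_om u hu0 hu i).mul hG
  have h1 : ∫⁻ x, coarea_om u i x * G x = ∫⁻ q : ℝ × (Fin n → ℝ),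
      coarea_om u i (i.insertNth q.1 q.2 : Fin (n + 1) → ℝ) * G (i.insertNth q.1 q.2) := by
    rw [← hmp.lintegral_comp hH]
    rfl
  rw [h1, Measure.volume_eq_prod, lintegral_prod_symm']
  · simp_rw [coarea_inner u hu0 i hi G]
    rw [lintegral_lintegral_swap]
    · rw [← lintegral_const_mul' _ _ ENNReal.ofReal_ne_top]
      refine lintegral_congr fun s => ?_
      rw [lintegral_const_mul' _ _ ENNReal.ofReal_ne_top]
      congr 1
      exact lintegral_sub_right_eq_self (fun z => coarea_f u i G s z)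
        (fun j => s * u (i.succAbove j))
    · refine Measurable.aemeasurable ?_
      refine Measurable.const_mul ?_ _
      have hz : Measurable (fun q : (Fin n → ℝ) × ℝ => (q.2, coarea_z u i q.1 q.2)) := by
        refine measurable_snd.prodMk (measurable_pi_iff.2 fun j => ?_)
        unfold coarea_z
        exact ((measurable_pi_apply j).comp measurable_fst).sub (measurable_snd.mul_const _)
      exact (coarea_measurable_f u i G hG).comp hz
  · exact hH.comp (MeasurableEquiv.piFinSuccAbove (fun _ : Fin (n + 1) => ℝ) i).symm.measurable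

theorem coarea {n : ℕ} (u : Fin (n + 1) → ℝ) (hu0 : ∀ i, 0 ≤ u i) (hu : ∃ i, 0 < u i)
    (G : (Fin (n + 1) → ℝ) → ℝ≥0∞) (hG : Measurable G) :
    ∫⁻ x, G x = ∑ i, ENNReal.ofReal (u i) * ∫⁻ s : ℝ, ∫⁻ z : Fin n → ℝ,
      {z : Fin n → ℝ | -(u i) < Ti u i z ∧ Ti u i z ≤ u i}.indicator
        (fun z => G (fun j => ins u i z j + s * u j)) z := by
  have h1 : ∫⁻ x, G x = ∑ i, ∫⁻ x, coarea_om u i x * G x := by
    have hm : ∀ i ∈ (Finset.univ : Finset (Fin (n + 1))),
        Measurable (fun x => coarea_om u i x * G x) :=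
      fun i _ => (coarea_measurable_om u hu0 hu i).mul hG
    rw [← lintegral_finsetSum _ hm]
    refine lintegral_congr fun x => ?_
    rw [← Finset.sum_mul, coarea_sum_om u hu0 hu x, one_mul]
  rw [h1]
  refine Finset.sum_congr rfl fun i _ => ?_
  rcases (hu0 i).eq_or_lt with hi | hi
  · rw [← hi]
    have h2 : ∀ x, coarea_om u i x = 0 := by
      intro x
      unfold coarea_om
      rw [← hi]
      simp
    simp [h2]
  · exact coarea_one u hu0 i hi G hG

end Pool.Agent.CubeWidth
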