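import Pool.Agent.Lib.MP_e8b094_gt.DefsK

/-!
K12: basic properties of the multiplier `Sx`.
-/

namespace Pool.Agent.CubeWidth

open MeasureTheory Real Set Filter Topology
open scoped ENNReal

theorem sxbasic_cl_mono : Monotone cl := fun a b h => by
  unfold cl
  exact max_le_max le_rfl (min_le_min le_rfl h)

theorem sxbasic_cl_cont : Continuous cl := by
  unfold cl
  fun_prop

theorem sxbasic_cl_of_le {z : ℝ} (h : z ≤ -1) : cl z = -1 := by
  unfold cl
  rw [min_eq_right (by linarith), max_eq_left h]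

theorem sxbasic_cl_of_ge {z : ℝ} (h : 1 ≤ z) : cl z = 1 := by
  unfold cl
  rw [min_eq_left h, max_eq_right (by norm_num)]

theorem sxbasic_cl_of_mem {z : ℝ} (h : -1 ≤ z) (h' : z ≤ 1) : cl z = z := by
  unfold cl
  rw [min_eq_right h', max_eq_right h]

theorem sxbasic_cl_lt {z w : ℝ} (h1 : -1 ≤ z) (h2 : z < 1) (h : z < w) : cl z < cl w := by
  rw [sxbasic_cl_of_mem h1 h2.le]
  unfold cl
  exact lt_of_lt_of_le (lt_min h2 h) (le_max_right _ _)

section

variable {m : ℕ}

theorem sxbasic_cont (u : Fin m → ℝ) :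
    Continuous (fun p : (Fin m → ℝ) × ℝ => Phi u (fun i => p.1 i - p.2 * u i)) := by
  unfold Phi
  refine continuous_finsetSum _ fun i _ => ?_
  refine continuous_const.mul (sxbasic_cl_cont.comp ?_)
  fun_prop

theorem sxbasic_cont_s (u x : Fin m → ℝ) :
    Continuous (fun s : ℝ => Phi u (fun i => x i - s * u i)) := by
  exact (sxbasic_cont u).comp (by fun_prop : Continuous (fun s : ℝ => (x, s)))

theorem sxbasic_cont_x (u : Fin m → ℝ) (s : ℝ) :
    Continuous (fun x : Fin m → ℝ => Phi u (fun i => x i - s * u i)) := by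
  exact (sxbasic_cont u).comp (by fun_prop : Continuous (fun x : Fin m → ℝ => (x, s)))

theorem sxbasic_anti (u : Fin m → ℝ) (hu0 : ∀ i, 0 ≤ u i) (x : Fin m → ℝ) :
    Antitone (fun s : ℝ => Phi u (fun i => x i - s * u i)) := by
  intro s t hst
  refine Finset.sum_le_sum fun i _ => mul_le_mul_of_nonneg_left (sxbasic_cl_mono ?_) (hu0 i)
  have := mul_le_mul_of_nonneg_right hst (hu0 i)
  linarith

theorem sxbasic_bound (u : Fin m → ℝ) (hu0 : ∀ i, 0 ≤ u i) (x : Fin m → ℝ) (i : Fin m)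
    (hi : 0 < u i) : |x i| + 1 ≤ (∑ j, (|x j| + 1) / u j) * u i := by
  have h : (|x i| + 1) / u i ≤ ∑ j, (|x j| + 1) / u j :=
    Finset.single_le_sum (f := fun j => (|x j| + 1) / u j)
      (fun j _ => div_nonneg (by positivity) (hu0 j)) (Finset.mem_univ i)
  rwa [div_le_iff₀ hi] at h

theorem sxbasic_pos_sum (u : Fin m → ℝ) (hu0 : ∀ i, 0 ≤ u i) (hu : ∃ i, 0 < u i) :
    0 < ∑ i, u i := by
  obtain ⟨i, hi⟩ := hu
  exact Finset.sum_pos' (fun j _ => hu0 j) ⟨i, Finset.mem_univ i, hi⟩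

theorem sxbasic_neg (u : Fin m → ℝ) (hu0 : ∀ i, 0 ≤ u i) (hu : ∃ i, 0 < u i) (x : Fin m → ℝ) :
    Phi u (fun i => x i - (∑ j, (|x j| + 1) / u j) * u i) < 0 := by
  have : Phi u (fun i => x i - (∑ j, (|x j| + 1) / u j) * u i) = -∑ i, u i := by
    unfold Phi
    rw [← Finset.sum_neg_distrib]
    refine Finset.sum_congr rfl fun i _ => ?_
    rcases (hu0 i).eq_or_lt with h | h
    · rw [← h]; simp
    · have h1 := sxbasic_bound u hu0 x i h
      rw [sxbasic_cl_of_le (by linarith [le_abs_self (x i)])]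
      ring
  rw [this]
  linarith [sxbasic_pos_sum u hu0 hu]

theorem sxbasic_pos (u : Fin m → ℝ) (hu0 : ∀ i, 0 ≤ u i) (hu : ∃ i, 0 < u i) (x : Fin m → ℝ) :
    0 < Phi u (fun i => x i - (-∑ j, (|x j| + 1) / u j) * u i) := by
  have : Phi u (fun i => x i - (-∑ j, (|x j| + 1) / u j) * u i) = ∑ i, u i := by
    unfold Phi
    refine Finset.sum_congr rfl fun i _ => ?_
    rcases (hu0 i).eq_or_lt with h | h
    · rw [← h]; simp
    · have h1 := sxbasic_bound u hu0 x i h
      rw [sxbasic_cl_of_ge (by linarith [neg_abs_le (x i)])]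
      ring
  rw [this]
  exact sxbasic_pos_sum u hu0 hu

theorem sxbasic_bdd (u : Fin m → ℝ) (hu0 : ∀ i, 0 ≤ u i) (hu : ∃ i, 0 < u i) (x : Fin m → ℝ) :
    BddBelow {s : ℝ | Phi u (fun i => x i - s * u i) ≤ 0} := by
  refine ⟨-∑ j, (|x j| + 1) / u j, fun s hs => ?_⟩
  by_contra hlt
  have h1 := sxbasic_anti u hu0 x (le_of_lt (not_le.mp hlt))
  have h2 := sxbasic_pos u hu0 hu x
  change Phi u (fun i => x i - s * u i) ≤ 0 at hs
  simp only at h1
  linarith

theorem sxbasic_mem (u : Fin m → ℝ) (hu0 : ∀ i, 0 ≤ u i) (hu : ∃ i, 0 < u i) (x : Fin m → ℝ) :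
    Phi u (fun i => x i - Sx u x * u i) ≤ 0 := by
  have hcl : IsClosed {s : ℝ | Phi u (fun i => x i - s * u i) ≤ 0} :=
    isClosed_le (sxbasic_cont_s u x) continuous_const
  exact hcl.csInf_mem ⟨_, (sxbasic_neg u hu0 hu x).le⟩ (sxbasic_bdd u hu0 hu x)

end

theorem Sx_spec {m : ℕ} (u : Fin m → ℝ) (hu0 : ∀ i, 0 ≤ u i) (hu : ∃ i, 0 < u i)
    (x : Fin m → ℝ) (s : ℝ) : Sx u x ≤ s ↔ Phi u (fun i => x i - s * u i) ≤ 0 := by
  constructor
  · intro h
    exact le_trans (sxbasic_anti u hu0 x h) (sxbasic_mem u hu0 hu x)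
  · intro h
    exact csInf_le (sxbasic_bdd u hu0 hu x) h

theorem Phi_xp {m : ℕ} (u : Fin m → ℝ) (hu0 : ∀ i, 0 ≤ u i) (hu : ∃ i, 0 < u i)
    (x : Fin m → ℝ) : Phi u (xp u x) = 0 := by
  refine le_antisymm (sxbasic_mem u hu0 hu x) ?_
  change 0 ≤ (fun s : ℝ => Phi u (fun i => x i - s * u i)) (Sx u x)
  have hc : ContinuousWithinAt (fun s : ℝ => Phi u (fun i => x i - s * u i)) (Iio (Sx u x))
      (Sx u x) := (sxbasic_cont_s u x).continuousWithinAt
  refine ge_of_tendsto hc ?_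
  filter_upwards [self_mem_nhdsWithin] with s hs
  by_contra hneg
  exact absurd ((Sx_spec u hu0 hu x s).mpr (le_of_lt (not_le.mp hneg))) (not_le.mpr hs)

theorem measurable_Sx {m : ℕ} (u : Fin m → ℝ) (hu0 : ∀ i, 0 ≤ u i) (hu : ∃ i, 0 < u i) :
    Measurable (Sx u) := by
  refine measurable_of_Iic fun s => ?_
  have : Sx u ⁻¹' Iic s = {x : Fin m → ℝ | Phi u (fun i => x i - s * u i) ≤ 0} := by
    ext x
    exact Sx_spec u hu0 hu x s
  rw [this]
  exact (isClosed_le (sxbasic_cont_x u s) continuous_const).measurableSet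

theorem exists_free {m : ℕ} (u : Fin m → ℝ) (hu0 : ∀ i, 0 ≤ u i) (hu : ∃ i, 0 < u i)
    (x : Fin m → ℝ) : ∃ i, 0 < u i ∧ -1 ≤ xp u x i ∧ xp u x i < 1 := by
  by_contra hno
  push Not at hno
  have hev : ∀ᶠ δ : ℝ in 𝓝[>] (0 : ℝ), ∀ i, xp u x i < -1 → xp u x i + δ * u i < -1 := by
    rw [Filter.eventually_all]
    intro i
    by_cases h : xp u x i < -1
    · have hc : Tendsto (fun δ : ℝ => xp u x i + δ * u i) (𝓝[>] (0 : ℝ)) (𝓝 (xp u x i + 0 * u i)) := by
        refine ((by fun_prop : Continuous (fun δ : ℝ => xp u x i + δ * u i)).tendsto 0).mono_left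
          nhdsWithin_le_nhds
      have := hc.eventually (Iio_mem_nhds (by linarith : xp u x i + 0 * u i < -1))
      filter_upwards [this] with δ hδ _
      exact hδ
    · exact Filter.Eventually.of_forall fun δ h' => absurd h' h
  obtain ⟨δ, hδ, hδ0⟩ := (hev.and self_mem_nhdsWithin).exists
  have hδ0 : 0 < δ := hδ0
  have key : Phi u (fun i => x i - (Sx u x - δ) * u i) = Phi u (xp u x) := by
    unfold Phi
    refine Finset.sum_congr rfl fun i _ => ?_
    have e1 : x i - (Sx u x - δ) * u i = xp u x i + δ * u i := by unfold xp; ring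
    change u i * cl (x i - (Sx u x - δ) * u i) = u i * cl (xp u x i)
    rw [e1]
    rcases (hu0 i).eq_or_lt with h | h
    · rw [← h]; simp
    · by_cases h1 : xp u x i < -1
      · rw [sxbasic_cl_of_le (hδ i h1).le, sxbasic_cl_of_le h1.le]
      · have h2 := hno i h (not_lt.mp h1)
        rw [sxbasic_cl_of_ge (by nlinarith [mul_pos hδ0 h]), sxbasic_cl_of_ge h2]
  have h3 : Sx u x ≤ Sx u x - δ := by
    rw [Sx_spec u hu0 hu, key, Phi_xp u hu0 hu]
  linarith

theorem Sx_ins {n : ℕ} (u : Fin (n + 1) → ℝ) (hu0 : ∀ i, 0 ≤ u i) (i : Fin (n + 1)) (hi : 0 < u i)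
    (z : Fin n → ℝ) (h1 : -(u i) < Ti u i z) (h2 : Ti u i z ≤ u i) (s : ℝ) :
    Sx u (fun j => ins u i z j + s * u j) = s := by
  have hu : ∃ i, 0 < u i := ⟨i, hi⟩
  have hb1 : -1 ≤ -(Ti u i z) / u i := by
    rw [le_div_iff₀ hi]; linarith
  have hb2 : -(Ti u i z) / u i < 1 := by
    rw [div_lt_iff₀ hi]; linarith
  have hii : ins u i z i = -(Ti u i z) / u i := by
    unfold ins; simp
  have hij : ∀ j, ins u i z (i.succAbove j) = z j := by
    intro j; unfold ins; simp
  have h0 : Phi u (ins u i z) = 0 := by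
    unfold Phi
    rw [Fin.sum_univ_succAbove _ i, hii, sxbasic_cl_of_mem hb1 hb2.le]
    have : ∑ j : Fin n, u (i.succAbove j) * cl (ins u i z (i.succAbove j)) = Ti u i z := by
      unfold Ti
      exact Finset.sum_congr rfl fun j _ => by rw [hij j]
    rw [this]
    field_simp
    ring
  refine le_antisymm ?_ ?_
  · rw [Sx_spec u hu0 hu]
    have : (fun j => ins u i z j + s * u j - s * u j) = ins u i z := by
      ext j; ring
    rw [this, h0]
  · by_contra hlt
    have hlt : Sx u (fun j => ins u i z j + s * u j) < s := not_le.mp hlt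
    set t := Sx u (fun j => ins u i z j + s * u j) with ht
    have h3 : Phi u (fun j => ins u i z j + s * u j - t * u j) ≤ 0 :=
      (Sx_spec u hu0 hu _ t).mp ht.symm.le
    have h4 : Phi u (ins u i z) < Phi u (fun j => ins u i z j + s * u j - t * u j) := by
      unfold Phi
      refine Finset.sum_lt_sum (fun j _ => mul_le_mul_of_nonneg_left (sxbasic_cl_mono ?_) (hu0 j))
        ⟨i, Finset.mem_univ i, mul_lt_mul_of_pos_left (sxbasic_cl_lt ?_ ?_ ?_) hi⟩
      · nlinarith [mul_nonneg (sub_nonneg.mpr hlt.le) (hu0 j)]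
      · rw [hii]; exact hb1
      · rw [hii]; exact hb2
      · nlinarith [mul_pos (sub_pos.mpr hlt) hi]
    linarith

end Pool.Agent.CubeWidth
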