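import Pool.Agent.Lib.MP_e8b094_gt.DefsK
import Pool.Agent.Lib.MP_e8b094_gt.SxBasic
import Pool.Agent.Lib.MP_e8b094_gt.Coarea

/-!
# MP_e8b094_gt, stage 2, piece K14: splitting the coarea formula by the number of free
coordinates (helper97)
-/

namespace Pool.Agent.CubeWidth

open MeasureTheory Real Set Filter Topology
open scoped ENNReal

lemma cksum_measurable_cl : Measurable cl := by
  unfold cl
  fun_prop

lemma cksum_measurable_rho : Measurable rho := by
  unfold rho
  exact measurable_id.sub cksum_measurable_cl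

lemma cksum_measurable_Ti {n : ℕ} (u : Fin (n + 1) → ℝ) (i : Fin (n + 1)) :
    Measurable (Ti u i) := by
  unfold Ti
  refine Finset.measurable_sum _ fun j _ => ?_
  exact (cksum_measurable_cl.comp (measurable_pi_apply j)).const_mul _

lemma cksum_measurable_ins {n : ℕ} (u : Fin (n + 1) → ℝ) (i : Fin (n + 1)) :
    Measurable (ins u i) := by
  refine measurable_pi_lambda _ fun j => ?_
  rcases Fin.eq_self_or_eq_succAbove i j with rfl | ⟨j', rfl⟩
  · simp only [ins, Fin.insertNth_apply_same]
    exact (cksum_measurable_Ti u j).neg.div_const _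
  · simp only [ins, Fin.insertNth_apply_succAbove]
    exact measurable_pi_apply j'

lemma cksum_measurable_fr {n : ℕ} : Measurable (fr : (Fin n → ℝ) → ℕ) := by
  have h : (fr : (Fin n → ℝ) → ℕ) = fun z => ∑ j, if |z j| < 1 then 1 else 0 := by
    funext z
    unfold fr
    rw [Finset.card_filter]
  rw [h]
  refine Finset.measurable_sum _ fun j _ => ?_
  refine Measurable.ite ?_ measurable_const measurable_const
  exact measurableSet_lt (measurable_pi_apply j).abs measurable_const

lemma cksum_fr_le {n : ℕ} (z : Fin n → ℝ) : fr z ≤ n := by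
  unfold fr
  exact (Finset.card_le_univ _).trans (by simp)

lemma cksum_measurable_ind {n : ℕ} (u : Fin (n + 1) → ℝ) (i : Fin (n + 1)) (k : ℕ)
    (Γ : ℝ → (Fin (n + 1) → ℝ) → ℝ≥0∞) (hΓ : Measurable (Function.uncurry Γ)) :
    Measurable fun p : ℝ × (Fin n → ℝ) =>
      {z : Fin n → ℝ | -(u i) < Ti u i z ∧ Ti u i z ≤ u i ∧ fr z = k}.indicator
        (fun z => Γ p.1 (fun j => rho (ins u i z j))) p.2 := by
  have hA : MeasurableSet {p : ℝ × (Fin n → ℝ) | -(u i) < Ti u i p.2 ∧ Ti u i p.2 ≤ u i ∧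
      fr p.2 = k} := by
    refine (measurableSet_lt measurable_const
      ((cksum_measurable_Ti u i).comp measurable_snd)).inter
      ((measurableSet_le ((cksum_measurable_Ti u i).comp measurable_snd)
        measurable_const).inter ?_)
    exact (cksum_measurable_fr.comp measurable_snd) (measurableSet_singleton k)
  have hB : Measurable fun p : ℝ × (Fin n → ℝ) => Γ p.1 (fun j => rho (ins u i p.2 j)) := by
    have h1 : Measurable fun p : ℝ × (Fin n → ℝ) =>
        ((p.1, fun j => rho (ins u i p.2 j)) : ℝ × (Fin (n + 1) → ℝ)) := by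
      refine measurable_fst.prodMk (measurable_pi_lambda _ fun j => ?_)
      exact cksum_measurable_rho.comp ((measurable_pi_apply j).comp
        ((cksum_measurable_ins u i).comp measurable_snd))
    exact hΓ.comp h1
  have e : (fun p : ℝ × (Fin n → ℝ) =>
      {z : Fin n → ℝ | -(u i) < Ti u i z ∧ Ti u i z ≤ u i ∧ fr z = k}.indicator
        (fun z => Γ p.1 (fun j => rho (ins u i z j))) p.2) =
      {p : ℝ × (Fin n → ℝ) | -(u i) < Ti u i p.2 ∧ Ti u i p.2 ≤ u i ∧
        fr p.2 = k}.indicator (fun p => Γ p.1 (fun j => rho (ins u i p.2 j))) := by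
    funext p
    simp only [Set.indicator, Set.mem_ofPred_eq]
  rw [e]
  exact hB.indicator hA

theorem CK_sum {n : ℕ} (u : Fin (n + 1) → ℝ) (hu0 : ∀ i, 0 ≤ u i) (hu : ∃ i, 0 < u i)
    (Γ : ℝ → (Fin (n + 1) → ℝ) → ℝ≥0∞) (hΓ : Measurable (Function.uncurry Γ)) :
    ∫⁻ x, Γ (Sx u x) (fun j => rho (xp u x j)) = ∑ k ∈ Finset.range (n + 1), CK u k Γ := by
  have hS := measurable_Sx u hu0 hu
  have hG : Measurable fun x : Fin (n + 1) → ℝ => Γ (Sx u x) (fun j => rho (xp u x j)) := by
    have h1 : Measurable fun x : Fin (n + 1) → ℝ =>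
        ((Sx u x, fun j => rho (xp u x j)) : ℝ × (Fin (n + 1) → ℝ)) := by
      refine hS.prodMk (measurable_pi_lambda _ fun j => ?_)
      refine cksum_measurable_rho.comp ?_
      unfold xp
      exact (measurable_pi_apply j).sub (hS.mul_const _)
    exact hΓ.comp h1
  rw [coarea u hu0 hu _ hG]
  unfold CK
  rw [Finset.sum_comm]
  refine Finset.sum_congr rfl fun i _ => ?_
  rw [← Finset.mul_sum]
  rcases (hu0 i).eq_or_lt with hi | hi
  · rw [← hi]; simp
  congr 1
  have hm := fun k => cksum_measurable_ind u i k Γ hΓ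
  rw [← lintegral_finsetSum _ fun k _ => (hm k).lintegral_prod_right']
  refine lintegral_congr fun s => ?_
  have hm2 : ∀ k, Measurable fun z : Fin n → ℝ =>
      {z : Fin n → ℝ | -(u i) < Ti u i z ∧ Ti u i z ≤ u i ∧ fr z = k}.indicator
        (fun z => Γ s (fun j => rho (ins u i z j))) z :=
    fun k => (hm k).comp (measurable_prodMk_left (x := s))
  simp only
  rw [← lintegral_finsetSum _ fun k _ => hm2 k]
  refine lintegral_congr fun z => ?_
  by_cases hz : -(u i) < Ti u i z ∧ Ti u i z ≤ u i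
  · rw [Set.indicator_of_mem (show z ∈ {z : Fin n → ℝ | -(u i) < Ti u i z ∧ Ti u i z ≤ u i} from hz)]
    rw [Finset.sum_eq_single (fr z)]
    · rw [Set.indicator_of_mem (show z ∈ {z' : Fin n → ℝ | -(u i) < Ti u i z' ∧ Ti u i z' ≤ u i ∧
        fr z' = fr z} from ⟨hz.1, hz.2, rfl⟩)]
      have h1 := Sx_ins u hu0 i hi z hz.1 hz.2 s
      rw [h1]
      congr 1
      funext j
      unfold xp
      rw [h1, add_sub_cancel_right]
    · intro k _ hk
      refine Set.indicator_of_notMem ?_ _
      rintro ⟨-, -, h⟩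
      exact hk h.symm
    · intro h
      exact absurd (Finset.mem_range.2 (Nat.lt_succ_of_le (cksum_fr_le z))) h
  · rw [Set.indicator_of_notMem (show z ∉ {z : Fin n → ℝ | -(u i) < Ti u i z ∧ Ti u i z ≤ u i} from hz)]
    symm
    refine Finset.sum_eq_zero fun k _ => Set.indicator_of_notMem ?_ _
    rintro ⟨h1, h2, -⟩
    exact hz ⟨h1, h2⟩

end Pool.Agent.CubeWidth
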