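import Pool.Agent.Lib.MP_e8b094_gt.Gauss

/-!
Polar coordinates (lintegral form), support functions.
-/

namespace Pool.Agent.CubeWidth

open MeasureTheory Real Set Filter Topology Pointwise
open scoped ENNReal

/-- volume of the unit ball of `R^m` -/
noncomputable def kap (m : ℕ) : ℝ :=
  (volume (Metric.ball (0 : EuclideanSpace ℝ (Fin m)) 1)).toReal

/-- support function -/
noncomputable def supp {n : ℕ} (K : Set (EuclideanSpace ℝ (Fin n))) (x : EuclideanSpace ℝ (Fin n)) : ℝ :=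
  sSup ((fun y => inner ℝ x y) '' K)

section polar

variable {E : Type*} [NormedAddCommGroup E] [NormedSpace ℝ E] [MeasurableSpace E] [BorelSpace E]
  [FiniteDimensional ℝ E] [Nontrivial E] (μ : Measure E) [μ.IsAddHaarMeasure]

/-- polar coordinates -/
theorem lintegral_polar {f : E → ℝ≥0∞} (hf : Measurable f) :
    ∫⁻ x, f x ∂μ = ∫⁻ θ : Metric.sphere (0 : E) 1, ∫⁻ r in Ioi (0 : ℝ),
      ENNReal.ofReal (r ^ (Module.finrank ℝ E - 1)) * f (r • (θ : E)) ∂volume ∂μ.toSphere := by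
  have h1 : ∫⁻ x, f x ∂μ = ∫⁻ x : ({(0)}ᶜ : Set E), f x.1 ∂(μ.comap (↑)) := by
    rw [lintegral_subtype_comap (measurableSet_singleton _).compl, restrict_compl_singleton]
  have h2 : ∫⁻ x : ({(0)}ᶜ : Set E), f x.1 ∂(μ.comap (↑)) =
      ∫⁻ p, f (p.2.1 • p.1.1) ∂(μ.toSphere.prod (.volumeIoiPow (Module.finrank ℝ E - 1))) := by
    rw [← μ.measurePreserving_homeomorphUnitSphereProd.lintegral_comp_emb
      (Homeomorph.measurableEmbedding _)]
    apply lintegral_congr
    intro x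
    congr 1
    have hx : ‖x.1‖ ≠ 0 := fun h => x.2 (mem_singleton_iff.2 (norm_eq_zero.1 h))
    simp only [homeomorphUnitSphereProd_apply_snd_coe, homeomorphUnitSphereProd_apply_fst_coe]
    rw [smul_smul, mul_inv_cancel₀ hx, one_smul]
  rw [h1, h2, lintegral_prod]
  · apply lintegral_congr
    intro θ
    rw [Measure.volumeIoiPow, lintegral_withDensity_eq_lintegral_mul]
    · simp only [Pi.mul_apply]
      rw [lintegral_subtype_comap measurableSet_Ioi
        (fun r : ℝ => ENNReal.ofReal (r ^ (Module.finrank ℝ E - 1)) * f (r • (θ : E)))]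
    · fun_prop
    · fun_prop
  · fun_prop

end polar

section supportfn

variable {n : ℕ} {K : Set (EuclideanSpace ℝ (Fin n))}

lemma supp_bddAbove (hK : IsCompact K) (x : EuclideanSpace ℝ (Fin n)) :
    BddAbove ((fun y => inner ℝ x y) '' K) :=
  (hK.image (by fun_prop)).bddAbove

lemma le_supp (hK : IsCompact K) (x : EuclideanSpace ℝ (Fin n)) {y : EuclideanSpace ℝ (Fin n)}
    (hy : y ∈ K) : inner ℝ x y ≤ supp K x :=
  le_csSup (supp_bddAbove hK x) ⟨y, hy, rfl⟩

lemma supp_nonneg (hK : IsCompact K) (h0 : (0 : EuclideanSpace ℝ (Fin n)) ∈ K)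
    (x : EuclideanSpace ℝ (Fin n)) : 0 ≤ supp K x := by
  have := le_supp hK x h0
  simpa using this

lemma exists_supp (hK : IsCompact K) (h0 : (0 : EuclideanSpace ℝ (Fin n)) ∈ K)
    (x : EuclideanSpace ℝ (Fin n)) : ∃ y ∈ K, inner ℝ x y = supp K x := by
  have h := (hK.image (f := fun y => inner ℝ x y) (by fun_prop)).sSup_mem ⟨_, 0, h0, rfl⟩
  obtain ⟨y, hy, hy2⟩ := h
  exact ⟨y, hy, hy2⟩

lemma supp_smul (hK : IsCompact K) (h0 : (0 : EuclideanSpace ℝ (Fin n)) ∈ K)
    (x : EuclideanSpace ℝ (Fin n)) {r : ℝ} (hr : 0 ≤ r) : supp K (r • x) = r * supp K x := by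
  apply le_antisymm
  · obtain ⟨y, hy, h⟩ := exists_supp hK h0 (r • x)
    rw [← h, inner_smul_left]
    exact mul_le_mul_of_nonneg_left (le_supp hK x hy) hr
  · obtain ⟨y, hy, h⟩ := exists_supp hK h0 x
    rw [← h]
    have := le_supp hK (r • x) hy
    rw [inner_smul_left] at this
    exact this

lemma exists_bound (hK : IsCompact K) : ∃ M : ℝ, 0 < M ∧ ∀ y ∈ K, ‖y‖ ≤ M := by
  obtain ⟨M, hM⟩ := hK.isBounded.exists_norm_le
  exact ⟨max M 1, by positivity, fun y hy => (hM y hy).trans (le_max_left _ _)⟩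

lemma supp_sub_le (hK : IsCompact K) (h0 : (0 : EuclideanSpace ℝ (Fin n)) ∈ K) {M : ℝ}
    (hM : ∀ y ∈ K, ‖y‖ ≤ M) (x z : EuclideanSpace ℝ (Fin n)) :
    supp K x ≤ supp K z + M * ‖x - z‖ := by
  obtain ⟨y, hy, h⟩ := exists_supp hK h0 x
  rw [← h]
  have h1 : inner ℝ x y = inner ℝ z y + inner ℝ (x - z) y := by rw [inner_sub_left]; ring
  have h2 : inner ℝ (x - z) y ≤ ‖x - z‖ * ‖y‖ := real_inner_le_norm _ _
  have h3 := le_supp hK z hy
  have h4 := hM y hy
  have h5 := norm_nonneg (x - z)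
  nlinarith

lemma supp_le (hK : IsCompact K) (h0 : (0 : EuclideanSpace ℝ (Fin n)) ∈ K) {M : ℝ}
    (hM : ∀ y ∈ K, ‖y‖ ≤ M) (x : EuclideanSpace ℝ (Fin n)) :
    supp K x ≤ M * ‖x‖ := by
  obtain ⟨y, hy, h⟩ := exists_supp hK h0 x
  rw [← h]
  have h2 : inner ℝ x y ≤ ‖x‖ * ‖y‖ := real_inner_le_norm _ _
  have h4 := hM y hy
  have h5 := norm_nonneg x
  nlinarith

lemma continuous_supp (hK : IsCompact K) (h0 : (0 : EuclideanSpace ℝ (Fin n)) ∈ K) :
    Continuous (supp K) := by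
  obtain ⟨M, hM0, hM⟩ := exists_bound hK
  have : LipschitzWith (Real.toNNReal M) (supp K) := by
    apply LipschitzWith.of_dist_le_mul
    intro x z
    rw [Real.dist_eq, dist_eq_norm, Real.coe_toNNReal _ hM0.le, abs_sub_le_iff]
    constructor
    · linarith [supp_sub_le hK h0 hM x z]
    · have := supp_sub_le hK h0 hM z x
      rw [norm_sub_rev] at this
      linarith
  exact this.continuous

end supportfn

end Pool.Agent.CubeWidth
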