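import Pool.Agent.Lib.MP_e8b094_gt.Defs2
import Pool.Agent.Lib.MP_e8b094_gt.PolarBasic

/-!
Definitions for the minimum of all intrinsic volumes.
-/

namespace Pool.Agent.CubeWidth

open MeasureTheory Real Set Filter Topology
open scoped ENNReal

/-- hazard rate of the Gaussian, `phi / Q`. -/
noncomputable def lam (x : ℝ) : ℝ := cc * Real.exp (-x ^ 2 / 2) / (1 - mm x)

/-- `w(x) = E (|g - x| given g > x) - c`. -/
noncomputable def ww (x : ℝ) : ℝ := lam x - x - cc

/-- nonnegative functions which are nonincreasing in the absolute value of the variable. -/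
structure Bump (f : ℝ → ℝ) : Prop where
  nonneg : ∀ x, 0 ≤ f x
  anti : ∀ x y, |x| ≤ |y| → f y ≤ f x

/-- expectation over independent signs, `v` in the list has sign `+` with probability `Q(v)`;
first state variable: sum of signed `v`, second one: sum of `w (signed v)`. -/
noncomputable def EL (F : ℝ → ℝ → ℝ) : List ℝ → ℝ → ℝ → ℝ
  | [], d, w => F d w
  | v :: L, d, w => qq v * EL F L (d + v) (w + ww v) + qq (-v) * EL F L (d - v) (w + ww (-v))

/-- clamp to `[-1,1]`. -/
noncomputable def cl (z : ℝ) : ℝ := max (-1) (min 1 z)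

/-- the part outside `[-1,1]`. -/
noncomputable def rho (z : ℝ) : ℝ := z - cl z

/-- `∑ u_i cl(x_i)`. -/
noncomputable def Phi {m : ℕ} (u x : Fin m → ℝ) : ℝ := ∑ i, u i * cl (x i)

/-- smallest `s` with `Phi u (x - s u) ≤ 0`. -/
noncomputable def Sx {m : ℕ} (u x : Fin m → ℝ) : ℝ :=
  sInf {s : ℝ | Phi u (fun i => x i - s * u i) ≤ 0}

/-- `x - S(x) u`. -/
noncomputable def xp {m : ℕ} (u x : Fin m → ℝ) : Fin m → ℝ := fun i => x i - Sx u x * u i

/-- number of free coordinates. -/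
noncomputable def fr {m : ℕ} (z : Fin m → ℝ) : ℕ := (Finset.univ.filter (fun j => |z j| < 1)).card

/-- `∑_{j ≠ i} u_j cl(z_j)`. -/
noncomputable def Ti {n : ℕ} (u : Fin (n + 1) → ℝ) (i : Fin (n + 1)) (z : Fin n → ℝ) : ℝ :=
  ∑ j, u (i.succAbove j) * cl (z j)

/-- insert the `i`-th coordinate which makes `Phi` zero. -/
noncomputable def ins {n : ℕ} (u : Fin (n + 1) → ℝ) (i : Fin (n + 1)) (z : Fin n → ℝ) :
    Fin (n + 1) → ℝ := i.insertNth (-(Ti u i z) / u i) z

/-- the functional of order `k`: integral over the region where the nearest point has `k`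
free coordinates besides the basic coordinate `i`, in the coordinates `(s, z)`. -/
noncomputable def CK {n : ℕ} (u : Fin (n + 1) → ℝ) (k : ℕ)
    (Γ : ℝ → (Fin (n + 1) → ℝ) → ℝ≥0∞) : ℝ≥0∞ :=
  ∑ i, ENNReal.ofReal (u i) * ∫⁻ s : ℝ, ∫⁻ z : Fin n → ℝ,
    {z : Fin n → ℝ | -(u i) < Ti u i z ∧ Ti u i z ≤ u i ∧ fr z = k}.indicator
      (fun z => Γ s (fun j => rho (ins u i z j))) z

/-- squared length of `s u + r`. -/
noncomputable def qsq {m : ℕ} (u : Fin m → ℝ) (s : ℝ) (r : Fin m → ℝ) : ℝ :=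
  ∑ j, (s * u j + r j) ^ 2

/-- Gaussian functional of order `k`. -/
noncomputable def BB {n : ℕ} (u : Fin (n + 1) → ℝ) (k : ℕ) : ℝ :=
  (CK u k (fun s r => ENNReal.ofReal (Real.exp (-(qsq u s r) / 2)))).toReal

/-- Gaussian functional of order `k` of the support function. -/
noncomputable def DD {n : ℕ} (u : Fin (n + 1) → ℝ) (k : ℕ) : ℝ :=
  (CK u k (fun s r => ENNReal.ofReal ((∑ j, |r j|) * Real.exp (-(qsq u s r) / 2)))).toReal

/-- ball functional of order `k`. -/
noncomputable def AA {n : ℕ} (u : Fin (n + 1) → ℝ) (k : ℕ) : ℝ :=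
  (CK u k (fun s r => if qsq u s r ≤ 1 then 1 else 0)).toReal

end Pool.Agent.CubeWidth
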