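import Mathlib
import Pool.Agent.Lib.MP_e8b094_gt.DefsK
import Pool.Agent.Lib.MP_e8b094_gt.SxBasic

/-!
The nearest point of the section: `cl (xp u x)`.
-/

namespace Pool.Agent.CubeWidth

open MeasureTheory Real Set Filter Topology Pointwise
open scoped ENNReal

private lemma nearest_rho {z y : ℝ} (hy : |y| ≤ 1) : 0 ≤ rho z * (cl z - y) := by
  obtain ⟨h1, h2⟩ := abs_le.mp hy
  unfold rho cl
  rcases le_total z 1 with h | h
  · rw [min_eq_right h]
    rcases le_total (-1) z with h' | h'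
    · rw [max_eq_right h']; simp
    · rw [max_eq_left h']
      nlinarith
  · rw [min_eq_left h, max_eq_right (by norm_num)]
    nlinarith

private lemma nearest_cl (z : ℝ) : |cl z| ≤ 1 := by
  unfold cl
  rw [abs_le]
  exact ⟨le_max_left _ _, max_le (by norm_num) (min_le_left _ _)⟩

private lemma nearest_qsq {m : ℕ} (u x : Fin m → ℝ) :
    qsq u (Sx u x) (fun i => rho (xp u x i)) = ∑ i, (x i - cl (xp u x i)) ^ 2 := by
  unfold qsq
  refine Finset.sum_congr rfl fun i _ => ?_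
  have : Sx u x * u i + rho (xp u x i) = x i - cl (xp u x i) := by
    unfold rho xp
    ring
  rw [this]

theorem nearest_le {m : ℕ} (u : Fin m → ℝ) (hu0 : ∀ i, 0 ≤ u i) (hu : ∃ i, 0 < u i)
    (x y : Fin m → ℝ) (hy1 : ∀ i, |y i| ≤ 1) (hy2 : ∑ i, u i * y i = 0) :
    qsq u (Sx u x) (fun i => rho (xp u x i)) ≤ ∑ i, (x i - y i) ^ 2 := by
  rw [nearest_qsq]
  have h0 : ∑ i, u i * cl (xp u x i) = 0 := Phi_xp u hu0 hu x
  have h1 : ∑ i, (x i - y i) ^ 2 = ∑ i, (x i - cl (xp u x i)) ^ 2 +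
      2 * (Sx u x * (∑ i, u i * cl (xp u x i) - ∑ i, u i * y i) +
        ∑ i, rho (xp u x i) * (cl (xp u x i) - y i)) + ∑ i, (cl (xp u x i) - y i) ^ 2 := by
    rw [← Finset.sum_sub_distrib, Finset.mul_sum, ← Finset.sum_add_distrib, Finset.mul_sum,
      ← Finset.sum_add_distrib, ← Finset.sum_add_distrib]
    refine Finset.sum_congr rfl fun i _ => ?_
    unfold rho
    have : x i = xp u x i + Sx u x * u i := by unfold xp; ring
    rw [this]
    ring
  rw [h1, h0, hy2]
  have h2 : 0 ≤ ∑ i, rho (xp u x i) * (cl (xp u x i) - y i) :=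
    Finset.sum_nonneg fun i _ => nearest_rho (hy1 i)
  have h3 : 0 ≤ ∑ i, (cl (xp u x i) - y i) ^ 2 := Finset.sum_nonneg fun i _ => sq_nonneg _
  linarith

theorem mem_parallel {m : ℕ} (u : EuclideanSpace ℝ (Fin m)) (hu0 : ∀ i, 0 ≤ u i)
    (hu : ‖u‖ = 1) {t : ℝ} (ht : 0 ≤ t) (x : EuclideanSpace ℝ (Fin m)) :
    x ∈ {y : EuclideanSpace ℝ (Fin m) | (∀ i, |y i| ≤ 1) ∧ inner ℝ y u = 0} +
        Metric.closedBall (0 : EuclideanSpace ℝ (Fin m)) t ↔
      qsq (fun i => u i) (Sx (fun i => u i) (fun i => x i))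
        (fun i => rho (xp (fun i => u i) (fun i => x i) i)) ≤ t ^ 2 := by
  have hpos : ∃ i, 0 < u i := by
    by_contra h
    push Not at h
    have : u = 0 := by
      ext i
      exact le_antisymm (h i) (hu0 i)
    rw [this, norm_zero] at hu
    exact zero_ne_one hu
  have hin : ∀ y : EuclideanSpace ℝ (Fin m), inner ℝ y u = ∑ i, u i * y i := by
    intro y
    rw [PiLp.inner_apply]
    refine Finset.sum_congr rfl fun i _ => ?_
    simp
  have hns : ∀ y : EuclideanSpace ℝ (Fin m), ‖y‖ ^ 2 = ∑ i, y i ^ 2 := by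
    intro y
    rw [EuclideanSpace.norm_sq_eq]
    simp
  constructor
  · rintro ⟨y, ⟨hy1, hy2⟩, z, hz, hyz⟩
    have hyz' : y + z = x := hyz
    rw [mem_closedBall_zero_iff] at hz
    have hz' : z = x - y := by rw [← hyz']; abel
    refine (nearest_le (fun i => u i) hu0 hpos (fun i => x i) (fun i => y i) hy1
      (by rw [← hin]; exact hy2)).trans ?_
    have h1 : ∑ i, (x i - y i) ^ 2 = ‖z‖ ^ 2 := by
      rw [hns, hz']
      rfl
    rw [h1]
    exact pow_le_pow_left₀ (norm_nonneg _) hz 2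
  · intro h
    rw [nearest_qsq] at h
    set y : EuclideanSpace ℝ (Fin m) :=
      WithLp.toLp 2 (fun i => cl (xp (fun i => u i) (fun i => x i) i)) with hy
    refine ⟨y, ⟨fun i => nearest_cl _, ?_⟩, x - y, ?_, ?_⟩
    · rw [hin]
      exact Phi_xp (fun i => u i) hu0 hpos (fun i => x i)
    · rw [mem_closedBall_zero_iff]
      have h1 : ‖x - y‖ ^ 2 ≤ t ^ 2 := by
        rw [hns]
        exact h
      exact le_of_sq_le_sq h1 ht
    · show y + (x - y) = x
      abel

end Pool.Agent.CubeWidth
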