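import Pool.Agent.Lib.MP_e8b094_gt.DefsK

/-!
Scaling of the outer coordinates.
-/

namespace Pool.Agent.CubeWidth

open MeasureTheory Real Set Filter Topology
open scoped ENNReal

theorem scale_cl_of_lt {z : ℝ} (h : |z| < 1) : cl z = z := by
  have h1 := abs_lt.1 h
  unfold cl
  rw [min_eq_right h1.2.le, max_eq_right h1.1.le]

theorem scale_cl_of_ge {z : ℝ} (h : 1 ≤ z) : cl z = 1 := by
  unfold cl
  rw [min_eq_left h]
  norm_num

theorem scale_cl_of_le {z : ℝ} (h : z ≤ -1) : cl z = -1 := by
  unfold cl
  rw [min_eq_right (by linarith), max_eq_left h]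

theorem scale_cl_abs (z : ℝ) : |cl z| ≤ 1 := by
  unfold cl
  rw [abs_le]
  refine ⟨le_max_left _ _, max_le (by norm_num) (min_le_left _ _)⟩

theorem scale_rho_of_abs_le {z : ℝ} (h : |z| ≤ 1) : rho z = 0 := by
  have h1 := abs_le.1 h
  unfold rho cl
  rw [min_eq_right h1.2, max_eq_right h1.1, sub_self]

theorem scale_measurable_cl : Measurable cl := by
  unfold cl
  fun_prop

theorem scale_measurable_rho : Measurable rho := by
  unfold rho
  exact measurable_id.sub scale_measurable_cl

/-- the scaled point. -/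
noncomputable def scSig (r z : ℝ) : ℝ := cl z + r * rho z

theorem scale_measurable_sig (r : ℝ) : Measurable (scSig r) := by
  unfold scSig
  exact scale_measurable_cl.add (scale_measurable_rho.const_mul r)

theorem scSig_of_lt {r z : ℝ} (h : |z| < 1) : scSig r z = z := by
  unfold scSig
  rw [scale_cl_of_lt h, scale_rho_of_abs_le h.le]; ring

theorem scSig_of_ge {r z : ℝ} (h : 1 ≤ z) : scSig r z = r * z + (1 - r) := by
  unfold scSig rho
  rw [scale_cl_of_ge h]; ring

theorem scSig_of_le {r z : ℝ} (h : z ≤ -1) : scSig r z = r * z + (r - 1) := by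
  unfold scSig rho
  rw [scale_cl_of_le h]; ring

theorem scale_cases (z : ℝ) : |z| < 1 ∨ 1 ≤ z ∨ z ≤ -1 := by
  rcases lt_or_ge |z| 1 with h | h
  · exact Or.inl h
  · rcases le_abs'.1 h with h | h
    · exact Or.inr (Or.inr h)
    · exact Or.inr (Or.inl h)

theorem scale_abs_sig_lt {r : ℝ} (hr : 0 < r) (z : ℝ) : |scSig r z| < 1 ↔ |z| < 1 := by
  rcases scale_cases z with h | h | h
  · rw [scSig_of_lt h]
  · rw [scSig_of_ge h]
    constructor
    · intro h'
      have := (abs_lt.1 h').2
      nlinarith
    · intro h'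
      have := (abs_lt.1 h').2
      linarith
  · rw [scSig_of_le h]
    constructor
    · intro h'
      have := (abs_lt.1 h').1
      nlinarith
    · intro h'
      have := (abs_lt.1 h').1
      linarith

theorem scale_cl_sig {r : ℝ} (hr : 0 < r) (z : ℝ) : cl (scSig r z) = cl z := by
  rcases scale_cases z with h | h | h
  · rw [scSig_of_lt h]
  · rw [scSig_of_ge h, scale_cl_of_ge h, scale_cl_of_ge (by nlinarith)]
  · rw [scSig_of_le h, scale_cl_of_le h, scale_cl_of_le (by nlinarith)]

theorem scale_rho_sig {r : ℝ} (hr : 0 < r) (z : ℝ) : rho (scSig r z) = r * rho z := by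
  have h : rho (scSig r z) = scSig r z - cl (scSig r z) := rfl
  rw [h, scale_cl_sig hr]
  unfold scSig
  ring

/-- linear substitution. -/
theorem scale_lintegral_affine {r : ℝ} (hr : 0 < r) (b : ℝ) (H : ℝ → ℝ≥0∞) :
    ENNReal.ofReal r * ∫⁻ x : ℝ, H (r * x + b) = ∫⁻ x, H x := by
  have h1 : ∫⁻ x : ℝ, H (r * x + b) = ∫⁻ y, H (y + b) ∂(Measure.map (fun x => r * x) volume) := by
    have := lintegral_map_equiv (μ := (volume : Measure ℝ)) (fun y => H (y + b))
      (Homeomorph.mulLeft₀ r hr.ne').toMeasurableEquiv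
    simpa using this.symm
  have h2 := Real.smul_map_volume_mul_left (a := r) hr.ne'
  rw [abs_of_pos hr] at h2
  rw [h1, ← smul_eq_mul, ← lintegral_smul_measure, h2]
  exact lintegral_add_right_eq_self H b

/-- weight in one coordinate. -/
noncomputable def scDel (r z : ℝ) : ℝ := if |z| < 1 then 1 else r

theorem scale_measurable_del (r : ℝ) : Measurable (scDel r) := by
  unfold scDel
  exact Measurable.ite (measurableSet_lt (by fun_prop) measurable_const) measurable_const
    measurable_const

theorem scale_one {r : ℝ} (hr : 0 < r) {F : ℝ → ℝ≥0∞} (hF : Measurable F) :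
    ∫⁻ z : ℝ, ENNReal.ofReal (scDel r z) * F (scSig r z) = ∫⁻ z, F z := by
  have hA : MeasurableSet {z : ℝ | |z| < 1} := measurableSet_lt (by fun_prop) measurable_const
  have hB : MeasurableSet {z : ℝ | 1 ≤ z} := measurableSet_le measurable_const measurable_id
  have hC : MeasurableSet {z : ℝ | z ≤ -1} := measurableSet_le measurable_id measurable_const
  have e1 : ∀ z : ℝ, ENNReal.ofReal (scDel r z) * F (scSig r z) =
      {z : ℝ | |z| < 1}.indicator F z +
        (ENNReal.ofReal r * {z : ℝ | 1 ≤ z}.indicator F (r * z + (1 - r)) +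
          ENNReal.ofReal r * {z : ℝ | z ≤ -1}.indicator F (r * z + (r - 1))) := by
    intro z
    rcases scale_cases z with h | h | h
    · have h1 := abs_lt.1 h
      rw [scSig_of_lt h, indicator_of_mem (show z ∈ {z : ℝ | |z| < 1} from h),
        indicator_of_notMem (s := {z : ℝ | 1 ≤ z}),
        indicator_of_notMem (s := {z : ℝ | z ≤ -1})]
      · simp [scDel, h]
      · simp only [mem_ofPred_eq, not_le]; nlinarith
      · simp only [mem_ofPred_eq, not_le]; nlinarith
    · have h0 : ¬ |z| < 1 := fun h' => by have := (abs_lt.1 h').2; linarith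
      rw [scSig_of_ge h, indicator_of_notMem (s := {z : ℝ | |z| < 1}) h0,
        indicator_of_mem (s := {z : ℝ | 1 ≤ z}),
        indicator_of_notMem (s := {z : ℝ | z ≤ -1})]
      · simp [scDel, h0]
      · simp only [mem_ofPred_eq, not_le]; nlinarith
      · simp only [mem_ofPred_eq]; nlinarith
    · have h0 : ¬ |z| < 1 := fun h' => by have := (abs_lt.1 h').1; linarith
      rw [scSig_of_le h, indicator_of_notMem (s := {z : ℝ | |z| < 1}) h0,
        indicator_of_notMem (s := {z : ℝ | 1 ≤ z}),
        indicator_of_mem (s := {z : ℝ | z ≤ -1})]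
      · simp [scDel, h0]
      · simp only [mem_ofPred_eq]; nlinarith
      · simp only [mem_ofPred_eq, not_le]; nlinarith
  have e2 : ∀ z : ℝ, F z = {z : ℝ | |z| < 1}.indicator F z +
      ({z : ℝ | 1 ≤ z}.indicator F z + {z : ℝ | z ≤ -1}.indicator F z) := by
    intro z
    rcases scale_cases z with h | h | h
    · have h1 := abs_lt.1 h
      rw [indicator_of_mem (show z ∈ {z : ℝ | |z| < 1} from h),
        indicator_of_notMem (s := {z : ℝ | 1 ≤ z}),
        indicator_of_notMem (s := {z : ℝ | z ≤ -1})]
      · simp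
      · simp only [mem_ofPred_eq, not_le]; exact h1.1
      · simp only [mem_ofPred_eq, not_le]; exact h1.2
    · have h0 : ¬ |z| < 1 := fun h' => by have := (abs_lt.1 h').2; linarith
      rw [indicator_of_notMem (s := {z : ℝ | |z| < 1}) h0,
        indicator_of_mem (s := {z : ℝ | 1 ≤ z}) h,
        indicator_of_notMem (s := {z : ℝ | z ≤ -1})]
      · simp
      · simp only [mem_ofPred_eq, not_le]; linarith
    · have h0 : ¬ |z| < 1 := fun h' => by have := (abs_lt.1 h').1; linarith
      rw [indicator_of_notMem (s := {z : ℝ | |z| < 1}) h0,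
        indicator_of_notMem (s := {z : ℝ | 1 ≤ z}),
        indicator_of_mem (s := {z : ℝ | z ≤ -1}) h]
      · simp
      · simp only [mem_ofPred_eq, not_le]; linarith
  have mA : Measurable ({z : ℝ | |z| < 1}.indicator F) := hF.indicator hA
  have mB : Measurable ({z : ℝ | 1 ≤ z}.indicator F) := hF.indicator hB
  have mC : Measurable ({z : ℝ | z ≤ -1}.indicator F) := hF.indicator hC
  have mB' : Measurable (fun z : ℝ => {z : ℝ | 1 ≤ z}.indicator F (r * z + (1 - r))) :=
    mB.comp (by fun_prop)
  have mC' : Measurable (fun z : ℝ => {z : ℝ | z ≤ -1}.indicator F (r * z + (r - 1))) :=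
    mC.comp (by fun_prop)
  rw [lintegral_congr e1, lintegral_congr e2, lintegral_add_left mA, lintegral_add_left mA,
    lintegral_add_left (mB'.const_mul _), lintegral_add_left mB, lintegral_const_mul _ mB',
    lintegral_const_mul _ mC', scale_lintegral_affine hr, scale_lintegral_affine hr]

theorem scale_fr_le {m : ℕ} (z : Fin m → ℝ) : fr z ≤ m := by
  unfold fr
  exact (Finset.card_le_univ _).trans (by simp)

theorem scale_fr_cons {m : ℕ} (x : ℝ) (y : Fin m → ℝ) :
    fr (Fin.cons x y : Fin (m + 1) → ℝ) = (if |x| < 1 then 1 else 0) + fr y := by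
  unfold fr
  rw [Finset.card_filter, Finset.card_filter, Fin.sum_univ_succ]
  simp only [Fin.cons_zero, Fin.cons_succ]

theorem scale_measurable_fr {m : ℕ} : Measurable (fun z : Fin m → ℝ => fr z) := by
  have h : (fun z : Fin m → ℝ => fr z) = fun z => ∑ j, if |z j| < 1 then 1 else 0 := by
    funext z
    unfold fr
    rw [Finset.card_filter]
  rw [h]
  refine Finset.measurable_sum _ (fun j _ => ?_)
  exact Measurable.ite (measurableSet_lt (by fun_prop) measurable_const) measurable_const
    measurable_const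

theorem scale_weight_cons {m : ℕ} (r x : ℝ) (y : Fin m → ℝ) :
    r ^ (m + 1 - fr (Fin.cons x y : Fin (m + 1) → ℝ)) = scDel r x * r ^ (m - fr y) := by
  have h := scale_fr_le y
  rw [scale_fr_cons]
  unfold scDel
  split_ifs with hx
  · rw [one_mul]
    congr 1
    omega
  · rw [zero_add, ← pow_succ']
    congr 1
    omega

theorem scale_measurable_cons {m : ℕ} :
    Measurable (fun p : ℝ × (Fin m → ℝ) => (Fin.cons p.1 p.2 : Fin (m + 1) → ℝ)) := by
  refine measurable_pi_iff.2 (fun j => ?_)
  refine Fin.cases ?_ (fun j => ?_) j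
  · simpa using measurable_fst
  · simp only [Fin.cons_succ]
    exact (measurable_pi_apply j).comp measurable_snd

theorem scale_lintegral_cons {m : ℕ} {G : (Fin (m + 1) → ℝ) → ℝ≥0∞} (hG : Measurable G) :
    ∫⁻ z, G z = ∫⁻ x : ℝ, ∫⁻ y : Fin m → ℝ, G (Fin.cons x y) := by
  have h := (volume_preserving_piFinSuccAbove (fun _ : Fin (m + 1) => ℝ) 0).symm
  have h1 : ∫⁻ z, G z = ∫⁻ p : ℝ × (Fin m → ℝ), G (Fin.cons p.1 p.2) := by
    rw [h.lintegral_map_equiv G]
    refine lintegral_congr (fun p => ?_)
    congr 1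
    funext j
    refine Fin.cases ?_ (fun j => ?_) j
    · simp [MeasurableEquiv.piFinSuccAbove, Fin.insertNthEquiv]
    · simp [MeasurableEquiv.piFinSuccAbove, Fin.insertNthEquiv]
  rw [h1, Measure.volume_eq_prod, lintegral_prod]
  exact (hG.comp scale_measurable_cons).aemeasurable

theorem scale_pi {m : ℕ} {r : ℝ} (hr : 0 < r) {F : (Fin m → ℝ) → ℝ≥0∞} (hF : Measurable F) :
    ∫⁻ z : Fin m → ℝ, ENNReal.ofReal (r ^ (m - fr z)) * F (fun j => cl (z j) + r * rho (z j)) =
      ∫⁻ z, F z := by
  induction m with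
  | zero =>
    refine lintegral_congr (fun z => ?_)
    have : (fun j => cl (z j) + r * rho (z j)) = z := Subsingleton.elim _ _
    rw [this]
    simp
  | succ m ih =>
    have hσ : Measurable (fun z : Fin (m + 1) → ℝ => fun j => cl (z j) + r * rho (z j)) :=
      measurable_pi_iff.2 (fun j => (scale_measurable_sig r).comp (measurable_pi_apply j))
    have hw : Measurable (fun z : Fin (m + 1) → ℝ => ENNReal.ofReal (r ^ (m + 1 - fr z))) :=
      ENNReal.measurable_ofReal.comp
        ((measurable_from_nat (f := fun k : ℕ => r ^ (m + 1 - k))).comp scale_measurable_fr)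
    have hm : Measurable (fun z : Fin (m + 1) → ℝ => ENNReal.ofReal (r ^ (m + 1 - fr z)) *
        F (fun j => cl (z j) + r * rho (z j))) := hw.mul (hF.comp hσ)
    rw [scale_lintegral_cons hm, scale_lintegral_cons hF]
    have hFx : ∀ x : ℝ, Measurable (fun y : Fin m → ℝ => F (Fin.cons x y)) := fun x =>
      hF.comp (scale_measurable_cons.comp (measurable_const.prodMk measurable_id))
    have e1 : ∀ x : ℝ, (∫⁻ y : Fin m → ℝ,
        ENNReal.ofReal (r ^ (m + 1 - fr (Fin.cons x y : Fin (m + 1) → ℝ))) *
          F (fun j => cl ((Fin.cons x y : Fin (m + 1) → ℝ) j) +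
            r * rho ((Fin.cons x y : Fin (m + 1) → ℝ) j))) =
        ENNReal.ofReal (scDel r x) * ∫⁻ y : Fin m → ℝ, F (Fin.cons (scSig r x) y) := by
      intro x
      rw [← ih (hFx (scSig r x)), ← lintegral_const_mul']
      · refine lintegral_congr (fun y => ?_)
        rw [scale_weight_cons, ENNReal.ofReal_mul (by unfold scDel; split_ifs <;> linarith),
          mul_assoc]
        congr 3
        funext j
        refine Fin.cases ?_ (fun j => ?_) j
        · simp [scSig]
        · simp
      · exact ENNReal.ofReal_ne_top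
    rw [lintegral_congr e1]
    refine scale_one hr (F := fun x => ∫⁻ y : Fin m → ℝ, F (Fin.cons x y)) ?_
    exact Measurable.lintegral_prod_right (hF.comp scale_measurable_cons)

theorem scale_measurable_Ti {n : ℕ} (u : Fin (n + 1) → ℝ) (i : Fin (n + 1)) :
    Measurable (Ti u i) := by
  unfold Ti
  exact Finset.measurable_sum _ (fun j _ =>
    ((scale_measurable_cl.comp (measurable_pi_apply j)).const_mul _))

theorem scale_Ti_sig {n : ℕ} (u : Fin (n + 1) → ℝ) (i : Fin (n + 1)) {r : ℝ} (hr : 0 < r)
    (z : Fin n → ℝ) : Ti u i (fun j => scSig r (z j)) = Ti u i z := by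
  unfold Ti
  simp only [scale_cl_sig hr]

theorem scale_fr_sig {m : ℕ} {r : ℝ} (hr : 0 < r) (z : Fin m → ℝ) :
    fr (fun j => scSig r (z j)) = fr z := by
  unfold fr
  simp only [scale_abs_sig_lt hr]

theorem scale_rho_ins {n : ℕ} (u : Fin (n + 1) → ℝ) (i : Fin (n + 1)) (hi : 0 < u i) {r : ℝ}
    (hr : 0 < r) (z : Fin n → ℝ) (h1 : -(u i) < Ti u i z) (h2 : Ti u i z ≤ u i) (j : Fin (n + 1)) :
    rho (ins u i (fun j => scSig r (z j)) j) = r * rho (ins u i z j) := by
  unfold ins
  rw [scale_Ti_sig u i hr]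
  rcases Fin.eq_self_or_eq_succAbove i j with h | ⟨l, h⟩
  · rw [h, Fin.insertNth_apply_same, Fin.insertNth_apply_same]
    have : rho (-(Ti u i z) / u i) = 0 := by
      apply scale_rho_of_abs_le
      rw [abs_div, abs_neg, abs_of_pos hi, div_le_one hi]
      exact abs_le.2 ⟨h1.le, h2⟩
    rw [this, mul_zero]
  · rw [h, Fin.insertNth_apply_succAbove, Fin.insertNth_apply_succAbove]
    exact scale_rho_sig hr _

theorem scale_measurable_ins {n : ℕ} (u : Fin (n + 1) → ℝ) (i : Fin (n + 1)) :
    Measurable (fun z : Fin n → ℝ => ins u i z) := by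
  refine measurable_pi_iff.2 (fun j => ?_)
  unfold ins
  rcases Fin.eq_self_or_eq_succAbove i j with h | ⟨l, h⟩
  · subst h
    simp only [Fin.insertNth_apply_same]
    exact (scale_measurable_Ti u _).neg.div_const _
  · subst h
    simp only [Fin.insertNth_apply_succAbove]
    exact measurable_pi_apply l

theorem CK_scale {n : ℕ} (u : Fin (n + 1) → ℝ) (k : ℕ) (hk : k ≤ n) {r : ℝ} (hr : 0 < r)
    (Γ : ℝ → (Fin (n + 1) → ℝ) → ℝ≥0∞) (hΓ : Measurable (Function.uncurry Γ)) :
    ENNReal.ofReal (r ^ (n + 1 - k)) * CK u k (fun s q => Γ (r * s) (fun j => r * q j)) =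
      CK u k Γ := by
  unfold CK
  rw [Finset.mul_sum]
  refine Finset.sum_congr rfl (fun i _ => ?_)
  rcases le_or_gt (u i) 0 with hi | hi
  · rw [ENNReal.ofReal_of_nonpos hi]; simp
  rw [mul_left_comm]
  congr 1
  -- the set
  set A : Set (Fin n → ℝ) := {z | -(u i) < Ti u i z ∧ Ti u i z ≤ u i ∧ fr z = k} with hA
  have hAm : MeasurableSet A := by
    rw [hA]
    exact (measurableSet_lt measurable_const (scale_measurable_Ti u i)).inter
      ((measurableSet_le (scale_measurable_Ti u i) measurable_const).inter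
        (scale_measurable_fr (measurableSet_singleton k)))
  have key : ∀ s : ℝ, (∫⁻ z, A.indicator (fun z => Γ s (fun j => rho (ins u i z j))) z) =
      ENNReal.ofReal (r ^ (n - k)) *
        ∫⁻ z, A.indicator (fun z => Γ s (fun j => r * rho (ins u i z j))) z := by
    intro s
    have hm : Measurable (A.indicator (fun z => Γ s (fun j => rho (ins u i z j)))) := by
      refine Measurable.indicator ?_ hAm
      have h1 : Measurable (fun z : Fin n → ℝ => (s, fun j => rho (ins u i z j))) :=
        measurable_const.prodMk (measurable_pi_iff.2 (fun j =>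
          scale_measurable_rho.comp ((measurable_pi_apply j).comp (scale_measurable_ins u i))))
      exact hΓ.comp h1
    rw [← scale_pi hr hm, ← lintegral_const_mul' _ _ ENNReal.ofReal_ne_top]
    refine lintegral_congr (fun z => ?_)
    have hz : (fun j => scSig r (z j)) ∈ A ↔ z ∈ A := by
      rw [hA]
      simp only [mem_ofPred_eq, scale_Ti_sig u i hr, scale_fr_sig hr]
    change ENNReal.ofReal (r ^ (n - fr z)) * A.indicator
      (fun z => Γ s (fun j => rho (ins u i z j))) (fun j => scSig r (z j)) = _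
    by_cases hzA : z ∈ A
    · rw [indicator_of_mem (hz.2 hzA), indicator_of_mem hzA]
      have h3 := hzA
      rw [hA] at h3
      obtain ⟨h1, h2, h3⟩ := h3
      rw [h3]
      simp only [scale_rho_ins u i hi hr z h1 h2]
    · rw [indicator_of_notMem (fun h => hzA (hz.1 h)), indicator_of_notMem hzA]
      simp
  rw [lintegral_congr key, lintegral_const_mul' _ _ ENNReal.ofReal_ne_top]
  have h4 := scale_lintegral_affine hr 0
    (fun s => ∫⁻ z, A.indicator (fun z => Γ s (fun j => r * rho (ins u i z j))) z)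
  simp only [add_zero] at h4
  rw [← h4, ← mul_assoc, ← ENNReal.ofReal_mul (pow_nonneg hr.le _), ← pow_succ]
  congr 3
  omega

end Pool.Agent.CubeWidth
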