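import Pool.Agent.Lib.MP_e8b094_gt.DefsK
import Pool.Agent.Lib.MP_e8b094_gt.SxBasic
import Pool.Agent.Lib.MP_e8b094_gt.CKsum
import Pool.Agent.Lib.MP_e8b094_gt.Scale
import Pool.Agent.Lib.MP_e8b094_gt.CKfin
import Pool.Agent.Lib.MP_e8b094_gt.Nearest

/-!
Piece K19: the relation between the Gaussian functionals `BB` and `DD`.
-/

namespace Pool.Agent.CubeWidth

open MeasureTheory Real Set Filter Topology
open scoped ENNReal

/-- squared distance to the section. -/
private noncomputable def bdrelQ {n : ℕ} (u : Fin (n + 1) → ℝ) (x : Fin (n + 1) → ℝ) : ℝ :=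
  qsq u (Sx u x) (fun j => rho (xp u x j))

/-- support function at the outer normal. -/
private noncomputable def bdrelH {n : ℕ} (u : Fin (n + 1) → ℝ) (x : Fin (n + 1) → ℝ) : ℝ :=
  ∑ j, |rho (xp u x j)|

private lemma bdrel_cl_abs (z : ℝ) : |cl z| ≤ 1 := by
  unfold cl
  rw [abs_le]
  constructor
  · exact le_max_left _ _
  · exact max_le (by norm_num) (min_le_left _ _)

private lemma bdrel_rho_cl (z : ℝ) : rho z * cl z = |rho z| := by
  unfold rho
  rcases le_or_gt z (-1) with h | h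
  · have h1 : cl z = -1 := by
      unfold cl
      rw [min_eq_right (by linarith), max_eq_left h]
    rw [h1, abs_of_nonpos (by linarith)]
    ring
  · rcases le_or_gt z 1 with h' | h'
    · have h1 : cl z = z := by
        unfold cl
        rw [min_eq_right h', max_eq_right h.le]
      rw [h1, sub_self, abs_zero, zero_mul]
    · have h1 : cl z = 1 := by
        unfold cl
        rw [min_eq_left h'.le, max_eq_right (by norm_num)]
      rw [h1, abs_of_nonneg (by linarith)]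
      ring

private lemma bdrel_pos {m : ℕ} {u : Fin m → ℝ} (hu0 : ∀ i, 0 ≤ u i) (hu : ∑ i, u i ^ 2 = 1) :
    ∃ i, 0 < u i := by
  by_contra h
  push Not at h
  have h1 : ∀ i, u i = 0 := fun i => le_antisymm (h i) (hu0 i)
  have h2 : ∑ i, u i ^ 2 = 0 := Finset.sum_eq_zero fun i _ => by rw [h1 i]; norm_num
  rw [h2] at hu
  norm_num at hu

private lemma bdrel_cl_cont : Continuous cl := by
  unfold cl
  exact continuous_const.max (continuous_const.min continuous_id)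

private lemma bdrel_rho_cont : Continuous rho := by
  unfold rho
  exact continuous_id.sub bdrel_cl_cont

section

variable {n : ℕ} {u : Fin (n + 1) → ℝ}

private lemma bdrel_meas_rho (hu0 : ∀ i, 0 ≤ u i) (hu : ∃ i, 0 < u i) (j : Fin (n + 1)) :
    Measurable fun x => rho (xp u x j) := by
  refine bdrel_rho_cont.measurable.comp ?_
  unfold xp
  exact (measurable_pi_apply j).sub ((measurable_Sx u hu0 hu).mul_const _)

private lemma bdrel_meas_Q (hu0 : ∀ i, 0 ≤ u i) (hu : ∃ i, 0 < u i) : Measurable (bdrelQ u) := by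
  unfold bdrelQ qsq
  exact Finset.measurable_fun_sum _ fun j _ =>
    ((((measurable_Sx u hu0 hu).mul_const _).add (bdrel_meas_rho hu0 hu j)).pow_const 2)

private lemma bdrel_meas_H (hu0 : ∀ i, 0 ≤ u i) (hu : ∃ i, 0 < u i) : Measurable (bdrelH u) := by
  unfold bdrelH
  exact Finset.measurable_fun_sum _ fun j _ => (bdrel_meas_rho hu0 hu j).abs

private lemma bdrel_H_nonneg (u : Fin (n + 1) → ℝ) (x : Fin (n + 1) → ℝ) : 0 ≤ bdrelH u x :=
  Finset.sum_nonneg fun _ _ => abs_nonneg _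

private lemma bdrel_qsq_scale (u : Fin (n + 1) → ℝ) (r s : ℝ) (q : Fin (n + 1) → ℝ) :
    qsq u (r * s) (fun j => r * q j) = r ^ 2 * qsq u s q := by
  unfold qsq
  rw [Finset.mul_sum]
  exact Finset.sum_congr rfl fun j _ => by ring

private lemma bdrel_qsq_meas (u : Fin (n + 1) → ℝ) :
    Measurable (Function.uncurry fun (s : ℝ) (r : Fin (n + 1) → ℝ) => qsq u s r) := by
  unfold qsq Function.uncurry
  fun_prop

private lemma bdrel_scale_meas (r : ℝ) (Γ : ℝ → (Fin (n + 1) → ℝ) → ℝ≥0∞)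
    (hΓ : Measurable (Function.uncurry Γ)) :
    Measurable (Function.uncurry fun (s : ℝ) (q : Fin (n + 1) → ℝ) =>
      Γ (r * s) (fun j => r * q j)) := by
  have h1 : Measurable fun p : ℝ × (Fin (n + 1) → ℝ) => (r * p.1, fun j => r * p.2 j) := by
    fun_prop
  have h2 : Measurable fun p : ℝ × (Fin (n + 1) → ℝ) =>
      Function.uncurry Γ (r * p.1, fun j => r * p.2 j) := hΓ.comp h1
  exact h2

/-- the pointwise inequality. -/
private lemma bdrel_pt (hu0 : ∀ i, 0 ≤ u i) (hu : ∃ i, 0 < u i) {l : ℝ} (hl : 0 < l)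
    (x : Fin (n + 1) → ℝ) :
    l ^ 2 * bdrelQ u (l⁻¹ • x) ≤
      bdrelQ u x - 2 * (l - 1) * bdrelH u x + (l - 1) ^ 2 * ((n : ℝ) + 1) := by
  set y : Fin (n + 1) → ℝ := fun i => cl (xp u x i) with hy
  have h1 := nearest_le u hu0 hu (l⁻¹ • x) y (fun i => bdrel_cl_abs _) (Phi_xp u hu0 hu x)
  have h2 : l ^ 2 * bdrelQ u (l⁻¹ • x) ≤ ∑ i, (x i - l * y i) ^ 2 := by
    have h3 : l ^ 2 * ∑ i, ((l⁻¹ • x) i - y i) ^ 2 = ∑ i, (x i - l * y i) ^ 2 := by
      rw [Finset.mul_sum]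
      refine Finset.sum_congr rfl fun i _ => ?_
      simp only [Pi.smul_apply, smul_eq_mul]
      field_simp
    rw [← h3]
    exact mul_le_mul_of_nonneg_left h1 (by positivity)
  refine h2.trans ?_
  have e1 : ∀ i, x i - y i = Sx u x * u i + rho (xp u x i) := by
    intro i
    simp only [hy, rho, xp]
    ring
  have e2 : ∑ i, (x i - y i) ^ 2 = bdrelQ u x := by
    unfold bdrelQ qsq
    exact Finset.sum_congr rfl fun i _ => by rw [e1]
  have e3 : ∑ i, (x i - y i) * y i = bdrelH u x := by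
    have h4 : ∑ i, (x i - y i) * y i =
        Sx u x * ∑ i, u i * cl (xp u x i) + ∑ i, rho (xp u x i) * cl (xp u x i) := by
      rw [Finset.mul_sum, ← Finset.sum_add_distrib]
      refine Finset.sum_congr rfl fun i _ => ?_
      rw [e1]
      simp only [hy]
      ring
    have h5 : ∑ i, u i * cl (xp u x i) = 0 := Phi_xp u hu0 hu x
    rw [h4, h5, mul_zero, zero_add]
    unfold bdrelH
    exact Finset.sum_congr rfl fun i _ => bdrel_rho_cl _
  have e4 : ∑ i, y i ^ 2 ≤ (n : ℝ) + 1 := by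
    have h6 : ∀ i ∈ (Finset.univ : Finset (Fin (n + 1))), y i ^ 2 ≤ 1 := by
      intro i _
      have := bdrel_cl_abs (xp u x i)
      rw [← sq_abs]
      exact pow_le_one₀ (abs_nonneg _) this
    refine (Finset.sum_le_sum h6).trans (le_of_eq ?_)
    simp
  have e5 : ∑ i, (x i - l * y i) ^ 2 = ∑ i, (x i - y i) ^ 2 -
      2 * (l - 1) * ∑ i, (x i - y i) * y i + (l - 1) ^ 2 * ∑ i, y i ^ 2 := by
    rw [Finset.mul_sum, Finset.mul_sum, ← Finset.sum_sub_distrib, ← Finset.sum_add_distrib]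
    exact Finset.sum_congr rfl fun i _ => by ring
  rw [e5, e2, e3]
  have := mul_le_mul_of_nonneg_left e4 (sq_nonneg (l - 1))
  linarith

private lemma bdrel_fin (hu0 : ∀ i, 0 ≤ u i) (hu : ∑ i, u i ^ 2 = 1) (k : ℕ)
    (Γ : ℝ → (Fin (n + 1) → ℝ) → ℝ≥0∞)
    (h : ∀ s r, Γ s r ≤
      ENNReal.ofReal ((1 + ∑ j, |r j|) ^ 1 * Real.exp (-(qsq u s r) / 2))) : CK u k Γ < ⊤ := by
  refine lt_of_le_of_lt ?_ (CK_gauss_lt_top u hu0 hu k 1)
  unfold CK
  refine Finset.sum_le_sum fun i _ => ?_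
  refine mul_le_mul_right ?_ _
  refine lintegral_mono fun s => lintegral_mono fun z => ?_
  exact Set.indicator_le_indicator (h _ _)

/-- the mass of the Gaussian of the distance. -/
private lemma bdrel_A (hu0 : ∀ i, 0 ≤ u i) (hu : ∑ i, u i ^ 2 = 1) {r : ℝ} (hr : 0 < r) :
    Integrable (fun x => Real.exp (-(r ^ 2 * bdrelQ u x) / 2)) ∧
      ∫ x, Real.exp (-(r ^ 2 * bdrelQ u x) / 2) =
        ∑ k ∈ Finset.range (n + 1), (r ^ (n + 1 - k))⁻¹ * BB u k := by
  have hpos := bdrel_pos hu0 hu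
  set Γ : ℝ → (Fin (n + 1) → ℝ) → ℝ≥0∞ := fun s q =>
    ENNReal.ofReal (Real.exp (-(qsq u s q) / 2)) with hΓ
  have hΓm : Measurable (Function.uncurry Γ) :=
    (Real.measurable_exp.comp ((bdrel_qsq_meas u).neg.div_const 2)).ennreal_ofReal
  set Γr : ℝ → (Fin (n + 1) → ℝ) → ℝ≥0∞ := fun s q => Γ (r * s) (fun j => r * q j) with hΓr
  have hΓrm : Measurable (Function.uncurry Γr) := bdrel_scale_meas r Γ hΓm
  have hfin : ∀ k, CK u k Γ < ⊤ := fun k => bdrel_fin hu0 hu k Γ fun s q => by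
    refine ENNReal.ofReal_le_ofReal ?_
    have h1 : 0 ≤ ∑ j, |q j| := Finset.sum_nonneg fun _ _ => abs_nonneg _
    have h2 := Real.exp_pos (-(qsq u s q) / 2)
    nlinarith
  have e1 : ∀ x, Γr (Sx u x) (fun j => rho (xp u x j)) =
      ENNReal.ofReal (Real.exp (-(r ^ 2 * bdrelQ u x) / 2)) := by
    intro x
    simp only [hΓr, hΓ]
    rw [bdrel_qsq_scale]
    rfl
  have e2 : ∫⁻ x, ENNReal.ofReal (Real.exp (-(r ^ 2 * bdrelQ u x) / 2)) =
      ∑ k ∈ Finset.range (n + 1), CK u k Γr := by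
    rw [← CK_sum u hu0 hpos Γr hΓrm]
    exact lintegral_congr fun x => (e1 x).symm
  have e3 : ∀ k ∈ Finset.range (n + 1),
      CK u k Γr = ENNReal.ofReal ((r ^ (n + 1 - k))⁻¹ * BB u k) := by
    intro k hk
    have hk' : k ≤ n := Nat.lt_succ_iff.1 (Finset.mem_range.1 hk)
    have h1 := CK_scale u k hk' hr Γ hΓm
    have h2 : CK u k Γ = ENNReal.ofReal (BB u k) := by
      unfold BB
      rw [ENNReal.ofReal_toReal (hfin k).ne]
    have h3 : 0 < r ^ (n + 1 - k) := by positivity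
    rw [ENNReal.ofReal_mul (by positivity), ← h2, ← h1, ← mul_assoc,
      ← ENNReal.ofReal_mul (by positivity), inv_mul_cancel₀ h3.ne', ENNReal.ofReal_one, one_mul]
  have hB0 : ∀ k, 0 ≤ BB u k := fun k => ENNReal.toReal_nonneg
  have e4 : ∫⁻ x, ENNReal.ofReal (Real.exp (-(r ^ 2 * bdrelQ u x) / 2)) =
      ENNReal.ofReal (∑ k ∈ Finset.range (n + 1), (r ^ (n + 1 - k))⁻¹ * BB u k) := by
    rw [e2, Finset.sum_congr rfl e3, ENNReal.ofReal_sum_of_nonneg]
    intro k _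
    have := hB0 k
    positivity
  have hm : AEStronglyMeasurable (fun x => Real.exp (-(r ^ 2 * bdrelQ u x) / 2)) volume :=
    (Real.measurable_exp.comp
      (((bdrel_meas_Q hu0 hpos).const_mul _).neg.div_const 2)).aestronglyMeasurable
  have h0 : 0 ≤ ∑ k ∈ Finset.range (n + 1), (r ^ (n + 1 - k))⁻¹ * BB u k :=
    Finset.sum_nonneg fun k _ => by
      have := hB0 k
      positivity
  have hi : Integrable (fun x => Real.exp (-(r ^ 2 * bdrelQ u x) / 2)) := by
    refine ⟨hm, ?_⟩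
    rw [hasFiniteIntegral_iff_ofReal (ae_of_all _ fun x => (Real.exp_pos _).le), e4]
    exact ENNReal.ofReal_lt_top
  refine ⟨hi, ?_⟩
  rw [integral_eq_lintegral_of_nonneg_ae (ae_of_all _ fun x => (Real.exp_pos _).le) hm, e4,
    ENNReal.toReal_ofReal h0]

/-- the Gaussian mean of the support function. -/
private lemma bdrel_B (hu0 : ∀ i, 0 ≤ u i) (hu : ∑ i, u i ^ 2 = 1) {r : ℝ} (hr : 0 < r) :
    Integrable (fun x => bdrelH u x * Real.exp (-(r ^ 2 * bdrelQ u x) / 2)) ∧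
      r * ∫ x, bdrelH u x * Real.exp (-(r ^ 2 * bdrelQ u x) / 2) =
        ∑ k ∈ Finset.range (n + 1), (r ^ (n + 1 - k))⁻¹ * DD u k := by
  have hpos := bdrel_pos hu0 hu
  set Γ : ℝ → (Fin (n + 1) → ℝ) → ℝ≥0∞ := fun s q =>
    ENNReal.ofReal ((∑ j, |q j|) * Real.exp (-(qsq u s q) / 2)) with hΓ
  have hΓm : Measurable (Function.uncurry Γ) := by
    have h1 : Measurable fun p : ℝ × (Fin (n + 1) → ℝ) => ∑ j, |p.2 j| := by fun_prop
    exact (h1.mul (Real.measurable_exp.comp ((bdrel_qsq_meas u).neg.div_const 2))).ennreal_ofReal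
  set Γr : ℝ → (Fin (n + 1) → ℝ) → ℝ≥0∞ := fun s q => Γ (r * s) (fun j => r * q j) with hΓr
  have hΓrm : Measurable (Function.uncurry Γr) := bdrel_scale_meas r Γ hΓm
  have hfin : ∀ k, CK u k Γ < ⊤ := fun k => bdrel_fin hu0 hu k Γ fun s q => by
    refine ENNReal.ofReal_le_ofReal ?_
    have h2 := Real.exp_pos (-(qsq u s q) / 2)
    nlinarith
  have e1 : ∀ x, Γr (Sx u x) (fun j => rho (xp u x j)) =
      ENNReal.ofReal (r * (bdrelH u x * Real.exp (-(r ^ 2 * bdrelQ u x) / 2))) := by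
    intro x
    simp only [hΓr, hΓ]
    rw [bdrel_qsq_scale]
    have h1 : ∑ j, |r * rho (xp u x j)| = r * bdrelH u x := by
      unfold bdrelH
      rw [Finset.mul_sum]
      exact Finset.sum_congr rfl fun j _ => by rw [abs_mul, abs_of_pos hr]
    rw [h1, mul_assoc]
    rfl
  have e2 : ∫⁻ x, ENNReal.ofReal (r * (bdrelH u x * Real.exp (-(r ^ 2 * bdrelQ u x) / 2))) =
      ∑ k ∈ Finset.range (n + 1), CK u k Γr := by
    rw [← CK_sum u hu0 hpos Γr hΓrm]
    exact lintegral_congr fun x => (e1 x).symm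
  have e3 : ∀ k ∈ Finset.range (n + 1),
      CK u k Γr = ENNReal.ofReal ((r ^ (n + 1 - k))⁻¹ * DD u k) := by
    intro k hk
    have hk' : k ≤ n := Nat.lt_succ_iff.1 (Finset.mem_range.1 hk)
    have h1 := CK_scale u k hk' hr Γ hΓm
    have h2 : CK u k Γ = ENNReal.ofReal (DD u k) := by
      unfold DD
      rw [ENNReal.ofReal_toReal (hfin k).ne]
    have h3 : 0 < r ^ (n + 1 - k) := by positivity
    rw [ENNReal.ofReal_mul (by positivity), ← h2, ← h1, ← mul_assoc,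
      ← ENNReal.ofReal_mul (by positivity), inv_mul_cancel₀ h3.ne', ENNReal.ofReal_one, one_mul]
  have hD0 : ∀ k, 0 ≤ DD u k := fun k => ENNReal.toReal_nonneg
  have e4 : ∫⁻ x, ENNReal.ofReal (r * (bdrelH u x * Real.exp (-(r ^ 2 * bdrelQ u x) / 2))) =
      ENNReal.ofReal (∑ k ∈ Finset.range (n + 1), (r ^ (n + 1 - k))⁻¹ * DD u k) := by
    rw [e2, Finset.sum_congr rfl e3, ENNReal.ofReal_sum_of_nonneg]
    intro k _
    have := hD0 k
    positivity
  have hm : AEStronglyMeasurable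
      (fun x => r * (bdrelH u x * Real.exp (-(r ^ 2 * bdrelQ u x) / 2))) volume :=
    (((bdrel_meas_H hu0 hpos).mul (Real.measurable_exp.comp
      (((bdrel_meas_Q hu0 hpos).const_mul _).neg.div_const 2))).const_mul r).aestronglyMeasurable
  have h0 : 0 ≤ ∑ k ∈ Finset.range (n + 1), (r ^ (n + 1 - k))⁻¹ * DD u k :=
    Finset.sum_nonneg fun k _ => by
      have := hD0 k
      positivity
  have hnn : ∀ x, 0 ≤ r * (bdrelH u x * Real.exp (-(r ^ 2 * bdrelQ u x) / 2)) := fun x =>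
    mul_nonneg hr.le (mul_nonneg (bdrel_H_nonneg u x) (Real.exp_pos _).le)
  have hi : Integrable (fun x => r * (bdrelH u x * Real.exp (-(r ^ 2 * bdrelQ u x) / 2))) := by
    refine ⟨hm, ?_⟩
    rw [hasFiniteIntegral_iff_ofReal (ae_of_all _ hnn), e4]
    exact ENNReal.ofReal_lt_top
  have hi' : Integrable (fun x => bdrelH u x * Real.exp (-(r ^ 2 * bdrelQ u x) / 2)) := by
    have h1 := hi.const_mul r⁻¹
    refine h1.congr (ae_of_all _ fun x => ?_)
    simp only
    rw [← mul_assoc, inv_mul_cancel₀ hr.ne', one_mul]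
  refine ⟨hi', ?_⟩
  rw [← integral_const_mul,
    integral_eq_lintegral_of_nonneg_ae (ae_of_all _ hnn) hm, e4, ENNReal.toReal_ofReal h0]

/-- the integrated inequality. -/
private lemma bdrel_int (hu0 : ∀ i, 0 ≤ u i) (hu : ∑ i, u i ^ 2 = 1) {r l : ℝ} (hr : 0 < r)
    (hl : 0 < l) :
    (∑ k ∈ Finset.range (n + 1), (r ^ (n + 1 - k))⁻¹ * BB u k) +
        (l - 1) * (r * ∑ k ∈ Finset.range (n + 1), (r ^ (n + 1 - k))⁻¹ * DD u k) -
        (l - 1) ^ 2 * (r ^ 2 * ((n : ℝ) + 1) / 2 *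
          ∑ k ∈ Finset.range (n + 1), (r ^ (n + 1 - k))⁻¹ * BB u k) ≤
      ∑ k ∈ Finset.range (n + 1), (r ^ (n + 1 - k))⁻¹ * BB u k * l ^ k := by
  have hpos := bdrel_pos hu0 hu
  obtain ⟨iA, eA⟩ := bdrel_A hu0 hu hr
  obtain ⟨iB, eB⟩ := bdrel_B hu0 hu hr
  obtain ⟨iL, eL⟩ := bdrel_A hu0 hu (mul_pos hr hl)
  -- the left side of the change of variables
  set F : (Fin (n + 1) → ℝ) → ℝ := fun x => Real.exp (-((r * l) ^ 2 * bdrelQ u x) / 2) with hF
  have iL' : Integrable (fun x => F (l⁻¹ • x)) := iL.comp_smul (inv_ne_zero hl.ne')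
  have eL' : ∫ x, F (l⁻¹ • x) = l ^ (n + 1) * ∫ x, F x := by
    have h1 := Measure.integral_comp_inv_smul_of_nonneg (volume : Measure (Fin (n + 1) → ℝ)) F
      hl.le
    rw [h1, Module.finrank_fin_fun, smul_eq_mul]
  have hpt : ∀ x, Real.exp (-(r ^ 2 * bdrelQ u x) / 2) +
      (l - 1) * (r ^ 2 * (bdrelH u x * Real.exp (-(r ^ 2 * bdrelQ u x) / 2))) -
      (l - 1) ^ 2 * (r ^ 2 * ((n : ℝ) + 1) / 2 * Real.exp (-(r ^ 2 * bdrelQ u x) / 2)) ≤
        F (l⁻¹ • x) := by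
    intro x
    have h1 := bdrel_pt hu0 hpos hl x
    set a := -(r ^ 2 * bdrelQ u x) / 2 with ha
    set t := r ^ 2 * (l - 1) * bdrelH u x - r ^ 2 * (l - 1) ^ 2 * ((n : ℝ) + 1) / 2 with ht
    have h2 : a + t ≤ -((r * l) ^ 2 * bdrelQ u (l⁻¹ • x)) / 2 := by
      have h3 : (r * l) ^ 2 * bdrelQ u (l⁻¹ • x) = r ^ 2 * (l ^ 2 * bdrelQ u (l⁻¹ • x)) := by ring
      rw [h3]
      have h4 := mul_le_mul_of_nonneg_left h1 (sq_nonneg r)
      rw [ha, ht]
      nlinarith
    have h5 : Real.exp a * (t + 1) ≤ Real.exp (a + t) := by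
      rw [Real.exp_add]
      exact mul_le_mul_of_nonneg_left (Real.add_one_le_exp t) (Real.exp_pos a).le
    have h6 : Real.exp (a + t) ≤ F (l⁻¹ • x) := Real.exp_le_exp.2 h2
    have h7 : Real.exp a + (l - 1) * (r ^ 2 * (bdrelH u x * Real.exp a)) -
        (l - 1) ^ 2 * (r ^ 2 * ((n : ℝ) + 1) / 2 * Real.exp a) = Real.exp a * (t + 1) := by
      rw [ht]; ring
    rw [h7]
    exact h5.trans h6
  have i1 : Integrable (fun x => (l - 1) *
      (r ^ 2 * (bdrelH u x * Real.exp (-(r ^ 2 * bdrelQ u x) / 2)))) :=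
    (iB.const_mul (r ^ 2)).const_mul (l - 1)
  have i2 : Integrable (fun x => (l - 1) ^ 2 * (r ^ 2 * ((n : ℝ) + 1) / 2 *
      Real.exp (-(r ^ 2 * bdrelQ u x) / 2))) :=
    (iA.const_mul (r ^ 2 * ((n : ℝ) + 1) / 2)).const_mul ((l - 1) ^ 2)
  have i3 : Integrable (fun x => Real.exp (-(r ^ 2 * bdrelQ u x) / 2) +
      (l - 1) * (r ^ 2 * (bdrelH u x * Real.exp (-(r ^ 2 * bdrelQ u x) / 2)))) := iA.add i1
  have h1 := integral_mono (i3.sub i2) iL' hpt
  have h2 : ∫ x, (Real.exp (-(r ^ 2 * bdrelQ u x) / 2) +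
      (l - 1) * (r ^ 2 * (bdrelH u x * Real.exp (-(r ^ 2 * bdrelQ u x) / 2))) -
      (l - 1) ^ 2 * (r ^ 2 * ((n : ℝ) + 1) / 2 * Real.exp (-(r ^ 2 * bdrelQ u x) / 2))) =
      (∫ x, Real.exp (-(r ^ 2 * bdrelQ u x) / 2)) +
      (l - 1) * (r ^ 2 * ∫ x, bdrelH u x * Real.exp (-(r ^ 2 * bdrelQ u x) / 2)) -
      (l - 1) ^ 2 * (r ^ 2 * ((n : ℝ) + 1) / 2 *
        ∫ x, Real.exp (-(r ^ 2 * bdrelQ u x) / 2)) := by
    rw [integral_sub i3 i2, integral_add iA i1, integral_const_mul, integral_const_mul,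
      integral_const_mul, integral_const_mul]
  have h3 : ∫ x, F (l⁻¹ • x) =
      ∑ k ∈ Finset.range (n + 1), (r ^ (n + 1 - k))⁻¹ * BB u k * l ^ k := by
    rw [eL', eL, Finset.mul_sum]
    refine Finset.sum_congr rfl fun k hk => ?_
    have hk' : k ≤ n := Nat.lt_succ_iff.1 (Finset.mem_range.1 hk)
    have h4 : l ^ (n + 1) = l ^ k * l ^ (n + 1 - k) := by
      rw [← pow_add]; congr 1; omega
    rw [h4, mul_pow]
    have h5 : l ^ (n + 1 - k) ≠ 0 := by positivity
    have h6 : r ^ (n + 1 - k) ≠ 0 := by positivity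
    field_simp
  have h4 : r ^ 2 * ∫ x, bdrelH u x * Real.exp (-(r ^ 2 * bdrelQ u x) / 2) =
      r * ∑ k ∈ Finset.range (n + 1), (r ^ (n + 1 - k))⁻¹ * DD u k := by
    rw [← eB]; ring
  rw [← h3, ← h4, ← eA, ← h2]
  exact h1

/-- the identity for all scales. -/
private lemma bdrel_id (hu0 : ∀ i, 0 ≤ u i) (hu : ∑ i, u i ^ 2 = 1) {r : ℝ} (hr : 0 < r) :
    ∑ k ∈ Finset.range (n + 1), (r ^ (n + 1 - k))⁻¹ * BB u k * k =
      r * ∑ k ∈ Finset.range (n + 1), (r ^ (n + 1 - k))⁻¹ * DD u k := by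
  set A := ∑ k ∈ Finset.range (n + 1), (r ^ (n + 1 - k))⁻¹ * BB u k with hA
  set D := r * ∑ k ∈ Finset.range (n + 1), (r ^ (n + 1 - k))⁻¹ * DD u k with hD
  set C := r ^ 2 * ((n : ℝ) + 1) / 2 * A with hC
  set P : ℝ → ℝ := fun l =>
    ∑ k ∈ Finset.range (n + 1), (r ^ (n + 1 - k))⁻¹ * BB u k * l ^ k with hP
  set g : ℝ → ℝ := fun l => P l - (l - 1) * D + (l - 1) ^ 2 * C with hg
  have hPd : HasDerivAt P (∑ k ∈ Finset.range (n + 1), (r ^ (n + 1 - k))⁻¹ * BB u k * k) 1 := by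
    have h1 : ∀ k ∈ Finset.range (n + 1), HasDerivAt
        (fun l : ℝ => (r ^ (n + 1 - k))⁻¹ * BB u k * l ^ k)
        ((r ^ (n + 1 - k))⁻¹ * BB u k * k) 1 := by
      intro k _
      have h2 := (hasDerivAt_pow k (1 : ℝ)).const_mul ((r ^ (n + 1 - k))⁻¹ * BB u k)
      simpa using h2
    exact HasDerivAt.fun_sum h1
  have hgd : HasDerivAt g
      ((∑ k ∈ Finset.range (n + 1), (r ^ (n + 1 - k))⁻¹ * BB u k * k) - D) 1 := by
    have h1 : HasDerivAt (fun l : ℝ => (l - 1) * D) D 1 := by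
      simpa using ((hasDerivAt_id (1 : ℝ)).sub_const 1).mul_const D
    have h2 : HasDerivAt (fun l : ℝ => (l - 1) ^ 2 * C) 0 1 := by
      have h3 := (((hasDerivAt_id (1 : ℝ)).sub_const 1).pow 2).mul_const C
      simpa using h3
    have h4 : HasDerivAt g
        ((∑ k ∈ Finset.range (n + 1), (r ^ (n + 1 - k))⁻¹ * BB u k * k) - D + 0) 1 :=
      (hPd.sub h1).add h2
    rwa [add_zero] at h4
  have hmin : IsLocalMin g 1 := by
    have h1 : ∀ᶠ l in 𝓝 (1 : ℝ), 0 < l := lt_mem_nhds (by norm_num)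
    filter_upwards [h1] with l hl
    have h2 : A + (l - 1) * D - (l - 1) ^ 2 * C ≤ P l := bdrel_int hu0 hu hr hl
    have h3 : g 1 = A := by
      simp only [hg, hP, hA]
      simp
    rw [h3]
    show A ≤ P l - (l - 1) * D + (l - 1) ^ 2 * C
    linarith
  have := hmin.hasDerivAt_eq_zero hgd
  linarith

end

theorem BB_DD {n : ℕ} (u : Fin (n + 1) → ℝ) (hu0 : ∀ i, 0 ≤ u i) (hu : ∑ i, u i ^ 2 = 1)
    (k : ℕ) (hk : k < n) : ((k : ℝ) + 1) * BB u (k + 1) = DD u k := by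
  set p : Polynomial ℝ := ∑ j ∈ Finset.range (n + 1),
    Polynomial.C (BB u j * j) * Polynomial.X ^ j with hp
  set q : Polynomial ℝ := ∑ j ∈ Finset.range (n + 1),
    Polynomial.C (DD u j) * Polynomial.X ^ (j + 1) with hq
  have hev : ∀ r : ℝ, 0 < r → p.eval r = q.eval r := by
    intro r hr
    have h1 := bdrel_id hu0 hu hr
    have h2 : p.eval r = r ^ (n + 1) *
        ∑ j ∈ Finset.range (n + 1), (r ^ (n + 1 - j))⁻¹ * BB u j * j := by
      rw [hp, Polynomial.eval_finset_sum, Finset.mul_sum]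
      refine Finset.sum_congr rfl fun j hj => ?_
      have hj' : j ≤ n := Nat.lt_succ_iff.1 (Finset.mem_range.1 hj)
      have h4 : r ^ (n + 1) = r ^ j * r ^ (n + 1 - j) := by
        rw [← pow_add]; congr 1; omega
      have h5 : r ^ (n + 1 - j) ≠ 0 := by positivity
      rw [h4]
      simp only [Polynomial.eval_mul, Polynomial.eval_C, Polynomial.eval_pow, Polynomial.eval_X]
      field_simp
    have h3 : q.eval r = r ^ (n + 1) *
        (r * ∑ j ∈ Finset.range (n + 1), (r ^ (n + 1 - j))⁻¹ * DD u j) := by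
      rw [hq, Polynomial.eval_finset_sum, Finset.mul_sum, Finset.mul_sum]
      refine Finset.sum_congr rfl fun j hj => ?_
      have hj' : j ≤ n := Nat.lt_succ_iff.1 (Finset.mem_range.1 hj)
      have h4 : r ^ (n + 1) = r ^ j * r ^ (n + 1 - j) := by
        rw [← pow_add]; congr 1; omega
      have h5 : r ^ (n + 1 - j) ≠ 0 := by positivity
      rw [h4]
      simp only [Polynomial.eval_mul, Polynomial.eval_C, Polynomial.eval_pow, Polynomial.eval_X]
      field_simp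
      ring
    rw [h2, h3, h1]
  have hpq : p = q := by
    refine Polynomial.eq_of_infinite_eval_eq p q ?_
    refine Set.Infinite.mono (s := Ioi (0 : ℝ)) (fun r hr => hev r hr) ?_
    exact Set.Ioi_infinite 0
  have h1 : p.coeff (k + 1) = BB u (k + 1) * ((k + 1 : ℕ) : ℝ) := by
    rw [hp, Polynomial.finsetSum_coeff]
    simp only [Polynomial.coeff_C_mul, Polynomial.coeff_X_pow]
    rw [Finset.sum_eq_single (k + 1)]
    · simp
    · intro b _ hb
      rw [if_neg (by omega)]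
      ring
    · intro h
      exact absurd (Finset.mem_range.2 (by omega)) h
  have h2 : q.coeff (k + 1) = DD u k := by
    rw [hq, Polynomial.finsetSum_coeff]
    simp only [Polynomial.coeff_C_mul, Polynomial.coeff_X_pow]
    rw [Finset.sum_eq_single k]
    · simp
    · intro b _ hb
      rw [if_neg (by omega)]
      ring
    · intro h
      exact absurd (Finset.mem_range.2 (by omega)) h
  rw [hpq, h2] at h1
  rw [h1]
  push_cast
  ring

end Pool.Agent.CubeWidth
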