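import Pool.Agent.Lib.MP_e8b094_gt.EBasic

/-!
The integrals of `qq` and of `TT` over `(0, infinity)`.
-/

namespace Pool.Agent.CubeWidth

open MeasureTheory Real Set Filter Topology

lemma cint_hasDerivAt_exp (x : ℝ) :
    HasDerivAt (fun y : ℝ => Real.exp (-y ^ 2 / 2)) (-x * Real.exp (-x ^ 2 / 2)) x := by
  have h1 : HasDerivAt (fun y : ℝ => -y ^ 2 / 2) (-x) x := by
    exact (((hasDerivAt_pow 2 x).neg).div_const 2).congr_deriv (by simp; ring)
  exact h1.exp.congr_deriv (by ring)

lemma cint_hasDerivAt_qq (x : ℝ) : HasDerivAt qq (-(cc / 2 * Real.exp (-x ^ 2 / 2))) x := by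
  unfold qq
  exact (((hasDerivAt_mm x).const_sub 1).div_const 2).congr_deriv (by ring)

lemma cint_continuous_qq : Continuous qq :=
  continuous_iff_continuousAt.2 fun x => (cint_hasDerivAt_qq x).continuousAt

lemma cint_qq_pos (x : ℝ) : 0 < qq x := by
  unfold qq
  have := mm_lt_one x
  linarith

lemma cint_qq_le_one (x : ℝ) : qq x ≤ 1 := by
  unfold qq
  have := neg_one_lt_mm x
  linarith

lemma cint_qq_le {x : ℝ} (hx : 0 ≤ x) : qq x ≤ Real.exp (-x ^ 2 / 2) := by
  have h := one_sub_mm_le hx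
  have h2 := Real.exp_pos (-x ^ 2 / 2)
  unfold qq
  linarith

lemma cint_tendsto_exp : Tendsto (fun t : ℝ => Real.exp (-t ^ 2 / 2)) atTop (𝓝 0) := by
  have h3 : Tendsto (fun t : ℝ => -t ^ 2 / 2) atTop atBot := by
    have h4 : Tendsto (fun t : ℝ => t ^ 2) atTop atTop := tendsto_pow_atTop (by norm_num)
    have h5 := tendsto_neg_atTop_atBot.comp (h4.atTop_div_const (by norm_num : (0:ℝ) < 2))
    refine h5.congr fun t => ?_
    simp only [Function.comp]; ring
  exact Real.tendsto_exp_atBot.comp h3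

lemma cint_tendsto_mul_qq : Tendsto (fun t : ℝ => t * qq t) atTop (𝓝 0) := by
  have h1 : Tendsto (fun t : ℝ => cc / 2 * Real.exp (-t ^ 2 / 2)) atTop (𝓝 0) := by
    simpa using cint_tendsto_exp.const_mul (cc / 2)
  refine tendsto_of_tendsto_of_tendsto_of_le_of_le' tendsto_const_nhds h1 ?_ ?_
  · filter_upwards [eventually_ge_atTop (0 : ℝ)] with t ht
    exact mul_nonneg ht (cint_qq_pos t).le
  · filter_upwards with t
    have := mul_one_sub_mm_le t
    unfold qq
    linarith

lemma cint_integrable_exp : Integrable (fun t : ℝ => Real.exp (-t ^ 2 / 2)) := by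
  have h := integrable_exp_neg_mul_sq (b := 1 / 2) (by norm_num)
  have h2 : (fun t : ℝ => Real.exp (-t ^ 2 / 2)) = fun t => Real.exp (-(1 / 2) * t ^ 2) := by
    ext t; congr 1; ring
  rw [h2]
  exact h

theorem integrable_qq : IntegrableOn qq (Ioi 0) := by
  refine Integrable.mono' (cint_integrable_exp.integrableOn (s := Ioi 0))
    cint_continuous_qq.aestronglyMeasurable ?_
  refine (ae_restrict_mem measurableSet_Ioi).mono fun x hx => ?_
  rw [Real.norm_of_nonneg (cint_qq_pos x).le]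
  exact cint_qq_le (le_of_lt hx)

theorem integral_qq : ∫ s in Ioi (0 : ℝ), qq s = cc / 2 := by
  have hd : ∀ t ∈ Ici (0 : ℝ), HasDerivAt (fun t : ℝ => t * qq t - cc / 2 * Real.exp (-t ^ 2 / 2))
      (qq t) t := by
    intro t _
    exact (((hasDerivAt_id t).mul (cint_hasDerivAt_qq t)).sub
      ((cint_hasDerivAt_exp t).const_mul (cc / 2))).congr_deriv (by simp only [id]; ring)
  have hl : Tendsto (fun t : ℝ => t * qq t - cc / 2 * Real.exp (-t ^ 2 / 2)) atTop (𝓝 0) := by
    have := cint_tendsto_mul_qq.sub (cint_tendsto_exp.const_mul (cc / 2))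
    simpa using this
  rw [integral_Ioi_of_hasDerivAt_of_tendsto' hd integrable_qq hl]
  simp

lemma cint_TT_nonneg (s : ℝ) : 0 ≤ TT s := by
  unfold TT; positivity

lemma cint_continuous_TT : Continuous TT := by
  unfold TT
  have h := cint_continuous_qq
  exact continuous_const.mul ((h.comp (continuous_id.div_const _)).pow 2)

theorem integrable_TT : IntegrableOn TT (Ioi 0) := by
  have h1 : Integrable (fun t : ℝ => √2 * Real.exp (-(1 / 2) * t ^ 2)) :=
    (integrable_exp_neg_mul_sq (b := 1 / 2) (by norm_num)).const_mul _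
  refine Integrable.mono' (h1.integrableOn (s := Ioi 0))
    cint_continuous_TT.aestronglyMeasurable ?_
  refine (ae_restrict_mem measurableSet_Ioi).mono fun x hx => ?_
  rw [Real.norm_of_nonneg (cint_TT_nonneg x)]
  unfold TT
  have hx' : 0 ≤ x / √2 := div_nonneg (le_of_lt hx) (by positivity)
  have h2 := cint_qq_le hx'
  have h3 := (cint_qq_pos (x / √2)).le
  have h4 : qq (x / √2) ^ 2 ≤ Real.exp (-(x / √2) ^ 2 / 2) ^ 2 := by gcongr
  have h5 : Real.exp (-(x / √2) ^ 2 / 2) ^ 2 = Real.exp (-(1 / 2) * x ^ 2) := by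
    rw [← Real.exp_nat_mul]
    congr 1
    rw [div_pow, Real.sq_sqrt (by norm_num)]
    push_cast
    ring
  rw [h5] at h4
  gcongr

theorem integral_TT : ∫ s in Ioi (0 : ℝ), TT s = (2 - √2) / √(2 * π) := by
  have h2 : √2 * √2 = 2 := Real.mul_self_sqrt (by norm_num)
  have h2p : 0 < √2 := by positivity
  -- the derivative of `G y = y Q^2 - c e^{-y^2/2} Q`
  have hG : ∀ y : ℝ, HasDerivAt (fun y : ℝ => y * qq y ^ 2 - cc * Real.exp (-y ^ 2 / 2) * qq y)
      (qq y ^ 2 + cc ^ 2 / 2 * (Real.exp (-y ^ 2 / 2) * Real.exp (-y ^ 2 / 2))) y := by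
    intro y
    exact (((hasDerivAt_id y).mul ((cint_hasDerivAt_qq y).pow 2)).sub
      (((cint_hasDerivAt_exp y).const_mul cc).mul (cint_hasDerivAt_qq y))).congr_deriv
      (by simp; ring)
  have hd : ∀ t ∈ Ici (0 : ℝ), HasDerivAt (fun t : ℝ =>
      2 * ((t / √2) * qq (t / √2) ^ 2 - cc * Real.exp (-(t / √2) ^ 2 / 2) * qq (t / √2))
        - cc / √2 * mm t) (TT t) t := by
    intro t _
    have h1 : HasDerivAt (fun t : ℝ => t / √2) (1 / √2) t := (hasDerivAt_id t).div_const _
    have h3 := (((hG (t / √2)).comp t h1).const_mul 2).sub ((hasDerivAt_mm t).const_mul (cc / √2))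
    refine h3.congr_deriv ?_
    have h5 : Real.exp (-(t / √2) ^ 2 / 2) * Real.exp (-(t / √2) ^ 2 / 2) =
        Real.exp (-t ^ 2 / 2) := by
      rw [← Real.exp_add]
      congr 1
      rw [div_pow, Real.sq_sqrt (by norm_num)]
      ring
    rw [h5]
    unfold TT
    have h6 : (2 : ℝ) / √2 = √2 := by rw [div_eq_iff h2p.ne', h2]
    have h7 : 2 * ((qq (t / √2) ^ 2 + cc ^ 2 / 2 * Real.exp (-t ^ 2 / 2)) * (1 / √2)) -
        cc / √2 * (cc * Real.exp (-t ^ 2 / 2)) = (2 / √2) * qq (t / √2) ^ 2 := by ring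
    rw [h7, h6]
  have hto : Tendsto (fun t : ℝ => t / √2) atTop atTop := tendsto_id.atTop_div_const h2p
  have hl1 : Tendsto (fun y : ℝ => y * qq y ^ 2) atTop (𝓝 0) := by
    refine tendsto_of_tendsto_of_tendsto_of_le_of_le' tendsto_const_nhds cint_tendsto_mul_qq ?_ ?_
    · filter_upwards [eventually_ge_atTop (0 : ℝ)] with t ht
      exact mul_nonneg ht (sq_nonneg _)
    · filter_upwards [eventually_ge_atTop (0 : ℝ)] with t ht
      have h1 := cint_qq_pos t
      have h2 := cint_qq_le_one t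
      have h3 : qq t ^ 2 ≤ qq t := by nlinarith
      exact mul_le_mul_of_nonneg_left h3 ht
  have hl2 : Tendsto (fun y : ℝ => cc * Real.exp (-y ^ 2 / 2) * qq y) atTop (𝓝 0) := by
    have h1 : Tendsto (fun y : ℝ => cc * Real.exp (-y ^ 2 / 2)) atTop (𝓝 0) := by
      simpa using cint_tendsto_exp.const_mul cc
    refine tendsto_of_tendsto_of_tendsto_of_le_of_le tendsto_const_nhds h1 ?_ ?_
    · intro t
      have h1 := cint_qq_pos t
      have h2 := cc_pos
      have h3 := Real.exp_pos (-t ^ 2 / 2)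
      exact mul_nonneg (mul_nonneg h2.le h3.le) h1.le
    · intro t
      have h1 := cint_qq_le_one t
      have h2 := cc_pos
      have h3 := Real.exp_pos (-t ^ 2 / 2)
      exact mul_le_of_le_one_right (mul_nonneg h2.le h3.le) h1
  have hl : Tendsto (fun t : ℝ =>
      2 * ((t / √2) * qq (t / √2) ^ 2 - cc * Real.exp (-(t / √2) ^ 2 / 2) * qq (t / √2))
        - cc / √2 * mm t) atTop (𝓝 (-(cc / √2))) := by
    have h1 := (((hl1.sub hl2).comp hto).const_mul 2).sub (tendsto_mm_atTop.const_mul (cc / √2))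
    simpa using h1
  rw [integral_Ioi_of_hasDerivAt_of_tendsto' hd integrable_TT hl]
  have h0 : qq 0 = 1 / 2 := by unfold qq; simp
  simp only [zero_div, zero_mul, mm_zero, mul_zero, sub_zero, h0, ne_eq, OfNat.ofNat_ne_zero,
    not_false_eq_true, zero_pow, neg_zero, Real.exp_zero, mul_one]
  have hs : 0 < √(2 * π) := by positivity
  have hc : cc = 2 / √(2 * π) := by rw [eq_div_iff hs.ne', cc_mul_sqrt]
  rw [hc]
  field_simp
  nlinarith

end Pool.Agent.CubeWidth
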