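import Pool.Agent.Lib.MP_e8b094_gt.Defs2

/-!
# MP_e8b094_gt, piece P9 : lower bound for a product of hyperbolic cosines (helper41)
-/

namespace Pool.Agent.CubeWidth

open MeasureTheory Real Set Filter Topology

lemma coshprod_hasDerivAt_tanh (y : ℝ) : HasDerivAt Real.tanh (1 / Real.cosh y ^ 2) y := by
  have hc := Real.cosh_pos y
  have h := (Real.hasDerivAt_sinh y).div (Real.hasDerivAt_cosh y) hc.ne'
  have h2 : Real.tanh = fun y => Real.sinh y / Real.cosh y := by
    funext z; exact Real.tanh_eq_sinh_div_cosh z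
  have h3 : HasDerivAt (fun y => Real.sinh y / Real.cosh y)
      ((Real.cosh y * Real.cosh y - Real.sinh y * Real.sinh y) / Real.cosh y ^ 2) y := h
  rw [h2]
  refine h3.congr_deriv ?_
  have h4 := Real.cosh_sq_sub_sinh_sq y
  congr 1
  nlinarith

lemma coshprod_hasDerivAt_log_cosh (y : ℝ) :
    HasDerivAt (fun y => Real.log (Real.cosh y)) (Real.tanh y) y := by
  have hc := Real.cosh_pos y
  have h := (Real.hasDerivAt_cosh y).log hc.ne'
  rw [Real.tanh_eq_sinh_div_cosh]
  exact h

lemma coshprod_tanh_lt {y : ℝ} (hy : 0 < y) :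
    y * Real.tanh y < 2 * Real.log (Real.cosh y) := by
  let g : ℝ → ℝ := fun y => 2 * Real.log (Real.cosh y) - y * Real.tanh y
  have hg : ∀ y, HasDerivAt g (Real.tanh y - y / Real.cosh y ^ 2) y := by
    intro y
    have h := ((coshprod_hasDerivAt_log_cosh y).const_mul 2).sub
      ((hasDerivAt_id y).mul (coshprod_hasDerivAt_tanh y))
    refine h.congr_deriv ?_
    simp only [id]
    ring
  have hcont : Continuous g := continuous_iff_continuousAt.2 fun x => (hg x).continuousAt
  have hm : StrictMonoOn g (Ici 0) := by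
    apply strictMonoOn_of_deriv_pos (convex_Ici 0) hcont.continuousOn
    intro z hz
    rw [interior_Ici] at hz
    have hz' : 0 < z := hz
    rw [(hg z).deriv, Real.tanh_eq_sinh_div_cosh]
    have hc := Real.cosh_pos z
    have hc1 : 1 < Real.cosh z := Real.one_lt_cosh.2 hz'.ne'
    have hs : z < Real.sinh z := Real.self_lt_sinh_iff.2 hz'
    have h1 : Real.sinh z / Real.cosh z - z / Real.cosh z ^ 2
        = (Real.sinh z * Real.cosh z - z) / Real.cosh z ^ 2 := by
      field_simp
    rw [h1]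
    apply div_pos _ (by positivity)
    nlinarith
  have h := hm (mem_Ici.2 le_rfl) (mem_Ici.2 hy.le) hy
  have h0 : g 0 = 0 := by simp [g]
  rw [h0] at h
  simp only [g] at h
  linarith

/-- `log cosh y / y^2` is strictly decreasing on the positive half line -/
lemma coshprod_strictAnti :
    StrictAntiOn (fun y : ℝ => Real.log (Real.cosh y) / y ^ 2) (Ioi 0) := by
  have hd : ∀ y ∈ Ioi (0 : ℝ), HasDerivAt (fun y : ℝ => Real.log (Real.cosh y) / y ^ 2)
      ((Real.tanh y * y ^ 2 - Real.log (Real.cosh y) * (2 * y)) / (y ^ 2) ^ 2) y := by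
    intro y hy
    have hy' : 0 < y := hy
    have h := (coshprod_hasDerivAt_log_cosh y).div (hasDerivAt_pow 2 y) (by positivity)
    refine h.congr_deriv ?_
    simp
  apply strictAntiOn_of_deriv_neg (convex_Ioi 0)
  · intro y hy
    exact (hd y hy).continuousAt.continuousWithinAt
  · intro y hy
    rw [interior_Ioi] at hy
    have hy' : 0 < y := hy
    rw [(hd y hy).deriv]
    apply div_neg_of_neg_of_pos _ (by positivity)
    have h := coshprod_tanh_lt hy'
    have h1 : Real.tanh y * y ^ 2 - Real.log (Real.cosh y) * (2 * y) =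
        y * (y * Real.tanh y - 2 * Real.log (Real.cosh y)) := by ring
    rw [h1]
    exact mul_neg_of_pos_of_neg hy' (by linarith)

lemma coshprod_scale {θ y : ℝ} (h0 : 0 ≤ θ) (h1 : θ ≤ 1) (hy : 0 ≤ y) :
    θ ^ 2 * Real.log (Real.cosh y) ≤ Real.log (Real.cosh (θ * y)) := by
  rcases h0.eq_or_lt with h0 | h0
  · subst h0; simp
  rcases hy.eq_or_lt with hy | hy
  · subst hy; simp
  have h2 : 0 < θ * y := mul_pos h0 hy
  have h3 : θ * y ≤ y := by nlinarith
  have h4 := coshprod_strictAnti.antitoneOn (mem_Ioi.2 h2) (mem_Ioi.2 hy) h3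
  rw [div_le_div_iff₀ (by positivity) (by positivity)] at h4
  have h5 : y ^ 2 * (θ ^ 2 * Real.log (Real.cosh y)) ≤ y ^ 2 * Real.log (Real.cosh (θ * y)) := by
    calc _ = Real.log (Real.cosh y) * (θ * y) ^ 2 := by ring
      _ ≤ Real.log (Real.cosh (θ * y)) * y ^ 2 := h4
      _ = _ := by ring
  exact le_of_mul_le_mul_left h5 (by positivity)

theorem prod_cosh_ge {n : ℕ} (u : Fin n → ℝ) (hu0 : ∀ i, 0 ≤ u i) (hu : ∑ i, u i ^ 2 = 1)
    {a : ℝ} (ha : 0 < a) (hua : ∀ i, u i ≤ a) {t : ℝ} (ht : 0 ≤ t) :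
    Real.cosh (a * t) ^ (1 / a ^ 2) ≤ ∏ i, Real.cosh (t * u i) := by
  have h1 : ∀ i, 1 / a ^ 2 * Real.log (Real.cosh (a * t)) * u i ^ 2 ≤
      Real.log (Real.cosh (t * u i)) := by
    intro i
    have h := coshprod_scale (θ := u i / a) (y := a * t) (div_nonneg (hu0 i) ha.le)
      ((div_le_one ha).2 (hua i)) (by positivity)
    have h2 : u i / a * (a * t) = t * u i := by field_simp
    rw [h2] at h
    calc _ = (u i / a) ^ 2 * Real.log (Real.cosh (a * t)) := by field_simp
      _ ≤ _ := h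
  have h2 : 1 / a ^ 2 * Real.log (Real.cosh (a * t)) ≤
      Real.log (∏ i, Real.cosh (t * u i)) := by
    rw [Real.log_prod (fun i _ => (Real.cosh_pos _).ne')]
    calc _ = ∑ i, 1 / a ^ 2 * Real.log (Real.cosh (a * t)) * u i ^ 2 := by
          rw [← Finset.mul_sum, hu, mul_one]
      _ ≤ _ := Finset.sum_le_sum fun i _ => h1 i
  have hp : 0 < ∏ i, Real.cosh (t * u i) := Finset.prod_pos fun i _ => Real.cosh_pos _
  rw [← Real.log_le_log_iff (Real.rpow_pos_of_pos (Real.cosh_pos _) _) hp,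
    Real.log_rpow (Real.cosh_pos _)]
  exact h2

end Pool.Agent.CubeWidth
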