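import Pool.Agent.Lib.MP_e8b094_gt.Defs

namespace Pool.Agent.CubeWidth

open MeasureTheory Real Set Filter Topology

lemma cc_pos : 0 < cc := by
  unfold cc; positivity

lemma cc_sq : cc ^ 2 = 2 / π := by
  unfold cc; rw [Real.sq_sqrt]; positivity

lemma cc_lt_one : cc < 1 := by
  have h := cc_sq
  have hp := Real.pi_gt_three
  have : cc ^ 2 < 1 := by
    rw [h, div_lt_one (by positivity)]; linarith
  nlinarith [cc_pos]

lemma cc_mul_sqrt : cc * √(2 * π) = 2 := by
  unfold cc
  rw [← Real.sqrt_mul (by positivity)]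
  have : 2 / π * (2 * π) = 2 ^ 2 := by field_simp
  rw [this, Real.sqrt_sq (by norm_num)]

lemma continuous_dens : Continuous (fun t : ℝ => cc * Real.exp (-t ^ 2 / 2)) := by
  fun_prop

lemma hasDerivAt_mm (x : ℝ) : HasDerivAt mm (cc * Real.exp (-x ^ 2 / 2)) x := by
  unfold mm
  exact intervalIntegral.integral_hasDerivAt_right
    (continuous_dens.intervalIntegrable _ _)
    continuous_dens.stronglyMeasurable.stronglyMeasurableAtFilter
    continuous_dens.continuousAt

lemma continuous_mm : Continuous mm :=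
  continuous_iff_continuousAt.2 fun x => (hasDerivAt_mm x).continuousAt

lemma differentiable_mm : Differentiable ℝ mm := fun x => (hasDerivAt_mm x).differentiableAt

@[simp] lemma mm_zero : mm 0 = 0 := by simp [mm]

lemma mm_neg (x : ℝ) : mm (-x) = - mm x := by
  unfold mm
  have h := intervalIntegral.integral_comp_neg (a := 0) (b := x)
    (f := fun t : ℝ => cc * Real.exp (-t ^ 2 / 2))
  simp only [neg_zero] at h
  have h2 : ∫ t in (0:ℝ)..x, cc * Real.exp (-(-t) ^ 2 / 2) = ∫ t in (0:ℝ)..x, cc * Real.exp (-t ^ 2 / 2) := by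
    congr 1; ext t; congr 2; ring_nf
  rw [h2] at h
  rw [h, intervalIntegral.integral_symm]

lemma strictMono_mm : StrictMono mm := by
  apply strictMono_of_hasDerivAt_pos hasDerivAt_mm
  intro x
  have := cc_pos
  positivity

lemma integrable_dens : Integrable (fun t : ℝ => cc * Real.exp (-t ^ 2 / 2)) := by
  have h := integrable_exp_neg_mul_sq (b := 1 / 2) (by norm_num)
  have h2 : (fun t : ℝ => cc * Real.exp (-t ^ 2 / 2)) = fun t => cc * Real.exp (-(1 / 2) * t ^ 2) := by
    ext t; congr 2; ring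
  rw [h2]
  exact h.const_mul _

lemma integral_dens_Ioi_zero : ∫ t in Ioi (0 : ℝ), cc * Real.exp (-t ^ 2 / 2) = 1 := by
  have h := integral_gaussian_Ioi (1 / 2)
  have h2 : (fun t : ℝ => cc * Real.exp (-t ^ 2 / 2)) = fun t => cc * Real.exp (-(1 / 2) * t ^ 2) := by
    ext t; congr 2; ring
  rw [h2, integral_const_mul, h]
  have h3 : π / (1 / 2) = 2 * π := by ring
  rw [h3, mul_div_assoc', cc_mul_sqrt]; norm_num

lemma tendsto_mm_atTop : Tendsto mm atTop (𝓝 1) := by
  have h := intervalIntegral_tendsto_integral_Ioi (f := fun t : ℝ => cc * Real.exp (-t ^ 2 / 2)) 0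
    integrable_dens.integrableOn tendsto_id
  rw [integral_dens_Ioi_zero] at h
  exact h

lemma mm_lt_one (x : ℝ) : mm x < 1 := by
  have h1 : mm x < mm (x + 1) := strictMono_mm (by linarith)
  have h2 : mm (x + 1) ≤ 1 := strictMono_mm.monotone.ge_of_tendsto tendsto_mm_atTop _
  linarith

lemma neg_one_lt_mm (x : ℝ) : -1 < mm x := by
  have := mm_lt_one (-x)
  rw [mm_neg] at this; linarith

lemma mm_nonneg {x : ℝ} (hx : 0 ≤ x) : 0 ≤ mm x := by
  have := strictMono_mm.monotone hx
  simpa using this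

lemma mm_pos {x : ℝ} (hx : 0 < x) : 0 < mm x := by
  have := strictMono_mm hx
  simpa using this

/-- tail integral -/
lemma one_sub_mm_eq (x : ℝ) : 1 - mm x = ∫ t in Ioi x, cc * Real.exp (-t ^ 2 / 2) := by
  have h := intervalIntegral_tendsto_integral_Ioi (f := fun t : ℝ => cc * Real.exp (-t ^ 2 / 2)) x
    integrable_dens.integrableOn tendsto_id
  have h2 : Tendsto (fun y => mm y - mm x) atTop (𝓝 (1 - mm x)) := tendsto_mm_atTop.sub_const _
  refine tendsto_nhds_unique h2 (h.congr fun y => ?_)
  have hi : ∀ a b : ℝ, IntervalIntegrable (fun t : ℝ => cc * Real.exp (-t ^ 2 / 2)) volume a b :=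
    fun a b => continuous_dens.intervalIntegrable a b
  have := intervalIntegral.integral_add_adjacent_intervals (hi 0 x) (hi x y)
  simp only [id, mm]
  linarith

lemma one_add_mm_eq (x : ℝ) : 1 + mm x = ∫ t in Iic x, cc * Real.exp (-t ^ 2 / 2) := by
  have h := one_sub_mm_eq (-x)
  rw [mm_neg, sub_neg_eq_add] at h
  rw [h]
  have h3 := integral_comp_neg_Ioi (-x) (fun t : ℝ => cc * Real.exp (-t ^ 2 / 2))
  simp only [neg_neg] at h3
  rw [← h3]
  congr 1; ext t; congr 2; ring_nf

/-- `x (1 - m x) <= c exp(-x^2/2)` -/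
lemma mul_one_sub_mm_le (x : ℝ) : x * (1 - mm x) ≤ cc * Real.exp (-x ^ 2 / 2) := by
  rcases le_or_gt x 0 with hx | hx
  · have h1 := mm_lt_one x
    have h2 : x * (1 - mm x) ≤ 0 := mul_nonpos_of_nonpos_of_nonneg hx (by linarith)
    have := cc_pos
    have : 0 ≤ cc * Real.exp (-x ^ 2 / 2) := by positivity
    linarith
  ·
    have hb : ∀ y : ℝ, 0 < y → y * (1 - mm y) ≤ cc * Real.exp (-y ^ 2 / 2) := by
      intro y hy
      have hI : IntegrableOn (fun t : ℝ => cc * (t * Real.exp (-t ^ 2 / 2))) (Ioi y) := by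
        have h := integrable_mul_exp_neg_mul_sq (b := 1 / 2) (by norm_num)
        have h2 : (fun t : ℝ => cc * (t * Real.exp (-t ^ 2 / 2))) =
            fun t => cc * (t * Real.exp (-(1 / 2) * t ^ 2)) := by
          ext t; congr 3; ring
        rw [h2]
        exact (h.const_mul _).integrableOn
      have h1 : y * (1 - mm y) ≤ ∫ t in Ioi y, cc * (t * Real.exp (-t ^ 2 / 2)) := by
        rw [one_sub_mm_eq, ← integral_const_mul]
        refine setIntegral_mono_on (integrable_dens.integrableOn.const_mul _) hI measurableSet_Ioi ?_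
        intro t ht
        have ht' : y < t := ht
        have hc := cc_pos
        have : 0 < cc * Real.exp (-t ^ 2 / 2) := by positivity
        nlinarith
      have h2 : ∫ t in Ioi y, cc * (t * Real.exp (-t ^ 2 / 2)) = cc * Real.exp (-y ^ 2 / 2) := by
        have hd2 : ∀ t ∈ Ici y, HasDerivAt (fun t : ℝ => -(cc * Real.exp (-t ^ 2 / 2)))
            (cc * (t * Real.exp (-t ^ 2 / 2))) t := by
          intro t _
          have h1 : HasDerivAt (fun y : ℝ => -y ^ 2 / 2) (-t) t := by
            exact (((hasDerivAt_pow 2 t).neg).div_const 2).congr_deriv (by simp; ring)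
          have h2 := ((h1.exp).const_mul cc).neg
          exact h2.congr_deriv (by ring)
        have hl : Tendsto (fun t : ℝ => -(cc * Real.exp (-t ^ 2 / 2))) atTop (𝓝 0) := by
          have h3 : Tendsto (fun t : ℝ => -t ^ 2 / 2) atTop atBot := by
            have h4 : Tendsto (fun t : ℝ => t ^ 2) atTop atTop := tendsto_pow_atTop (by norm_num)
            have h5 := tendsto_neg_atTop_atBot.comp (h4.atTop_div_const (by norm_num : (0:ℝ) < 2))
            refine h5.congr fun t => ?_
            simp only [Function.comp]; ring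
          have h4 := (Real.tendsto_exp_atBot.comp h3).const_mul cc
          simpa using h4.neg
        have := integral_Ioi_of_hasDerivAt_of_tendsto' hd2 hI hl
        rw [this]; ring
      linarith
    exact hb x hx

/-- `1 - m x <= exp(-x^2/2)` for `x >= 0` -/
lemma one_sub_mm_le {x : ℝ} (hx : 0 ≤ x) : 1 - mm x ≤ Real.exp (-x ^ 2 / 2) := by
  -- (1 - m) exp(x^2/2) has derivative -(c - x (1-m) exp(x^2/2)) ≤ 0
  have hd : ∀ y : ℝ, HasDerivAt (fun y => (1 - mm y) * Real.exp (y ^ 2 / 2))
      (-(cc * Real.exp (-y ^ 2 / 2)) * Real.exp (y ^ 2 / 2) + (1 - mm y) * (Real.exp (y ^ 2 / 2) * y)) y := by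
    intro y
    have h1 : HasDerivAt (fun y : ℝ => y ^ 2 / 2) y y := by
      exact ((hasDerivAt_pow 2 y).div_const 2).congr_deriv (by simp)
    have h3 := ((hasDerivAt_const y (1 : ℝ)).sub (hasDerivAt_mm y)).mul h1.exp
    exact h3.congr_deriv (by simp only [Pi.sub_apply]; ring)
  have hanti : Antitone (fun y => (1 - mm y) * Real.exp (y ^ 2 / 2)) := by
    apply antitone_of_deriv_nonpos
    · intro y; exact (hd y).differentiableAt
    · intro y; rw [(hd y).deriv]
      have h1 := mul_one_sub_mm_le y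
      have h2 := Real.exp_pos (y ^ 2 / 2)
      nlinarith
  have h := hanti hx
  simp only [mm_zero, sub_zero, one_mul, ne_eq, OfNat.ofNat_ne_zero, not_false_eq_true, zero_pow,
    zero_div, Real.exp_zero] at h
  have h2 : Real.exp (-x ^ 2 / 2) * Real.exp (x ^ 2 / 2) = 1 := by
    rw [← Real.exp_add]; simp; ring
  have h3 := Real.exp_pos (x ^ 2 / 2)
  by_contra hcon
  push Not at hcon
  nlinarith

end Pool.Agent.CubeWidth
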