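import Pool.Agent.Lib.MP_e8b094_gt.DefsK
import Pool.Agent.Lib.MP_e8b094_gt.Gauss

/-!
Piece K9: one coordinate Gaussian integrals.
-/

namespace Pool.Agent.CubeWidth

open MeasureTheory Real Set Filter Topology
open scoped ENNReal

private lemma outint_cl_ge {z : ℝ} (hz : 1 ≤ z) : cl z = 1 := by
  unfold cl
  rw [min_eq_left hz, max_eq_right (by norm_num)]

private lemma outint_rho_ge {z : ℝ} (hz : 1 ≤ z) : rho z = z - 1 := by
  unfold rho
  rw [outint_cl_ge hz]

private lemma outint_abs_cl (z : ℝ) : |cl z| ≤ 1 := by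
  unfold cl
  exact abs_le.mpr ⟨le_max_left _ _, max_le (by norm_num) (min_le_left _ _)⟩

private lemma outint_abs_rho (z : ℝ) : |rho z| ≤ |z| := by
  unfold rho cl
  rcases le_total z 1 with h | h
  · rw [min_eq_right h]
    rcases le_total (-1) z with h' | h'
    · rw [max_eq_right h', sub_self, abs_zero]
      exact abs_nonneg z
    · rw [max_eq_left h', abs_of_nonpos (by linarith), abs_of_nonpos (by linarith)]
      linarith
  · rw [min_eq_left h, max_eq_right (by norm_num), abs_of_nonneg (by linarith),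
      abs_of_nonneg (by linarith)]
    linarith

private lemma outint_cont_rho : Continuous rho := by
  unfold rho cl
  fun_prop

private lemma outint_rho_neg (z : ℝ) : rho (-z) = -rho z := by
  unfold rho cl
  rcases le_total z 1 with h | h
  · rcases le_total (-1) z with h' | h'
    · rw [min_eq_right h, max_eq_right h', min_eq_right (by linarith : -z ≤ 1),
        max_eq_right (by linarith : -1 ≤ -z)]
      ring
    · rw [min_eq_right h, max_eq_left h', min_eq_left (by linarith : (1 : ℝ) ≤ -z),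
        max_eq_right (by norm_num)]
      ring
  · rw [min_eq_left h, max_eq_right (by norm_num : (-1 : ℝ) ≤ 1),
      min_eq_right (by linarith : -z ≤ 1), max_eq_left (by linarith : -z ≤ -1)]
    ring

theorem out_integrable (a : ℝ) (p : ℕ) :
    Integrable (fun z : ℝ => (1 + |rho z|) ^ p * Real.exp (-(a + rho z) ^ 2 / 2)) := by
  have hg : Integrable (fun z : ℝ => ((p.factorial : ℝ) * Real.exp (3 + (|a| + 1) ^ 2 / 2)) *
      Real.exp (-(1 / 8) * z ^ 2)) := (integrable_exp_neg_mul_sq (by norm_num)).const_mul _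
  refine hg.mono' ?_ (ae_of_all _ fun z => ?_)
  · have := outint_cont_rho
    refine Continuous.aestronglyMeasurable ?_
    fun_prop
  · have h0 : 0 ≤ (1 + |rho z|) ^ p * Real.exp (-(a + rho z) ^ 2 / 2) := by positivity
    rw [Real.norm_eq_abs, abs_of_nonneg h0]
    have h1 : (1 + |rho z|) ^ p ≤ (p.factorial : ℝ) * Real.exp (1 + |z|) := by
      have h2 := Real.pow_div_factorial_le_exp (1 + |z|) (by positivity) p
      rw [div_le_iff₀ (by positivity)] at h2
      have h2' : 1 + |rho z| ≤ 1 + |z| := by linarith [outint_abs_rho z]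
      refine (pow_le_pow_left₀ (by positivity) h2' p).trans ?_
      linarith
    have h3 : Real.exp (-(a + rho z) ^ 2 / 2) ≤
        Real.exp ((|a| + 1) ^ 2 / 2 - z ^ 2 / 4) := by
      apply Real.exp_le_exp.mpr
      have h4 : a + rho z = z + (a - cl z) := by unfold rho; ring
      rw [h4]
      have h5 : (a - cl z) ^ 2 ≤ (|a| + 1) ^ 2 := by
        rw [← sq_abs (a - cl z)]
        refine pow_le_pow_left₀ (abs_nonneg _) ?_ 2
        exact (abs_sub _ _).trans (by linarith [outint_abs_cl z])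
      nlinarith [sq_nonneg (z + 2 * (a - cl z))]
    calc (1 + |rho z|) ^ p * Real.exp (-(a + rho z) ^ 2 / 2)
        ≤ ((p.factorial : ℝ) * Real.exp (1 + |z|)) * Real.exp ((|a| + 1) ^ 2 / 2 - z ^ 2 / 4) :=
          mul_le_mul h1 h3 (by positivity) (by positivity)
      _ = (p.factorial : ℝ) * Real.exp (1 + |z| + ((|a| + 1) ^ 2 / 2 - z ^ 2 / 4)) := by
          rw [mul_assoc, ← Real.exp_add]
      _ ≤ (p.factorial : ℝ) * Real.exp (3 + (|a| + 1) ^ 2 / 2 + -(1 / 8) * z ^ 2) := by
          refine mul_le_mul_of_nonneg_left (Real.exp_le_exp.mpr ?_) (by positivity)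
          nlinarith [sq_nonneg (|z| - 4), sq_abs z]
      _ = _ := by rw [Real.exp_add, mul_assoc]

private lemma outint_subst (F : ℝ → ℝ) (a : ℝ) :
    ∫ z in Ici (1 : ℝ), F (z - 1 + a) = ∫ g in Ioi a, F g := by
  rw [integral_Ici_eq_integral_Ioi]
  have h := (measurePreserving_add_right (volume : Measure ℝ) (a - 1)).setIntegral_preimage_emb
    (MeasurableEquiv.addRight (a - 1)).measurableEmbedding F (Ioi a)
  rw [← h]
  have h1 : (fun x : ℝ => x + (a - 1)) ⁻¹' Ioi a = Ioi 1 := by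
    ext x
    simp only [mem_preimage, mem_Ioi]
    constructor <;> intro hx <;> linarith
  rw [h1]
  refine setIntegral_congr_fun measurableSet_Ioi fun x _ => ?_
  show F (x - 1 + a) = F (x + (a - 1))
  congr 1
  ring

private lemma outint_tail (a : ℝ) :
    ∫ g in Ioi a, Real.exp (-g ^ 2 / 2) = √(2 * π) * qq a := by
  unfold qq
  rw [one_sub_mm_eq, integral_const_mul]
  have h := cc_mul_sqrt
  have h1 : √(2 * π) * (cc * (∫ g in Ioi a, Real.exp (-g ^ 2 / 2)) / 2) =
      (cc * √(2 * π)) * (∫ g in Ioi a, Real.exp (-g ^ 2 / 2)) / 2 := by ring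
  rw [h1, h]
  ring

theorem out_pos (a : ℝ) :
    ∫ z in Ici (1 : ℝ), Real.exp (-(a + rho z) ^ 2 / 2) = √(2 * π) * qq a := by
  rw [← outint_tail, ← outint_subst (fun g => Real.exp (-g ^ 2 / 2)) a]
  refine setIntegral_congr_fun measurableSet_Ici fun z hz => ?_
  show Real.exp (-(a + rho z) ^ 2 / 2) = Real.exp (-(z - 1 + a) ^ 2 / 2)
  rw [outint_rho_ge hz, add_comm]

private lemma outint_neg (F : ℝ → ℝ) :
    ∫ z in Iic (-1 : ℝ), F z = ∫ z in Ici (1 : ℝ), F (-z) := by
  have h := integral_comp_neg_Iic (-1 : ℝ) (fun z => F (-z))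
  simp only [neg_neg] at h
  rw [h, integral_Ici_eq_integral_Ioi]

theorem out_neg (a : ℝ) :
    ∫ z in Iic (-1 : ℝ), Real.exp (-(a + rho z) ^ 2 / 2) = √(2 * π) * qq (-a) := by
  rw [outint_neg, ← out_pos]
  refine setIntegral_congr_fun measurableSet_Ici fun z _ => ?_
  show Real.exp (-(a + rho (-z)) ^ 2 / 2) = Real.exp (-(-a + rho z) ^ 2 / 2)
  rw [outint_rho_neg]
  congr 2
  ring

private lemma outint_int_mul (a : ℝ) :
    IntegrableOn (fun g : ℝ => g * Real.exp (-g ^ 2 / 2)) (Ioi a) ∧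
      ∫ g in Ioi a, g * Real.exp (-g ^ 2 / 2) = Real.exp (-a ^ 2 / 2) := by
  have hi : Integrable (fun g : ℝ => g * Real.exp (-g ^ 2 / 2)) := by
    have h := integrable_mul_exp_neg_mul_sq (b := 1 / 2) (by norm_num)
    refine h.congr (ae_of_all _ fun g => ?_)
    show g * Real.exp (-(1 / 2) * g ^ 2) = g * Real.exp (-g ^ 2 / 2)
    congr 2
    ring
  refine ⟨hi.integrableOn, ?_⟩
  have hd : ∀ x ∈ Ici a, HasDerivAt (fun g : ℝ => -Real.exp (-g ^ 2 / 2))
      (x * Real.exp (-x ^ 2 / 2)) x := by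
    intro x _
    have h1 : HasDerivAt (fun g : ℝ => -g ^ 2 / 2) (-x) x := by
      have h2 := ((hasDerivAt_pow 2 x).neg).div_const 2
      refine h2.congr_deriv ?_
      norm_num
      ring
    refine (h1.exp.neg).congr_deriv ?_
    ring
  have ht : Tendsto (fun g : ℝ => -Real.exp (-g ^ 2 / 2)) atTop (𝓝 (-0)) := by
    refine Tendsto.neg (Real.tendsto_exp_atBot.comp ?_)
    have h1 : Tendsto (fun g : ℝ => g ^ 2 / 2) atTop atTop :=
      (tendsto_pow_atTop (by norm_num)).atTop_div_const (by norm_num)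
    have h2 : (fun g : ℝ => -g ^ 2 / 2) = fun g => -(g ^ 2 / 2) := by
      funext g
      ring
    rw [h2]
    exact tendsto_neg_atTop_atBot.comp h1
  have h := integral_Ioi_of_hasDerivAt_of_tendsto' hd hi.integrableOn ht
  rw [h]
  ring

theorem out_pos_abs (a : ℝ) :
    ∫ z in Ici (1 : ℝ), |rho z| * Real.exp (-(a + rho z) ^ 2 / 2) =
      √(2 * π) * (qq a * (ww a + cc)) := by
  have h1 : ∫ z in Ici (1 : ℝ), |rho z| * Real.exp (-(a + rho z) ^ 2 / 2) =
      ∫ g in Ioi a, (g - a) * Real.exp (-g ^ 2 / 2) := by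
    rw [← outint_subst (fun g => (g - a) * Real.exp (-g ^ 2 / 2)) a]
    refine setIntegral_congr_fun measurableSet_Ici fun z hz => ?_
    have hz' : (1 : ℝ) ≤ z := hz
    show |rho z| * Real.exp (-(a + rho z) ^ 2 / 2) =
      (z - 1 + a - a) * Real.exp (-(z - 1 + a) ^ 2 / 2)
    rw [outint_rho_ge hz, abs_of_nonneg (by linarith), add_comm a]
    ring
  rw [h1]
  obtain ⟨h2, h3⟩ := outint_int_mul a
  have h4 : IntegrableOn (fun g : ℝ => a * Real.exp (-g ^ 2 / 2)) (Ioi a) := by
    have h := (integrable_exp_neg_mul_sq (b := 1 / 2) (by norm_num)).const_mul a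
    refine Integrable.integrableOn (h.congr (ae_of_all _ fun g => ?_))
    show a * Real.exp (-(1 / 2) * g ^ 2) = a * Real.exp (-g ^ 2 / 2)
    congr 2
    ring
  have h5 : ∫ g in Ioi a, (g - a) * Real.exp (-g ^ 2 / 2) =
      (∫ g in Ioi a, g * Real.exp (-g ^ 2 / 2)) - ∫ g in Ioi a, a * Real.exp (-g ^ 2 / 2) := by
    rw [← integral_sub h2 h4]
    refine setIntegral_congr_fun measurableSet_Ioi fun g _ => ?_
    show (g - a) * Real.exp (-g ^ 2 / 2) = g * Real.exp (-g ^ 2 / 2) - a * Real.exp (-g ^ 2 / 2)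
    ring
  rw [h5, h3, integral_const_mul, outint_tail]
  unfold ww lam
  have h6 : 1 - mm a ≠ 0 := by
    have := mm_lt_one a
    linarith
  have h7 : √(2 * π) * (qq a * (cc * Real.exp (-a ^ 2 / 2) / (1 - mm a) - a - cc + cc)) =
      (cc * √(2 * π)) * Real.exp (-a ^ 2 / 2) * (qq a / (1 - mm a)) - a * (√(2 * π) * qq a) := by
    field_simp
    ring
  rw [h7, cc_mul_sqrt]
  have h8 : qq a / (1 - mm a) = 1 / 2 := by
    unfold qq
    field_simp
  rw [h8]
  ring

theorem out_neg_abs (a : ℝ) :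
    ∫ z in Iic (-1 : ℝ), |rho z| * Real.exp (-(a + rho z) ^ 2 / 2) =
      √(2 * π) * (qq (-a) * (ww (-a) + cc)) := by
  rw [outint_neg, ← out_pos_abs]
  refine setIntegral_congr_fun measurableSet_Ici fun z _ => ?_
  show |rho (-z)| * Real.exp (-(a + rho (-z)) ^ 2 / 2) =
    |rho z| * Real.exp (-(-a + rho z) ^ 2 / 2)
  rw [outint_rho_neg, abs_neg]
  congr 3
  ring

end Pool.Agent.CubeWidth
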