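import Pool.Agent.Lib.MP_e8b094_gt.KMain
import Pool.Agent.Lib.MP_e8b094_gt.OutInt
import Pool.Agent.Lib.MP_e8b094_gt.CKfin
import Pool.Agent.Lib.MP_e8b094_gt.CKsum

/-!
# MP_e8b094_gt, stage 2, piece K11: the Gaussian inequality of order `k` (helper81)
-/

namespace Pool.Agent.CubeWidth

open MeasureTheory Real Set Filter Topology
open scoped ENNReal

/-! ### elementary facts -/

lemma dbineq_cl_neg (z : ℝ) : cl (-z) = -cl z := by
  unfold cl
  rcases le_total z (-1) with h | h
  · rw [min_eq_left (by linarith), max_eq_right (by norm_num), min_eq_right (by linarith),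
      max_eq_left h]
    norm_num
  · rcases le_total z 1 with h' | h'
    · rw [min_eq_right (by linarith), max_eq_right (by linarith), min_eq_right h',
        max_eq_right h]
    · rw [min_eq_right (by linarith), max_eq_left (by linarith), min_eq_left h',
        max_eq_right (by norm_num)]

lemma dbineq_rho_neg (z : ℝ) : rho (-z) = -rho z := by
  unfold rho
  rw [dbineq_cl_neg]
  ring

lemma dbineq_Ti_neg {n : ℕ} (u : Fin (n + 1) → ℝ) (i : Fin (n + 1)) (z : Fin n → ℝ) :
    Ti u i (-z) = -Ti u i z := by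
  unfold Ti
  simp only [Pi.neg_apply, dbineq_cl_neg, mul_neg, Finset.sum_neg_distrib]

lemma dbineq_fr_neg {n : ℕ} (z : Fin n → ℝ) : fr (-z) = fr z := by
  unfold fr
  simp only [Pi.neg_apply, abs_neg]

lemma dbineq_measurableSet_fr (m k : ℕ) : MeasurableSet {z : Fin m → ℝ | fr z = k} :=
  cksum_measurable_fr (measurableSet_singleton k)

/-- the real integrand, without the factor of the basic coordinate; `P` is the condition on
the value of `T`. -/
noncomputable def dbineq_G {m : ℕ} (a : Fin m → ℝ) (g : ℝ → ℝ) (p : ℕ) (s : ℝ) (z : Fin m → ℝ) :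
    ℝ :=
  g (∑ j, a j * cl (z j)) * (∑ j, |rho (z j)|) ^ p *
    Real.exp (-(∑ j, (s * a j + rho (z j)) ^ 2) / 2)

lemma dbineq_measurable_G {m : ℕ} (a : Fin m → ℝ) {g : ℝ → ℝ} (hg : Measurable g) (p : ℕ)
    (s : ℝ) : Measurable (dbineq_G a g p s) := by
  unfold dbineq_G
  have h1 : Measurable fun z : Fin m → ℝ => ∑ j, a j * cl (z j) :=
    Finset.measurable_sum _ fun j _ =>
      (cksum_measurable_cl.comp (measurable_pi_apply j)).const_mul _
  have h2 : Measurable fun z : Fin m → ℝ => ∑ j, |rho (z j)| :=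
    Finset.measurable_sum _ fun j _ =>
      (cksum_measurable_rho.comp (measurable_pi_apply j)).abs
  have h3 : Measurable fun z : Fin m → ℝ => ∑ j, (s * a j + rho (z j)) ^ 2 :=
    Finset.measurable_sum _ fun j _ =>
      ((cksum_measurable_rho.comp (measurable_pi_apply j)).const_add _).pow_const 2
  exact ((hg.comp h1).mul (h2.pow_const p)).mul (h3.neg.div_const 2).exp

lemma dbineq_G_nonneg {m : ℕ} (a : Fin m → ℝ) {g : ℝ → ℝ} (hg : ∀ x, 0 ≤ g x) (p : ℕ)
    (s : ℝ) (z : Fin m → ℝ) : 0 ≤ dbineq_G a g p s z := by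
  unfold dbineq_G
  have h2 : 0 ≤ ∑ j, |rho (z j)| := Finset.sum_nonneg fun j _ => abs_nonneg _
  have := hg (∑ j, a j * cl (z j))
  positivity

/-- left indicator -/
noncomputable def dbineq_l (b : ℝ) (t : ℝ) : ℝ := if -b < t ∧ t ≤ b then 1 else 0

/-- right indicator -/
noncomputable def dbineq_r (b : ℝ) (t : ℝ) : ℝ := if -b ≤ t ∧ t < b then 1 else 0

lemma dbineq_l_nonneg (b t : ℝ) : 0 ≤ dbineq_l b t := by
  unfold dbineq_l
  split_ifs <;> norm_num

lemma dbineq_r_nonneg (b t : ℝ) : 0 ≤ dbineq_r b t := by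
  unfold dbineq_r
  split_ifs <;> norm_num

lemma dbineq_l_meas (b : ℝ) : Measurable (dbineq_l b) := by
  unfold dbineq_l
  exact Measurable.ite measurableSet_Ioc measurable_const measurable_const

lemma dbineq_r_meas (b : ℝ) : Measurable (dbineq_r b) := by
  unfold dbineq_r
  exact Measurable.ite measurableSet_Ico measurable_const measurable_const

lemma dbineq_l_neg (b t : ℝ) : dbineq_l b (-t) = dbineq_r b t := by
  unfold dbineq_l dbineq_r
  have : (-b < -t ∧ -t ≤ b) ↔ (-b ≤ t ∧ t < b) :=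
    ⟨fun h => ⟨by linarith [h.2], by linarith [h.1]⟩,
      fun h => ⟨by linarith [h.2], by linarith [h.1]⟩⟩
  simp only [this]

lemma dbineq_bump (b : ℝ) : Bump (fun t => dbineq_l b t + dbineq_r b t) := by
  refine ⟨fun x => add_nonneg (dbineq_l_nonneg b x) (dbineq_r_nonneg b x), fun x y hxy => ?_⟩
  rcases lt_or_ge (|y|) b with hy | hy
  · -- then |x| < b and the left value is 2
    have hx := abs_lt.1 (hxy.trans_lt hy)
    have h1 : dbineq_l b x = 1 := if_pos ⟨hx.1, hx.2.le⟩
    have h2 : dbineq_r b x = 1 := if_pos ⟨hx.1.le, hx.2⟩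
    have h3 : dbineq_l b y ≤ 1 := by unfold dbineq_l; split_ifs <;> norm_num
    have h4 : dbineq_r b y ≤ 1 := by unfold dbineq_r; split_ifs <;> norm_num
    simp only [h1, h2]
    linarith
  · rcases hy.eq_or_lt with hy | hy
    · -- |y| = b
      have hb : 0 ≤ b := hy ▸ abs_nonneg y
      have hyv : dbineq_l b y + dbineq_r b y ≤ 1 := by
        rcases abs_choice y with h | h
        · have e : y = b := by rw [← h, ← hy]
          have : dbineq_r b y = 0 := if_neg (fun h => by linarith [h.2])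
          rw [this, add_zero]
          unfold dbineq_l; split_ifs <;> norm_num
        · have e : y = -b := by linarith [h ▸ hy]
          have : dbineq_l b y = 0 := if_neg (fun h => by linarith [h.1])
          rw [this, zero_add]
          unfold dbineq_r; split_ifs <;> norm_num
      have hx : |x| ≤ b := hxy.trans hy.symm.le
      rcases hb.eq_or_lt with hb0 | hb0
      · -- b = 0
        have : y = 0 := abs_eq_zero.1 (by rw [← hy, ← hb0])
        have e1 : dbineq_l b y = 0 := if_neg (fun h => by rw [← hb0, this] at h; linarith [h.1])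
        have e2 : dbineq_r b y = 0 := if_neg (fun h => by rw [← hb0, this] at h; linarith [h.2])
        simp only [e1, e2, add_zero]
        exact add_nonneg (dbineq_l_nonneg b x) (dbineq_r_nonneg b x)
      · have hx' := abs_le.1 hx
        have : 1 ≤ dbineq_l b x + dbineq_r b x := by
          rcases hx'.1.eq_or_lt with h | h
          · have : dbineq_r b x = 1 := if_pos ⟨hx'.1, by linarith⟩
            linarith [dbineq_l_nonneg b x]
          · have : dbineq_l b x = 1 := if_pos ⟨h, hx'.2⟩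
            linarith [dbineq_r_nonneg b x]
        exact hyv.trans this
    · have e1 : dbineq_l b y = 0 := if_neg (fun h => by
        have := abs_le.2 ⟨h.1.le, h.2⟩
        linarith)
      have e2 : dbineq_r b y = 0 := if_neg (fun h => by
        have := abs_le.2 ⟨h.1, h.2.le⟩
        linarith)
      simp only [e1, e2, add_zero]
      exact add_nonneg (dbineq_l_nonneg b x) (dbineq_r_nonneg b x)

lemma dbineq_G_neg {m : ℕ} (a : Fin m → ℝ) (b : ℝ) (p : ℕ) (s : ℝ) (z : Fin m → ℝ) :
    dbineq_G a (dbineq_l b) p (-s) (-z) = dbineq_G a (dbineq_r b) p s z := by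
  unfold dbineq_G
  have h1 : ∑ j, a j * cl ((-z) j) = -∑ j, a j * cl (z j) := by
    simp only [Pi.neg_apply, dbineq_cl_neg, mul_neg, Finset.sum_neg_distrib]
  have h2 : ∑ j, |rho ((-z) j)| = ∑ j, |rho (z j)| := by
    simp only [Pi.neg_apply, dbineq_rho_neg, abs_neg]
  have h3 : ∑ j, (-s * a j + rho ((-z) j)) ^ 2 = ∑ j, (s * a j + rho (z j)) ^ 2 := by
    refine Finset.sum_congr rfl fun j _ => ?_
    simp only [Pi.neg_apply, dbineq_rho_neg]
    ring
  rw [h1, h2, h3, dbineq_l_neg]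

/-! ### the inner integral -/

/-- Gaussian functional with moments. -/
noncomputable def dbineq_Γ {n : ℕ} (u : Fin (n + 1) → ℝ) (p : ℕ) :
    ℝ → (Fin (n + 1) → ℝ) → ℝ≥0∞ :=
  fun s r => ENNReal.ofReal ((∑ j, |r j|) ^ p * Real.exp (-(qsq u s r) / 2))

lemma dbineq_meas_Γ {n : ℕ} (u : Fin (n + 1) → ℝ) (p : ℕ) :
    Measurable (Function.uncurry (dbineq_Γ u p)) := by
  unfold dbineq_Γ Function.uncurry qsq
  fun_prop

lemma dbineq_pt {n : ℕ} (u : Fin (n + 1) → ℝ) (i : Fin (n + 1)) (hi : 0 < u i) (k p : ℕ)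
    (s : ℝ) (z : Fin n → ℝ) :
    {z : Fin n → ℝ | -(u i) < Ti u i z ∧ Ti u i z ≤ u i ∧ fr z = k}.indicator
      (fun z => dbineq_Γ u p s (fun j => rho (ins u i z j))) z =
    ENNReal.ofReal (Real.exp (-(s * u i) ^ 2 / 2)) *
      ENNReal.ofReal ({z : Fin n → ℝ | fr z = k}.indicator
        (dbineq_G (fun j => u (i.succAbove j)) (dbineq_l (u i)) p s) z) := by
  by_cases hf : fr z = k
  · by_cases hT : -(u i) < Ti u i z ∧ Ti u i z ≤ u i
    · rw [indicator_of_mem (show z ∈ {z : Fin n → ℝ | -(u i) < Ti u i z ∧ Ti u i z ≤ u i ∧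
        fr z = k} from ⟨hT.1, hT.2, hf⟩), indicator_of_mem (show z ∈ {z : Fin n → ℝ |
        fr z = k} from hf), ← ENNReal.ofReal_mul (Real.exp_pos _).le]
      unfold dbineq_Γ
      congr 1
      have h0 : rho (ins u i z i) = 0 := by
        have : ins u i z i = -(Ti u i z) / u i := by simp [ins]
        rw [this]
        refine ckfin_rho_zero ?_ ?_
        · rw [le_div_iff₀ hi]; linarith [hT.2]
        · rw [div_le_iff₀ hi]; linarith [hT.1]
      have h1 : ∀ j, ins u i z (i.succAbove j) = z j := fun j => by simp [ins]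
      have h2 : ∑ j, |rho (ins u i z j)| = ∑ j, |rho (z j)| := by
        rw [Fin.sum_univ_succAbove _ i, h0]
        simp only [h1, abs_zero, zero_add]
      have h3 : qsq u s (fun j => rho (ins u i z j)) =
          (s * u i) ^ 2 + ∑ j, (s * u (i.succAbove j) + rho (z j)) ^ 2 := by
        unfold qsq
        rw [Fin.sum_univ_succAbove _ i]
        simp only [h0, h1, add_zero]
      have h4 : dbineq_l (u i) (∑ j, u (i.succAbove j) * cl (z j)) = 1 := if_pos hT
      rw [h2, h3]
      unfold dbineq_G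
      rw [h4, one_mul]
      rw [show -((s * u i) ^ 2 + ∑ j, (s * u (i.succAbove j) + rho (z j)) ^ 2) / 2 =
        -(s * u i) ^ 2 / 2 + -(∑ j, (s * u (i.succAbove j) + rho (z j)) ^ 2) / 2 by ring,
        Real.exp_add]
      ring
    · rw [indicator_of_notMem (show z ∉ {z : Fin n → ℝ | -(u i) < Ti u i z ∧ Ti u i z ≤ u i ∧
        fr z = k} from fun h => hT ⟨h.1, h.2.1⟩)]
      have h4 : dbineq_l (u i) (∑ j, u (i.succAbove j) * cl (z j)) = 0 := if_neg hT
      rw [indicator_of_mem (show z ∈ {z : Fin n → ℝ | fr z = k} from hf)]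
      unfold dbineq_G
      rw [h4]
      simp
  · rw [indicator_of_notMem (show z ∉ {z : Fin n → ℝ | -(u i) < Ti u i z ∧ Ti u i z ≤ u i ∧
        fr z = k} from fun h => hf h.2.2), indicator_of_notMem (show z ∉ {z : Fin n → ℝ |
        fr z = k} from hf)]
    simp

/-- the inner integral. -/
noncomputable def dbineq_F {n : ℕ} (u : Fin (n + 1) → ℝ) (i : Fin (n + 1)) (k p : ℕ) (s : ℝ) :
    ℝ≥0∞ :=
  ∫⁻ z : Fin n → ℝ, {z : Fin n → ℝ | -(u i) < Ti u i z ∧ Ti u i z ≤ u i ∧ fr z = k}.indicator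
      (fun z => dbineq_Γ u p s (fun j => rho (ins u i z j))) z

lemma dbineq_meas_F {n : ℕ} (u : Fin (n + 1) → ℝ) (i : Fin (n + 1)) (k p : ℕ) :
    Measurable (dbineq_F u i k p) :=
  (cksum_measurable_ind u i k (dbineq_Γ u p) (dbineq_meas_Γ u p)).lintegral_prod_right'

lemma dbineq_F_eq {n : ℕ} (u : Fin (n + 1) → ℝ) (i : Fin (n + 1)) (hi : 0 < u i) (k p : ℕ)
    (s : ℝ) : dbineq_F u i k p s = ENNReal.ofReal (Real.exp (-(s * u i) ^ 2 / 2)) *
      ∫⁻ z : Fin n → ℝ, ENNReal.ofReal ({z : Fin n → ℝ | fr z = k}.indicator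
        (dbineq_G (fun j => u (i.succAbove j)) (dbineq_l (u i)) p s) z) := by
  unfold dbineq_F
  rw [← lintegral_const_mul' _ _ ENNReal.ofReal_ne_top]
  exact lintegral_congr fun z => dbineq_pt u i hi k p s z

lemma dbineq_F_neg {n : ℕ} (u : Fin (n + 1) → ℝ) (i : Fin (n + 1)) (hi : 0 < u i) (k p : ℕ)
    (s : ℝ) : dbineq_F u i k p (-s) = ENNReal.ofReal (Real.exp (-(s * u i) ^ 2 / 2)) *
      ∫⁻ z : Fin n → ℝ, ENNReal.ofReal ({z : Fin n → ℝ | fr z = k}.indicator
        (dbineq_G (fun j => u (i.succAbove j)) (dbineq_r (u i)) p s) z) := by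
  rw [dbineq_F_eq u i hi k p (-s)]
  congr 1
  · rw [show -(-s * u i) ^ 2 / 2 = -(s * u i) ^ 2 / 2 by ring]
  · rw [← lintegral_neg_eq_self]
    refine lintegral_congr fun z => ?_
    congr 1
    by_cases hf : fr z = k
    · rw [indicator_of_mem (show -z ∈ {z : Fin n → ℝ | fr z = k} from
        (dbineq_fr_neg z).trans hf), indicator_of_mem (show z ∈ {z : Fin n → ℝ |
        fr z = k} from hf), dbineq_G_neg]
    · rw [indicator_of_notMem (show -z ∉ {z : Fin n → ℝ | fr z = k} from
        fun h => hf ((dbineq_fr_neg z).symm.trans h)), indicator_of_notMem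
        (show z ∉ {z : Fin n → ℝ | fr z = k} from hf)]

lemma dbineq_F_sum {n : ℕ} (u : Fin (n + 1) → ℝ) (i : Fin (n + 1)) (hi : 0 < u i) (k p : ℕ)
    (s : ℝ) : dbineq_F u i k p s + dbineq_F u i k p (-s) =
      ENNReal.ofReal (Real.exp (-(s * u i) ^ 2 / 2) *
        ∫ z : Fin n → ℝ, {z : Fin n → ℝ | fr z = k}.indicator
        (dbineq_G (fun j => u (i.succAbove j)) (fun t => dbineq_l (u i) t + dbineq_r (u i) t)
          p s) z) := by
  have hS := dbineq_measurableSet_fr n k
  rw [dbineq_F_eq u i hi, dbineq_F_neg u i hi, ← mul_add, ← lintegral_add_left,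
    ENNReal.ofReal_mul (Real.exp_pos _).le]
  · congr 1
    rw [ofReal_integral_eq_lintegral_ofReal]
    · refine lintegral_congr fun z => ?_
      by_cases hf : fr z = k
      · rw [indicator_of_mem (show z ∈ {z : Fin n → ℝ | fr z = k} from hf),
          indicator_of_mem (show z ∈ {z : Fin n → ℝ | fr z = k} from hf),
          indicator_of_mem (show z ∈ {z : Fin n → ℝ | fr z = k} from hf),
          ← ENNReal.ofReal_add (dbineq_G_nonneg _ (dbineq_l_nonneg _) _ _ _)
            (dbineq_G_nonneg _ (dbineq_r_nonneg _) _ _ _)]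
        congr 1
        unfold dbineq_G
        ring
      · rw [indicator_of_notMem (show z ∉ {z : Fin n → ℝ | fr z = k} from hf),
          indicator_of_notMem (show z ∉ {z : Fin n → ℝ | fr z = k} from hf),
          indicator_of_notMem (show z ∉ {z : Fin n → ℝ | fr z = k} from hf)]
        simp
    · exact (weighted_integrable (fun j => u (i.succAbove j)) s (dbineq_bump (u i))
        ((dbineq_l_meas _).add (dbineq_r_meas _)) p).indicator hS
    · refine Filter.Eventually.of_forall fun z => ?_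
      exact indicator_nonneg (fun z _ => dbineq_G_nonneg _
        (dbineq_bump (u i)).nonneg _ _ _) z
  · exact ((dbineq_measurable_G _ (dbineq_l_meas _) p s).indicator hS).ennreal_ofReal

lemma dbineq_pos {n : ℕ} (u : Fin (n + 1) → ℝ) (hu0 : ∀ i, 0 ≤ u i)
    (i : Fin (n + 1)) (hi : 0 < u i) (k : ℕ) (hk : k ≤ n) {s : ℝ} (hs : 0 < s) :
    ENNReal.ofReal (cc * ((n : ℝ) - k)) * (dbineq_F u i k 0 s + dbineq_F u i k 0 (-s)) ≤
      dbineq_F u i k 1 s + dbineq_F u i k 1 (-s) := by
  have hkn : (0 : ℝ) ≤ cc * ((n : ℝ) - k) := by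
    have : (k : ℝ) ≤ n := by exact_mod_cast hk
    exact mul_nonneg cc_pos.le (by linarith)
  rw [dbineq_F_sum u i hi, dbineq_F_sum u i hi, ← ENNReal.ofReal_mul hkn]
  refine ENNReal.ofReal_le_ofReal ?_
  have key := weighted_ineq (fun j => u (i.succAbove j)) (fun j => hu0 _) hs
    (dbineq_bump (u i)) ((dbineq_l_meas _).add (dbineq_r_meas _)) k
  have e0 : ∫ z : Fin n → ℝ, {z : Fin n → ℝ | fr z = k}.indicator
        (fun z => (fun t => dbineq_l (u i) t + dbineq_r (u i) t)
          (∑ j, u (i.succAbove j) * cl (z j)) * (cc * ((n : ℝ) - k)) *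
          Real.exp (-(∑ j, (s * u (i.succAbove j) + rho (z j)) ^ 2) / 2)) z =
      cc * ((n : ℝ) - k) * ∫ z : Fin n → ℝ, {z : Fin n → ℝ | fr z = k}.indicator
        (dbineq_G (fun j => u (i.succAbove j)) (fun t => dbineq_l (u i) t + dbineq_r (u i) t)
          0 s) z := by
    rw [← integral_const_mul]
    refine integral_congr_ae (Filter.Eventually.of_forall fun z => ?_)
    show _ = cc * ((n : ℝ) - k) * _
    by_cases hf : fr z = k
    · rw [indicator_of_mem (show z ∈ {z : Fin n → ℝ | fr z = k} from hf),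
        indicator_of_mem (show z ∈ {z : Fin n → ℝ | fr z = k} from hf)]
      unfold dbineq_G
      ring
    · rw [indicator_of_notMem (show z ∉ {z : Fin n → ℝ | fr z = k} from hf),
        indicator_of_notMem (show z ∉ {z : Fin n → ℝ | fr z = k} from hf), mul_zero]
  have e1 : ∫ z : Fin n → ℝ, {z : Fin n → ℝ | fr z = k}.indicator
        (fun z => (fun t => dbineq_l (u i) t + dbineq_r (u i) t)
          (∑ j, u (i.succAbove j) * cl (z j)) * (∑ j, |rho (z j)|) *
          Real.exp (-(∑ j, (s * u (i.succAbove j) + rho (z j)) ^ 2) / 2)) z =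
      ∫ z : Fin n → ℝ, {z : Fin n → ℝ | fr z = k}.indicator
        (dbineq_G (fun j => u (i.succAbove j)) (fun t => dbineq_l (u i) t + dbineq_r (u i) t)
          1 s) z := by
    refine integral_congr_ae (Filter.Eventually.of_forall fun z => ?_)
    by_cases hf : fr z = k
    · show indicator _ _ z = indicator _ _ z
      rw [indicator_of_mem (show z ∈ {z : Fin n → ℝ | fr z = k} from hf),
        indicator_of_mem (show z ∈ {z : Fin n → ℝ | fr z = k} from hf)]
      unfold dbineq_G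
      rw [pow_one]
    · show indicator _ _ z = indicator _ _ z
      rw [indicator_of_notMem (show z ∉ {z : Fin n → ℝ | fr z = k} from hf),
        indicator_of_notMem (show z ∉ {z : Fin n → ℝ | fr z = k} from hf)]
  rw [e0, e1] at key
  calc _ = Real.exp (-(s * u i) ^ 2 / 2) * (cc * ((n : ℝ) - k) *
        ∫ z : Fin n → ℝ, {z : Fin n → ℝ | fr z = k}.indicator
        (dbineq_G (fun j => u (i.succAbove j)) (fun t => dbineq_l (u i) t + dbineq_r (u i) t)
          0 s) z) := by ring
    _ ≤ _ := mul_le_mul_of_nonneg_left key (Real.exp_pos _).le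

lemma dbineq_ne {n : ℕ} (u : Fin (n + 1) → ℝ) (hu0 : ∀ i, 0 ≤ u i)
    (i : Fin (n + 1)) (hi : 0 < u i) (k : ℕ) (hk : k ≤ n) {s : ℝ} (hs : s ≠ 0) :
    ENNReal.ofReal (cc * ((n : ℝ) - k)) * (dbineq_F u i k 0 s + dbineq_F u i k 0 (-s)) ≤
      dbineq_F u i k 1 s + dbineq_F u i k 1 (-s) := by
  rcases lt_or_gt_of_ne hs with h | h
  · have := dbineq_pos u hu0 i hi k hk (s := -s) (by linarith)
    rw [neg_neg] at this
    rw [add_comm (dbineq_F u i k 0 s), add_comm (dbineq_F u i k 1 s)]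
    exact this
  · exact dbineq_pos u hu0 i hi k hk h

lemma dbineq_int {n : ℕ} (u : Fin (n + 1) → ℝ) (hu0 : ∀ i, 0 ≤ u i)
    (i : Fin (n + 1)) (hi : 0 < u i) (k : ℕ) (hk : k ≤ n) :
    ENNReal.ofReal (cc * ((n : ℝ) - k)) * ∫⁻ s : ℝ, dbineq_F u i k 0 s ≤
      ∫⁻ s : ℝ, dbineq_F u i k 1 s := by
  have h2 : ∀ p, ∫⁻ s : ℝ, (dbineq_F u i k p s + dbineq_F u i k p (-s)) =
      2 * ∫⁻ s : ℝ, dbineq_F u i k p s := by
    intro p
    rw [lintegral_add_left (dbineq_meas_F u i k p),
      lintegral_neg_eq_self (fun s => dbineq_F u i k p s), two_mul]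
  have h3 : ∫⁻ s : ℝ, ENNReal.ofReal (cc * ((n : ℝ) - k)) *
        (dbineq_F u i k 0 s + dbineq_F u i k 0 (-s)) ≤
      ∫⁻ s : ℝ, (dbineq_F u i k 1 s + dbineq_F u i k 1 (-s)) := by
    refine lintegral_mono_ae ?_
    have : ∀ᵐ s : ℝ, s ≠ 0 := by
      rw [ae_iff]
      simp
    filter_upwards [this] with s hs
    exact dbineq_ne u hu0 i hi k hk hs
  rw [lintegral_const_mul' _ _ ENNReal.ofReal_ne_top, h2, h2, mul_left_comm] at h3
  exact (ENNReal.mul_le_mul_iff_right (by norm_num) (by norm_num)).1 h3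

lemma dbineq_CK_eq {n : ℕ} (u : Fin (n + 1) → ℝ) (k p : ℕ) :
    CK u k (dbineq_Γ u p) = ∑ i, ENNReal.ofReal (u i) * ∫⁻ s : ℝ, dbineq_F u i k p s := rfl

lemma dbineq_BB {n : ℕ} (u : Fin (n + 1) → ℝ) (k : ℕ) :
    BB u k = (CK u k (dbineq_Γ u 0)).toReal := by
  unfold BB dbineq_Γ
  simp only [pow_zero, one_mul]

lemma dbineq_DD {n : ℕ} (u : Fin (n + 1) → ℝ) (k : ℕ) :
    DD u k = (CK u k (dbineq_Γ u 1)).toReal := by
  unfold DD dbineq_Γ
  simp only [pow_one]

lemma dbineq_CK_mono {n : ℕ} (u : Fin (n + 1) → ℝ) (k : ℕ)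
    {Γ Γ' : ℝ → (Fin (n + 1) → ℝ) → ℝ≥0∞} (h : ∀ s r, Γ s r ≤ Γ' s r) :
    CK u k Γ ≤ CK u k Γ' := by
  unfold CK
  refine Finset.sum_le_sum fun i _ => ?_
  gcongr
  exact h _ _

lemma dbineq_lt_top {n : ℕ} (u : Fin (n + 1) → ℝ) (hu0 : ∀ i, 0 ≤ u i) (hu : ∑ i, u i ^ 2 = 1)
    (k p : ℕ) : CK u k (dbineq_Γ u p) < ⊤ := by
  refine lt_of_le_of_lt (dbineq_CK_mono u k fun s r => ?_) (CK_gauss_lt_top u hu0 hu k p)
  unfold dbineq_Γ
  refine ENNReal.ofReal_le_ofReal ?_
  have h : 0 ≤ ∑ j, |r j| := Finset.sum_nonneg fun j _ => abs_nonneg _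
  gcongr
  linarith

theorem DD_ge {n : ℕ} (u : Fin (n + 1) → ℝ) (hu0 : ∀ i, 0 ≤ u i) (hu : ∑ i, u i ^ 2 = 1)
    (k : ℕ) (hk : k ≤ n) : cc * ((n : ℝ) - k) * BB u k ≤ DD u k := by
  have hkn : (0 : ℝ) ≤ cc * ((n : ℝ) - k) := by
    have : (k : ℝ) ≤ n := by exact_mod_cast hk
    exact mul_nonneg cc_pos.le (by linarith)
  have h1 : ENNReal.ofReal (cc * ((n : ℝ) - k)) * CK u k (dbineq_Γ u 0) ≤
      CK u k (dbineq_Γ u 1) := by
    rw [dbineq_CK_eq, dbineq_CK_eq, Finset.mul_sum]
    refine Finset.sum_le_sum fun i _ => ?_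
    rcases (hu0 i).eq_or_lt with hi | hi
    · rw [← hi]
      simp
    · rw [mul_left_comm]
      gcongr
      exact dbineq_int u hu0 i hi k hk
  rw [dbineq_BB, dbineq_DD]
  have h2 := ENNReal.toReal_mono (dbineq_lt_top u hu0 hu k 1).ne h1
  rwa [ENNReal.toReal_mul, ENNReal.toReal_ofReal hkn] at h2

/-! ### the equality case -/

lemma dbineq_ww_zero : ww 0 = 0 := by
  unfold ww lam
  simp

lemma dbineq_one : ∫⁻ t : ℝ, ENNReal.ofReal (|rho t| * Real.exp (-(rho t) ^ 2 / 2)) =
    ENNReal.ofReal cc * ∫⁻ t : ℝ, ENNReal.ofReal ((if 1 ≤ |t| then 1 else 0) *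
      Real.exp (-(rho t) ^ 2 / 2)) := by
  have hi0 : Integrable (fun z : ℝ => Real.exp (-(rho z) ^ 2 / 2)) := by
    have := out_integrable 0 0
    simpa using this
  have hi1 : Integrable (fun z : ℝ => |rho z| * Real.exp (-(rho z) ^ 2 / 2)) := by
    have := out_integrable 0 1
    simp only [pow_one, zero_add] at this
    refine this.mono ?_ (Filter.Eventually.of_forall fun z => ?_)
    · exact (cksum_measurable_rho.abs.mul
        ((cksum_measurable_rho.pow_const 2).neg.div_const 2).exp).aestronglyMeasurable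
    · rw [Real.norm_of_nonneg (by positivity), Real.norm_of_nonneg (by positivity)]
      gcongr
      linarith
  have hp0 := out_pos 0
  have hn0 := out_neg 0
  have hp1 := out_pos_abs 0
  have hn1 := out_neg_abs 0
  simp only [zero_add, neg_zero, dbineq_ww_zero] at hp0 hn0 hp1 hn1
  have hset : ∀ t : ℝ, 1 ≤ |t| ↔ t ∈ Ici (1 : ℝ) ∪ Iic (-1 : ℝ) := fun t => by
    rw [le_abs']
    constructor
    · rintro (h | h)
      · exact Or.inr h
      · exact Or.inl h
    · rintro (h | h)
      · exact Or.inr h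
      · exact Or.inl h
  have hdisj : Disjoint (Ici (1 : ℝ)) (Iic (-1 : ℝ)) := by
    rw [Set.disjoint_left]
    intro x hx hx'
    simp only [mem_Ici, mem_Iic] at hx hx'
    linarith
  have hms : MeasurableSet (Ici (1 : ℝ) ∪ Iic (-1 : ℝ)) := measurableSet_Ici.union measurableSet_Iic
  have eL : ∫ t : ℝ, |rho t| * Real.exp (-(rho t) ^ 2 / 2) =
      √(2 * π) * (qq 0 * cc) + √(2 * π) * (qq 0 * cc) := by
    calc ∫ t : ℝ, |rho t| * Real.exp (-(rho t) ^ 2 / 2)
        = ∫ t in Ici (1 : ℝ) ∪ Iic (-1 : ℝ), |rho t| * Real.exp (-(rho t) ^ 2 / 2) := by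
          refine (setIntegral_eq_integral_of_forall_compl_eq_zero fun t ht => ?_).symm
          rw [← hset, not_le, abs_lt] at ht
          rw [ckfin_rho_zero ht.1.le ht.2.le]
          simp
      _ = _ := by
          rw [setIntegral_union hdisj measurableSet_Iic hi1.integrableOn hi1.integrableOn,
            hp1, hn1]
  have eR : ∫ t : ℝ, (if 1 ≤ |t| then 1 else 0) * Real.exp (-(rho t) ^ 2 / 2) =
      √(2 * π) * qq 0 + √(2 * π) * qq 0 := by
    calc ∫ t : ℝ, (if 1 ≤ |t| then 1 else 0) * Real.exp (-(rho t) ^ 2 / 2)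
        = ∫ t in Ici (1 : ℝ) ∪ Iic (-1 : ℝ), Real.exp (-(rho t) ^ 2 / 2) := by
          rw [← integral_indicator hms]
          refine integral_congr_ae (Filter.Eventually.of_forall fun t => ?_)
          show (if 1 ≤ |t| then 1 else 0) * Real.exp (-(rho t) ^ 2 / 2) =
            (Ici (1 : ℝ) ∪ Iic (-1 : ℝ)).indicator (fun t => Real.exp (-(rho t) ^ 2 / 2)) t
          by_cases ht : 1 ≤ |t|
          · rw [indicator_of_mem ((hset t).1 ht), if_pos ht, one_mul]
          · rw [indicator_of_notMem (fun h => ht ((hset t).2 h)), if_neg ht, zero_mul]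
      _ = _ := by
          rw [setIntegral_union hdisj measurableSet_Iic hi0.integrableOn hi0.integrableOn,
            hp0, hn0]
  have hi2 : Integrable (fun t : ℝ => (if 1 ≤ |t| then 1 else 0) * Real.exp (-(rho t) ^ 2 / 2)) := by
    have : (fun t : ℝ => (if 1 ≤ |t| then 1 else 0) * Real.exp (-(rho t) ^ 2 / 2)) =
        (Ici (1 : ℝ) ∪ Iic (-1 : ℝ)).indicator (fun t => Real.exp (-(rho t) ^ 2 / 2)) := by
      funext t
      by_cases ht : 1 ≤ |t|
      · rw [indicator_of_mem ((hset t).1 ht), if_pos ht, one_mul]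
      · rw [indicator_of_notMem (fun h => ht ((hset t).2 h)), if_neg ht, zero_mul]
    rw [this]
    exact hi0.indicator hms
  rw [← ofReal_integral_eq_lintegral_ofReal hi1
      (Filter.Eventually.of_forall fun z => by positivity),
    ← ofReal_integral_eq_lintegral_ofReal hi2
      (Filter.Eventually.of_forall fun z => by
        show (0 : ℝ) ≤ (if 1 ≤ |z| then 1 else 0) * Real.exp (-(rho z) ^ 2 / 2)
        split_ifs <;> positivity), eL, eR, ← ENNReal.ofReal_mul cc_pos.le]
  congr 1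
  ring

/-- the weight of one coordinate: `g` applied to the coordinate, times the Gaussian weight. -/
lemma dbineq_fr_insert {m : ℕ} (l : Fin (m + 1)) (t : ℝ) (w : Fin m → ℝ) :
    fr (l.insertNth t w : Fin (m + 1) → ℝ) = (if |t| < 1 then 1 else 0) + fr w := by
  unfold fr
  rw [Finset.card_filter, Finset.card_filter, Fin.sum_univ_succAbove _ l]
  simp only [Fin.insertNth_apply_same, Fin.insertNth_apply_succAbove]

lemma dbineq_coord_aux {m : ℕ} (l : Fin (m + 1)) (k : ℕ) (g : ℝ → ℝ) (hg : Measurable g)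
    (hg0 : ∀ t, 0 ≤ g t) (hg1 : ∀ t, |t| < 1 → g t = 0) :
    ∫⁻ z : Fin (m + 1) → ℝ, {z : Fin (m + 1) → ℝ | fr z = k}.indicator
      (fun z => ENNReal.ofReal (g (z l) * Real.exp (-(∑ j, rho (z j) ^ 2) / 2))) z =
    (∫⁻ t : ℝ, ENNReal.ofReal (g t * Real.exp (-(rho t) ^ 2 / 2))) *
      ∫⁻ w : Fin m → ℝ, {w : Fin m → ℝ | fr w = k}.indicator
        (fun w => ENNReal.ofReal (Real.exp (-(∑ j, rho (w j) ^ 2) / 2))) w := by
  have hS := dbineq_measurableSet_fr (m + 1) k
  have hS' := dbineq_measurableSet_fr m k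
  have hr : ∀ q : ℕ, Measurable fun z : Fin q → ℝ => ∑ j, rho (z j) ^ 2 := fun q =>
    Finset.measurable_sum _ fun j _ =>
      (cksum_measurable_rho.comp (measurable_pi_apply j)).pow_const 2
  have hH : Measurable fun z : Fin (m + 1) → ℝ => {z : Fin (m + 1) → ℝ | fr z = k}.indicator
      (fun z => ENNReal.ofReal (g (z l) * Real.exp (-(∑ j, rho (z j) ^ 2) / 2))) z := by
    refine Measurable.indicator ?_ hS
    exact ((hg.comp (measurable_pi_apply l)).mul
      ((hr (m + 1)).neg.div_const 2).exp).ennreal_ofReal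
  have hw : Measurable fun w : Fin m → ℝ => {w : Fin m → ℝ | fr w = k}.indicator
        (fun w => ENNReal.ofReal (Real.exp (-(∑ j, rho (w j) ^ 2) / 2))) w := by
    refine Measurable.indicator ?_ hS'
    exact ((hr m).neg.div_const 2).exp.ennreal_ofReal
  have ht : Measurable fun t : ℝ => ENNReal.ofReal (g t * Real.exp (-(rho t) ^ 2 / 2)) :=
    (hg.mul ((cksum_measurable_rho.pow_const 2).neg.div_const 2).exp).ennreal_ofReal
  have hmp := (volume_preserving_piFinSuccAbove (fun _ : Fin (m + 1) => ℝ) l).symm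
  have h1 : ∫⁻ z : Fin (m + 1) → ℝ, {z : Fin (m + 1) → ℝ | fr z = k}.indicator
      (fun z => ENNReal.ofReal (g (z l) * Real.exp (-(∑ j, rho (z j) ^ 2) / 2))) z =
      ∫⁻ q : ℝ × (Fin m → ℝ), {z : Fin (m + 1) → ℝ | fr z = k}.indicator
      (fun z => ENNReal.ofReal (g (z l) * Real.exp (-(∑ j, rho (z j) ^ 2) / 2)))
        (l.insertNth q.1 q.2 : Fin (m + 1) → ℝ) := by
    rw [← hmp.lintegral_comp hH]
    rfl
  rw [h1, Measure.volume_eq_prod]
  have h2 : ∀ q : ℝ × (Fin m → ℝ), {z : Fin (m + 1) → ℝ | fr z = k}.indicator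
      (fun z => ENNReal.ofReal (g (z l) * Real.exp (-(∑ j, rho (z j) ^ 2) / 2)))
        (l.insertNth q.1 q.2 : Fin (m + 1) → ℝ) =
      ENNReal.ofReal (g q.1 * Real.exp (-(rho q.1) ^ 2 / 2)) *
        {w : Fin m → ℝ | fr w = k}.indicator
        (fun w => ENNReal.ofReal (Real.exp (-(∑ j, rho (w j) ^ 2) / 2))) q.2 := by
    rintro ⟨t, w⟩
    show indicator _ _ (l.insertNth t w : Fin (m + 1) → ℝ) =
      ENNReal.ofReal (g t * Real.exp (-(rho t) ^ 2 / 2)) * indicator _ _ w
    by_cases htt : |t| < 1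
    · rw [hg1 t htt, zero_mul, ENNReal.ofReal_zero, zero_mul]
      refine indicator_apply_eq_zero.2 fun _ => ?_
      simp only [Fin.insertNth_apply_same, hg1 t htt, zero_mul, ENNReal.ofReal_zero]
    · have e := dbineq_fr_insert l t w
      rw [if_neg htt, zero_add] at e
      by_cases hf : fr w = k
      · rw [indicator_of_mem (show (l.insertNth t w : Fin (m + 1) → ℝ) ∈
          {z : Fin (m + 1) → ℝ | fr z = k} from e.trans hf), indicator_of_mem (show w ∈
          {w : Fin m → ℝ | fr w = k} from hf), ← ENNReal.ofReal_mul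
          (mul_nonneg (hg0 t) (Real.exp_pos _).le)]
        congr 1
        rw [Fin.sum_univ_succAbove _ l]
        simp only [Fin.insertNth_apply_same, Fin.insertNth_apply_succAbove]
        rw [mul_assoc, ← Real.exp_add]
        congr 2
        ring
      · rw [indicator_of_notMem (show (l.insertNth t w : Fin (m + 1) → ℝ) ∉
          {z : Fin (m + 1) → ℝ | fr z = k} from fun h => hf (e.symm.trans h)),
          indicator_of_notMem (show w ∉ {w : Fin m → ℝ | fr w = k} from hf), mul_zero]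
  rw [lintegral_congr h2]
  exact lintegral_prod_mul ht.aemeasurable hw.aemeasurable

lemma dbineq_coord {n : ℕ} (l : Fin n) (k : ℕ) :
    ∫⁻ z : Fin n → ℝ, {z : Fin n → ℝ | fr z = k}.indicator
      (fun z => ENNReal.ofReal (|rho (z l)| * Real.exp (-(∑ j, rho (z j) ^ 2) / 2))) z =
    ENNReal.ofReal cc * ∫⁻ z : Fin n → ℝ, {z : Fin n → ℝ | fr z = k}.indicator
      (fun z => ENNReal.ofReal ((if 1 ≤ |z l| then 1 else 0) *
        Real.exp (-(∑ j, rho (z j) ^ 2) / 2))) z := by
  obtain ⟨m, rfl⟩ : ∃ m, n = m + 1 := ⟨n - 1, by have := l.pos; omega⟩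
  rw [dbineq_coord_aux l k (fun t => |rho t|) cksum_measurable_rho.abs (fun t => abs_nonneg _)
    (fun t ht => by
      rw [abs_lt] at ht
      rw [ckfin_rho_zero ht.1.le ht.2.le, abs_zero]),
    dbineq_coord_aux l k (fun t => if 1 ≤ |t| then 1 else 0)
    (Measurable.ite (measurableSet_le measurable_const measurable_id.abs) measurable_const
      measurable_const) (fun t => by split_ifs <;> norm_num)
    (fun t ht => if_neg (not_le.2 ht)), dbineq_one, mul_assoc]

lemma dbineq_zid {n : ℕ} (k : ℕ) (hk : k ≤ n) :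
    ∫⁻ z : Fin n → ℝ, {z : Fin n → ℝ | fr z = k}.indicator
      (fun z => ENNReal.ofReal ((∑ l, |rho (z l)|) * Real.exp (-(∑ j, rho (z j) ^ 2) / 2))) z =
    ENNReal.ofReal (cc * ((n : ℝ) - k)) * ∫⁻ z : Fin n → ℝ,
      {z : Fin n → ℝ | fr z = k}.indicator
      (fun z => ENNReal.ofReal (Real.exp (-(∑ j, rho (z j) ^ 2) / 2))) z := by
  have hS := dbineq_measurableSet_fr n k
  have hr : Measurable fun z : Fin n → ℝ => ∑ j, rho (z j) ^ 2 :=
    Finset.measurable_sum _ fun j _ =>
      (cksum_measurable_rho.comp (measurable_pi_apply j)).pow_const 2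
  -- linearity for both sides
  have hlin : ∀ g : ℝ → ℝ, Measurable g → (∀ t, 0 ≤ g t) →
      ∫⁻ z : Fin n → ℝ, {z : Fin n → ℝ | fr z = k}.indicator
        (fun z => ENNReal.ofReal ((∑ l, g (z l)) * Real.exp (-(∑ j, rho (z j) ^ 2) / 2))) z =
      ∑ l, ∫⁻ z : Fin n → ℝ, {z : Fin n → ℝ | fr z = k}.indicator
        (fun z => ENNReal.ofReal (g (z l) * Real.exp (-(∑ j, rho (z j) ^ 2) / 2))) z := by
    intro g hg hg0
    rw [← lintegral_finsetSum]
    · refine lintegral_congr fun z => ?_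
      by_cases hf : fr z = k
      · simp only [indicator_of_mem (show z ∈ {z : Fin n → ℝ | fr z = k} from hf)]
        rw [Finset.sum_mul, ENNReal.ofReal_sum_of_nonneg]
        intro l _
        exact mul_nonneg (hg0 _) (Real.exp_pos _).le
      · simp only [indicator_of_notMem (show z ∉ {z : Fin n → ℝ | fr z = k} from hf),
          Finset.sum_const_zero]
    · intro l _
      refine Measurable.indicator ?_ hS
      exact ((hg.comp (measurable_pi_apply l)).mul (hr.neg.div_const 2).exp).ennreal_ofReal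
  rw [hlin (fun t => |rho t|) cksum_measurable_rho.abs (fun t => abs_nonneg _)]
  simp only [dbineq_coord]
  rw [← Finset.mul_sum, ← hlin (fun t => if 1 ≤ |t| then 1 else 0)
    (Measurable.ite (measurableSet_le measurable_const measurable_id.abs) measurable_const
      measurable_const) (fun t => by split_ifs <;> norm_num),
    ENNReal.ofReal_mul cc_pos.le, mul_assoc]
  congr 1
  rw [← lintegral_const_mul' _ _ ENNReal.ofReal_ne_top]
  refine lintegral_congr fun z => ?_
  by_cases hf : fr z = k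
  · rw [indicator_of_mem (show z ∈ {z : Fin n → ℝ | fr z = k} from hf),
      indicator_of_mem (show z ∈ {z : Fin n → ℝ | fr z = k} from hf)]
    have hkn : (0 : ℝ) ≤ (n : ℝ) - k := by
      have : (k : ℝ) ≤ n := by exact_mod_cast hk
      linarith
    rw [← ENNReal.ofReal_mul hkn]
    congr 2
    have h1 : ∀ l, (if 1 ≤ |z l| then (1 : ℝ) else 0) = 1 - (if |z l| < 1 then 1 else 0) := by
      intro l
      by_cases h : 1 ≤ |z l|
      · rw [if_pos h, if_neg (not_lt.2 h)]; ring
      · rw [if_neg h, if_pos (not_le.1 h)]; ring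
    have h2 : ((fr z : ℕ) : ℝ) = ∑ l, (if |z l| < 1 then (1 : ℝ) else 0) := by
      unfold fr
      rw [Finset.card_filter]
      push_cast
      rfl
    rw [hf] at h2
    simp only [h1, Finset.sum_sub_distrib, ← h2]
    simp
  · rw [indicator_of_notMem (show z ∉ {z : Fin n → ℝ | fr z = k} from hf),
      indicator_of_notMem (show z ∉ {z : Fin n → ℝ | fr z = k} from hf), mul_zero]

theorem DD_eq_single {n : ℕ} (u : Fin (n + 1) → ℝ) (hu0 : ∀ i, 0 ≤ u i) (hu : ∑ i, u i ^ 2 = 1)
    (i : Fin (n + 1)) (hi : u i = 1) (k : ℕ) (hk : k ≤ n) :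
    DD u k = cc * ((n : ℝ) - k) * BB u k := by
  have hkn : (0 : ℝ) ≤ cc * ((n : ℝ) - k) := by
    have : (k : ℝ) ≤ n := by exact_mod_cast hk
    exact mul_nonneg cc_pos.le (by linarith)
  have hi0 : 0 < u i := by rw [hi]; norm_num
  have hz : ∀ j, u (i.succAbove j) = 0 := by
    have h1 := hu
    rw [Fin.sum_univ_succAbove _ i, hi] at h1
    have h2 : ∑ j, u (i.succAbove j) ^ 2 = 0 := by linarith
    intro j
    have h3 := (Finset.sum_eq_zero_iff_of_nonneg (fun j _ => sq_nonneg _)).1 h2 j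
      (Finset.mem_univ j)
    exact pow_eq_zero_iff (two_ne_zero) |>.1 h3
  have hF : ∀ s, dbineq_F u i k 1 s = ENNReal.ofReal (cc * ((n : ℝ) - k)) *
      dbineq_F u i k 0 s := by
    intro s
    rw [dbineq_F_eq u i hi0, dbineq_F_eq u i hi0, mul_left_comm]
    congr 1
    have h0 : ∀ p (z : Fin n → ℝ), dbineq_G (fun j => u (i.succAbove j)) (dbineq_l (u i)) p s z =
        (∑ l, |rho (z l)|) ^ p * Real.exp (-(∑ j, rho (z j) ^ 2) / 2) := by
      intro p z
      unfold dbineq_G
      simp only [hz, zero_mul, Finset.sum_const_zero, mul_zero, zero_add]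
      have : dbineq_l (u i) 0 = 1 := if_pos ⟨by linarith, hi0.le⟩
      rw [this, one_mul]
    have h1 := dbineq_zid (n := n) k hk
    have h2 : ∀ (p : ℕ) (z : Fin n → ℝ), ENNReal.ofReal ({z : Fin n → ℝ | fr z = k}.indicator
        (dbineq_G (fun j => u (i.succAbove j)) (dbineq_l (u i)) p s) z) =
        {z : Fin n → ℝ | fr z = k}.indicator (fun z => ENNReal.ofReal
          ((∑ l, |rho (z l)|) ^ p * Real.exp (-(∑ j, rho (z j) ^ 2) / 2))) z := by
      intro p z
      by_cases hf : fr z = k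
      · rw [indicator_of_mem (show z ∈ {z : Fin n → ℝ | fr z = k} from hf),
          indicator_of_mem (show z ∈ {z : Fin n → ℝ | fr z = k} from hf), h0]
      · rw [indicator_of_notMem (show z ∉ {z : Fin n → ℝ | fr z = k} from hf),
          indicator_of_notMem (show z ∉ {z : Fin n → ℝ | fr z = k} from hf),
          ENNReal.ofReal_zero]
    rw [lintegral_congr (h2 1), lintegral_congr (h2 0)]
    simp only [pow_one, pow_zero, one_mul]
    exact h1
  have hCK : CK u k (dbineq_Γ u 1) = ENNReal.ofReal (cc * ((n : ℝ) - k)) *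
      CK u k (dbineq_Γ u 0) := by
    rw [dbineq_CK_eq, dbineq_CK_eq, Fin.sum_univ_succAbove _ i, Fin.sum_univ_succAbove _ i]
    simp only [hz, ENNReal.ofReal_zero, zero_mul, Finset.sum_const_zero, add_zero]
    rw [mul_left_comm]
    congr 1
    rw [← lintegral_const_mul' _ _ ENNReal.ofReal_ne_top]
    exact lintegral_congr fun s => hF s
  rw [dbineq_BB, dbineq_DD, hCK, ENNReal.toReal_mul, ENNReal.toReal_ofReal hkn]

end Pool.Agent.CubeWidth
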