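import Mathlib

/-!
Basic definitions for the mean width of central sections of the cube.
-/

namespace Pool.Agent.CubeWidth

open MeasureTheory Real Set

/-- `c = sqrt (2/pi)`. -/
noncomputable def cc : ℝ := √(2 / π)

/-- `m(x) = 2 Phi(x) - 1 = erf (x/sqrt 2)`. -/
noncomputable def mm (x : ℝ) : ℝ := ∫ t in (0 : ℝ)..x, cc * Real.exp (-t ^ 2 / 2)

/-- Gaussian tail `Q(x) = P(g > x)`. -/
noncomputable def qq (x : ℝ) : ℝ := (1 - mm x) / 2

/-- sign of a Boolean. -/
def sg (b : Bool) : ℝ := if b then 1 else -1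

section
variable {ι : Type*} [Fintype ι] [DecidableEq ι]

/-- `X = sum u_i eps_i`. -/
def XX (u : ι → ℝ) (e : ι → Bool) : ℝ := ∑ i, u i * sg (e i)

/-- expectation with respect to uniform independent signs. -/
noncomputable def EE (f : (ι → Bool) → ℝ) : ℝ := (∑ e, f e) / 2 ^ Fintype.card ι

/-- `E (sum u_i eps_i)_+` where the signs are independent with `E eps_i = - m_i`. -/
noncomputable def GG (u m : ι → ℝ) : ℝ :=
  EE (fun e => max (XX u e) 0 * ∏ i, (1 - m i * sg (e i)))

/-- the function `F_u(s)`: biases `m_i = m(s u_i)`. -/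
noncomputable def FF (u : ι → ℝ) (s : ℝ) : ℝ := GG u (fun i => mm (s * u i))

end

/-- `F_u(s)` for the extremal vector `(1,1)/sqrt 2`. -/
noncomputable def TT (s : ℝ) : ℝ := √2 * qq (s / √2) ^ 2

/-- product of one dimensional standard Gaussian densities. -/
noncomputable def gw {n : ℕ} (x : Fin n → ℝ) : ℝ := ∏ i, (cc / 2 * Real.exp (-(x i) ^ 2 / 2))

/-- support function of the central section of the cube `[-1,1]^n` orthogonal to `u`, in the
direction `x` (coordinates). -/
noncomputable def hh {n : ℕ} (u x : Fin n → ℝ) : ℝ :=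
  sSup {r : ℝ | ∃ y : Fin n → ℝ, (∀ i, |y i| ≤ 1) ∧ ∑ i, y i * u i = 0 ∧ r = ∑ i, x i * y i}

/-- one sided sign. -/
noncomputable def sgn1 (y : ℝ) : ℝ := if 0 < y then 1 else -1

/-- the slope process `S_x(s) = sum u_i sign (x_i - s u_i)`. -/
noncomputable def SS {n : ℕ} (u x : Fin n → ℝ) (s : ℝ) : ℝ := ∑ i, u i * sgn1 (x i - s * u i)

end Pool.Agent.CubeWidth
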