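import Pool.Agent.Lib.MP_e8b094_gt.EBasic

/-!
Further definitions.
-/

namespace Pool.Agent.CubeWidth

open MeasureTheory Real Set Filter Topology

/-- `Psi(y) = - log (1 - m(y))` -/
noncomputable def psi (y : ℝ) : ℝ := - Real.log (1 - mm y)

/-- `A(x) = - (1/2) log (1 - m(x)^2)` -/
noncomputable def aa (x : ℝ) : ℝ := - (1 / 2) * Real.log (1 - mm x ^ 2)

/-- `B(x) = (1/2) log ((1 + m(x)) / (1 - m(x)))` -/
noncomputable def bb (x : ℝ) : ℝ := (1 / 2) * Real.log ((1 + mm x) / (1 - mm x))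

/-- the sum of all terms except the `i`-th. -/
def RR {n : ℕ} (u : Fin n → ℝ) (i : Fin n) (e : Fin n → Bool) : ℝ :=
  ∑ j ∈ Finset.univ.erase i, u j * sg (e j)

lemma psi_zero : psi 0 = 0 := by simp [psi]

lemma aa_zero : aa 0 = 0 := by simp [aa]

lemma bb_zero : bb 0 = 0 := by simp [bb]

lemma aa_add_bb (x : ℝ) : aa x + bb x = psi x := by
  have h1 : 0 < 1 - mm x := by linarith [mm_lt_one x]
  have h2 : 0 < 1 + mm x := by linarith [neg_one_lt_mm x]
  unfold aa bb psi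
  have h3 : 1 - mm x ^ 2 = (1 - mm x) * (1 + mm x) := by ring
  rw [h3, Real.log_mul h1.ne' h2.ne', Real.log_div h2.ne' h1.ne']
  ring

end Pool.Agent.CubeWidth
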