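import Pool.Agent.Lib.MP_e8b094_gt.Defs2

/-!
P20: the Gaussian integral of the positive part of the slope process.
-/

namespace Pool.Agent.CubeWidth

open MeasureTheory Real Set Filter Topology

/-- the one dimensional density -/
private noncomputable def distrDens (t : ℝ) : ℝ := cc / 2 * Real.exp (-t ^ 2 / 2)

private lemma distr_dens_eq (t : ℝ) : distrDens t = (cc * Real.exp (-t ^ 2 / 2)) / 2 := by
  unfold distrDens; ring

private lemma distr_integrable_dens : Integrable distrDens := by
  have h : distrDens = fun t => (cc * Real.exp (-t ^ 2 / 2)) / 2 := by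
    ext t; exact distr_dens_eq t
  rw [h]
  exact integrable_dens.div_const 2

/-- the part of the density where the sign of `t - c` is `b` -/
private noncomputable def distrHalf (c : ℝ) (b : Bool) (t : ℝ) : ℝ :=
  if decide (c < t) = b then distrDens t else 0

private lemma distr_half_true (c : ℝ) : distrHalf c true = (Ioi c).indicator distrDens := by
  ext t
  unfold distrHalf
  by_cases h : c < t
  · simp [h, indicator]
  · simp [h, indicator]

private lemma distr_half_false (c : ℝ) : distrHalf c false = (Iic c).indicator distrDens := by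
  ext t
  unfold distrHalf
  by_cases h : c < t
  · have h2 : ¬ t ≤ c := not_le.2 h
    simp [h, indicator]
  · have h2 : t ≤ c := not_lt.1 h
    simp [h2, indicator]

private lemma distr_integrable_half (c : ℝ) (b : Bool) : Integrable (distrHalf c b) := by
  cases b
  · rw [distr_half_false]
    exact distr_integrable_dens.indicator measurableSet_Iic
  · rw [distr_half_true]
    exact distr_integrable_dens.indicator measurableSet_Ioi

private lemma distr_integral_half (c : ℝ) (b : Bool) :
    ∫ t, distrHalf c b t = (1 - mm c * sg b) / 2 := by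
  cases b
  · rw [distr_half_false, integral_indicator measurableSet_Iic]
    simp only [distr_dens_eq, sg_false]
    rw [integral_div, ← one_add_mm_eq]
    ring
  · rw [distr_half_true, integral_indicator measurableSet_Ioi]
    simp only [distr_dens_eq, sg_true]
    rw [integral_div, ← one_sub_mm_eq]
    ring

private lemma distr_point {n : ℕ} (u x : Fin n → ℝ) (s : ℝ) :
    max (SS u x s) 0 * gw x =
      ∑ e : Fin n → Bool, max (XX u e) 0 * ∏ i, distrHalf (s * u i) (e i) (x i) := by
  classical
  have h1 : SS u x s = XX u (fun i => decide (s * u i < x i)) := by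
    unfold SS XX
    refine Finset.sum_congr rfl fun i _ => ?_
    congr 1
    unfold sgn1 sg
    by_cases h : s * u i < x i
    · rw [if_pos (by linarith), if_pos (by simpa using h)]
    · rw [if_neg (by linarith), if_neg (by simpa using h)]
  rw [Finset.sum_eq_single (fun i => decide (s * u i < x i))]
  · rw [h1]
    congr 1
    unfold gw
    refine Finset.prod_congr rfl fun i _ => ?_
    simp [distrHalf, distrDens]
  · intro e _ he
    obtain ⟨i, hi⟩ := Function.ne_iff.1 he
    have h2 : ∏ i, distrHalf (s * u i) (e i) (x i) = 0 := by
      refine Finset.prod_eq_zero (Finset.mem_univ i) ?_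
      unfold distrHalf
      rw [if_neg]
      exact fun h => hi h.symm
    rw [h2, mul_zero]
  · intro h
    exact absurd (Finset.mem_univ _) h

private lemma distr_integrable_prod {n : ℕ} (u : Fin n → ℝ) (s : ℝ) (e : Fin n → Bool) :
    Integrable (fun x : Fin n → ℝ => ∏ i, distrHalf (s * u i) (e i) (x i)) :=
  Integrable.fintype_prod (f := fun i t => distrHalf (s * u i) (e i) t)
    (fun i => distr_integrable_half (s * u i) (e i))

theorem integrable_SS {n : ℕ} (u : Fin n → ℝ) (s : ℝ) :
    Integrable (fun x : Fin n → ℝ => max (SS u x s) 0 * gw x) := by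
  simp only [distr_point]
  exact integrable_finsetSum _ fun e _ => (distr_integrable_prod u s e).const_mul _

theorem integral_SS {n : ℕ} (u : Fin n → ℝ) (s : ℝ) :
    ∫ x : Fin n → ℝ, max (SS u x s) 0 * gw x = FF u s := by
  simp only [distr_point]
  rw [integral_finsetSum _ fun e _ => (distr_integrable_prod u s e).const_mul _]
  unfold FF GG EE
  rw [Finset.sum_div]
  refine Finset.sum_congr rfl fun e _ => ?_
  rw [integral_const_mul, integral_fintype_prod_volume_eq_prod
    (f := fun i t => distrHalf (s * u i) (e i) t)]
  simp only [distr_integral_half]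
  rw [Finset.prod_div_distrib, Finset.prod_const, Finset.card_univ, mul_div_assoc]

private lemma distr_abs_dens_eq (t : ℝ) : |t| * distrDens t =
    cc / 2 * (|t| * Real.exp (-(1 / 2) * |t| ^ 2)) := by
  unfold distrDens
  rw [sq_abs]
  have : -t ^ 2 / 2 = -(1 / 2) * t ^ 2 := by ring
  rw [this]; ring

private lemma distr_integrable_abs : Integrable (fun t : ℝ => |t| * distrDens t) := by
  have h := (integrable_mul_exp_neg_mul_sq (b := 1 / 2) (by norm_num)).norm
  have h2 : (fun t : ℝ => |t| * distrDens t) =
      fun t => cc / 2 * ‖t * Real.exp (-(1 / 2) * t ^ 2)‖ := by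
    ext t
    rw [distr_abs_dens_eq, norm_mul, Real.norm_eq_abs, Real.norm_eq_abs, Real.abs_exp, sq_abs]
  rw [h2]
  exact h.const_mul _

private lemma distr_integral_abs : ∫ t : ℝ, |t| * distrDens t = cc := by
  simp only [distr_abs_dens_eq]
  rw [integral_comp_abs (f := fun t => cc / 2 * (t * Real.exp (-(1 / 2) * t ^ 2))),
    integral_const_mul]
  have h3 : ∫ t in Ioi (0 : ℝ), t * Real.exp (-(1 / 2) * t ^ 2) = 1 := by
    have h4 := integral_rpow_mul_exp_neg_mul_rpow (p := 2) (q := 1) (b := 1 / 2) (by norm_num)
      (by norm_num) (by norm_num)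
    simp only [Real.rpow_one, Real.rpow_two] at h4
    have h5 : ((1 : ℝ) + 1) / 2 = 1 := by norm_num
    have h6 : -((1 : ℝ) + 1) / 2 = -1 := by norm_num
    rw [h4, h5, h6, Real.Gamma_one, Real.rpow_neg_one]
    norm_num
  rw [h3]
  ring

theorem integrable_abs_gw {n : ℕ} (i : Fin n) :
    Integrable (fun x : Fin n → ℝ => |x i| * gw x) := by
  classical
  have h1 : (fun x : Fin n → ℝ => |x i| * gw x) =
      fun x => ∏ j, (if j = i then fun t => |t| * distrDens t else distrDens) (x j) := by
    ext x
    rw [← Finset.mul_prod_erase Finset.univ _ (Finset.mem_univ i), if_pos rfl]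
    unfold gw
    rw [← Finset.mul_prod_erase Finset.univ _ (Finset.mem_univ i), ← mul_assoc]
    congr 1
    refine Finset.prod_congr rfl fun j hj => ?_
    rw [if_neg (Finset.ne_of_mem_erase hj)]
    rfl
  rw [h1]
  refine Integrable.fintype_prod
    (f := fun j => if j = i then fun t => |t| * distrDens t else distrDens) fun j => ?_
  by_cases h : j = i
  · rw [if_pos h]; exact distr_integrable_abs
  · rw [if_neg h]; exact distr_integrable_dens

theorem integral_abs_gw {n : ℕ} (i : Fin n) : ∫ x : Fin n → ℝ, |x i| * gw x = cc := by
  classical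
  have h1 : (fun x : Fin n → ℝ => |x i| * gw x) =
      fun x => ∏ j, (if j = i then fun t => |t| * distrDens t else distrDens) (x j) := by
    ext x
    rw [← Finset.mul_prod_erase Finset.univ _ (Finset.mem_univ i), if_pos rfl]
    unfold gw
    rw [← Finset.mul_prod_erase Finset.univ _ (Finset.mem_univ i), ← mul_assoc]
    congr 1
    refine Finset.prod_congr rfl fun j hj => ?_
    rw [if_neg (Finset.ne_of_mem_erase hj)]
    rfl
  rw [h1, integral_fintype_prod_volume_eq_prod
    (f := fun j => if j = i then fun t => |t| * distrDens t else distrDens)]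
  rw [← Finset.mul_prod_erase Finset.univ _ (Finset.mem_univ i), if_pos rfl, distr_integral_abs]
  have h2 : ∫ t, distrDens t = 1 := by
    have h3 := distr_integral_half 0 true
    have h4 := distr_integral_half 0 false
    have h5 : distrDens = fun t => distrHalf 0 true t + distrHalf 0 false t := by
      ext t
      unfold distrHalf
      by_cases h : (0 : ℝ) < t <;> simp [h]
    rw [h5, integral_add (distr_integrable_half _ _) (distr_integrable_half _ _), h3, h4]
    norm_num
  rw [Finset.prod_eq_one, mul_one]
  intro j hj
  rw [if_neg (Finset.ne_of_mem_erase hj), h2]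

end Pool.Agent.CubeWidth
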