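import Pool.Agent.Lib.MP_e8b094_gt.Gauss

/-!
Elementary facts about the expectation `EE` over independent signs.
-/

namespace Pool.Agent.CubeWidth

open MeasureTheory Real Set Filter Topology

variable {ι : Type*} [Fintype ι] [DecidableEq ι]

@[simp] lemma sg_true : sg true = 1 := by simp [sg]
@[simp] lemma sg_false : sg false = -1 := by simp [sg]
@[simp] lemma sg_not (b : Bool) : sg (!b) = - sg b := by cases b <;> simp
@[simp] lemma sg_mul_self (b : Bool) : sg b * sg b = 1 := by cases b <;> simp
@[simp] lemma sg_sq (b : Bool) : sg b ^ 2 = 1 := by cases b <;> simp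
@[simp] lemma abs_sg (b : Bool) : |sg b| = 1 := by cases b <;> simp
lemma sg_eq (b : Bool) : sg b = 1 ∨ sg b = -1 := by cases b <;> simp

lemma EE_add (f g : (ι → Bool) → ℝ) : EE (fun e => f e + g e) = EE f + EE g := by
  unfold EE; rw [Finset.sum_add_distrib, add_div]

lemma EE_sub (f g : (ι → Bool) → ℝ) : EE (fun e => f e - g e) = EE f - EE g := by
  unfold EE; rw [Finset.sum_sub_distrib, sub_div]

lemma EE_neg (f : (ι → Bool) → ℝ) : EE (fun e => - f e) = - EE f := by
  unfold EE; rw [Finset.sum_neg_distrib, neg_div]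

lemma EE_mul_left (a : ℝ) (f : (ι → Bool) → ℝ) : EE (fun e => a * f e) = a * EE f := by
  unfold EE; rw [← Finset.mul_sum, mul_div_assoc]

lemma EE_mul_right (a : ℝ) (f : (ι → Bool) → ℝ) : EE (fun e => f e * a) = EE f * a := by
  unfold EE; rw [← Finset.sum_mul]; ring

lemma EE_div (a : ℝ) (f : (ι → Bool) → ℝ) : EE (fun e => f e / a) = EE f / a := by
  unfold EE; rw [← Finset.sum_div]; ring

lemma EE_sum {κ : Type*} (s : Finset κ) (f : κ → (ι → Bool) → ℝ) :
    EE (fun e => ∑ k ∈ s, f k e) = ∑ k ∈ s, EE (f k) := by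
  unfold EE; rw [Finset.sum_comm, Finset.sum_div]

lemma EE_const (a : ℝ) : EE (fun _ : ι → Bool => a) = a := by
  unfold EE
  rw [Finset.sum_const, Finset.card_univ]
  simp

lemma EE_mono {f g : (ι → Bool) → ℝ} (h : ∀ e, f e ≤ g e) : EE f ≤ EE g := by
  unfold EE
  exact div_le_div_of_nonneg_right (Finset.sum_le_sum fun e _ => h e) (by positivity)

lemma EE_lt {f g : (ι → Bool) → ℝ} (h : ∀ e, f e ≤ g e) (e0 : ι → Bool) (h0 : f e0 < g e0) :
    EE f < EE g := by
  unfold EE
  exact div_lt_div_of_pos_right (Finset.sum_lt_sum (fun e _ => h e) ⟨e0, Finset.mem_univ _, h0⟩)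
    (by positivity)

lemma EE_nonneg {f : (ι → Bool) → ℝ} (h : ∀ e, 0 ≤ f e) : 0 ≤ EE f := by
  unfold EE
  exact div_nonneg (Finset.sum_nonneg fun e _ => h e) (by positivity)

lemma EE_congr {f g : (ι → Bool) → ℝ} (h : ∀ e, f e = g e) : EE f = EE g := by
  rw [show f = g from funext h]

/-- flip all signs -/
lemma EE_flip (f : (ι → Bool) → ℝ) : EE (fun e => f (fun i => !(e i))) = EE f := by
  unfold EE
  congr 1
  exact Fintype.sum_equiv (Equiv.piCongrRight fun _ => Equiv.boolNot) _ _ (fun e => rfl)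

/-- flip one sign -/
lemma EE_flip_one (i : ι) (f : (ι → Bool) → ℝ) :
    EE (fun e => f (Function.update e i (!(e i)))) = EE f := by
  unfold EE
  congr 1
  refine Finset.sum_bij' (fun e _ => Function.update e i (!(e i)))
    (fun e _ => Function.update e i (!(e i))) ?_ ?_ ?_ ?_ ?_
  · intro e _; exact Finset.mem_univ _
  · intro e _; exact Finset.mem_univ _
  · intro e _; simp
  · intro e _; simp
  · intro e _; rfl

/-- averaging over the sign `i`. -/
lemma EE_split (i : ι) (f : (ι → Bool) → ℝ) :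
    EE f = EE (fun e => (f (Function.update e i true) + f (Function.update e i false)) / 2) := by
  have h1 := EE_flip_one i f
  have h2 : EE (fun e => (f (Function.update e i true) + f (Function.update e i false)) / 2)
      = EE (fun e => (f e + f (Function.update e i (!(e i)))) / 2) := by
    apply EE_congr
    intro e
    rcases hb : e i with _ | _
    · have : Function.update e i false = e := by rw [← hb]; exact Function.update_eq_self i e
      simp only [Bool.not_false]
      rw [this]; ring
    · have : Function.update e i true = e := by rw [← hb]; exact Function.update_eq_self i e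
      simp only [Bool.not_true]
      rw [this]
  rw [h2, EE_div, EE_add, h1]; ring

/-- independence: expectation of a product of functions of single signs. -/
lemma EE_prod (φ : ι → Bool → ℝ) :
    EE (fun e => ∏ i, φ i (e i)) = ∏ i, (φ i true + φ i false) / 2 := by
  unfold EE
  have h : ∑ e : ι → Bool, ∏ i, φ i (e i) = ∏ i, (φ i true + φ i false) := by
    have := Finset.prod_univ_sum (fun _ : ι => (Finset.univ : Finset Bool)) (fun i b => φ i b)
    rw [Fintype.piFinset_univ] at this
    rw [← this]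
    apply Finset.prod_congr rfl
    intro i _
    simp
  rw [h, Finset.prod_div_distrib, Finset.prod_const, Finset.card_univ]

lemma EE_sg (i : ι) : EE (fun e : ι → Bool => sg (e i)) = 0 := by
  rw [EE_split i]; simp [EE_const]

lemma EE_sg_mul_sg (i j : ι) : EE (fun e : ι → Bool => sg (e i) * sg (e j)) = if i = j then 1 else 0 := by
  by_cases h : i = j
  · subst h; simp [EE_const]
  · rw [if_neg h, EE_split i]
    have : ∀ e : ι → Bool, Function.update e i true j = e j := fun e => by
      rw [Function.update_of_ne (Ne.symm h)]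
    have h2 : ∀ e : ι → Bool, Function.update e i false j = e j := fun e => by
      rw [Function.update_of_ne (Ne.symm h)]
    simp [this, h2, EE_const]

lemma XX_not (u : ι → ℝ) (e : ι → Bool) : XX u (fun i => !(e i)) = - XX u e := by
  unfold XX; simp

lemma XX_update (u : ι → ℝ) (e : ι → Bool) (i : ι) (b : Bool) :
    XX u (Function.update e i b) = u i * sg b + ∑ j ∈ Finset.univ.erase i, u j * sg (e j) := by
  unfold XX
  rw [← Finset.add_sum_erase _ _ (Finset.mem_univ i)]
  congr 1
  · simp
  · apply Finset.sum_congr rfl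
    intro j hj
    rw [Function.update_of_ne (Finset.ne_of_mem_erase hj)]

lemma XX_erase (u : ι → ℝ) (e : ι → Bool) (i : ι) :
    XX u e = u i * sg (e i) + ∑ j ∈ Finset.univ.erase i, u j * sg (e j) := by
  unfold XX
  rw [← Finset.add_sum_erase _ _ (Finset.mem_univ i)]

lemma EE_XX (u : ι → ℝ) : EE (fun e => XX u e) = 0 := by
  unfold XX
  rw [EE_sum]
  apply Finset.sum_eq_zero
  intro i _
  rw [EE_mul_left, EE_sg, mul_zero]

lemma EE_XX_mul_sg (u : ι → ℝ) (i : ι) : EE (fun e => XX u e * sg (e i)) = u i := by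
  have : ∀ e : ι → Bool, XX u e * sg (e i) = ∑ j, u j * (sg (e j) * sg (e i)) := by
    intro e; unfold XX; rw [Finset.sum_mul]; apply Finset.sum_congr rfl; intro j _; ring
  rw [EE_congr this, EE_sum]
  rw [Finset.sum_eq_single i]
  · rw [EE_mul_left, EE_sg_mul_sg]; simp
  · intro j _ hj; rw [EE_mul_left, EE_sg_mul_sg, if_neg hj, mul_zero]
  · intro h; exact absurd (Finset.mem_univ i) h

lemma EE_XX_sq (u : ι → ℝ) : EE (fun e => XX u e ^ 2) = ∑ i, u i ^ 2 := by
  have : ∀ e : ι → Bool, XX u e ^ 2 = ∑ j, u j * (XX u e * sg (e j)) := by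
    intro e
    have h : XX u e ^ 2 = (∑ j, u j * sg (e j)) * XX u e := by
      rw [sq]; rfl
    rw [h, Finset.sum_mul]; apply Finset.sum_congr rfl; intro j _; ring
  rw [EE_congr this, EE_sum]
  apply Finset.sum_congr rfl
  intro j _
  rw [EE_mul_left, EE_XX_mul_sg]; ring

/-- `X_+ = (X + |X|)/2`. -/
lemma pos_part_eq (x : ℝ) : max x 0 = (x + |x|) / 2 := by
  rcases le_total x 0 with h | h
  · rw [max_eq_right h, abs_of_nonpos h]; ring
  · rw [max_eq_left h, abs_of_nonneg h]; ring

/-- `E X_+ = E|X| / 2`. -/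
lemma EE_pos (u : ι → ℝ) : EE (fun e => max (XX u e) 0) = EE (fun e => |XX u e|) / 2 := by
  rw [EE_congr (fun e => pos_part_eq (XX u e)), EE_div, EE_add, EE_XX, zero_add]

/-- `E |X| eps_i = 0`. -/
lemma EE_abs_mul_sg (u : ι → ℝ) (i : ι) : EE (fun e => |XX u e| * sg (e i)) = 0 := by
  have h := EE_flip (fun e : ι → Bool => |XX u e| * sg (e i))
  simp only [XX_not, abs_neg, sg_not, mul_neg] at h
  rw [EE_neg] at h
  linarith

/-- `E X_+ eps_i = u_i / 2`. -/
lemma EE_pos_mul_sg (u : ι → ℝ) (i : ι) : EE (fun e => max (XX u e) 0 * sg (e i)) = u i / 2 := by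
  have : ∀ e : ι → Bool, max (XX u e) 0 * sg (e i) = (XX u e * sg (e i) + |XX u e| * sg (e i)) / 2 := by
    intro e; rw [pos_part_eq]; ring
  rw [EE_congr this, EE_div, EE_add, EE_XX_mul_sg, EE_abs_mul_sg, add_zero]

/-- `|u_i| <= E |X|`. -/
lemma abs_le_EE (u : ι → ℝ) (i : ι) : |u i| ≤ EE (fun e => |XX u e|) := by
  have h1 := EE_XX_mul_sg u i
  have h2 : EE (fun e => XX u e * sg (e i)) ≤ EE (fun e => |XX u e|) := by
    apply EE_mono; intro e
    calc XX u e * sg (e i) ≤ |XX u e * sg (e i)| := le_abs_self _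
      _ = |XX u e| := by rw [abs_mul, abs_sg, mul_one]
  have h3 : - EE (fun e => XX u e * sg (e i)) ≤ EE (fun e => |XX u e|) := by
    rw [← EE_neg]
    apply EE_mono; intro e
    calc -(XX u e * sg (e i)) ≤ |XX u e * sg (e i)| := neg_le_abs _
      _ = |XX u e| := by rw [abs_mul, abs_sg, mul_one]
  rw [h1] at h2 h3
  exact abs_le.2 ⟨by linarith, h2⟩

end Pool.Agent.CubeWidth
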