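import Pool.Agent.Lib.MP_e8b094_gt.Defs2

/-!
# MP_e8b094_gt, piece P1: convexity properties of `psi` (helper60)
-/

namespace Pool.Agent.CubeWidth

open MeasureTheory Real Set Filter Topology

/-- inverse Mills ratio (times a constant): derivative of `psi`. -/
noncomputable def psi_lam (y : ℝ) : ℝ := cc * Real.exp (-y ^ 2 / 2) / (1 - mm y)

lemma psi_one_sub_pos (y : ℝ) : 0 < 1 - mm y := by linarith [mm_lt_one y]

lemma psi_lam_pos (y : ℝ) : 0 < psi_lam y := by
  unfold psi_lam
  have := cc_pos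
  have := psi_one_sub_pos y
  positivity

lemma psi_le_lam (y : ℝ) : y ≤ psi_lam y := by
  unfold psi_lam
  rw [le_div_iff₀ (psi_one_sub_pos y)]
  exact mul_one_sub_mm_le y

lemma psi_hasDerivAt_exp (y : ℝ) :
    HasDerivAt (fun y : ℝ => cc * Real.exp (-y ^ 2 / 2)) (-(y * (cc * Real.exp (-y ^ 2 / 2)))) y := by
  have h1 : HasDerivAt (fun y : ℝ => -y ^ 2 / 2) (-y) y := by
    exact (((hasDerivAt_pow 2 y).neg).div_const 2).congr_deriv (by simp; ring)
  exact ((h1.exp).const_mul cc).congr_deriv (by ring)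

lemma psi_hasDerivAt (y : ℝ) : HasDerivAt psi (psi_lam y) y := by
  have h1 : HasDerivAt (fun y => 1 - mm y) (-(cc * Real.exp (-y ^ 2 / 2))) y := by
    exact ((hasDerivAt_const y (1 : ℝ)).sub (hasDerivAt_mm y)).congr_deriv (by ring)
  have h2 := (h1.log (psi_one_sub_pos y).ne').neg
  refine h2.congr_deriv ?_
  unfold psi_lam
  ring

lemma psi_lam_hasDerivAt (y : ℝ) : HasDerivAt psi_lam (psi_lam y * (psi_lam y - y)) y := by
  have h1 : HasDerivAt (fun y => 1 - mm y) (-(cc * Real.exp (-y ^ 2 / 2))) y := by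
    exact ((hasDerivAt_const y (1 : ℝ)).sub (hasDerivAt_mm y)).congr_deriv (by ring)
  have h2 := (psi_hasDerivAt_exp y).div h1 (psi_one_sub_pos y).ne'
  refine h2.congr_deriv ?_
  unfold psi_lam
  have := (psi_one_sub_pos y).ne'
  field_simp
  ring

/-- `w = sqrt (y^2 + 4 p) - y`. -/
noncomputable def psi_w (p y : ℝ) : ℝ := √(y ^ 2 + 4 * p) - y

lemma psi_R_pos {p : ℝ} (hp : 0 < p) (y : ℝ) : 0 < √(y ^ 2 + 4 * p) := by
  apply Real.sqrt_pos.mpr
  positivity

lemma psi_R_sq {p : ℝ} (hp : 0 < p) (y : ℝ) : √(y ^ 2 + 4 * p) ^ 2 = y ^ 2 + 4 * p := by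
  apply Real.sq_sqrt
  positivity

lemma psi_w_pos {p : ℝ} (hp : 0 < p) (y : ℝ) : 0 < psi_w p y := by
  unfold psi_w
  have h1 := psi_R_pos hp y
  have h2 := psi_R_sq hp y
  nlinarith

lemma psi_w_hasDerivAt {p : ℝ} (hp : 0 < p) (y : ℝ) :
    HasDerivAt (psi_w p) (-(psi_w p y / √(y ^ 2 + 4 * p))) y := by
  have h1 : HasDerivAt (fun y : ℝ => y ^ 2 + 4 * p) (2 * y) y := by
    exact ((hasDerivAt_pow 2 y).add_const _).congr_deriv (by simp)
  have h2 := (h1.sqrt (by positivity)).sub (hasDerivAt_id y)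
  refine h2.congr_deriv ?_
  unfold psi_w
  have := (psi_R_pos hp y).ne'
  field_simp
  ring

lemma psi_w_antitone {p : ℝ} (hp : 0 < p) : Antitone (psi_w p) := by
  apply antitone_of_deriv_nonpos
  · intro y; exact (psi_w_hasDerivAt hp y).differentiableAt
  · intro y
    rw [(psi_w_hasDerivAt hp y).deriv]
    have h1 := psi_w_pos hp y
    have h2 := psi_R_pos hp y
    have : 0 < psi_w p y / √(y ^ 2 + 4 * p) := by positivity
    linarith

/-- comparison function. -/
noncomputable def psi_D (p y : ℝ) : ℝ :=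
  cc * Real.exp (-y ^ 2 / 2) * (psi_w p y / (2 * p)) - (1 - mm y)

lemma psi_D_hasDerivAt {p : ℝ} (hp : 0 < p) (y : ℝ) :
    HasDerivAt (psi_D p) (cc * Real.exp (-y ^ 2 / 2) *
      (psi_w p y ^ 2 / p * (1 / 4 - 1 / (4 * p + psi_w p y ^ 2)))) y := by
  have h1 : HasDerivAt (fun y => 1 - mm y) (-(cc * Real.exp (-y ^ 2 / 2))) y := by
    exact ((hasDerivAt_const y (1 : ℝ)).sub (hasDerivAt_mm y)).congr_deriv (by ring)
  have h2 := ((psi_hasDerivAt_exp y).mul ((psi_w_hasDerivAt hp y).div_const (2 * p))).sub h1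
  refine h2.congr_deriv ?_
  have hR := psi_R_pos hp y
  have hR2 := psi_R_sq hp y
  have hw := psi_w_pos hp y
  set R := √(y ^ 2 + 4 * p) with hRdef
  have hwR : psi_w p y = R - y := rfl
  rw [hwR] at hw ⊢
  have hden : 4 * p + (R - y) ^ 2 = 2 * R * (R - y) := by nlinarith
  rw [hden]
  have hp' : p = (R ^ 2 - y ^ 2) / 4 := by linarith
  have hRy : R + y > 0 := by
    have : (R - y) * (R + y) > 0 := by nlinarith
    exact (pos_iff_pos_of_mul_pos this).mp hw
  have h4p : 4 * p = (R - y) * (R + y) := by linarith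
  have e : -(y * (cc * Real.exp (-y ^ 2 / 2))) * ((R - y) / (2 * p)) +
      cc * Real.exp (-y ^ 2 / 2) * (-((R - y) / R) / (2 * p)) - -(cc * Real.exp (-y ^ 2 / 2)) =
      cc * Real.exp (-y ^ 2 / 2) * (1 - y * ((R - y) / (2 * p)) - (R - y) / R / (2 * p)) := by ring
  rw [e]
  congr 1
  have hR0 := hR.ne'
  have hw0 := hw.ne'
  have hp0 := hp.ne'
  have hRy0 := hRy.ne'
  field_simp
  nlinarith [h4p]

lemma psi_tendsto_exp : Tendsto (fun y : ℝ => cc * Real.exp (-y ^ 2 / 2)) atTop (𝓝 0) := by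
  have h3 : Tendsto (fun t : ℝ => -t ^ 2 / 2) atTop atBot := by
    have h4 : Tendsto (fun t : ℝ => t ^ 2) atTop atTop := tendsto_pow_atTop (by norm_num)
    have h5 := tendsto_neg_atTop_atBot.comp (h4.atTop_div_const (by norm_num : (0:ℝ) < 2))
    refine h5.congr fun t => ?_
    simp only [Function.comp]; ring
  have h4 := (Real.tendsto_exp_atBot.comp h3).const_mul cc
  simpa using h4

lemma psi_D_tendsto {p : ℝ} (hp : 0 < p) : Tendsto (psi_D p) atTop (𝓝 0) := by
  have h1 : Tendsto (fun y => 1 - mm y) atTop (𝓝 0) := by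
    have := tendsto_mm_atTop.const_sub 1
    simpa using this
  have h2 : Tendsto (fun y => cc * Real.exp (-y ^ 2 / 2) * (psi_w p y / (2 * p))) atTop (𝓝 0) := by
    have hb : Tendsto (fun y => cc * Real.exp (-y ^ 2 / 2) * (psi_w p 0 / (2 * p))) atTop (𝓝 0) := by
      simpa using psi_tendsto_exp.mul_const (psi_w p 0 / (2 * p))
    refine tendsto_of_tendsto_of_tendsto_of_le_of_le' tendsto_const_nhds hb ?_ ?_
    · refine Eventually.of_forall fun y => ?_
      have := cc_pos
      have := psi_w_pos hp y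
      show 0 ≤ cc * Real.exp (-y ^ 2 / 2) * (psi_w p y / (2 * p))
      positivity
    · filter_upwards [eventually_ge_atTop (0 : ℝ)] with y hy
      have h1 := cc_pos
      have h2 := psi_w_antitone hp hy
      gcongr
  have := h2.sub h1
  rw [sub_zero] at this
  exact this

lemma psi_D_one (y : ℝ) : psi_D 1 y ≤ 0 := by
  have hm : Monotone (psi_D 1) := by
    apply monotone_of_deriv_nonneg
    · intro y; exact (psi_D_hasDerivAt one_pos y).differentiableAt
    · intro y
      rw [(psi_D_hasDerivAt one_pos y).deriv]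
      have h1 := cc_pos
      have h2 := psi_w_pos one_pos y
      have h3 : 1 / (4 * 1 + psi_w 1 y ^ 2) ≤ 1 / 4 := by
        apply one_div_le_one_div_of_le (by norm_num)
        nlinarith [sq_nonneg (psi_w 1 y)]
      have h4 : 0 ≤ 1 / 4 - 1 / (4 * 1 + psi_w 1 y ^ 2) := by linarith
      positivity
  exact hm.ge_of_tendsto (psi_D_tendsto one_pos) y

lemma psi_D_cc {y : ℝ} (hy : 0 ≤ y) : 0 ≤ psi_D (cc ^ 2) y := by
  have hp : 0 < cc ^ 2 := by have := cc_pos; positivity
  rcases le_or_gt 4 (4 * cc ^ 2 + psi_w (cc ^ 2) y ^ 2) with h | h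
  · -- increasing on [0, y]
    have hm : MonotoneOn (psi_D (cc ^ 2)) (Icc 0 y) := by
      apply monotoneOn_of_deriv_nonneg (convex_Icc 0 y)
      · exact fun t _ => (psi_D_hasDerivAt hp t).continuousAt.continuousWithinAt
      · exact fun t _ => (psi_D_hasDerivAt hp t).differentiableAt.differentiableWithinAt
      · intro t ht
        rw [interior_Icc] at ht
        rw [(psi_D_hasDerivAt hp t).deriv]
        have h1 := cc_pos
        have h2 := psi_w_pos hp t
        have h2' := psi_w_pos hp y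
        have h5 : psi_w (cc ^ 2) y ≤ psi_w (cc ^ 2) t := psi_w_antitone hp ht.2.le
        have h3 : 1 / (4 * cc ^ 2 + psi_w (cc ^ 2) t ^ 2) ≤ 1 / 4 := by
          apply one_div_le_one_div_of_le (by norm_num)
          nlinarith
        have h4 : 0 ≤ 1 / 4 - 1 / (4 * cc ^ 2 + psi_w (cc ^ 2) t ^ 2) := by linarith
        positivity
    have h0 : psi_D (cc ^ 2) 0 = 0 := by
      have hc := cc_pos
      have : psi_w (cc ^ 2) 0 = 2 * cc := by
        unfold psi_w
        rw [show (0 : ℝ) ^ 2 + 4 * cc ^ 2 = (2 * cc) ^ 2 by ring, Real.sqrt_sq (by positivity)]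
        ring
      unfold psi_D
      rw [this]
      simp
      field_simp
      norm_num
    have := hm (left_mem_Icc.mpr hy) (right_mem_Icc.mpr hy) hy
    rw [h0] at this
    exact this
  · -- decreasing on [y, infinity)
    have hm : AntitoneOn (psi_D (cc ^ 2)) (Ici y) := by
      apply antitoneOn_of_deriv_nonpos (convex_Ici y)
      · exact fun t _ => (psi_D_hasDerivAt hp t).continuousAt.continuousWithinAt
      · exact fun t _ => (psi_D_hasDerivAt hp t).differentiableAt.differentiableWithinAt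
      · intro t ht
        rw [interior_Ici] at ht
        rw [(psi_D_hasDerivAt hp t).deriv]
        have h1 := cc_pos
        have h2 := psi_w_pos hp t
        have h2' := psi_w_pos hp y
        have h5 : psi_w (cc ^ 2) t ≤ psi_w (cc ^ 2) y := psi_w_antitone hp (le_of_lt ht)
        have h3 : 1 / 4 ≤ 1 / (4 * cc ^ 2 + psi_w (cc ^ 2) t ^ 2) := by
          apply one_div_le_one_div_of_le (by positivity)
          nlinarith
        have h4 : 1 / 4 - 1 / (4 * cc ^ 2 + psi_w (cc ^ 2) t ^ 2) ≤ 0 := by linarith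
        have h6 : 0 ≤ psi_w (cc ^ 2) t ^ 2 / cc ^ 2 := by positivity
        have h7 : psi_w (cc ^ 2) t ^ 2 / cc ^ 2 * (1 / 4 - 1 / (4 * cc ^ 2 + psi_w (cc ^ 2) t ^ 2)) ≤ 0 :=
          mul_nonpos_of_nonneg_of_nonpos h6 h4
        exact mul_nonpos_of_nonneg_of_nonpos (by positivity) h7
    have hev : ∀ᶠ t in atTop, psi_D (cc ^ 2) t ≤ psi_D (cc ^ 2) y := by
      filter_upwards [eventually_ge_atTop y] with t ht
      exact hm (mem_Ici.mpr le_rfl) (mem_Ici.mpr ht) ht
    exact le_of_tendsto (psi_D_tendsto hp) hev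

/-- `1/U = (y + R)/2` is the positive root of `x (x - y) = p`. -/
lemma psi_root {p : ℝ} (hp : 0 < p) (y : ℝ) :
    (2 * p / psi_w p y) * (2 * p / psi_w p y - y) = p := by
  have hw := psi_w_pos hp y
  have hR2 := psi_R_sq hp y
  have hwR : √(y ^ 2 + 4 * p) = psi_w p y + y := by unfold psi_w; ring
  rw [hwR] at hR2
  have h1 : psi_w p y ^ 2 + 2 * psi_w p y * y = 4 * p := by linarith
  field_simp
  nlinarith

lemma psi_lam_ge {y : ℝ} (hy : 0 ≤ y) : cc ^ 2 ≤ psi_lam y * (psi_lam y - y) := by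
  have hp : 0 < cc ^ 2 := by have := cc_pos; positivity
  have hw := psi_w_pos hp y
  have hD := psi_D_cc hy
  unfold psi_D at hD
  have h1 : 2 * cc ^ 2 / psi_w (cc ^ 2) y ≤ psi_lam y := by
    unfold psi_lam
    rw [div_le_div_iff₀ hw (psi_one_sub_pos y)]
    have : 2 * cc ^ 2 * (1 - mm y) ≤ 2 * cc ^ 2 *
        (cc * Real.exp (-y ^ 2 / 2) * (psi_w (cc ^ 2) y / (2 * cc ^ 2))) := by
      apply mul_le_mul_of_nonneg_left _ (by positivity)
      linarith
    refine this.trans (le_of_eq ?_)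
    field_simp
  have h2 := psi_root hp y
  have h3 : 0 < 2 * cc ^ 2 / psi_w (cc ^ 2) y := by positivity
  have h4 : 0 < 2 * cc ^ 2 / psi_w (cc ^ 2) y - y := by
    by_contra hcon
    push Not at hcon
    have := mul_nonpos_of_nonneg_of_nonpos h3.le hcon
    linarith
  nlinarith

lemma psi_lam_le (y : ℝ) : psi_lam y * (psi_lam y - y) ≤ 1 := by
  have hw := psi_w_pos one_pos y
  have hD := psi_D_one y
  unfold psi_D at hD
  have h1 : psi_lam y ≤ 2 * 1 / psi_w 1 y := by
    unfold psi_lam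
    rw [div_le_div_iff₀ (psi_one_sub_pos y) hw]
    have : 2 * (cc * Real.exp (-y ^ 2 / 2) * (psi_w 1 y / (2 * 1))) ≤ 2 * (1 - mm y) := by
      linarith
    refine le_trans (le_of_eq ?_) (this.trans (le_of_eq ?_))
    · ring
    · ring
  have h2 := psi_root one_pos y
  have h3 := psi_lam_pos y
  have h4 := psi_le_lam y
  have h5 : 0 ≤ psi_lam y - y := by linarith
  have h6 : psi_lam y - y ≤ 2 * 1 / psi_w 1 y - y := by linarith
  calc psi_lam y * (psi_lam y - y) ≤ (2 * 1 / psi_w 1 y) * (2 * 1 / psi_w 1 y - y) := by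
        apply mul_le_mul h1 h6 h5 (h3.le.trans h1)
    _ = 1 := h2

lemma psi_sub_hasDerivAt (k y : ℝ) :
    HasDerivAt (fun y : ℝ => psi y - y ^ 2 / k) (psi_lam y - 2 * y / k) y := by
  have h1 : HasDerivAt (fun y : ℝ => y ^ 2 / k) (2 * y / k) y := by
    exact ((hasDerivAt_pow 2 y).div_const k).congr_deriv (by simp)
  exact (psi_hasDerivAt y).sub h1

lemma psi_lam_sub_hasDerivAt (k y : ℝ) :
    HasDerivAt (fun y : ℝ => psi_lam y - 2 * y / k) (psi_lam y * (psi_lam y - y) - 2 / k) y := by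
  have h1 : HasDerivAt (fun y : ℝ => 2 * y / k) (2 / k) y := by
    exact (((hasDerivAt_id y).const_mul 2).div_const k).congr_deriv (by simp)
  exact (psi_lam_hasDerivAt y).sub h1

lemma psi_deriv_eq (k : ℝ) :
    deriv (fun y : ℝ => psi y - y ^ 2 / k) = fun y => psi_lam y - 2 * y / k := by
  ext y
  exact (psi_sub_hasDerivAt k y).deriv

theorem convex_psi : ConvexOn ℝ (Ici 0) (fun y : ℝ => psi y - y ^ 2 / π) := by
  apply MonotoneOn.convexOn_of_deriv (convex_Ici 0)
  · exact fun t _ => (psi_sub_hasDerivAt π t).continuousAt.continuousWithinAt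
  · exact fun t _ => (psi_sub_hasDerivAt π t).differentiableAt.differentiableWithinAt
  · rw [psi_deriv_eq, interior_Ici]
    apply monotoneOn_of_deriv_nonneg (convex_Ioi 0)
    · exact fun t _ => (psi_lam_sub_hasDerivAt π t).continuousAt.continuousWithinAt
    · exact fun t _ => (psi_lam_sub_hasDerivAt π t).differentiableAt.differentiableWithinAt
    · intro t ht
      rw [interior_Ioi] at ht
      rw [(psi_lam_sub_hasDerivAt π t).deriv]
      have := psi_lam_ge (le_of_lt ht)
      rw [cc_sq] at this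
      linarith

theorem concave_psi : ConcaveOn ℝ (Ici 0) (fun y : ℝ => psi y - y ^ 2 / 2) := by
  apply AntitoneOn.concaveOn_of_deriv (convex_Ici 0)
  · exact fun t _ => (psi_sub_hasDerivAt 2 t).continuousAt.continuousWithinAt
  · exact fun t _ => (psi_sub_hasDerivAt 2 t).differentiableAt.differentiableWithinAt
  · rw [psi_deriv_eq, interior_Ici]
    apply antitoneOn_of_deriv_nonpos (convex_Ioi 0)
    · exact fun t _ => (psi_lam_sub_hasDerivAt 2 t).continuousAt.continuousWithinAt
    · exact fun t _ => (psi_lam_sub_hasDerivAt 2 t).differentiableAt.differentiableWithinAt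
    · intro t ht
      rw [(psi_lam_sub_hasDerivAt 2 t).deriv]
      have := psi_lam_le t
      norm_num
      linarith

theorem mono_psi : MonotoneOn (fun y : ℝ => psi y - y ^ 2 / 2) (Ici 0) := by
  apply monotoneOn_of_deriv_nonneg (convex_Ici 0)
  · exact fun t _ => (psi_sub_hasDerivAt 2 t).continuousAt.continuousWithinAt
  · exact fun t _ => (psi_sub_hasDerivAt 2 t).differentiableAt.differentiableWithinAt
  · intro t _
    rw [(psi_sub_hasDerivAt 2 t).deriv]
    have := psi_le_lam t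
    linarith

end Pool.Agent.CubeWidth
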