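import Pool.Agent.Lib.MP_e8b094_gt.Defs2

/-!
# MP_e8b094_gt, piece P2 : the Polya inequality `exp (-2 x^2/pi) < 1 - m(x)^2` (helper7)
-/

namespace Pool.Agent.CubeWidth

open MeasureTheory Real Set Filter Topology

/-- single crossing passes from the derivative to the function -/
lemma polya_crossing {f f' : ℝ → ℝ} (hf : ∀ x, HasDerivAt f (f' x) x) (h0 : f 0 = 0)
    (hc : ∀ x y, 0 < x → x < y → f' x ≤ 0 → f' y < 0) {x : ℝ} (hx : 0 < x) (hfx : f x ≤ 0) :
    StrictAntiOn f (Ici x) := by
  have hcont : Continuous f := continuous_iff_continuousAt.2 fun x => (hf x).continuousAt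
  obtain ⟨ξ, hξ, hξ2⟩ := exists_hasDerivAt_eq_slope f f' hx hcont.continuousOn
    (fun y _ => hf y)
  have hξ3 : f' ξ ≤ 0 := by
    rw [hξ2, h0, sub_zero, sub_zero]
    exact div_nonpos_of_nonpos_of_nonneg hfx hx.le
  apply strictAntiOn_of_deriv_neg (convex_Ici x) hcont.continuousOn
  intro y hy
  rw [interior_Ici] at hy
  rw [(hf y).deriv]
  exact hc ξ y hξ.1 (hξ.2.trans hy) hξ3

lemma polya_exp_crossing {α β z w : ℝ} (hα : 0 < α) (hz : 0 < z) (hzw : z < w)
    (h : 1 - β * z ≤ Real.exp (-(α * z))) : 1 - β * w < Real.exp (-(α * w)) := by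
  have hw : 0 < w := hz.trans hzw
  have hne : -(α * w) ≠ 0 := by have := mul_pos hα hw; linarith
  have ha : 0 < z / w := by positivity
  have hb : 0 < 1 - z / w := by rw [sub_pos, div_lt_one hw]; exact hzw
  have h1 := strictConvexOn_exp.2 (Set.mem_univ (-(α * w))) (Set.mem_univ (0 : ℝ))
    hne ha hb (by ring)
  simp only [smul_eq_mul, mul_zero, add_zero, Real.exp_zero, mul_one] at h1
  have h2 : z / w * -(α * w) = -(α * z) := by field_simp
  rw [h2] at h1
  have h3 : z / w * (1 - β * w) < z / w * Real.exp (-(α * w)) := by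
    have h4 : z / w * (1 - β * w) = z / w - β * z := by field_simp
    rw [h4]
    linarith
  exact lt_of_mul_lt_mul_left h3 (by positivity)

theorem polya {x : ℝ} (hx : 0 < x) : Real.exp (-(2 * x ^ 2 / π)) < 1 - mm x ^ 2 := by
  have hπ := Real.pi_pos
  set d : ℝ := 2 / π - 1 / 2 with hd
  set α : ℝ := 1 - 2 / π with hα
  have hαpos : 0 < α := by
    rw [hα, sub_pos, div_lt_one hπ]
    linarith [Real.pi_gt_three]
  have hcc := cc_pos
  have hcc2 := cc_sq
  -- the function k
  let k : ℝ → ℝ := fun x => cc * x * Real.exp (-(d * x ^ 2)) - mm x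
  let k' : ℝ → ℝ := fun x =>
    cc * Real.exp (-(d * x ^ 2)) * ((1 - (2 * d) * x ^ 2) - Real.exp (-(α * x ^ 2)))
  have hk : ∀ x, HasDerivAt k (k' x) x := by
    intro x
    have h1 : HasDerivAt (fun x : ℝ => -(d * x ^ 2)) (-(d * (2 * x))) x := by
      exact (((hasDerivAt_pow 2 x).const_mul d).neg).congr_deriv (by simp)
    have h2 := (((hasDerivAt_id x).const_mul cc).mul h1.exp).sub (hasDerivAt_mm x)
    refine h2.congr_deriv ?_
    simp only [k', id]
    have h3 : Real.exp (-x ^ 2 / 2) = Real.exp (-(d * x ^ 2)) * Real.exp (-(α * x ^ 2)) := by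
      rw [← Real.exp_add]
      congr 1
      rw [hd, hα]
      ring
    rw [h3]
    ring
  have hk0 : k 0 = 0 := by simp [k]
  have hkc : ∀ x y, 0 < x → x < y → k' x ≤ 0 → k' y < 0 := by
    intro x y hx hxy h
    have h1 : 0 < cc * Real.exp (-(d * x ^ 2)) := by positivity
    have h2 : 0 < cc * Real.exp (-(d * y ^ 2)) := by positivity
    have h3 : (1 - (2 * d) * x ^ 2) - Real.exp (-(α * x ^ 2)) ≤ 0 := by
      by_contra hcon
      push Not at hcon
      have := mul_pos h1 hcon
      exact absurd h (not_le.2 this)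
    have h4 := polya_exp_crossing (β := 2 * d) hαpos (pow_pos hx 2)
      (pow_lt_pow_left₀ hxy hx.le (by norm_num)) (by linarith)
    exact mul_neg_of_pos_of_neg h2 (by linarith)
  -- the function h
  let h : ℝ → ℝ := fun x => 1 - mm x ^ 2 - Real.exp (-(2 * x ^ 2 / π))
  let h' : ℝ → ℝ := fun x => 2 * (cc * Real.exp (-x ^ 2 / 2)) * k x
  have hh : ∀ x, HasDerivAt h (h' x) x := by
    intro x
    have h1 : HasDerivAt (fun x : ℝ => -(2 * x ^ 2 / π)) (-(4 * x / π)) x := by
      exact ((((hasDerivAt_pow 2 x).const_mul 2).div_const π).neg).congr_deriv (by simp; ring)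
    have h2 := (((hasDerivAt_const x (1 : ℝ)).sub ((hasDerivAt_mm x).pow 2))).sub h1.exp
    refine h2.congr_deriv ?_
    simp only [h', k]
    have h3 : Real.exp (-(2 * x ^ 2 / π)) = Real.exp (-x ^ 2 / 2) * Real.exp (-(d * x ^ 2)) := by
      rw [← Real.exp_add]
      congr 1
      rw [hd]
      field_simp
      ring
    have h4 : 2 * (cc * Real.exp (-x ^ 2 / 2)) * (cc * x * Real.exp (-(d * x ^ 2)) - mm x) =
        2 * cc ^ 2 * x * (Real.exp (-x ^ 2 / 2) * Real.exp (-(d * x ^ 2)))
          - 2 * (cc * Real.exp (-x ^ 2 / 2)) * mm x := by ring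
    rw [h3, h4, hcc2]
    push_cast
    ring
  have hh0 : h 0 = 0 := by simp [h]
  have hhc : ∀ x y, 0 < x → x < y → h' x ≤ 0 → h' y < 0 := by
    intro x y hx hxy hle
    have h1 : 0 < 2 * (cc * Real.exp (-x ^ 2 / 2)) := by positivity
    have h2 : 0 < 2 * (cc * Real.exp (-y ^ 2 / 2)) := by positivity
    have h3 : k x ≤ 0 := by
      by_contra hcon
      push Not at hcon
      have := mul_pos h1 hcon
      exact absurd hle (not_le.2 this)
    have h4 := polya_crossing hk hk0 hkc hx h3
    have h5 : k y < k x := h4 self_mem_Ici (mem_Ici.2 hxy.le) hxy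
    exact mul_neg_of_pos_of_neg h2 (by linarith)
  have hlim : Tendsto h atTop (𝓝 0) := by
    have h1 : Tendsto (fun x : ℝ => Real.exp (-(2 * x ^ 2 / π))) atTop (𝓝 0) := by
      have h3 : Tendsto (fun t : ℝ => -(2 * t ^ 2 / π)) atTop atBot := by
        have h4 : Tendsto (fun t : ℝ => t ^ 2) atTop atTop := tendsto_pow_atTop (by norm_num)
        have h5 := tendsto_neg_atTop_atBot.comp
          ((h4.const_mul_atTop (by norm_num : (0:ℝ) < 2)).atTop_div_const hπ)
        exact h5
      exact Real.tendsto_exp_atBot.comp h3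
    have h2 := ((tendsto_const_nhds (x := (1 : ℝ)) (f := atTop)).sub (tendsto_mm_atTop.pow 2)).sub h1
    simpa using h2
  by_contra hcon
  push Not at hcon
  have hx0 : h x ≤ 0 := by
    simp only [h]; linarith
  have hanti := polya_crossing hh hh0 hhc hx hx0
  have h1 : h (x + 1) < 0 :=
    lt_of_lt_of_le (hanti self_mem_Ici (mem_Ici.2 (by linarith)) (by linarith)) hx0
  have h2 : ∀ᶠ y in atTop, h y ≤ h (x + 1) := by
    filter_upwards [eventually_ge_atTop (x + 1)] with y hy
    exact hanti.antitoneOn (mem_Ici.2 (by linarith)) (mem_Ici.2 (by linarith)) hy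
  have h3 := le_of_tendsto hlim h2
  linarith

end Pool.Agent.CubeWidth
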