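import Pool.Agent.Lib.MP_e8b094_gt.CoshProd
import Pool.Agent.Lib.MP_e8b094_gt.Polya

/-!
# MP_e8b094_gt, piece P8 : `tanh (c x) <= m(x)` for `x >= 0` (helper41)
-/

namespace Pool.Agent.CubeWidth

open MeasureTheory Real Set Filter Topology

lemma tanhle_tendsto_tanh : Tendsto Real.tanh atTop (𝓝 1) := by
  have h1 : ∀ x : ℝ, 1 - 2 / (Real.exp (2 * x) + 1) = Real.tanh x := by
    intro x
    rw [Real.tanh_eq]
    have h2 : Real.exp (2 * x) = Real.exp x * Real.exp x := by rw [← Real.exp_add]; ring_nf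
    have h3 : Real.exp (-x) = (Real.exp x)⁻¹ := Real.exp_neg x
    have h4 := Real.exp_pos x
    rw [h2, h3]
    field_simp
    ring
  have h2 : Tendsto (fun x : ℝ => 1 - 2 / (Real.exp (2 * x) + 1)) atTop (𝓝 (1 - 0)) := by
    apply Tendsto.sub tendsto_const_nhds
    apply Tendsto.div_atTop tendsto_const_nhds
    apply tendsto_atTop_add_const_right
    exact Real.tendsto_exp_atTop.comp (tendsto_id.const_mul_atTop (by norm_num : (0:ℝ) < 2))
  rw [sub_zero] at h2
  exact h2.congr h1

lemma tanhle_mul_nonpos {a b : ℝ} (ha : 0 < a) : a * b ≤ 0 ↔ b ≤ 0 := by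
  constructor
  · intro h
    by_contra hb
    push Not at hb
    have := mul_pos ha hb
    linarith
  · intro h
    exact mul_nonpos_of_nonneg_of_nonpos ha.le h

lemma tanhle_mul_neg {a b : ℝ} (ha : 0 < a) : a * b < 0 ↔ b < 0 := by
  constructor
  · intro h
    by_contra hb
    push Not at hb
    have := mul_nonneg ha.le hb
    linarith
  · intro h
    exact mul_neg_of_pos_of_neg ha h

theorem tanh_le_mm {x : ℝ} (hx : 0 ≤ x) : Real.tanh (cc * x) ≤ mm x := by
  rcases hx.eq_or_lt with hx | hx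
  · subst hx; simp
  have hcc := cc_pos
  let D : ℝ → ℝ := fun x => mm x - Real.tanh (cc * x)
  let D' : ℝ → ℝ := fun x => cc * Real.exp (-x ^ 2 / 2) - 1 / Real.cosh (cc * x) ^ 2 * cc
  have hD : ∀ x, HasDerivAt D (D' x) x := by
    intro x
    have h1 : HasDerivAt (fun x : ℝ => cc * x) cc x := by
      simpa using (hasDerivAt_id x).const_mul cc
    have h2 := (coshprod_hasDerivAt_tanh (cc * x)).comp x h1
    exact (hasDerivAt_mm x).sub h2
  have hD0 : D 0 = 0 := by simp [D]
  have key : ∀ z : ℝ, 0 < z → (D' z ≤ 0 ↔ Real.log (Real.cosh (cc * z)) / (cc * z) ^ 2 ≤ 1 / (4 * cc ^ 2)) ∧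
      (D' z < 0 ↔ Real.log (Real.cosh (cc * z)) / (cc * z) ^ 2 < 1 / (4 * cc ^ 2)) := by
    intro z hz
    have hc := Real.cosh_pos (cc * z)
    have e1 : D' z = cc * (Real.exp (-z ^ 2 / 2) - Real.exp (-(2 * Real.log (Real.cosh (cc * z))))) := by
      have : Real.exp (-(2 * Real.log (Real.cosh (cc * z)))) = 1 / Real.cosh (cc * z) ^ 2 := by
        rw [Real.exp_neg, show 2 * Real.log (Real.cosh (cc * z)) = Real.log (Real.cosh (cc * z) ^ 2) by
          rw [Real.log_pow]; norm_num, Real.exp_log (by positivity), one_div]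
      rw [this]
      simp only [D']
      ring
    have e2 : Real.log (Real.cosh (cc * z)) / (cc * z) ^ 2 - 1 / (4 * cc ^ 2) =
        1 / (2 * cc ^ 2 * z ^ 2) * (-z ^ 2 / 2 - -(2 * Real.log (Real.cosh (cc * z)))) := by
      field_simp
      ring
    constructor
    · rw [e1, ← sub_nonpos (a := Real.log (Real.cosh (cc * z)) / (cc * z) ^ 2), e2,
        tanhle_mul_nonpos hcc, tanhle_mul_nonpos (by positivity), sub_nonpos,
        sub_nonpos, Real.exp_le_exp]
    · rw [e1, ← sub_neg (a := Real.log (Real.cosh (cc * z)) / (cc * z) ^ 2), e2,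
        tanhle_mul_neg hcc, tanhle_mul_neg (by positivity), sub_neg,
        sub_neg, Real.exp_lt_exp]
  have hDc : ∀ x y, 0 < x → x < y → D' x ≤ 0 → D' y < 0 := by
    intro x y hx hxy h
    have hy := hx.trans hxy
    rw [(key x hx).1] at h
    rw [(key y hy).2]
    have h1 := coshprod_strictAnti (mem_Ioi.2 (mul_pos hcc hx)) (mem_Ioi.2 (mul_pos hcc hy))
      (mul_lt_mul_of_pos_left hxy hcc)
    simp only at h1
    linarith
  have hlim : Tendsto D atTop (𝓝 0) := by
    have h1 : Tendsto (fun x : ℝ => Real.tanh (cc * x)) atTop (𝓝 1) :=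
      tanhle_tendsto_tanh.comp (tendsto_id.const_mul_atTop hcc)
    have h2 := tendsto_mm_atTop.sub h1
    simpa using h2
  by_contra hcon
  push Not at hcon
  have hx0 : D x < 0 := by
    simp only [D]; linarith
  have hanti := polya_crossing hD hD0 hDc hx hx0.le
  have h2 : ∀ᶠ y in atTop, D y ≤ D x := by
    filter_upwards [eventually_ge_atTop x] with y hy
    exact hanti.antitoneOn (mem_Ici.2 le_rfl) (mem_Ici.2 hy) hy
  have h3 := le_of_tendsto hlim h2
  linarith

end Pool.Agent.CubeWidth
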