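import Pool.Agent.Lib.MP_e8b094_gt.DefsK
import Pool.Agent.Lib.MP_e8b094_gt.Psi
import Pool.Agent.Lib.MP_e8b094_gt.TanhLe

/-!
# MP_e8b094_gt, stage 2, piece K1: one dimensional facts (helper97)
-/

namespace Pool.Agent.CubeWidth

open MeasureTheory Real Set Filter Topology
open scoped ENNReal

lemma kfacts_lam_eq (x : ℝ) : lam x = psi_lam x := rfl

theorem lam_pos (x : ℝ) : 0 < lam x := psi_lam_pos x

theorem le_lam (x : ℝ) : x ≤ lam x := psi_le_lam x

lemma kfacts_cc_sq_gt : 1 / 2 < cc ^ 2 := by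
  rw [cc_sq, div_lt_div_iff₀ (by norm_num) Real.pi_pos]
  linarith [Real.pi_lt_four]

lemma kfacts_mm_le {v : ℝ} (hv : 0 ≤ v) : mm v ≤ cc * v := by
  have h : MonotoneOn (fun x => cc * x - mm x) (Ici 0) := by
    have hd : ∀ x, HasDerivAt (fun x => cc * x - mm x) (cc - cc * Real.exp (-x ^ 2 / 2)) x := by
      intro x
      have h1 : HasDerivAt (fun x : ℝ => cc * x) cc x := by
        simpa using (hasDerivAt_id x).const_mul cc
      exact h1.sub (hasDerivAt_mm x)
    apply monotoneOn_of_deriv_nonneg (convex_Ici 0)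
    · exact fun t _ => (hd t).continuousAt.continuousWithinAt
    · exact fun t _ => (hd t).differentiableAt.differentiableWithinAt
    · intro t _
      rw [(hd t).deriv]
      have h1 : Real.exp (-t ^ 2 / 2) ≤ 1 := by
        rw [Real.exp_le_one_iff]
        nlinarith [sq_nonneg t]
      have := cc_pos
      nlinarith
  have h2 := h (mem_Ici.2 le_rfl) (mem_Ici.2 hv) hv
  simp only [mm_zero, mul_zero, sub_zero] at h2
  linarith

theorem lam_tangent (x : ℝ) : cc + cc ^ 2 * x ≤ lam x := by
  have hc := cc_pos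
  rcases le_or_gt 0 x with hx | hx
  · have hm : MonotoneOn (fun y : ℝ => psi_lam y - 2 * y / π) (Ici 0) := by
      apply monotoneOn_of_deriv_nonneg (convex_Ici 0)
      · exact fun t _ => (psi_lam_sub_hasDerivAt π t).continuousAt.continuousWithinAt
      · exact fun t _ => (psi_lam_sub_hasDerivAt π t).differentiableAt.differentiableWithinAt
      · intro t ht
        rw [interior_Ici] at ht
        rw [(psi_lam_sub_hasDerivAt π t).deriv]
        have := psi_lam_ge (le_of_lt ht)
        rw [cc_sq] at this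
        linarith
    have h2 := hm (mem_Ici.2 le_rfl) (mem_Ici.2 hx) hx
    have h3 : psi_lam 0 = cc := by simp [psi_lam]
    simp only [h3, mul_zero, zero_div, sub_zero] at h2
    rw [kfacts_lam_eq, cc_sq]
    have e : 2 / π * x = 2 * x / π := by ring
    rw [e]
    linarith
  · obtain ⟨v, rfl⟩ : ∃ v, x = -v := ⟨-x, by ring⟩
    have hv : 0 < v := by linarith
    rcases le_or_gt 1 (cc * v) with h1 | h1
    · have := lam_pos (-v)
      nlinarith
    · have hm := kfacts_mm_le hv.le
      have hm0 := mm_nonneg hv.le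
      unfold lam
      rw [mm_neg, le_div_iff₀ (by linarith)]
      have he : 1 - v ^ 2 / 2 ≤ Real.exp (-(-v) ^ 2 / 2) := by
        have := Real.add_one_le_exp (-(-v) ^ 2 / 2)
        linarith [this, show (-(-v) ^ 2 / 2 : ℝ) = -(v ^ 2 / 2) by ring]
      have hcc := kfacts_cc_sq_gt
      have h2 : 1 - cc ^ 2 * v ^ 2 ≤ Real.exp (-(-v) ^ 2 / 2) := by nlinarith [sq_nonneg v]
      calc (cc + cc ^ 2 * -v) * (1 - -mm v) = cc * ((1 - cc * v) * (1 + mm v)) := by ring
        _ ≤ cc * ((1 - cc * v) * (1 + cc * v)) := by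
            apply mul_le_mul_of_nonneg_left _ hc.le
            apply mul_le_mul_of_nonneg_left _ (by linarith)
            linarith
        _ = cc * (1 - cc ^ 2 * v ^ 2) := by ring
        _ ≤ cc * Real.exp (-(-v) ^ 2 / 2) := mul_le_mul_of_nonneg_left h2 hc.le

lemma kfacts_exp_bb (v : ℝ) : Real.exp (2 * bb v) = (1 + mm v) / (1 - mm v) := by
  have h1 := mm_lt_one v
  have h2 := neg_one_lt_mm v
  unfold bb
  rw [show 2 * (1 / 2 * Real.log ((1 + mm v) / (1 - mm v))) = Real.log ((1 + mm v) / (1 - mm v))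
    by ring, Real.exp_log]
  apply div_pos <;> linarith

theorem qq_ratio (v : ℝ) : qq v = Real.exp (-(2 * bb v)) * qq (-v) := by
  have h1 := mm_lt_one v
  have h2 := neg_one_lt_mm v
  rw [Real.exp_neg, kfacts_exp_bb]
  unfold qq
  rw [mm_neg]
  have h3 : (1 + mm v) ≠ 0 := by linarith
  have h4 : (1 - mm v) ≠ 0 := by linarith
  rw [sub_neg_eq_add]
  field_simp

theorem bb_ge {v : ℝ} (hv : 0 ≤ v) : cc * v ≤ bb v := by
  have h := tanh_le_mm hv
  have h1 := mm_lt_one v
  have h2 : Real.exp (2 * (cc * v)) ≤ Real.exp (2 * bb v) := by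
    rw [kfacts_exp_bb, le_div_iff₀ (by linarith)]
    rw [Real.tanh_eq, div_le_iff₀ (by positivity)] at h
    have h3 : Real.exp (cc * v) * Real.exp (-(cc * v)) = 1 := by
      rw [← Real.exp_add]; simp
    have h4 : Real.exp (2 * (cc * v)) = Real.exp (cc * v) * Real.exp (cc * v) := by
      rw [← Real.exp_add]; ring_nf
    have h5 := Real.exp_pos (cc * v)
    rw [h4]
    have h6 := mul_le_mul_of_nonneg_left h h5.le
    have e1 : Real.exp (cc * v) * (Real.exp (cc * v) - Real.exp (-(cc * v))) =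
        Real.exp (cc * v) * Real.exp (cc * v) - 1 := by rw [mul_sub, h3]
    have e2 : Real.exp (cc * v) * (mm v * (Real.exp (cc * v) + Real.exp (-(cc * v)))) =
        mm v * (Real.exp (cc * v) * Real.exp (cc * v)) + mm v := by
      calc _ = mm v * (Real.exp (cc * v) * Real.exp (cc * v)) +
            mm v * (Real.exp (cc * v) * Real.exp (-(cc * v))) := by ring
        _ = _ := by rw [h3, mul_one]
    rw [e1, e2] at h6
    linarith
  rw [Real.exp_le_exp] at h2
  linarith

/-! ### convexity of `bb` -/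

/-- derivative of `bb` -/
noncomputable def kfacts_bd (v : ℝ) : ℝ := cc * Real.exp (-v ^ 2 / 2) / (1 - mm v ^ 2)

lemma kfacts_one_sub_sq_pos (v : ℝ) : 0 < 1 - mm v ^ 2 := by
  have h1 := mm_lt_one v
  have h2 := neg_one_lt_mm v
  nlinarith

lemma kfacts_bb_hasDerivAt (v : ℝ) : HasDerivAt bb (kfacts_bd v) v := by
  have h1 := mm_lt_one v
  have h2 := neg_one_lt_mm v
  have hbb : bb = fun x => (1 / 2) * (Real.log (1 + mm x) - Real.log (1 - mm x)) := by
    funext x
    have h1 := mm_lt_one x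
    have h2 := neg_one_lt_mm x
    unfold bb
    rw [Real.log_div (by linarith) (by linarith)]
  rw [hbb]
  have e1 : HasDerivAt (fun x => 1 + mm x) (cc * Real.exp (-v ^ 2 / 2)) v :=
    (hasDerivAt_mm v).const_add 1
  have e2 : HasDerivAt (fun x => 1 - mm x) (-(cc * Real.exp (-v ^ 2 / 2))) v :=
    (hasDerivAt_mm v).const_sub 1
  have h3 := ((e1.log (by linarith)).sub (e2.log (by linarith))).const_mul (1 / 2 : ℝ)
  refine h3.congr_deriv ?_
  unfold kfacts_bd
  have h4 : (1 + mm v) ≠ 0 := by linarith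
  have h5 : (1 - mm v) ≠ 0 := by linarith
  have h6 : (1 - mm v ^ 2) = (1 + mm v) * (1 - mm v) := by ring
  rw [h6]
  field_simp
  ring

/-- sign function of the derivative of `kfacts_bd` -/
noncomputable def kfacts_K (v : ℝ) : ℝ :=
  2 * mm v * (cc * Real.exp (-v ^ 2 / 2)) - v * (1 - mm v ^ 2)

lemma kfacts_bd_hasDerivAt (v : ℝ) : HasDerivAt kfacts_bd
    (cc * Real.exp (-v ^ 2 / 2) * kfacts_K v / (1 - mm v ^ 2) ^ 2) v := by
  have h0 := kfacts_one_sub_sq_pos v
  have e1 : HasDerivAt (fun x => 1 - mm x ^ 2) (-(2 * mm v * (cc * Real.exp (-v ^ 2 / 2)))) v := by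
    have := ((hasDerivAt_mm v).pow 2).const_sub 1
    refine this.congr_deriv ?_
    simp
  have h := (psi_hasDerivAt_exp v).div e1 h0.ne'
  refine h.congr_deriv ?_
  unfold kfacts_K
  field_simp
  ring

lemma kfacts_K_hasDerivAt (v : ℝ) : HasDerivAt kfacts_K
    (2 * (cc * Real.exp (-v ^ 2 / 2)) ^ 2 - (1 - mm v ^ 2)) v := by
  have e1 : HasDerivAt (fun x => 1 - mm x ^ 2) (-(2 * mm v * (cc * Real.exp (-v ^ 2 / 2)))) v := by
    have := ((hasDerivAt_mm v).pow 2).const_sub 1
    refine this.congr_deriv ?_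
    simp
  have h := ((((hasDerivAt_mm v).const_mul 2).mul (psi_hasDerivAt_exp v))).sub
    ((hasDerivAt_id v).mul e1)
  refine h.congr_deriv ?_
  simp only [id]
  ring

/-- derivative of `kfacts_K` -/
noncomputable def kfacts_K' (v : ℝ) : ℝ := 2 * (cc * Real.exp (-v ^ 2 / 2)) ^ 2 - (1 - mm v ^ 2)

/-- sign function of the second derivative of `kfacts_K` -/
noncomputable def kfacts_J (v : ℝ) : ℝ := mm v - 2 * (v * (cc * Real.exp (-v ^ 2 / 2)))

lemma kfacts_K'_hasDerivAt (v : ℝ) : HasDerivAt kfacts_K'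
    (2 * (cc * Real.exp (-v ^ 2 / 2)) * kfacts_J v) v := by
  have e1 : HasDerivAt (fun x => 1 - mm x ^ 2) (-(2 * mm v * (cc * Real.exp (-v ^ 2 / 2)))) v := by
    have := ((hasDerivAt_mm v).pow 2).const_sub 1
    refine this.congr_deriv ?_
    simp
  have h := (((psi_hasDerivAt_exp v).pow 2).const_mul 2).sub e1
  refine h.congr_deriv ?_
  unfold kfacts_J
  simp
  ring

lemma kfacts_negJ_hasDerivAt (v : ℝ) : HasDerivAt (fun v => - kfacts_J v)
    (cc * Real.exp (-v ^ 2 / 2) * (1 - 2 * v ^ 2)) v := by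
  have h := ((hasDerivAt_mm v).sub
    ((((hasDerivAt_id v).mul (psi_hasDerivAt_exp v))).const_mul 2)).neg
  refine h.congr_deriv ?_
  simp only [id]
  ring

lemma kfacts_J_pos {x y : ℝ} (hx : 0 < x) (hJ : 0 ≤ kfacts_J x) (hxy : x < y) :
    0 < kfacts_J y := by
  have hcc := cc_pos
  have h := polya_crossing (f := fun v => - kfacts_J v) kfacts_negJ_hasDerivAt
    (by simp [kfacts_J]) (by
      intro x y hx hxy h
      have h1 : 0 < cc * Real.exp (-x ^ 2 / 2) := by positivity
      have h2 : 0 < cc * Real.exp (-y ^ 2 / 2) := by positivity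
      have h3 : 1 - 2 * x ^ 2 ≤ 0 := by
        by_contra hcon
        push Not at hcon
        have := mul_pos h1 hcon
        linarith
      have h4 : 1 - 2 * y ^ 2 < 0 := by nlinarith
      exact mul_neg_of_pos_of_neg h2 h4) hx (by simpa using hJ)
  have h2 := h (mem_Ici.2 le_rfl) (mem_Ici.2 hxy.le) hxy
  simp only at h2
  linarith

lemma kfacts_K'_tendsto : Tendsto kfacts_K' atTop (𝓝 0) := by
  have h1 := psi_tendsto_exp
  have h2 := tendsto_mm_atTop
  have h3 := ((h1.pow 2).const_mul 2).sub ((h2.pow 2).const_sub 1)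
  have e : kfacts_K' = fun v => 2 * (cc * Real.exp (-v ^ 2 / 2)) ^ 2 - (1 - mm v ^ 2) := rfl
  rw [e]
  simpa using h3

lemma kfacts_K'_neg {y : ℝ} (hy : 0 < y) (hJ : 0 ≤ kfacts_J y) : kfacts_K' y < 0 := by
  have hcc := cc_pos
  have hm : StrictMonoOn kfacts_K' (Ici y) := by
    apply strictMonoOn_of_deriv_pos (convex_Ici y)
    · exact fun t _ => (kfacts_K'_hasDerivAt t).continuousAt.continuousWithinAt
    · intro t ht
      rw [interior_Ici] at ht
      rw [(kfacts_K'_hasDerivAt t).deriv]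
      have := kfacts_J_pos hy hJ ht
      positivity
  have h1 : kfacts_K' y < kfacts_K' (y + 1) :=
    hm (mem_Ici.2 le_rfl) (mem_Ici.2 (by linarith)) (by linarith)
  have h2 : kfacts_K' (y + 1) ≤ 0 := by
    refine ge_of_tendsto kfacts_K'_tendsto ?_
    filter_upwards [eventually_ge_atTop (y + 1)] with t ht
    exact hm.monotoneOn (mem_Ici.2 (by linarith)) (mem_Ici.2 (by linarith)) ht
  linarith

lemma kfacts_K'_crossing {x y : ℝ} (hx : 0 < x) (hxy : x < y) (h : kfacts_K' x ≤ 0) :
    kfacts_K' y < 0 := by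
  have hcc := cc_pos
  rcases le_or_gt 0 (kfacts_J y) with hJ | hJ
  · exact kfacts_K'_neg (hx.trans hxy) hJ
  · have hm : StrictAntiOn kfacts_K' (Icc x y) := by
      apply strictAntiOn_of_deriv_neg (convex_Icc x y)
      · exact fun t _ => (kfacts_K'_hasDerivAt t).continuousAt.continuousWithinAt
      · intro t ht
        rw [interior_Icc] at ht
        rw [(kfacts_K'_hasDerivAt t).deriv]
        have h1 : kfacts_J t < 0 := by
          by_contra hcon
          push Not at hcon
          have := kfacts_J_pos (hx.trans ht.1) hcon ht.2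
          linarith
        exact mul_neg_of_pos_of_neg (by positivity) h1
    have := hm (left_mem_Icc.2 hxy.le) (right_mem_Icc.2 hxy.le) hxy
    linarith

lemma kfacts_K_nonneg {x : ℝ} (hx : 0 ≤ x) : 0 ≤ kfacts_K x := by
  have hcc := cc_pos
  rcases hx.eq_or_lt with hx | hx
  · subst hx; simp [kfacts_K]
  by_contra hcon
  push Not at hcon
  have hanti := polya_crossing (f := kfacts_K) (f' := kfacts_K') kfacts_K_hasDerivAt
    (by simp [kfacts_K]) (fun x y hx hxy h => kfacts_K'_crossing hx hxy h) hx hcon.le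
  have h1 : ∀ y, 0 < y → -(2 * (cc * Real.exp (-y ^ 2 / 2))) ≤ kfacts_K y := by
    intro y hy
    have h2 := mul_one_sub_mm_le y
    have h3 := mm_lt_one y
    have h4 := mm_pos hy
    have h5 : 0 ≤ 2 * mm y * (cc * Real.exp (-y ^ 2 / 2)) := by positivity
    have h6 : y * (1 - mm y ^ 2) ≤ 2 * (cc * Real.exp (-y ^ 2 / 2)) := by
      calc y * (1 - mm y ^ 2) = (y * (1 - mm y)) * (1 + mm y) := by ring
        _ ≤ (cc * Real.exp (-y ^ 2 / 2)) * 2 := by
            apply mul_le_mul h2 (by linarith) (by linarith) (by positivity)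
        _ = _ := by ring
    unfold kfacts_K
    linarith
  have h2 : ∀ᶠ y in atTop, -(2 * (cc * Real.exp (-y ^ 2 / 2))) ≤ kfacts_K x := by
    filter_upwards [eventually_ge_atTop x] with y hy
    exact (h1 y (lt_of_lt_of_le hx hy)).trans
      (hanti.antitoneOn (mem_Ici.2 le_rfl) (mem_Ici.2 hy) hy)
  have h3 : Tendsto (fun y : ℝ => -(2 * (cc * Real.exp (-y ^ 2 / 2)))) atTop (𝓝 0) := by
    simpa using (psi_tendsto_exp.const_mul 2).neg
  have := le_of_tendsto h3 h2
  linarith

theorem bb_div_mono {v w : ℝ} (hv : 0 ≤ v) (hvw : v ≤ w) : w * bb v ≤ v * bb w := by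
  have hconv : ConvexOn ℝ (Ici 0) bb := by
    apply MonotoneOn.convexOn_of_deriv (convex_Ici 0)
    · exact fun t _ => (kfacts_bb_hasDerivAt t).continuousAt.continuousWithinAt
    · exact fun t _ => (kfacts_bb_hasDerivAt t).differentiableAt.differentiableWithinAt
    · have e : deriv bb = kfacts_bd := by
        ext y
        exact (kfacts_bb_hasDerivAt y).deriv
      rw [e, interior_Ici]
      apply monotoneOn_of_deriv_nonneg (convex_Ioi 0)
      · exact fun t _ => (kfacts_bd_hasDerivAt t).continuousAt.continuousWithinAt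
      · exact fun t _ => (kfacts_bd_hasDerivAt t).differentiableAt.differentiableWithinAt
      · intro t ht
        rw [interior_Ioi] at ht
        rw [(kfacts_bd_hasDerivAt t).deriv]
        have h1 := kfacts_K_nonneg (le_of_lt ht)
        have h2 := cc_pos
        positivity
  rcases (hv.trans hvw).eq_or_lt with hw | hw
  · have : v = 0 := by linarith
    subst this
    subst hw
    simp
  · have ha : 0 ≤ 1 - v / w := by rw [sub_nonneg, div_le_one hw]; exact hvw
    have hb : 0 ≤ v / w := by positivity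
    have h := hconv.2 (mem_Ici.2 (le_refl (0 : ℝ))) (mem_Ici.2 hw.le) ha hb (by ring)
    simp only [smul_eq_mul, mul_zero, zero_add, bb_zero] at h
    have e : v / w * w = v := by field_simp
    rw [e] at h
    have h2 := mul_le_mul_of_nonneg_left h hw.le
    have e2 : w * (v / w * bb w) = v * bb w := by field_simp
    rw [e2] at h2
    exact h2

end Pool.Agent.CubeWidth
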