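import Pool.Agent.Lib.MP_e8b094_gt.DefsK
import Pool.Agent.Lib.MP_e8b094_gt.Gauss
import Pool.Agent.Lib.MP_e8b094_gt.KFacts

/-!
K3: basic properties of the expectation over lists of signs.
-/

namespace Pool.Agent.CubeWidth

open MeasureTheory Real Set Filter Topology Pointwise
open scoped ENNReal

lemma elbasic_qq_nonneg (v : ℝ) : 0 ≤ qq v := by
  have := mm_lt_one v
  unfold qq
  linarith

theorem EL_perm (F : ℝ → ℝ → ℝ) {L L' : List ℝ} (h : L.Perm L') (d w : ℝ) :
    EL F L d w = EL F L' d w := by
  induction h generalizing d w with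
  | nil => rfl
  | cons x _ ih =>
    show qq x * EL F _ (d + x) (w + ww x) + qq (-x) * EL F _ (d - x) (w + ww (-x)) =
      qq x * EL F _ (d + x) (w + ww x) + qq (-x) * EL F _ (d - x) (w + ww (-x))
    rw [ih, ih]
  | swap x y l =>
    show qq y * (qq x * EL F l (d + y + x) (w + ww y + ww x) +
          qq (-x) * EL F l (d + y - x) (w + ww y + ww (-x))) +
        qq (-y) * (qq x * EL F l (d - y + x) (w + ww (-y) + ww x) +
          qq (-x) * EL F l (d - y - x) (w + ww (-y) + ww (-x))) =
      qq x * (qq y * EL F l (d + x + y) (w + ww x + ww y) +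
          qq (-y) * EL F l (d + x - y) (w + ww x + ww (-y))) +
        qq (-x) * (qq y * EL F l (d - x + y) (w + ww (-x) + ww y) +
          qq (-y) * EL F l (d - x - y) (w + ww (-x) + ww (-y)))
    rw [show d + y + x = d + x + y by ring, show w + ww y + ww x = w + ww x + ww y by ring,
      show d + y - x = d - x + y by ring, show w + ww y + ww (-x) = w + ww (-x) + ww y by ring,
      show d - y + x = d + x - y by ring, show w + ww (-y) + ww x = w + ww x + ww (-y) by ring,
      show d - y - x = d - x - y by ring,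
      show w + ww (-y) + ww (-x) = w + ww (-x) + ww (-y) by ring]
    ring
  | trans _ _ ih1 ih2 => rw [ih1, ih2]

theorem EL_mono {F G : ℝ → ℝ → ℝ} (h : ∀ d w, F d w ≤ G d w) (L : List ℝ) (d w : ℝ) :
    EL F L d w ≤ EL G L d w := by
  induction L generalizing d w with
  | nil => exact h d w
  | cons v L ih =>
    exact add_le_add (mul_le_mul_of_nonneg_left (ih _ _) (elbasic_qq_nonneg _))
      (mul_le_mul_of_nonneg_left (ih _ _) (elbasic_qq_nonneg _))

theorem EL_add (F G : ℝ → ℝ → ℝ) (L : List ℝ) (d w : ℝ) :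
    EL (fun d w => F d w + G d w) L d w = EL F L d w + EL G L d w := by
  induction L generalizing d w with
  | nil => rfl
  | cons v L ih =>
    simp only [EL]
    rw [ih, ih]
    ring

theorem EL_mul (c : ℝ) (F : ℝ → ℝ → ℝ) (L : List ℝ) (d w : ℝ) :
    EL (fun d w => c * F d w) L d w = c * EL F L d w := by
  induction L generalizing d w with
  | nil => rfl
  | cons v L ih =>
    simp only [EL]
    rw [ih, ih]
    ring

theorem EL_append (F : ℝ → ℝ → ℝ) (L : List ℝ) (v d w : ℝ) :
    EL F (L ++ [v]) d w =
      EL (fun d w => qq v * F (d + v) (w + ww v) + qq (-v) * F (d - v) (w + ww (-v))) L d w := by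
  induction L generalizing d w with
  | nil => rfl
  | cons x L ih =>
    show qq x * EL F (L ++ [v]) (d + x) (w + ww x) +
      qq (-x) * EL F (L ++ [v]) (d - x) (w + ww (-x)) = _
    rw [ih, ih]
    rfl

lemma elbasic_ww_ge (v : ℝ) : -((1 - cc ^ 2) * v) ≤ ww v := by
  have := lam_tangent v
  unfold ww
  linarith

/-- reduction of the second state variable to the first one. -/
theorem EL_tangent {f : ℝ → ℝ} (hf : ∀ x, 0 ≤ f x) (L : List ℝ) (d w : ℝ) :
    EL (fun x _ => f x * (w - (1 - cc ^ 2) * (x - d))) L d w ≤ EL (fun x w => f x * w) L d w := by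
  induction L generalizing d w with
  | nil =>
    show f d * (w - (1 - cc ^ 2) * (d - d)) ≤ f d * w
    simp
  | cons v L ih =>
    show qq v * EL _ L (d + v) (w + ww v) + qq (-v) * EL _ L (d - v) (w + ww (-v)) ≤
      qq v * EL _ L (d + v) (w + ww v) + qq (-v) * EL _ L (d - v) (w + ww (-v))
    refine add_le_add (mul_le_mul_of_nonneg_left ?_ (elbasic_qq_nonneg _))
      (mul_le_mul_of_nonneg_left ?_ (elbasic_qq_nonneg _))
    · refine (EL_mono (fun x _ => mul_le_mul_of_nonneg_left ?_ (hf x)) L _ _).trans (ih _ _)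
      have := elbasic_ww_ge v
      linarith
    · refine (EL_mono (fun x _ => mul_le_mul_of_nonneg_left ?_ (hf x)) L _ _).trans (ih _ _)
      have := elbasic_ww_ge (-v)
      linarith

end Pool.Agent.CubeWidth
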