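import Pool.Agent.Lib.MP_e8b094_gt.Defs2

/-!
Basic facts on the function `FF u s`.
-/

namespace Pool.Agent.CubeWidth

open MeasureTheory Real Set Filter Topology

/-- the change of signs which makes `u` nonnegative -/
private def ffEquiv {n : ℕ} (_u : Fin n → ℝ) (P : Fin n → Prop) [DecidablePred P] :
    (Fin n → Bool) ≃ (Fin n → Bool) :=
  Equiv.piCongrRight fun i => if P i then Equiv.boolNot else Equiv.refl Bool

private lemma sg_ffEquiv {n : ℕ} (u : Fin n → ℝ) (P : Fin n → Prop) [DecidablePred P]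
    (e : Fin n → Bool) (i : Fin n) :
    sg (ffEquiv u P e i) = if P i then - sg (e i) else sg (e i) := by
  unfold ffEquiv
  by_cases h : P i
  · simp [Equiv.piCongrRight_apply, h]
  · simp [Equiv.piCongrRight_apply, h]

theorem FF_abs {n : ℕ} (u : Fin n → ℝ) (s : ℝ) : FF (fun i => |u i|) s = FF u s := by
  classical
  unfold FF GG EE
  congr 1
  refine Fintype.sum_equiv (ffEquiv u (fun i => u i < 0)) _ _ (fun e => ?_)
  have h1 : XX (fun i => |u i|) e = XX u (ffEquiv u (fun i => u i < 0) e) := by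
    unfold XX
    refine Finset.sum_congr rfl fun i _ => ?_
    rw [sg_ffEquiv]
    show |u i| * sg (e i) = _
    by_cases h : u i < 0
    · rw [if_pos h, abs_of_neg h]; ring
    · rw [if_neg h, abs_of_nonneg (not_lt.1 h)]
  have h2 : ∏ i, (1 - mm (s * |u i|) * sg (e i)) =
      ∏ i, (1 - mm (s * u i) * sg (ffEquiv u (fun i => u i < 0) e i)) := by
    refine Finset.prod_congr rfl fun i _ => ?_
    rw [sg_ffEquiv]
    by_cases h : u i < 0
    · rw [if_pos h, abs_of_neg h, mul_neg, mm_neg]; ring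
    · rw [if_neg h, abs_of_nonneg (not_lt.1 h)]
  rw [h1, h2]

private lemma ff_other_zero {n : ℕ} (u : Fin n → ℝ) (s : Finset (Fin n))
    (h : ∑ i, u i ^ 2 = ∑ i ∈ s, u i ^ 2) (j : Fin n) (hj : j ∉ s) : u j = 0 := by
  have h1 := Finset.sum_sdiff (Finset.subset_univ s) (f := fun i => u i ^ 2)
  have h2 : ∑ i ∈ Finset.univ \ s, u i ^ 2 = 0 := by
    have : ∑ i ∈ Finset.univ \ s, u i ^ 2 + ∑ i ∈ s, u i ^ 2 = ∑ i, u i ^ 2 := h1
    linarith
  have h3 := (Finset.sum_eq_zero_iff_of_nonneg (fun i _ => sq_nonneg (u i))).1 h2 j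
    (by simp [hj])
  exact pow_eq_zero_iff (two_ne_zero) |>.1 h3

theorem FF_single {n : ℕ} (u : Fin n → ℝ) (hu : ∑ i, u i ^ 2 = 1) (i : Fin n) (hi : |u i| = 1)
    (s : ℝ) : FF u s = qq s := by
  rw [← FF_abs]
  have hz : ∀ j, j ≠ i → |u j| = 0 := by
    intro j hj
    have := ff_other_zero u {i} (by rw [hu, Finset.sum_singleton, ← sq_abs, hi]; norm_num) j
      (by simpa using hj)
    rw [this, abs_zero]
  unfold FF GG
  rw [EE_split i]
  have hX : ∀ (e : Fin n → Bool) (b : Bool),
      XX (fun i => |u i|) (Function.update e i b) = sg b := by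
    intro e b
    rw [XX_update, Finset.sum_eq_zero, hi, one_mul, add_zero]
    intro j hj
    rw [hz j (Finset.ne_of_mem_erase hj), zero_mul]
  have hP : ∀ (e : Fin n → Bool) (b : Bool),
      ∏ j, (1 - mm (s * |u j|) * sg (Function.update e i b j)) = 1 - mm s * sg b := by
    intro e b
    rw [← Finset.mul_prod_erase _ _ (Finset.mem_univ i), Finset.prod_eq_one, hi]
    · simp
    · intro j hj
      rw [hz j (Finset.ne_of_mem_erase hj)]
      simp
  simp only [hX, hP]
  rw [EE_const]
  unfold qq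
  simp

theorem FF_pair {n : ℕ} (u : Fin n → ℝ) (hu : ∑ i, u i ^ 2 = 1) (i j : Fin n) (hij : i ≠ j)
    (hi : |u i| = 1 / √2) (hj : |u j| = 1 / √2) (s : ℝ) : FF u s = TT s := by
  rw [← FF_abs]
  have h2 : (0 : ℝ) < √2 := by positivity
  have h22 : √2 * √2 = 2 := Real.mul_self_sqrt (by norm_num)
  have hz : ∀ k, k ≠ i → k ≠ j → |u k| = 0 := by
    intro k hki hkj
    have := ff_other_zero u {i, j} (by
      rw [hu, Finset.sum_pair hij, ← sq_abs (u i), ← sq_abs (u j), hi, hj, div_pow,
        Real.sq_sqrt (by norm_num)]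
      norm_num) k (by simp [hki, hkj])
    rw [this, abs_zero]
  unfold FF GG
  rw [EE_split i, EE_split j]
  have hX : ∀ (e : Fin n → Bool) (b b' : Bool),
      XX (fun i => |u i|) (Function.update (Function.update e j b') i b) =
        1 / √2 * sg b + 1 / √2 * sg b' := by
    intro e b b'
    rw [XX_update, hi]
    congr 1
    rw [Finset.sum_eq_single_of_mem j (by simp [Ne.symm hij])]
    · rw [hj]; simp
    · intro k hk hkj
      rw [hz k (Finset.ne_of_mem_erase hk) hkj, zero_mul]
  have hP : ∀ (e : Fin n → Bool) (b b' : Bool),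
      ∏ k, (1 - mm (s * |u k|) * sg (Function.update (Function.update e j b') i b k)) =
        (1 - mm (s * (1 / √2)) * sg b) * (1 - mm (s * (1 / √2)) * sg b') := by
    intro e b b'
    rw [← Finset.mul_prod_erase _ _ (Finset.mem_univ i), hi]
    congr 1
    · simp
    · rw [Finset.prod_eq_single_of_mem j (by simp [Ne.symm hij])]
      · rw [hj, Function.update_of_ne (Ne.symm hij)]
        simp
      · intro k hk hkj
        rw [hz k (Finset.ne_of_mem_erase hk) hkj]
        simp
  simp only [hX, hP]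
  rw [EE_const]
  have e1 : max (1 / √2 * sg true + 1 / √2 * sg true) 0 = √2 := by
    rw [max_eq_left]
    · rw [sg_true, mul_one, ← add_div, div_eq_iff h2.ne']; linarith
    · rw [sg_true]; positivity
  have e2 : max (1 / √2 * sg true + 1 / √2 * sg false) 0 = 0 := by
    rw [max_eq_right]
    rw [sg_true, sg_false]; linarith
  have e3 : max (1 / √2 * sg false + 1 / √2 * sg true) 0 = 0 := by
    rw [max_eq_right]
    rw [sg_true, sg_false]; linarith
  have e4 : max (1 / √2 * sg false + 1 / √2 * sg false) 0 = 0 := by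
    rw [max_eq_right]
    rw [sg_false]
    have : 0 < 1 / √2 := by positivity
    linarith
  rw [e1, e2, e3, e4]
  unfold TT qq
  rw [show s * (1 / √2) = s / √2 by ring]
  simp only [sg_true, sg_false, zero_mul, add_zero, mul_one]
  ring

private lemma ff_factor_nonneg (x : ℝ) (b : Bool) : 0 ≤ 1 - mm x * sg b := by
  have h1 := mm_lt_one x
  have h2 := neg_one_lt_mm x
  rcases sg_eq b with h | h <;> rw [h] <;> linarith

private lemma ff_factor_le (x : ℝ) (b : Bool) : 1 - mm x * sg b ≤ 2 := by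
  have h1 := mm_lt_one x
  have h2 := neg_one_lt_mm x
  rcases sg_eq b with h | h <;> rw [h] <;> linarith

theorem FF_nonneg {n : ℕ} (u : Fin n → ℝ) (s : ℝ) : 0 ≤ FF u s := by
  unfold FF GG
  apply EE_nonneg
  intro e
  exact mul_nonneg (le_max_right _ _) (Finset.prod_nonneg fun i _ => ff_factor_nonneg _ _)

theorem continuous_FF {n : ℕ} (u : Fin n → ℝ) : Continuous (FF u) := by
  unfold FF GG EE
  apply Continuous.div_const
  apply continuous_finsetSum
  intro e _
  apply Continuous.mul continuous_const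
  apply continuous_finsetProd
  intro i _
  exact continuous_const.sub ((continuous_mm.comp (continuous_id.mul continuous_const)).mul
    continuous_const)

private lemma ff_bound {n : ℕ} (u : Fin n → ℝ) {s : ℝ} (hs : 0 ≤ s) :
    FF u s ≤ ((∑ i, |u i|) * 2 ^ n) *
      ∑ i ∈ Finset.univ.filter (fun i => u i ≠ 0), Real.exp (-(u i ^ 2 / 2) * s ^ 2) := by
  unfold FF GG
  rw [← EE_const (ι := Fin n) (((∑ i, |u i|) * 2 ^ n) *
      ∑ i ∈ Finset.univ.filter (fun i => u i ≠ 0), Real.exp (-(u i ^ 2 / 2) * s ^ 2))]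
  apply EE_mono
  intro e
  have hS0 : 0 ≤ ∑ i ∈ Finset.univ.filter (fun i => u i ≠ 0),
      Real.exp (-(u i ^ 2 / 2) * s ^ 2) := Finset.sum_nonneg fun i _ => (Real.exp_pos _).le
  have hA0 : 0 ≤ ∑ i, |u i| := Finset.sum_nonneg fun i _ => abs_nonneg _
  by_cases hX : XX u e ≤ 0
  · rw [max_eq_right hX, zero_mul]
    positivity
  · rw [not_le] at hX
    -- a positive term
    obtain ⟨i, hi⟩ : ∃ i, 0 < u i * sg (e i) := by
      by_contra hcon
      simp only [not_exists, not_lt] at hcon
      have : XX u e ≤ 0 := Finset.sum_nonpos fun i _ => hcon i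
      linarith
    have hui : u i ≠ 0 := by
      intro h; rw [h, zero_mul] at hi; exact lt_irrefl _ hi
    have h1 : max (XX u e) 0 ≤ ∑ i, |u i| := by
      rw [max_eq_left hX.le]
      unfold XX
      refine (le_abs_self _).trans ((Finset.abs_sum_le_sum_abs _ _).trans (le_of_eq ?_))
      refine Finset.sum_congr rfl fun k _ => ?_
      rw [abs_mul, abs_sg, mul_one]
    have h2 : 1 - mm (s * u i) * sg (e i) ≤ Real.exp (-(u i ^ 2 / 2) * s ^ 2) := by
      have h3 : mm (s * u i) * sg (e i) = mm (s * |u i|) := by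
        rcases sg_eq (e i) with h | h
        · rw [h, mul_one] at hi
          rw [h, mul_one, abs_of_pos hi]
        · rw [h] at hi
          have : u i < 0 := by linarith
          have h' : s * -u i = -(s * u i) := by ring
          rw [h, abs_of_neg this, h', mm_neg]; ring
      rw [h3]
      have h4 := one_sub_mm_le (x := s * |u i|) (by positivity)
      have h5 : -(s * |u i|) ^ 2 / 2 = -(u i ^ 2 / 2) * s ^ 2 := by
        rw [mul_pow, sq_abs]; ring
      rw [h5] at h4
      exact h4
    have h3 : ∏ k ∈ Finset.univ.erase i, (1 - mm (s * u k) * sg (e k)) ≤ 2 ^ n := by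
      calc ∏ k ∈ Finset.univ.erase i, (1 - mm (s * u k) * sg (e k))
          ≤ ∏ k ∈ Finset.univ.erase i, (2 : ℝ) :=
            Finset.prod_le_prod (fun k _ => ff_factor_nonneg _ _) (fun k _ => ff_factor_le _ _)
        _ = 2 ^ (Finset.univ.erase i).card := by rw [Finset.prod_const]
        _ ≤ 2 ^ n := by
            apply pow_le_pow_right₀ (by norm_num)
            refine (Finset.card_le_univ _).trans (le_of_eq ?_)
            simp
    have h4 : ∏ k, (1 - mm (s * u k) * sg (e k)) ≤
        Real.exp (-(u i ^ 2 / 2) * s ^ 2) * 2 ^ n := by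
      rw [← Finset.mul_prod_erase _ _ (Finset.mem_univ i)]
      exact mul_le_mul h2 h3 (Finset.prod_nonneg fun k _ => ff_factor_nonneg _ _)
        (Real.exp_pos _).le
    have h5 : Real.exp (-(u i ^ 2 / 2) * s ^ 2) ≤
        ∑ i ∈ Finset.univ.filter (fun i => u i ≠ 0), Real.exp (-(u i ^ 2 / 2) * s ^ 2) :=
      Finset.single_le_sum (f := fun i => Real.exp (-(u i ^ 2 / 2) * s ^ 2))
        (fun k _ => (Real.exp_pos _).le) (by simp [hui])
    calc max (XX u e) 0 * ∏ k, (1 - mm (s * u k) * sg (e k))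
        ≤ (∑ i, |u i|) * (Real.exp (-(u i ^ 2 / 2) * s ^ 2) * 2 ^ n) :=
          mul_le_mul h1 h4 (Finset.prod_nonneg fun k _ => ff_factor_nonneg _ _) hA0
      _ = ((∑ i, |u i|) * 2 ^ n) * Real.exp (-(u i ^ 2 / 2) * s ^ 2) := by ring
      _ ≤ _ := mul_le_mul_of_nonneg_left h5 (by positivity)

theorem integrable_FF {n : ℕ} (u : Fin n → ℝ) (hu : ∑ i, u i ^ 2 = 1) :
    IntegrableOn (FF u) (Ioi 0) := by
  have h1 : Integrable (fun s : ℝ => ((∑ i, |u i|) * 2 ^ n) *
      ∑ i ∈ Finset.univ.filter (fun i => u i ≠ 0), Real.exp (-(u i ^ 2 / 2) * s ^ 2)) := by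
    apply Integrable.const_mul
    apply integrable_finsetSum
    intro i hi
    have hui : u i ≠ 0 := (Finset.mem_filter.1 hi).2
    exact integrable_exp_neg_mul_sq (by positivity)
  refine (h1.integrableOn (s := Ioi 0)).mono' (continuous_FF u).aestronglyMeasurable ?_
  refine (ae_restrict_iff' measurableSet_Ioi).2 (Filter.Eventually.of_forall fun s hs => ?_)
  rw [Real.norm_eq_abs, abs_of_nonneg (FF_nonneg u s)]
  exact ff_bound u (le_of_lt hs)

end Pool.Agent.CubeWidth
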