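import Pool.Agent.Lib.MP_e8b094_gt.Defs2

/-!
Monotonicity of `GG` in the biases, and the value of `GG` for the biases `tanh (t u_i)`.
-/

namespace Pool.Agent.CubeWidth

open MeasureTheory Real Set Filter Topology

/-- one coordinate -/
lemma ggmono_one {n : ℕ} (f w : (Fin n → Bool) → ℝ) (i : Fin n)
    (hf : ∀ e, f (Function.update e i true) ≤ f (Function.update e i false))
    (hw : ∀ e, 0 ≤ w e) (hwi : ∀ e b, w (Function.update e i b) = w e) {a a' : ℝ} (haa : a ≤ a') :
    EE (fun e => f e * w e * (1 - a * sg (e i))) ≤ EE (fun e => f e * w e * (1 - a' * sg (e i))) := by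
  have h1 : ∀ b : ℝ, EE (fun e => f e * w e * (1 - b * sg (e i))) =
      EE (fun e => f e * w e) - b * EE (fun e => f e * w e * sg (e i)) := by
    intro b
    rw [← EE_mul_left, ← EE_sub]
    apply EE_congr; intro e; ring
  rw [h1 a, h1 a']
  have h2 : EE (fun e => f e * w e * sg (e i)) ≤ 0 := by
    rw [EE_split i]
    have h3 : EE (fun _ : Fin n → Bool => (0 : ℝ)) = 0 := EE_const 0
    rw [← h3]
    apply EE_mono
    intro e
    simp only [hwi, Function.update_self, sg_true, sg_false]
    have := mul_le_mul_of_nonneg_right (hf e) (hw e)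
    linarith
  nlinarith

lemma ggmono_aux {n : ℕ} (f : (Fin n → Bool) → ℝ) (m m' : Fin n → ℝ)
    (hm : ∀ i, 0 ≤ m i) (hmm : ∀ i, m i ≤ m' i) (hm' : ∀ i, m' i ≤ 1) (S : Finset (Fin n)) :
    (∀ i ∈ S, ∀ e, f (Function.update e i true) ≤ f (Function.update e i false)) →
    ∀ w : (Fin n → Bool) → ℝ, (∀ e, 0 ≤ w e) →
      (∀ i ∈ S, ∀ e b, w (Function.update e i b) = w e) →
      EE (fun e => f e * w e * ∏ i ∈ S, (1 - m i * sg (e i))) ≤
        EE (fun e => f e * w e * ∏ i ∈ S, (1 - m' i * sg (e i))) := by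
  induction S using Finset.induction_on with
  | empty => intro _ w _ _; simp
  | insert a S ha ih =>
    intro hf w hw hwS
    have hpos : ∀ (e : Fin n → Bool) (j : Fin n), 0 ≤ 1 - m j * sg (e j) := by
      intro e j
      have h1 := hm j
      have h2 := (hmm j).trans (hm' j)
      rcases sg_eq (e j) with h | h <;> rw [h] <;> linarith
    have hpos' : ∀ (e : Fin n → Bool) (j : Fin n), 0 ≤ 1 - m' j * sg (e j) := by
      intro e j
      have h1 := (hm j).trans (hmm j)
      have h2 := hm' j
      rcases sg_eq (e j) with h | h <;> rw [h] <;> linarith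
    have s1 := ih (fun i hi => hf i (Finset.mem_insert_of_mem hi))
      (fun e => w e * (1 - m a * sg (e a))) (fun e => mul_nonneg (hw e) (hpos e a)) (by
        intro i hi e b
        have hne : a ≠ i := by rintro rfl; exact ha hi
        rw [hwS i (Finset.mem_insert_of_mem hi), Function.update_of_ne hne])
    have s2 := ggmono_one f (fun e => w e * ∏ i ∈ S, (1 - m' i * sg (e i))) a
      (hf a (Finset.mem_insert_self a S))
      (fun e => mul_nonneg (hw e) (Finset.prod_nonneg fun j _ => hpos' e j)) (by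
        intro e b
        rw [hwS a (Finset.mem_insert_self a S)]
        congr 1
        apply Finset.prod_congr rfl
        intro j hj
        have hne : j ≠ a := by rintro rfl; exact ha hj
        rw [Function.update_of_ne hne]) (hmm a)
    calc EE (fun e => f e * w e * ∏ i ∈ insert a S, (1 - m i * sg (e i)))
        = EE (fun e => f e * (w e * (1 - m a * sg (e a))) * ∏ i ∈ S, (1 - m i * sg (e i))) := by
          apply EE_congr; intro e; rw [Finset.prod_insert ha]; ring
      _ ≤ EE (fun e => f e * (w e * (1 - m a * sg (e a))) * ∏ i ∈ S, (1 - m' i * sg (e i))) := s1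
      _ = EE (fun e => f e * (w e * ∏ i ∈ S, (1 - m' i * sg (e i))) * (1 - m a * sg (e a))) := by
          apply EE_congr; intro e; ring
      _ ≤ EE (fun e => f e * (w e * ∏ i ∈ S, (1 - m' i * sg (e i))) * (1 - m' a * sg (e a))) := s2
      _ = EE (fun e => f e * w e * ∏ i ∈ insert a S, (1 - m' i * sg (e i))) := by
          apply EE_congr; intro e; rw [Finset.prod_insert ha]; ring

/-- If `f` is nonincreasing in each sign of `S`, then stronger negative biases increase the
expectation. -/
theorem EE_tilt_mono {n : ℕ} (f : (Fin n → Bool) → ℝ) (m m' : Fin n → ℝ) (S : Finset (Fin n))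
    (hf : ∀ i ∈ S, ∀ e, f (Function.update e i true) ≤ f (Function.update e i false))
    (hm : ∀ i, 0 ≤ m i) (hmm : ∀ i, m i ≤ m' i) (hm' : ∀ i, m' i ≤ 1) :
    EE (fun e => f e * ∏ i ∈ S, (1 - m i * sg (e i))) ≤
      EE (fun e => f e * ∏ i ∈ S, (1 - m' i * sg (e i))) := by
  have h := ggmono_aux f m m' hm hmm hm' S hf (fun _ => 1) (fun _ => zero_le_one)
    (fun _ _ _ _ => rfl)
  simpa only [mul_one] using h

theorem GG_anti {n : ℕ} (u m m' : Fin n → ℝ) (hu : ∀ i, 0 ≤ u i) (hm : ∀ i, 0 ≤ m i)
    (hmm : ∀ i, m i ≤ m' i) (hm' : ∀ i, m' i ≤ 1) : GG u m' ≤ GG u m := by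
  have h := EE_tilt_mono (fun e => - max (XX u e) 0) m m' Finset.univ (by
    intro i _ e
    have h1 : XX u (Function.update e i false) ≤ XX u (Function.update e i true) := by
      rw [XX_update, XX_update]
      have := hu i
      simp only [sg_true, sg_false]
      linarith
    have h2 := max_le_max_right 0 h1
    linarith) hm hmm hm'
  unfold GG
  have h1 : ∀ m : Fin n → ℝ, EE (fun e => - max (XX u e) 0 * ∏ i, (1 - m i * sg (e i))) =
      - EE (fun e => max (XX u e) 0 * ∏ i, (1 - m i * sg (e i))) := by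
    intro m
    rw [← EE_neg]
    apply EE_congr; intro e; ring
  rw [h1 m, h1 m'] at h
  linarith

lemma ggmono_one_sub_tanh (y : ℝ) (b : Bool) :
    1 - Real.tanh y * sg b = Real.exp (-(y * sg b)) / Real.cosh y := by
  have hc := Real.cosh_pos y
  rw [Real.tanh_eq_sinh_div_cosh, eq_div_iff hc.ne']
  have h1 : (1 - Real.sinh y / Real.cosh y * sg b) * Real.cosh y =
      Real.cosh y - Real.sinh y * sg b := by
    field_simp
  rw [h1]
  rcases sg_eq b with h | h <;> rw [h, Real.cosh_eq, Real.sinh_eq] <;> ring_nf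

theorem GG_tanh {n : ℕ} (u : Fin n → ℝ) (t : ℝ) :
    GG u (fun i => Real.tanh (t * u i)) =
      EE (fun e => |XX u e| * Real.exp (-(t * |XX u e|))) / 2 / ∏ i, Real.cosh (t * u i) := by
  have h1 : ∀ e : Fin n → Bool, ∏ i, (1 - Real.tanh (t * u i) * sg (e i)) =
      Real.exp (-(t * XX u e)) / ∏ i, Real.cosh (t * u i) := by
    intro e
    rw [Finset.prod_congr rfl (fun i _ => ggmono_one_sub_tanh (t * u i) (e i)),
      Finset.prod_div_distrib, ← Real.exp_sum]
    congr 2
    unfold XX
    rw [Finset.mul_sum, ← Finset.sum_neg_distrib]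
    apply Finset.sum_congr rfl; intro i _; ring
  have h2 : GG u (fun i => Real.tanh (t * u i)) =
      EE (fun e => max (XX u e) 0 * Real.exp (-(t * XX u e))) / ∏ i, Real.cosh (t * u i) := by
    unfold GG
    rw [← EE_div]
    apply EE_congr; intro e
    rw [h1 e]; ring
  rw [h2]
  congr 1
  have h3 := EE_flip (fun e : Fin n → Bool => max (XX u e) 0 * Real.exp (-(t * XX u e)))
  have h4 : EE (fun e => |XX u e| * Real.exp (-(t * |XX u e|))) =
      EE (fun e : Fin n → Bool => max (XX u e) 0 * Real.exp (-(t * XX u e))) +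
      EE (fun e : Fin n → Bool => max (XX u (fun i => !(e i))) 0 *
        Real.exp (-(t * XX u (fun i => !(e i))))) := by
    rw [← EE_add]
    apply EE_congr; intro e
    rw [XX_not]
    rcases le_total (XX u e) 0 with h | h
    · rw [abs_of_nonpos h, max_eq_right h, max_eq_left (by linarith)]; ring_nf
    · rw [abs_of_nonneg h, max_eq_left h, max_eq_right (by linarith)]; ring_nf
  rw [h4, h3]; ring

end Pool.Agent.CubeWidth
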