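import Pool.Agent.Lib.MP_e8b094_gt.Defs2

/-!
P19a: part (iv) of (0c): the linear program behind `hh`.
-/

namespace Pool.Agent.CubeWidth

open MeasureTheory Real Set Filter Topology

private lemma slopelp_abs_sgn1 (y : ℝ) : |sgn1 y| = 1 := by
  unfold sgn1
  split_ifs <;> simp

private lemma slopelp_ev {n : ℕ} (u x : Fin n → ℝ) (t : ℝ) :
    ∀ᶠ s in 𝓝 t, ∀ i, sgn1 (x i - s * u i) * (x i - t * u i) = |x i - t * u i| := by
  rw [eventually_all]
  intro i
  have hc : Tendsto (fun s : ℝ => x i - s * u i) (𝓝 t) (𝓝 (x i - t * u i)) := by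
    have : Continuous fun s : ℝ => x i - s * u i := by fun_prop
    exact this.tendsto t
  rcases lt_trichotomy (x i - t * u i) 0 with h | h | h
  · filter_upwards [hc.eventually (gt_mem_nhds h)] with s hs
    rw [sgn1, if_neg (not_lt.2 hs.le), abs_of_neg h]
    ring
  · exact Eventually.of_forall fun s => by rw [h]; simp
  · filter_upwards [hc.eventually (lt_mem_nhds h)] with s hs
    rw [sgn1, if_pos hs, abs_of_pos h]
    ring

private lemma slopelp_conv {a b : ℝ} (ha : 0 ≤ a) (hb : b ≤ 0) :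
    ∃ l : ℝ, 0 ≤ l ∧ l ≤ 1 ∧ l * a + (1 - l) * b = 0 := by
  rcases eq_or_lt_of_le (sub_nonneg.2 (hb.trans ha)) with h | h
  · refine ⟨1, by norm_num, le_refl _, ?_⟩
    have : a = 0 := by linarith
    rw [this]; ring
  · refine ⟨-b / (a - b), div_nonneg (by linarith) h.le, ?_, ?_⟩
    · rw [div_le_one h]; linarith
    · field_simp
      ring

theorem hh_eq_min {n : ℕ} (u x : Fin n → ℝ) (t : ℝ) (h1 : ∀ s, s < t → 0 ≤ SS u x s)
    (h2 : ∀ s, t < s → SS u x s ≤ 0) : hh u x = ∑ i, |x i - t * u i| := by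
  have key : ∀ y : Fin n → ℝ, ∑ i, y i * u i = 0 →
      ∑ i, x i * y i = ∑ i, (x i - t * u i) * y i := by
    intro y hy
    have : ∑ i, (x i - t * u i) * y i = ∑ i, x i * y i - t * ∑ i, y i * u i := by
      rw [Finset.mul_sum, ← Finset.sum_sub_distrib]
      exact Finset.sum_congr rfl fun i _ => by ring
    rw [this, hy]; ring
  have hev := slopelp_ev u x t
  obtain ⟨s1, hs1, hs1t⟩ : ∃ s, (∀ i, sgn1 (x i - s * u i) * (x i - t * u i) = |x i - t * u i|) ∧
      s < t := ((hev.filter_mono nhdsWithin_le_nhds).and self_mem_nhdsWithin :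
        ∀ᶠ s in 𝓝[<] t, _ ∧ s ∈ Iio t).exists
  obtain ⟨s2, hs2, hs2t⟩ : ∃ s, (∀ i, sgn1 (x i - s * u i) * (x i - t * u i) = |x i - t * u i|) ∧
      t < s := ((hev.filter_mono nhdsWithin_le_nhds).and self_mem_nhdsWithin :
        ∀ᶠ s in 𝓝[>] t, _ ∧ s ∈ Ioi t).exists
  obtain ⟨l, hl0, hl1, hl⟩ := slopelp_conv (h1 s1 hs1t) (h2 s2 hs2t)
  set y : Fin n → ℝ := fun i => l * sgn1 (x i - s1 * u i) + (1 - l) * sgn1 (x i - s2 * u i) with hy
  have hy0 : ∑ i, y i * u i = 0 := by
    rw [← hl, SS, SS, Finset.mul_sum, Finset.mul_sum, ← Finset.sum_add_distrib]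
    exact Finset.sum_congr rfl fun i _ => by simp only [hy]; ring
  unfold hh
  apply IsGreatest.csSup_eq
  refine ⟨⟨y, ?_, hy0, ?_⟩, ?_⟩
  · intro i
    calc |y i| ≤ |l * sgn1 (x i - s1 * u i)| + |(1 - l) * sgn1 (x i - s2 * u i)| := abs_add_le _ _
      _ = 1 := by
        rw [abs_mul, abs_mul, slopelp_abs_sgn1, slopelp_abs_sgn1, abs_of_nonneg hl0,
          abs_of_nonneg (sub_nonneg.2 hl1)]
        ring
  · rw [key y hy0]
    refine Finset.sum_congr rfl fun i _ => ?_
    have e1 := hs1 i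
    have e2 := hs2 i
    calc |x i - t * u i| = l * |x i - t * u i| + (1 - l) * |x i - t * u i| := by ring
      _ = l * (sgn1 (x i - s1 * u i) * (x i - t * u i)) +
          (1 - l) * (sgn1 (x i - s2 * u i) * (x i - t * u i)) := by rw [e1, e2]
      _ = (x i - t * u i) * y i := by simp only [hy]; ring
  · rintro r ⟨z, hz1, hz0, rfl⟩
    rw [key z hz0]
    refine Finset.sum_le_sum fun i _ => ?_
    calc (x i - t * u i) * z i ≤ |(x i - t * u i) * z i| := le_abs_self _
      _ = |x i - t * u i| * |z i| := abs_mul _ _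
      _ ≤ |x i - t * u i| * 1 := mul_le_mul_of_nonneg_left (hz1 i) (abs_nonneg _)
      _ = |x i - t * u i| := mul_one _

end Pool.Agent.CubeWidth
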