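import Pool.Agent.Lib.MP_e8b094_gt.Defs2
import Pool.Agent.Lib.MP_e8b094_gt.SlopeLP

/-!
The support function of a central section of the cube as an integral of the slope process.
-/

namespace Pool.Agent.CubeWidth

open MeasureTheory Real Set Filter Topology

/-- `s ↦ u * sgn1 (x - s * u)` is antitone. -/
lemma slope_term_antitone (u x : ℝ) : Antitone (fun s : ℝ => u * sgn1 (x - s * u)) := by
  intro s t hst
  have hle : ∀ {a b : ℝ}, a ≤ b → sgn1 a ≤ sgn1 b := by
    intro a b hab
    unfold sgn1
    split_ifs <;> linarith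
  simp only
  rcases le_total 0 u with hu | hu
  · exact mul_le_mul_of_nonneg_left (hle (by nlinarith)) hu
  · exact mul_le_mul_of_nonpos_left (hle (by nlinarith)) hu

lemma slope_SS_antitone {n : ℕ} (u x : Fin n → ℝ) : Antitone (SS u x) := by
  intro s t hst
  exact Finset.sum_le_sum fun i _ => slope_term_antitone (u i) (x i) hst

/-- integral of one term -/
lemma slope_term_integral (u x a b : ℝ) :
    ∫ s in a..b, u * sgn1 (x - s * u) = |x - a * u| - |x - b * u| := by
  have key := MeasureTheory.integral_eq_of_hasDerivAt_off_countable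
    (fun s : ℝ => - |x - s * u|) (fun s : ℝ => u * sgn1 (x - s * u)) (a := a) (b := b)
    (s := {s | u ≠ 0 ∧ s = x / u}) ?_ ?_ ?_ ?_
  · rw [key]; ring
  · by_cases hu : u = 0
    · simp [hu]
    · refine (Set.countable_singleton (x / u)).mono ?_
      intro s hs
      exact hs.2
  · exact Continuous.continuousOn (by fun_prop)
  · intro s hs
    have hs' : ¬ (u ≠ 0 ∧ s = x / u) := hs.2
    by_cases hu : u = 0
    · subst hu
      simpa using hasDerivAt_const s (-|x|)
    · have hne : x - s * u ≠ 0 := by
        intro h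
        apply hs'
        refine ⟨hu, ?_⟩
        field_simp
        linarith
      have h1 : HasDerivAt (fun s : ℝ => x - s * u) (-u) s := by
        have := ((hasDerivAt_id s).mul_const u).const_sub x
        simpa using this
      rcases lt_or_gt_of_ne hne with h | h
      · have h2 : HasDerivAt (fun s : ℝ => -|x - s * u|) (-u) s := by
          refine h1.congr_of_eventuallyEq ?_
          have : ∀ᶠ r in 𝓝 s, x - r * u < 0 :=
            (h1.continuousAt).eventually (gt_mem_nhds h)
          filter_upwards [this] with r hr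
          rw [abs_of_neg hr]; ring
        have h3 : sgn1 (x - s * u) = -1 := by
          unfold sgn1; rw [if_neg (by linarith)]
        rw [h3]
        simpa using h2
      · have h2 : HasDerivAt (fun s : ℝ => -|x - s * u|) (u) s := by
          have h4 := h1.neg
          simp only [neg_neg] at h4
          refine h4.congr_of_eventuallyEq ?_
          have : ∀ᶠ r in 𝓝 s, 0 < x - r * u :=
            (h1.continuousAt).eventually (lt_mem_nhds h)
          filter_upwards [this] with r hr
          simp [abs_of_pos hr]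
        have h3 : sgn1 (x - s * u) = 1 := by
          unfold sgn1; rw [if_pos h]
        rw [h3]
        simpa using h2
  · exact (slope_term_antitone u x).intervalIntegrable

lemma slope_SS_integral {n : ℕ} (u x : Fin n → ℝ) (a b : ℝ) :
    ∫ s in a..b, SS u x s = (∑ i, |x i - a * u i|) - ∑ i, |x i - b * u i| := by
  unfold SS
  rw [intervalIntegral.integral_finsetSum]
  · rw [← Finset.sum_sub_distrib]
    exact Finset.sum_congr rfl fun i _ => slope_term_integral (u i) (x i) a b
  · intro i _
    exact (slope_term_antitone (u i) (x i)).intervalIntegrable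

/-- the slope process changes sign at some point. -/
lemma slope_exists {n : ℕ} (u : Fin n → ℝ) (hu : ∑ i, u i ^ 2 = 1) (x : Fin n → ℝ) :
    ∃ t : ℝ, (∀ s, s < t → 0 ≤ SS u x s) ∧ (∀ s, t < s → SS u x s ≤ 0) := by
  obtain ⟨i0, hi0⟩ : ∃ i, u i ≠ 0 := by
    by_contra h
    push Not at h
    simp [h] at hu
  -- far left
  have hL : ∃ s, 0 ≤ SS u x s := by
    refine ⟨-(∑ i, |x i / u i|) - 1, ?_⟩
    refine Finset.sum_nonneg fun i _ => ?_
    by_cases hui : u i = 0
    · simp [hui]
    have h1 : |x i / u i| ≤ ∑ i, |x i / u i| :=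
      Finset.single_le_sum (f := fun i => |x i / u i|) (fun j _ => abs_nonneg _) (Finset.mem_univ i)
    have h2 : x i = (x i / u i) * u i := by field_simp
    have h3 := neg_abs_le (x i / u i)
    set r := ∑ i, |x i / u i|
    have h4 : x i - (-r - 1) * u i = (x i / u i + r + 1) * u i := by
      linear_combination h2
    rw [h4]
    have h5 : 0 < x i / u i + r + 1 := by linarith
    rcases lt_or_gt_of_ne hui with h | h
    · unfold sgn1
      rw [if_neg (by nlinarith)]
      linarith
    · unfold sgn1
      rw [if_pos (by positivity)]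
      linarith
  have hR : ∃ s, SS u x s < 0 := by
    refine ⟨(∑ i, |x i / u i|) + 1, ?_⟩
    have hterm : ∀ i, u i ≠ 0 → u i * sgn1 (x i - ((∑ i, |x i / u i|) + 1) * u i) < 0 := by
      intro i hui
      have h1 : |x i / u i| ≤ ∑ i, |x i / u i| :=
        Finset.single_le_sum (f := fun i => |x i / u i|) (fun j _ => abs_nonneg _)
          (Finset.mem_univ i)
      have h2 : x i = (x i / u i) * u i := by field_simp
      have h3 := le_abs_self (x i / u i)
      set r := ∑ i, |x i / u i|
      have h4 : x i - (r + 1) * u i = -((r + 1 - x i / u i) * u i) := by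
        linear_combination h2
      rw [h4]
      have h5 : 0 < r + 1 - x i / u i := by linarith
      rcases lt_or_gt_of_ne hui with h | h
      · unfold sgn1
        rw [if_pos (by nlinarith)]
        linarith
      · unfold sgn1
        have : 0 < (r + 1 - x i / u i) * u i := by positivity
        rw [if_neg (by linarith)]
        linarith
    refine Finset.sum_neg' (fun i _ => ?_) ⟨i0, Finset.mem_univ _, hterm i0 hi0⟩
    by_cases hui : u i = 0
    · simp [hui]
    · exact (hterm i hui).le
  obtain ⟨b, hb⟩ := hR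
  have hbdd : BddAbove {s | 0 ≤ SS u x s} := by
    refine ⟨b, fun s hs => ?_⟩
    by_contra h
    push Not at h
    have := slope_SS_antitone u x h.le
    have hs' : 0 ≤ SS u x s := hs
    linarith
  refine ⟨sSup {s | 0 ≤ SS u x s}, ?_, ?_⟩
  · intro s hs
    obtain ⟨s', hs', hlt⟩ := exists_lt_of_lt_csSup hL hs
    have h1 : 0 ≤ SS u x s' := hs'
    exact h1.trans (slope_SS_antitone u x hlt.le)
  · intro s hs
    by_contra h
    push Not at h
    have := le_csSup hbdd (show s ∈ {s | 0 ≤ SS u x s} from h.le)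
    linarith

/-- the sign change point for `-x`. -/
lemma slope_neg {n : ℕ} (u x : Fin n → ℝ) (t : ℝ)
    (h1 : ∀ s, s < t → 0 ≤ SS u x s) (h2 : ∀ s, t < s → SS u x s ≤ 0) :
    (∀ s, s < -t → 0 ≤ SS u (-x) s) ∧ (∀ s, -t < s → SS u (-x) s ≤ 0) := by
  classical
  -- exceptional set
  have hfin : ((Finset.univ.image fun i => - x i / u i : Finset ℝ) : Set ℝ).Finite :=
    Finset.finite_toSet _
  have hflip : ∀ s, s ∉ ((Finset.univ.image fun i => - x i / u i : Finset ℝ) : Set ℝ) →
      SS u (-x) s = - SS u x (-s) := by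
    intro s hs
    unfold SS
    rw [← Finset.sum_neg_distrib]
    refine Finset.sum_congr rfl fun i _ => ?_
    by_cases hui : u i = 0
    · simp [hui]
    have hne : x i + s * u i ≠ 0 := by
      intro h
      apply hs
      simp only [Finset.coe_image, Finset.coe_univ, Set.image_univ, Set.mem_range]
      refine ⟨i, ?_⟩
      field_simp
      linarith
    have e1 : (-x) i - s * u i = -(x i + s * u i) := by
      simp only [Pi.neg_apply]; ring
    have e2 : x i - -s * u i = x i + s * u i := by ring
    rw [e1, e2]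
    unfold sgn1
    rcases lt_or_gt_of_ne hne with h | h
    · rw [if_pos (by linarith), if_neg (by linarith)]; ring
    · rw [if_neg (by linarith), if_pos h]; ring
  have hex : ∀ a b : ℝ, a < b → ∃ s, s ∈ Ioo a b ∧
      s ∉ ((Finset.univ.image fun i => - x i / u i : Finset ℝ) : Set ℝ) := by
    intro a b hab
    have : (Ioo a b \ ((Finset.univ.image fun i => - x i / u i : Finset ℝ) : Set ℝ)).Infinite :=
      (Set.Ioo_infinite hab).sdiff hfin
    obtain ⟨s, hs⟩ := this.nonempty
    exact ⟨s, hs.1, hs.2⟩
  constructor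
  · intro s hs
    obtain ⟨r, hr, hr'⟩ := hex s (-t) hs
    have h3 := slope_SS_antitone u (-x) hr.1.le
    rw [hflip r hr'] at h3
    have := h2 (-r) (by linarith [hr.2])
    linarith
  · intro s hs
    obtain ⟨r, hr, hr'⟩ := hex (-t) s hs
    have h3 := slope_SS_antitone u (-x) hr.2.le
    rw [hflip r hr'] at h3
    have := h1 (-r) (by linarith [hr.1])
    linarith

lemma slope_int_pos {n : ℕ} (u x : Fin n → ℝ) (t : ℝ) (ht : 0 ≤ t)
    (h1 : ∀ s, s < t → 0 ≤ SS u x s) (h2 : ∀ s, t < s → SS u x s ≤ 0) :
    ∫ s in Ioi (0 : ℝ), max (SS u x s) 0 = (∑ i, |x i|) - ∑ i, |x i - t * u i| := by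
  have e1 : ∫ s in Ioi (0 : ℝ), max (SS u x s) 0 = ∫ s in Ioc (0 : ℝ) t, max (SS u x s) 0 := by
    refine setIntegral_eq_of_subset_of_forall_sdiff_eq_zero measurableSet_Ioi
      (fun s hs => hs.1) ?_
    intro s hs
    have h3 : ¬ (s ≤ t) := fun h => hs.2 ⟨hs.1, h⟩
    push Not at h3
    exact max_eq_right (h2 s h3)
  have e2 : ∫ s in Ioc (0 : ℝ) t, max (SS u x s) 0 = ∫ s in Ioc (0 : ℝ) t, SS u x s := by
    rw [integral_Ioc_eq_integral_Ioo, integral_Ioc_eq_integral_Ioo]
    refine setIntegral_congr_fun measurableSet_Ioo fun s hs => ?_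
    exact max_eq_left (h1 s hs.2)
  rw [e1, e2, ← intervalIntegral.integral_of_le ht, slope_SS_integral]
  simp

lemma slope_int_neg {n : ℕ} (u x : Fin n → ℝ) (t : ℝ) (ht : t ≤ 0)
    (h2 : ∀ s, t < s → SS u x s ≤ 0) :
    ∫ s in Ioi (0 : ℝ), max (SS u x s) 0 = 0 := by
  refine setIntegral_eq_zero_of_forall_eq_zero fun s hs => ?_
  exact max_eq_right (h2 s (lt_of_le_of_lt ht hs))

theorem integrable_slope {n : ℕ} (u : Fin n → ℝ) (hu : ∑ i, u i ^ 2 = 1) (x : Fin n → ℝ) :
    IntegrableOn (fun s => max (SS u x s) 0) (Ioi 0) := by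
  obtain ⟨t, h1, h2⟩ := slope_exists u hu x
  have hanti : Antitone (fun s => max (SS u x s) 0) := by
    intro a b hab
    exact max_le_max (slope_SS_antitone u x hab) le_rfl
  have hsplit : Ioi (0 : ℝ) = Ioc 0 (max t 0) ∪ Ioi (max t 0) :=
    (Ioc_union_Ioi_eq_Ioi (le_max_right t 0)).symm
  rw [hsplit]
  refine IntegrableOn.union ?_ ?_
  · exact (intervalIntegrable_iff_integrableOn_Ioc_of_le (le_max_right t 0)).1
      hanti.intervalIntegrable
  · refine (integrableOn_zero (ε' := ℝ)).congr_fun ?_ measurableSet_Ioi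
    intro s hs
    have : t < s := lt_of_le_of_lt (le_max_left t 0) hs
    exact (max_eq_right (h2 s this)).symm

theorem hh_eq {n : ℕ} (u : Fin n → ℝ) (hu : ∑ i, u i ^ 2 = 1) (x : Fin n → ℝ) :
    hh u x = ∑ i, |x i| - (∫ s in Ioi (0 : ℝ), max (SS u x s) 0)
      - ∫ s in Ioi (0 : ℝ), max (SS u (-x) s) 0 := by
  obtain ⟨t, h1, h2⟩ := slope_exists u hu x
  obtain ⟨h1', h2'⟩ := slope_neg u x t h1 h2
  rw [hh_eq_min u x t h1 h2]
  rcases le_total 0 t with ht | ht
  · rw [slope_int_pos u x t ht h1 h2, slope_int_neg u (-x) (-t) (by linarith) h2']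
    ring
  · rw [slope_int_neg u x t ht h2, slope_int_pos u (-x) (-t) (by linarith) h1' h2']
    have e1 : ∑ i, |(-x) i| = ∑ i, |x i| := by simp
    have e2 : ∑ i, |(-x) i - -t * u i| = ∑ i, |x i - t * u i| := by
      refine Finset.sum_congr rfl fun i _ => ?_
      rw [← abs_neg]
      congr 1
      simp only [Pi.neg_apply]
      ring
    rw [e1, e2]
    ring

end Pool.Agent.CubeWidth
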