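import Pool.Agent.Lib.MP_e8b094_gt.FFbasic
import Pool.Agent.Lib.MP_e8b094_gt.Slope
import Pool.Agent.Lib.MP_e8b094_gt.Distr

/-!
# MP_e8b094_gt, piece P21 : integration of the slope formula (helper7)
-/

namespace Pool.Agent.CubeWidth

open MeasureTheory Real Set Filter Topology

lemma hasm_gw_nonneg {n : ℕ} (x : Fin n → ℝ) : 0 ≤ gw x := by
  unfold gw
  have := cc_pos
  exact Finset.prod_nonneg fun i _ => by positivity

lemma hasm_gw_neg {n : ℕ} (x : Fin n → ℝ) : gw (-x) = gw x := by
  unfold gw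
  exact Finset.prod_congr rfl fun i _ => by simp

lemma hasm_continuous_gw {n : ℕ} : Continuous (gw : (Fin n → ℝ) → ℝ) := by
  unfold gw
  fun_prop

lemma hasm_measurable_sgn1 : Measurable sgn1 := by
  unfold sgn1
  exact Measurable.ite measurableSet_Ioi measurable_const measurable_const

lemma hasm_measurable_SS {n : ℕ} (u : Fin n → ℝ) :
    Measurable (fun p : (Fin n → ℝ) × ℝ => SS u p.1 p.2) := by
  unfold SS
  refine Finset.measurable_sum _ fun i _ => ?_
  refine measurable_const.mul (hasm_measurable_sgn1.comp ?_)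
  fun_prop

lemma hasm_integrable_prod {n : ℕ} (u : Fin n → ℝ) (hu : ∑ i, u i ^ 2 = 1) :
    Integrable (fun p : (Fin n → ℝ) × ℝ => max (SS u p.1 p.2) 0 * gw p.1)
      ((volume : Measure (Fin n → ℝ)).prod (volume.restrict (Ioi (0 : ℝ)))) := by
  have hm : Measurable (fun p : (Fin n → ℝ) × ℝ => max (SS u p.1 p.2) 0 * gw p.1) :=
    ((hasm_measurable_SS u).max measurable_const).mul
      (hasm_continuous_gw.measurable.comp measurable_fst)
  rw [integrable_prod_iff' hm.aestronglyMeasurable]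
  refine ⟨Filter.Eventually.of_forall fun s => integrable_SS u s, ?_⟩
  refine (integrable_FF u hu).congr (Filter.Eventually.of_forall fun s => ?_)
  simp only
  rw [← integral_SS u s]
  refine integral_congr_ae (Filter.Eventually.of_forall fun x => ?_)
  simp only
  rw [Real.norm_of_nonneg]
  exact mul_nonneg (le_max_right _ _) (hasm_gw_nonneg x)

lemma hasm_integrable_slope {n : ℕ} (u : Fin n → ℝ) (hu : ∑ i, u i ^ 2 = 1) :
    Integrable (fun x : Fin n → ℝ => (∫ s in Ioi (0 : ℝ), max (SS u x s) 0) * gw x) := by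
  have h := (hasm_integrable_prod u hu).integral_prod_left
  refine h.congr (Filter.Eventually.of_forall fun x => ?_)
  simp only
  rw [integral_mul_const]

lemma hasm_integral_slope {n : ℕ} (u : Fin n → ℝ) (hu : ∑ i, u i ^ 2 = 1) :
    ∫ x : Fin n → ℝ, (∫ s in Ioi (0 : ℝ), max (SS u x s) 0) * gw x =
      ∫ s in Ioi (0 : ℝ), FF u s := by
  have h := integral_integral_swap (f := fun (x : Fin n → ℝ) (s : ℝ) => max (SS u x s) 0 * gw x)
    (hasm_integrable_prod u hu)
  simp only [integral_mul_const] at h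
  rw [h]
  exact integral_congr_ae (Filter.Eventually.of_forall fun s => integral_SS u s)

lemma hasm_integrable_slope_neg {n : ℕ} (u : Fin n → ℝ) (hu : ∑ i, u i ^ 2 = 1) :
    Integrable (fun x : Fin n → ℝ => (∫ s in Ioi (0 : ℝ), max (SS u (-x) s) 0) * gw x) := by
  have h := (hasm_integrable_slope u hu).comp_neg
  refine h.congr (Filter.Eventually.of_forall fun x => ?_)
  simp only [hasm_gw_neg]

lemma hasm_integral_slope_neg {n : ℕ} (u : Fin n → ℝ) (hu : ∑ i, u i ^ 2 = 1) :
    ∫ x : Fin n → ℝ, (∫ s in Ioi (0 : ℝ), max (SS u (-x) s) 0) * gw x =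
      ∫ s in Ioi (0 : ℝ), FF u s := by
  rw [← hasm_integral_slope u hu]
  have h := integral_neg_eq_self (μ := (volume : Measure (Fin n → ℝ)))
    (fun x : Fin n → ℝ => (∫ s in Ioi (0 : ℝ), max (SS u x s) 0) * gw x)
  simp only [hasm_gw_neg] at h
  exact h

lemma hasm_hh_gw {n : ℕ} (u : Fin n → ℝ) (hu : ∑ i, u i ^ 2 = 1) (x : Fin n → ℝ) :
    hh u x * gw x = ∑ i, |x i| * gw x - (∫ s in Ioi (0 : ℝ), max (SS u x s) 0) * gw x
      - (∫ s in Ioi (0 : ℝ), max (SS u (-x) s) 0) * gw x := by
  rw [hh_eq u hu x, ← Finset.sum_mul]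
  ring

theorem integrable_hh {n : ℕ} (u : Fin n → ℝ) (hu : ∑ i, u i ^ 2 = 1) :
    Integrable (fun x : Fin n → ℝ => hh u x * gw x) := by
  have h := ((integrable_finsetSum Finset.univ fun i _ => integrable_abs_gw (n := n) i).sub
    (hasm_integrable_slope u hu)).sub (hasm_integrable_slope_neg u hu)
  refine h.congr (Filter.Eventually.of_forall fun x => ?_)
  simp only [Pi.sub_apply]
  rw [hasm_hh_gw u hu x]

theorem integral_hh {n : ℕ} (u : Fin n → ℝ) (hu : ∑ i, u i ^ 2 = 1) :
    ∫ x : Fin n → ℝ, hh u x * gw x = n * cc - 2 * ∫ s in Ioi (0 : ℝ), FF u s := by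
  simp only [hasm_hh_gw u hu]
  have h1 : Integrable (fun x : Fin n → ℝ => ∑ i, |x i| * gw x) :=
    integrable_finsetSum Finset.univ fun i _ => integrable_abs_gw (n := n) i
  have h2 : Integrable (fun x : Fin n → ℝ => ∑ i, |x i| * gw x -
      (∫ s in Ioi (0 : ℝ), max (SS u x s) 0) * gw x) := h1.sub (hasm_integrable_slope u hu)
  rw [integral_sub h2 (hasm_integrable_slope_neg u hu),
    integral_sub h1 (hasm_integrable_slope u hu), hasm_integral_slope u hu,
    hasm_integral_slope_neg u hu, integral_finsetSum _ fun i _ => integrable_abs_gw (n := n) i]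
  simp only [integral_abs_gw, Finset.sum_const, Finset.card_univ, Fintype.card_fin, nsmul_eq_mul]
  ring

end Pool.Agent.CubeWidth
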