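import Pool.Agent.Lib.MP_e8b094_gt.Defs2

/-!
Jensen type lower bound for `GG` (piece P6).
-/

namespace Pool.Agent.CubeWidth

open MeasureTheory Real Set Filter Topology

lemma jensen_factor (x : ℝ) (b : Bool) :
    1 - mm x * sg b = Real.exp (-(aa x) - bb x * sg b) := by
  have h1 : 0 < 1 - mm x := by linarith [mm_lt_one x]
  have h2 : 0 < 1 + mm x := by linarith [neg_one_lt_mm x]
  have h3 : 1 - mm x ^ 2 = (1 - mm x) * (1 + mm x) := by ring
  cases b with
  | true =>
    have h : -(aa x) - bb x * sg true = Real.log (1 - mm x) := by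
      unfold aa bb
      rw [h3, Real.log_mul h1.ne' h2.ne', Real.log_div h2.ne' h1.ne', sg_true]
      ring
    rw [h, Real.exp_log h1, sg_true]; ring
  | false =>
    have h : -(aa x) - bb x * sg false = Real.log (1 + mm x) := by
      unfold aa bb
      rw [h3, Real.log_mul h1.ne' h2.ne', Real.log_div h2.ne' h1.ne', sg_false]
      ring
    rw [h, Real.exp_log h2, sg_false]; ring

lemma jensen_bb_nonneg {x : ℝ} (hx : 0 ≤ x) : 0 ≤ bb x := by
  have h1 : 0 < 1 - mm x := by linarith [mm_lt_one x]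
  have h0 : 0 ≤ mm x := by
    have := strictMono_mm.monotone hx
    simpa using this
  unfold bb
  have h2 : 1 ≤ (1 + mm x) / (1 - mm x) := by
    rw [le_div_iff₀ h1]; linarith
  have := Real.log_nonneg h2
  linarith

/-- Jensen lower bound. -/
theorem GG_ge_exp {n : ℕ} (u : Fin n → ℝ) (x : Fin n → ℝ) (k : ℝ) (hu : ∀ i, 0 ≤ u i)
    (hx : ∀ i, 0 ≤ x i) (hk : 0 < k) (hkE : k ≤ EE (fun e => |XX u e|)) :
    k / 2 * Real.exp (- ∑ i, (aa (x i) + bb (x i) * u i / k)) ≤ GG u (fun i => mm (x i)) := by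
  set A : ℝ := ∑ i, aa (x i) with hA
  set z0 : ℝ := ∑ i, bb (x i) * u i / k with hz0
  have hz0' : k * z0 = ∑ i, bb (x i) * u i := by
    rw [hz0, Finset.mul_sum]
    apply Finset.sum_congr rfl
    intro i _
    field_simp
  have hz0n : 0 ≤ z0 := by
    apply Finset.sum_nonneg
    intro i _
    have := jensen_bb_nonneg (hx i)
    have := hu i
    positivity
  have hsum : - ∑ i, (aa (x i) + bb (x i) * u i / k) = -A - z0 := by
    rw [Finset.sum_add_distrib]; ring
  rw [hsum]
  have hprod : ∀ e : Fin n → Bool, ∏ i, (1 - mm (x i) * sg (e i)) =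
      Real.exp (-A - ∑ i, bb (x i) * sg (e i)) := by
    intro e
    rw [Finset.prod_congr rfl (fun i _ => jensen_factor (x i) (e i)), ← Real.exp_sum,
      Finset.sum_sub_distrib, Finset.sum_neg_distrib]
  have hlow : EE (fun e => max (XX u e) 0 *
      (Real.exp (-A - z0) * (1 + z0 - ∑ i, bb (x i) * sg (e i)))) ≤ GG u (fun i => mm (x i)) := by
    unfold GG
    apply EE_mono
    intro e
    rw [hprod e]
    apply mul_le_mul_of_nonneg_left _ (le_max_right _ _)
    have h1 := Real.add_one_le_exp (z0 - ∑ i, bb (x i) * sg (e i))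
    have h2 : Real.exp (-A - ∑ i, bb (x i) * sg (e i)) =
        Real.exp (-A - z0) * Real.exp (z0 - ∑ i, bb (x i) * sg (e i)) := by
      rw [← Real.exp_add]; congr 1; ring
    rw [h2]
    apply mul_le_mul_of_nonneg_left _ (Real.exp_pos _).le
    linarith
  have hval : EE (fun e => max (XX u e) 0 *
      (Real.exp (-A - z0) * (1 + z0 - ∑ i, bb (x i) * sg (e i)))) =
      Real.exp (-A - z0) * ((1 + z0) * (EE (fun e => |XX u e|) / 2) - k * z0 / 2) := by
    have h1 : ∀ e : Fin n → Bool, max (XX u e) 0 *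
        (Real.exp (-A - z0) * (1 + z0 - ∑ i, bb (x i) * sg (e i))) =
        Real.exp (-A - z0) * ((1 + z0) * max (XX u e) 0 -
          ∑ i, bb (x i) * (max (XX u e) 0 * sg (e i))) := by
      intro e
      have : ∑ i, bb (x i) * (max (XX u e) 0 * sg (e i)) =
          max (XX u e) 0 * ∑ i, bb (x i) * sg (e i) := by
        rw [Finset.mul_sum]
        apply Finset.sum_congr rfl
        intro i _
        ring
      rw [this]; ring
    rw [EE_congr h1, EE_mul_left, EE_sub, EE_mul_left, EE_pos, EE_sum]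
    congr 2
    rw [hz0', Finset.sum_div]
    apply Finset.sum_congr rfl
    intro i _
    rw [EE_mul_left, EE_pos_mul_sg]; ring
  rw [hval] at hlow
  refine le_trans ?_ hlow
  rw [mul_comm]
  apply mul_le_mul_of_nonneg_left _ (Real.exp_pos _).le
  nlinarith

end Pool.Agent.CubeWidth
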