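import Pool.Agent.Lib.MP_e8b094_gt.DefsK

/-!
Smearing a bump function.
-/

namespace Pool.Agent.CubeWidth

open MeasureTheory Real Set Filter Topology Pointwise
open scoped ENNReal

theorem smear_even {f : ℝ → ℝ} (hf : Bump f) (x : ℝ) : f (-x) = f x :=
  le_antisymm (hf.anti x (-x) (by rw [abs_neg])) (hf.anti (-x) x (by rw [abs_neg]))

theorem smear_iig {g : ℝ → ℝ} (hg : Measurable g) {C : ℝ} (h : ∀ x, 0 ≤ g x ∧ g x ≤ C)
    (p q : ℝ) : IntervalIntegrable g volume p q := by
  have hC : 0 ≤ C := (h 0).1.trans (h 0).2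
  refine (intervalIntegrable_const (c := C)).mono_fun hg.aestronglyMeasurable ?_
  refine Eventually.of_forall (fun x => ?_)
  show ‖g x‖ ≤ ‖C‖
  rw [Real.norm_of_nonneg (h x).1, Real.norm_of_nonneg hC]
  exact (h x).2

theorem smear_bd {f : ℝ → ℝ} (hf : Bump f) (x : ℝ) : 0 ≤ f x ∧ f x ≤ f 0 :=
  ⟨hf.nonneg x, hf.anti 0 x (by rw [abs_zero]; exact abs_nonneg x)⟩

theorem smear_ii {f : ℝ → ℝ} (hf : Bump f) (hfm : Measurable f) (p q : ℝ) :
    IntervalIntegrable f volume p q :=
  smear_iig hfm (smear_bd hf) p q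

theorem smear_g_even {f : ℝ → ℝ} (hf : Bump f) (a x : ℝ) :
    ∫ y in (-1 : ℝ)..1, f (-x + a * y) = ∫ y in (-1 : ℝ)..1, f (x + a * y) := by
  have h1 : ∀ y : ℝ, f (-x + a * y) = (fun t => f (x + a * t)) (-y) := by
    intro y
    show f (-x + a * y) = f (x + a * (-y))
    rw [← smear_even hf (x + a * (-y))]
    congr 1
    ring
  calc ∫ y in (-1 : ℝ)..1, f (-x + a * y)
      = ∫ y in (-1 : ℝ)..1, (fun t => f (x + a * t)) (-y) := by
        exact intervalIntegral.integral_congr (fun y _ => h1 y)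
    _ = ∫ y in (-1 : ℝ)..1, f (x + a * y) := by
        rw [intervalIntegral.integral_comp_neg (fun t => f (x + a * t))]
        norm_num

theorem smear_mono {f : ℝ → ℝ} (hf : Bump f) (hfm : Measurable f) {a : ℝ} (ha : 0 ≤ a)
    {x x' : ℝ} (hx : 0 ≤ x) (hxx : x ≤ x') :
    ∫ y in (-1 : ℝ)..1, f (x' + a * y) ≤ ∫ y in (-1 : ℝ)..1, f (x + a * y) := by
  rcases ha.eq_or_lt with h0 | h0
  · subst h0
    simp only [zero_mul, add_zero, intervalIntegral.integral_const, smul_eq_mul]
    have := hf.anti x x' (by rw [abs_of_nonneg hx, abs_of_nonneg (hx.trans hxx)]; exact hxx)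
    nlinarith
  · have e1 : ∀ z : ℝ, a * ∫ y in (-1 : ℝ)..1, f (z + a * y) = ∫ t in (z - a)..(z + a), f t := by
      intro z
      have := intervalIntegral.mul_integral_comp_add_mul (f := f) (a := -1) (b := 1) a z
      rw [this]
      congr 1 <;> ring
    have e2 : (∫ t in (x - a)..(x + a), f t) - ∫ t in (x' - a)..(x' + a), f t =
        (∫ t in (x - a)..(x' - a), f t) - ∫ t in (x + a)..(x' + a), f t :=
      intervalIntegral.integral_interval_sub_interval_comm (smear_ii hf hfm _ _)
        (smear_ii hf hfm _ _) (smear_ii hf hfm _ _)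
    have e3 : ∫ t in (x - a)..(x' - a), f t = ∫ r in (0 : ℝ)..(x' - x), f (x - a + r) := by
      rw [intervalIntegral.integral_comp_add_left]
      congr 1 <;> ring
    have e4 : ∫ t in (x + a)..(x' + a), f t = ∫ r in (0 : ℝ)..(x' - x), f (x + a + r) := by
      rw [intervalIntegral.integral_comp_add_left]
      congr 1 <;> ring
    have e5 : ∫ r in (0 : ℝ)..(x' - x), f (x + a + r) ≤
        ∫ r in (0 : ℝ)..(x' - x), f (x - a + r) := by
      refine intervalIntegral.integral_mono_on (by linarith) ?_ ?_ ?_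
      · exact smear_iig (hfm.comp (measurable_const_add (x + a))) (fun r => smear_bd hf _) _ _
      · exact smear_iig (hfm.comp (measurable_const_add (x - a))) (fun r => smear_bd hf _) _ _
      · intro r hr
        refine hf.anti _ _ ?_
        have h1 : 0 ≤ r := hr.1
        rw [abs_of_nonneg (by linarith : 0 ≤ x + a + r), abs_le]
        constructor <;> linarith
    have e6 := e1 x
    have e7 := e1 x'
    have e8 : a * ∫ y in (-1 : ℝ)..1, f (x' + a * y) ≤ a * ∫ y in (-1 : ℝ)..1, f (x + a * y) := by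
      rw [e6, e7]
      linarith
    exact le_of_mul_le_mul_left e8 h0

theorem bump_smear {f : ℝ → ℝ} (hf : Bump f) (hfm : Measurable f) {a : ℝ} (ha : 0 ≤ a) :
    Bump (fun x => ∫ y in (-1 : ℝ)..1, f (x + a * y)) ∧
      Measurable (fun x => ∫ y in (-1 : ℝ)..1, f (x + a * y)) := by
  refine ⟨⟨?_, ?_⟩, ?_⟩
  · intro x
    exact intervalIntegral.integral_nonneg (by norm_num) (fun y _ => hf.nonneg _)
  · intro x y hxy
    have habs : ∀ z : ℝ, ∫ y in (-1 : ℝ)..1, f (z + a * y) =
        ∫ y in (-1 : ℝ)..1, f (|z| + a * y) := by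
      intro z
      rcases abs_choice z with h | h
      · rw [h]
      · rw [h, smear_g_even hf]
    show ∫ t in (-1 : ℝ)..1, f (y + a * t) ≤ ∫ t in (-1 : ℝ)..1, f (x + a * t)
    rw [habs x, habs y]
    exact smear_mono hf hfm ha (abs_nonneg x) hxy
  · have h1 : Measurable (Function.uncurry (fun x y : ℝ => f (x + a * y))) := by
      refine hfm.comp ?_
      fun_prop
    have h2 := h1.stronglyMeasurable.integral_prod_right (ν := volume.restrict (Ioc (-1 : ℝ) 1))
    have h3 : (fun x => ∫ y in (-1 : ℝ)..1, f (x + a * y)) =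
        fun x => ∫ y in Ioc (-1 : ℝ) 1, f (x + a * y) := by
      funext x
      exact intervalIntegral.integral_of_le (by norm_num)
    rw [h3]
    exact h2.measurable

end Pool.Agent.CubeWidth
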