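import Pool.Agent.Lib.MP_e8b094_gt.DefsK
import Pool.Agent.Lib.MP_e8b094_gt.Psi
import Pool.Agent.Lib.MP_e8b094_gt.Polya

/-!
# MP_e8b094_gt, piece K2: numerical facts (helper50)
-/

namespace Pool.Agent.CubeWidth

open MeasureTheory Real Set Filter Topology Pointwise
open scoped ENNReal

/-! ### numerical bounds on `cc` -/

lemma knum_csq_lt : cc ^ 2 < 0.636620 := by
  rw [cc_sq, div_lt_iff₀ Real.pi_pos]
  have := Real.pi_gt_d6
  nlinarith

lemma knum_lt_csq : 0.636619 < cc ^ 2 := by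
  rw [cc_sq, lt_div_iff₀ Real.pi_pos]
  have := Real.pi_lt_d6
  nlinarith

lemma knum_c_lt : cc < 0.79789 := by
  have h := knum_csq_lt
  have hc := cc_pos
  nlinarith

lemma knum_lt_c : 0.79788 < cc := by
  have h := knum_lt_csq
  have hc := cc_pos
  nlinarith

lemma knum_kap_lt : (1 - cc ^ 2) / cc < 0.45546 := by
  rw [div_lt_iff₀ cc_pos]
  have h := knum_lt_csq
  have := knum_lt_c
  nlinarith

lemma knum_kap_pos : 0 < (1 - cc ^ 2) / cc := by
  have h := knum_csq_lt
  have hc := cc_pos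
  apply div_pos _ hc
  linarith

lemma knum_lam_eq (x : ℝ) : lam x = psi_lam x := rfl

lemma knum_exp_half : Real.exp (-(1 / 2)) < 0.60655 := by
  have h1 : Real.exp (-(1 / 2)) ^ 2 * Real.exp 1 = 1 := by
    rw [← Real.exp_nat_mul, ← Real.exp_add]
    norm_num
  have h2 := Real.exp_one_gt_d9
  have h3 := Real.exp_pos (-(1 / 2))
  by_contra hcon
  push Not at hcon
  have h4 : (0.60655 : ℝ) ^ 2 ≤ Real.exp (-(1 / 2)) ^ 2 := by gcongr
  nlinarith

lemma knum_exp_two : Real.exp (-2) < 0.13537 := by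
  have h1 : Real.exp (-2) = Real.exp (-(1 / 2)) ^ 4 := by
    rw [← Real.exp_nat_mul]
    norm_num
  rw [h1]
  have h2 := knum_exp_half
  have h3 := Real.exp_pos (-(1 / 2))
  calc Real.exp (-(1 / 2)) ^ 4 < (0.60655 : ℝ) ^ 4 := by gcongr
    _ < 0.13537 := by norm_num

lemma knum_exp_nine : Real.exp (-(9 / 2)) < 0.01112 := by
  have h1 : Real.exp (-(9 / 2)) = Real.exp (-(1 / 2)) ^ 9 := by
    rw [← Real.exp_nat_mul]
    norm_num
  rw [h1]
  have h2 := knum_exp_half
  have h3 := Real.exp_pos (-(1 / 2))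
  calc Real.exp (-(1 / 2)) ^ 9 < (0.60655 : ℝ) ^ 9 := by gcongr
    _ < 0.01112 := by norm_num

/-! ### bounds on `mm` -/

lemma knum_mm_le {v : ℝ} (hv : 0 ≤ v) : mm v ≤ cc * v := by
  have hd : ∀ t : ℝ, HasDerivAt (fun t => cc * t - mm t) (cc - cc * Real.exp (-t ^ 2 / 2)) t := by
    intro t
    exact (((hasDerivAt_id t).const_mul cc).sub (hasDerivAt_mm t)).congr_deriv (by simp)
  have hm : MonotoneOn (fun t => cc * t - mm t) (Ici 0) := by
    apply monotoneOn_of_deriv_nonneg (convex_Ici 0)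
    · exact fun t _ => (hd t).continuousAt.continuousWithinAt
    · exact fun t _ => (hd t).differentiableAt.differentiableWithinAt
    · intro t _
      rw [(hd t).deriv]
      have h1 : Real.exp (-t ^ 2 / 2) ≤ 1 := by
        rw [Real.exp_le_one_iff]
        nlinarith [sq_nonneg t]
      nlinarith [cc_pos]
  have := hm (mem_Ici.2 le_rfl) (mem_Ici.2 hv) hv
  simp only [mul_zero, mm_zero, sub_zero] at this
  linarith

lemma knum_mm_ge {v : ℝ} (hv : 0 ≤ v) : cc * (v - v ^ 3 / 6) ≤ mm v := by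
  have hd : ∀ t : ℝ, HasDerivAt (fun t => mm t - cc * (t - t ^ 3 / 6))
      (cc * Real.exp (-t ^ 2 / 2) - cc * (1 - t ^ 2 / 2)) t := by
    intro t
    exact ((hasDerivAt_mm t).sub (((hasDerivAt_id t).sub
      ((hasDerivAt_pow 3 t).div_const 6)).const_mul cc)).congr_deriv
        (by norm_num only [Nat.cast_ofNat, Nat.add_one_sub_one]; ring)
  have hm : MonotoneOn (fun t => mm t - cc * (t - t ^ 3 / 6)) (Ici 0) := by
    apply monotoneOn_of_deriv_nonneg (convex_Ici 0)
    · exact fun t _ => (hd t).continuousAt.continuousWithinAt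
    · exact fun t _ => (hd t).differentiableAt.differentiableWithinAt
    · intro t _
      rw [(hd t).deriv]
      have h1 := Real.add_one_le_exp (-t ^ 2 / 2)
      have := cc_pos
      nlinarith
  have := hm (mem_Ici.2 le_rfl) (mem_Ici.2 hv) hv
  simp at this
  linarith

/-! ### the function `bb` -/

lemma knum_bb_hasDerivAt (x : ℝ) :
    HasDerivAt bb (cc * Real.exp (-x ^ 2 / 2) / (1 - mm x ^ 2)) x := by
  have h1 : 0 < 1 - mm x := by linarith [mm_lt_one x]
  have h2 : 0 < 1 + mm x := by linarith [neg_one_lt_mm x]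
  have hfun : bb = fun x => (1 / 2) * (Real.log (1 + mm x) - Real.log (1 - mm x)) := by
    ext y
    have h1 : 0 < 1 - mm y := by linarith [mm_lt_one y]
    have h2 : 0 < 1 + mm y := by linarith [neg_one_lt_mm y]
    unfold bb
    rw [Real.log_div h2.ne' h1.ne']
  rw [hfun]
  have ha := (((hasDerivAt_mm x).const_add 1).log h2.ne')
  have hb := (((hasDerivAt_mm x).const_sub 1).log h1.ne')
  refine ((ha.sub hb).const_mul (1 / 2)).congr_deriv ?_
  have h3 : 1 - mm x ^ 2 = (1 - mm x) * (1 + mm x) := by ring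
  rw [h3]
  field_simp
  ring

lemma knum_bb_le {v : ℝ} (hv : 0 ≤ v) (hv1 : v ≤ 1) : bb v ≤ cc * (v + 0.0518 * v ^ 3) := by
  have hd : ∀ t : ℝ, HasDerivAt (fun t => cc * (t + 0.0518 * t ^ 3) - bb t)
      (cc * (1 + 0.1554 * t ^ 2) - cc * Real.exp (-t ^ 2 / 2) / (1 - mm t ^ 2)) t := by
    intro t
    exact ((((hasDerivAt_id t).add ((hasDerivAt_pow 3 t).const_mul 0.0518)).const_mul cc).sub
      (knum_bb_hasDerivAt t)).congr_deriv
        (by norm_num only [Nat.cast_ofNat, Nat.add_one_sub_one]; ring)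
  have hm : MonotoneOn (fun t => cc * (t + 0.0518 * t ^ 3) - bb t) (Icc 0 1) := by
    apply monotoneOn_of_deriv_nonneg (convex_Icc 0 1)
    · exact fun t _ => (hd t).continuousAt.continuousWithinAt
    · exact fun t _ => (hd t).differentiableAt.differentiableWithinAt
    · intro t ht
      rw [interior_Icc] at ht
      rw [(hd t).deriv]
      have h1 := polya ht.1
      have h2 : Real.exp (-t ^ 2 / 2) / (1 - mm t ^ 2) ≤ 1 + 0.1554 * t ^ 2 := by
        have h3 : 0 < 1 - mm t ^ 2 := (Real.exp_pos _).trans h1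
        rw [div_le_iff₀ h3]
        have h4 : (1 + 0.1554 * t ^ 2) * Real.exp (-(2 * t ^ 2 / π)) ≤
            (1 + 0.1554 * t ^ 2) * (1 - mm t ^ 2) := by
          apply mul_le_mul_of_nonneg_left h1.le (by positivity)
        refine le_trans ?_ h4
        have h5 : Real.exp (-t ^ 2 / 2) = Real.exp ((cc ^ 2 - 1 / 2) * t ^ 2) *
            Real.exp (-(2 * t ^ 2 / π)) := by
          rw [← Real.exp_add, cc_sq]
          congr 1
          ring
        rw [h5]
        apply mul_le_mul_of_nonneg_right _ (Real.exp_pos _).le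
        set y := (cc ^ 2 - 1 / 2) * t ^ 2 with hy
        have ht2 : t ^ 2 ≤ 1 := by nlinarith [ht.1, ht.2]
        have hc1 := knum_csq_lt
        have hc2 := knum_lt_csq
        have hy0 : 0 ≤ y := by
          rw [hy]
          apply mul_nonneg _ (sq_nonneg t)
          linarith
        have hy1 : y ≤ 0.13662 * t ^ 2 := by
          rw [hy]
          apply mul_le_mul_of_nonneg_right _ (sq_nonneg t)
          linarith
        have hy2 : y ≤ 0.13662 := by nlinarith
        have h6 := Real.abs_exp_sub_one_sub_id_le (x := y) (by rw [abs_of_nonneg hy0]; linarith)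
        have h7 := (abs_le.1 h6).2
        nlinarith
      have h8 : cc * Real.exp (-t ^ 2 / 2) / (1 - mm t ^ 2) =
          cc * (Real.exp (-t ^ 2 / 2) / (1 - mm t ^ 2)) := by ring
      rw [h8]
      have := cc_pos
      nlinarith
  have := hm (left_mem_Icc.2 zero_le_one) (mem_Icc.2 ⟨hv, hv1⟩) hv
  simp only [bb_zero] at this
  linarith

/-! ### the function `G` -/

lemma knum_lam_neg_eq (v : ℝ) : lam (-v) = cc * Real.exp (-v ^ 2 / 2) / (1 + mm v) := by
  unfold lam
  rw [mm_neg]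
  congr 1
  · congr 2
    ring
  · ring

lemma knum_lam_neg_ge {v : ℝ} (hv : 0 ≤ v) : cc * (1 - v ^ 2 / 2) ≤ lam (-v) * (1 + cc * v) := by
  have h1 := knum_mm_le hv
  have h2 := mm_nonneg hv
  have h3 := Real.add_one_le_exp (-v ^ 2 / 2)
  have hc := cc_pos
  have hl : lam (-v) * (1 + mm v) = cc * Real.exp (-v ^ 2 / 2) := by
    rw [knum_lam_neg_eq]
    field_simp
  have hlpos : 0 < lam (-v) := psi_lam_pos (-v)
  have h4 : lam (-v) * (1 + mm v) ≤ lam (-v) * (1 + cc * v) := by
    apply mul_le_mul_of_nonneg_left _ hlpos.le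
    linarith
  have h5 : cc * (1 - v ^ 2 / 2) ≤ cc * Real.exp (-v ^ 2 / 2) := by
    apply mul_le_mul_of_nonneg_left _ hc.le
    linarith
  linarith

lemma knum_small {v : ℝ} (hv : 0 ≤ v) (hv1 : v ≤ 1) : (1 - cc ^ 2) / cc * bb v ≤ ww (-v) := by
  have hb := knum_bb_le hv hv1
  have hl := knum_lam_neg_ge hv
  have hc := cc_pos
  have hk := knum_kap_pos
  have h1 : (1 - cc ^ 2) / cc * bb v ≤ (1 - cc ^ 2) * (v + 0.0518 * v ^ 3) := by
    calc (1 - cc ^ 2) / cc * bb v ≤ (1 - cc ^ 2) / cc * (cc * (v + 0.0518 * v ^ 3)) := by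
          apply mul_le_mul_of_nonneg_left hb hk.le
      _ = (1 - cc ^ 2) * (v + 0.0518 * v ^ 3) := by field_simp
  refine h1.trans ?_
  unfold ww
  -- suffices after multiplication by `1 + c v`
  have hpos : 0 < 1 + cc * v := by positivity
  rw [← sub_nonneg]
  have h2 : 0 ≤ (lam (-v) - -v - cc - (1 - cc ^ 2) * (v + 0.0518 * v ^ 3)) * (1 + cc * v) := by
    have h3 : (lam (-v) - -v - cc - (1 - cc ^ 2) * (v + 0.0518 * v ^ 3)) * (1 + cc * v) =
        lam (-v) * (1 + cc * v) - (1 + cc * v) *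
          (cc - v + (1 - cc ^ 2) * (v + 0.0518 * v ^ 3)) := by ring
    rw [h3]
    have h4 : (1 + cc * v) * (cc - v + (1 - cc ^ 2) * (v + 0.0518 * v ^ 3)) =
        cc - cc ^ 3 * v ^ 2 + (1 - cc ^ 2) * 0.0518 * v ^ 3 + cc * (1 - cc ^ 2) * 0.0518 * v ^ 4 := by
      ring
    rw [h4]
    have hc1 := knum_csq_lt
    have hc2 := knum_lt_csq
    have hc3 := knum_c_lt
    have hc4 := knum_lt_c
    have h5 : 0.109 ≤ cc ^ 3 - cc / 2 := by nlinarith
    have h6 : (1 - cc ^ 2) * 0.0518 ≤ 0.02 := by nlinarith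
    have h7 : cc * (1 - cc ^ 2) * 0.0518 ≤ 0.02 := by nlinarith
    have hv2 : 0 ≤ v ^ 2 := sq_nonneg v
    have hv3 : v ^ 3 ≤ v ^ 2 := by nlinarith
    have hv3' : 0 ≤ v ^ 3 := by positivity
    have hv4 : v ^ 4 ≤ v ^ 2 := by nlinarith
    have hv4' : 0 ≤ v ^ 4 := by positivity
    have h8 : (1 - cc ^ 2) * 0.0518 * v ^ 3 ≤ 0.02 * v ^ 2 := by nlinarith
    have h9 : cc * (1 - cc ^ 2) * 0.0518 * v ^ 4 ≤ 0.02 * v ^ 2 := by nlinarith
    have h10 : 0.109 * v ^ 2 ≤ (cc ^ 3 - cc / 2) * v ^ 2 := by nlinarith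
    nlinarith
  exact nonneg_of_mul_nonneg_left h2 hpos |>.trans_eq (by ring)

/-- `l(v) = lam (-v)` -/
lemma knum_l_hasDerivAt (v : ℝ) :
    HasDerivAt (fun v => lam (-v)) (-(lam (-v) * (lam (-v) + v))) v := by
  have h := (psi_lam_hasDerivAt (-v)).comp v (hasDerivAt_neg v)
  refine h.congr_deriv ?_
  rw [← knum_lam_eq]
  ring

lemma knum_l_anti : AntitoneOn (fun v : ℝ => lam (-v)) (Ici 0) := by
  apply antitoneOn_of_deriv_nonpos (convex_Ici 0)
  · exact fun t _ => (knum_l_hasDerivAt t).continuousAt.continuousWithinAt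
  · exact fun t _ => (knum_l_hasDerivAt t).differentiableAt.differentiableWithinAt
  · intro t ht
    rw [interior_Ici] at ht
    rw [(knum_l_hasDerivAt t).deriv]
    have h1 : 0 < lam (-t) := psi_lam_pos (-t)
    have ht' : 0 < t := ht
    have : 0 < lam (-t) * (lam (-t) + t) := by positivity
    linarith

lemma knum_h_anti : AntitoneOn (fun v : ℝ => lam (-v) * (lam (-v) + v)) (Ici 1) := by
  have hd : ∀ t : ℝ, HasDerivAt (fun v : ℝ => lam (-v) * (lam (-v) + v))
      (lam (-t) * (1 - (lam (-t) + t) * (2 * lam (-t) + t))) t := by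
    intro t
    have h1 := knum_l_hasDerivAt t
    exact (h1.mul (h1.add (hasDerivAt_id t))).congr_deriv (by simp; ring)
  apply antitoneOn_of_deriv_nonpos (convex_Ici 1)
  · exact fun t _ => (hd t).continuousAt.continuousWithinAt
  · exact fun t _ => (hd t).differentiableAt.differentiableWithinAt
  · intro t ht
    rw [interior_Ici] at ht
    rw [(hd t).deriv]
    have h1 : 0 < lam (-t) := psi_lam_pos (-t)
    have ht' : 1 < t := ht
    have h2 : 1 ≤ (lam (-t) + t) * (2 * lam (-t) + t) := by nlinarith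
    nlinarith

lemma knum_lam_le {v a B : ℝ} (hva : v ≤ a) (hB : 1 < B * (B - a)) (hBa : a < B) (hB0 : 0 < B) :
    lam v ≤ B := by
  by_contra hcon
  push Not at hcon
  have h1 := psi_lam_le v
  rw [← knum_lam_eq] at h1
  have h2 : B * (B - a) ≤ lam v * (lam v - v) := by
    apply mul_le_mul hcon.le (by linarith) (by linarith) (by linarith)
  linarith

/-- the function `G`. -/
lemma knum_G_hasDerivAt (v : ℝ) :
    HasDerivAt (fun v => ww (-v) - (1 - cc ^ 2) / cc * bb v)
      (1 - lam (-v) * (lam (-v) + v) - (1 - cc ^ 2) / cc * ((lam v + lam (-v)) / 2)) v := by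
  have h1 := knum_l_hasDerivAt v
  have h2 : HasDerivAt (fun v : ℝ => ww (-v)) (1 - lam (-v) * (lam (-v) + v)) v := by
    have h3 := (h1.add (hasDerivAt_id v)).sub (hasDerivAt_const v cc)
    have h4 : (fun v : ℝ => ww (-v)) = fun v => lam (-v) + id v - cc := by
      ext y
      unfold ww
      simp
    rw [h4]
    exact h3.congr_deriv (by ring)
  have h5 := (knum_bb_hasDerivAt v).const_mul ((1 - cc ^ 2) / cc)
  refine (h2.sub h5).congr_deriv ?_
  have h6 : cc * Real.exp (-v ^ 2 / 2) / (1 - mm v ^ 2) = (lam v + lam (-v)) / 2 := by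
    rw [knum_lam_neg_eq]
    unfold lam
    have h1 : 0 < 1 - mm v := by linarith [mm_lt_one v]
    have h2 : 0 < 1 + mm v := by linarith [neg_one_lt_mm v]
    have h3 : 1 - mm v ^ 2 = (1 - mm v) * (1 + mm v) := by ring
    rw [h3]
    field_simp
    ring
  rw [h6]

/-- one monotonicity step. -/
lemma knum_step {a b B l h : ℝ} (ha : 1 ≤ a) (hab : a ≤ b) (hB : 1 < B * (B - b)) (hBb : b < B)
    (hl : lam (-a) ≤ l) (hh : l * (l + a) ≤ h) (hnum : 0.45546 * ((B + l) / 2) ≤ 1 - h)
    (h0 : 0 ≤ ww (-a) - (1 - cc ^ 2) / cc * bb a) {v : ℝ} (hv : a ≤ v) (hvb : v ≤ b) :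
    0 ≤ ww (-v) - (1 - cc ^ 2) / cc * bb v := by
  have hm : MonotoneOn (fun v => ww (-v) - (1 - cc ^ 2) / cc * bb v) (Icc a b) := by
    apply monotoneOn_of_deriv_nonneg (convex_Icc a b)
    · exact fun t _ => (knum_G_hasDerivAt t).continuousAt.continuousWithinAt
    · exact fun t _ => (knum_G_hasDerivAt t).differentiableAt.differentiableWithinAt
    · intro t ht
      rw [interior_Icc] at ht
      rw [(knum_G_hasDerivAt t).deriv]
      have hta := ht.1.le
      have hla : 0 < lam (-a) := psi_lam_pos (-a)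
      have h1 : lam (-t) ≤ lam (-a) := knum_l_anti (mem_Ici.2 (by linarith))
        (mem_Ici.2 (by linarith)) hta
      have h2 : lam (-t) * (lam (-t) + t) ≤ lam (-a) * (lam (-a) + a) :=
        knum_h_anti (mem_Ici.2 (by linarith)) (mem_Ici.2 (by linarith)) hta
      have h3 : lam (-a) * (lam (-a) + a) ≤ l * (l + a) := by
        apply mul_le_mul hl (by linarith) (by positivity) (by linarith)
      have h4 : lam t ≤ B := knum_lam_le ht.2.le hB hBb (by linarith)
      have h5 : (1 - cc ^ 2) / cc * ((lam t + lam (-t)) / 2) ≤ 0.45546 * ((B + l) / 2) := by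
        apply mul_le_mul knum_kap_lt.le (by linarith) _ (by norm_num)
        have := psi_lam_pos t
        have := psi_lam_pos (-t)
        rw [knum_lam_eq, knum_lam_eq]
        positivity
      linarith
  have := hm (mem_Icc.2 ⟨le_rfl, hab⟩) (mem_Icc.2 ⟨hv, hvb⟩) hv
  simp only at this
  linarith

lemma knum_mm_one : 0.6649 ≤ mm 1 := by
  have h := knum_mm_ge (v := 1) (by norm_num)
  have := knum_lt_c
  norm_num at h
  linarith

lemma knum_l_le {a e : ℝ} (ha : 1 ≤ a) (he : Real.exp (-a ^ 2 / 2) ≤ e) :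
    lam (-a) ≤ 0.79789 * e / 1.6649 := by
  rw [knum_lam_neg_eq]
  have h1 := knum_mm_one
  have h2 : mm 1 ≤ mm a := strictMono_mm.monotone ha
  have h3 := knum_c_lt
  have h4 := cc_pos
  have h5 := Real.exp_pos (-a ^ 2 / 2)
  apply div_le_div₀
  · nlinarith
  · apply mul_le_mul h3.le he h5.le (by norm_num)
  · norm_num
  · linarith

theorem ww_neg_ge {v : ℝ} (hv : 0 ≤ v) (hv4 : v ≤ 4) : (1 - cc ^ 2) / cc * bb v ≤ ww (-v) := by
  rcases le_total v 1 with h1 | h1
  · exact knum_small hv h1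
  have hG1 : 0 ≤ ww (-1) - (1 - cc ^ 2) / cc * bb 1 := by
    have := knum_small (v := 1) (by norm_num) le_rfl
    linarith
  have hl1 : lam (-1) ≤ 0.29069 := by
    refine (knum_l_le le_rfl (e := 0.60655) ?_).trans (by norm_num)
    have := knum_exp_half
    norm_num
    norm_num at this
    exact this.le
  have hl2 : lam (-2) ≤ 0.0649 := by
    refine (knum_l_le (by norm_num) (e := 0.13537) ?_).trans (by norm_num)
    have := knum_exp_two
    norm_num
    norm_num at this
    exact this.le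
  have hl3 : lam (-3) ≤ 0.00534 := by
    refine (knum_l_le (by norm_num) (e := 0.01112) ?_).trans (by norm_num)
    have := knum_exp_nine
    norm_num
    norm_num at this
    exact this.le
  have step1 : ∀ {v : ℝ}, 1 ≤ v → v ≤ 2 → 0 ≤ ww (-v) - (1 - cc ^ 2) / cc * bb v := by
    intro v hv hv2
    exact knum_step (a := 1) (b := 2) (B := 2.4143) (l := 0.29069) (h := 0.3753) le_rfl
      (by norm_num) (by norm_num) (by norm_num) hl1 (by norm_num) (by norm_num) hG1 hv hv2
  have step2 : ∀ {v : ℝ}, 2 ≤ v → v ≤ 3 → 0 ≤ ww (-v) - (1 - cc ^ 2) / cc * bb v := by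
    intro v hv hv2
    exact knum_step (a := 2) (b := 3) (B := 3.3028) (l := 0.0649) (h := 0.1341) (by norm_num)
      (by norm_num) (by norm_num) (by norm_num) hl2 (by norm_num) (by norm_num)
      (step1 (by norm_num) le_rfl) hv hv2
  have step3 : ∀ {v : ℝ}, 3 ≤ v → v ≤ 4 → 0 ≤ ww (-v) - (1 - cc ^ 2) / cc * bb v := by
    intro v hv hv2
    exact knum_step (a := 3) (b := 4) (B := 4.2361) (l := 0.00534) (h := 0.0161) (by norm_num)
      (by norm_num) (by norm_num) (by norm_num) hl3 (by norm_num) (by norm_num)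
      (step2 (by norm_num) le_rfl) hv hv2
  rcases le_total v 2 with h2 | h2
  · have := step1 h1 h2
    linarith
  rcases le_total v 3 with h3 | h3
  · have := step2 h2 h3
    linarith
  · have := step3 h3 hv4
    linarith

set_option linter.unusedVariables false in
theorem ww_stop {v v1 : ℝ} (hv : 0 ≤ v) (hv1 : v ≤ v1) (h4 : 4 ≤ v1) :
    2 * (1 - cc ^ 2) * v + cc ≤ (1 - cc ^ 2) * v1 + ww (-v) := by
  have hc1 := knum_csq_lt
  have hc2 := knum_lt_csq
  have hc3 := knum_c_lt
  have hc4 := knum_lt_c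
  have hlpos : 0 < lam (-v) := psi_lam_pos (-v)
  unfold ww
  have h1 : (1 - cc ^ 2) * 4 ≤ (1 - cc ^ 2) * v1 := by
    apply mul_le_mul_of_nonneg_left h4
    linarith
  rcases le_total v 0.53 with h | h
  · have hl := knum_lam_neg_ge hv
    have h5 : 0.3 ≤ lam (-v) := by
      by_contra hcon
      push Not at hcon
      have h6 : 0.79788 * (1 - v ^ 2 / 2) ≤ cc * (1 - v ^ 2 / 2) := by
        apply mul_le_mul_of_nonneg_right hc4.le
        nlinarith
      have h7 : cc * v ≤ 0.79789 * 0.53 := by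
        apply mul_le_mul hc3.le h hv (by norm_num)
      have h8 : lam (-v) * (1 + cc * v) ≤ 0.3 * (1 + 0.79789 * 0.53) := by
        apply mul_le_mul hcon.le (by linarith) _ (by norm_num)
        nlinarith [cc_pos]
      nlinarith
    nlinarith
  · nlinarith

theorem cc_num : (1 - cc ^ 2) / (2 * cc) ≤ (2 * cc ^ 2 - 1) * 4 - cc := by
  have hc1 := knum_csq_lt
  have hc2 := knum_lt_csq
  have hc3 := knum_c_lt
  have hc4 := knum_lt_c
  have h := knum_kap_lt
  have h1 : (1 - cc ^ 2) / (2 * cc) = (1 - cc ^ 2) / cc / 2 := by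
    rw [div_div, mul_comm 2 cc]
  rw [h1]
  linarith

end Pool.Agent.CubeWidth
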