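import Pool.Agent.Lib.MP_e8b094_gt.DefsK
import Pool.Agent.Lib.MP_e8b094_gt.Gauss

/-!
Piece K4: mean of a sign sum under a bump weight.
-/

namespace Pool.Agent.CubeWidth

open MeasureTheory Real Set Filter Topology
open scoped ENNReal

/-- average over symmetric signs -/
private noncomputable def lemmamSE (g : ℝ → ℝ) : List ℝ → ℝ → ℝ
  | [], d => g d
  | v :: L, d => (lemmamSE g L (d + v) + lemmamSE g L (d - v)) / 2

/-- average over biased signs, one state variable -/
private noncomputable def lemmamE1 (g : ℝ → ℝ) : List ℝ → ℝ → ℝ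
  | [], d => g d
  | v :: L, d => qq v * lemmamE1 g L (d + v) + qq (-v) * lemmamE1 g L (d - v)

private lemma lemmam_EL (g : ℝ → ℝ) (L : List ℝ) : ∀ d w : ℝ,
    EL (fun x _ => g x) L d w = lemmamE1 g L d := by
  induction L with
  | nil => intro d w; rfl
  | cons v L ih =>
    intro d w
    simp only [EL, lemmamE1, ih]

private lemma lemmam_shift (g : ℝ → ℝ) (L : List ℝ) (a : ℝ) : ∀ d : ℝ,
    lemmamE1 g L (d + a) = lemmamE1 (fun x => g (x + a)) L d := by
  induction L with
  | nil => intro d; rfl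
  | cons v L ih =>
    intro d
    simp only [lemmamE1]
    rw [← ih, ← ih, add_right_comm d a v, show d + a - v = d - v + a by ring]

private lemma lemmam_lin (g h : ℝ → ℝ) (L : List ℝ) : ∀ d : ℝ,
    lemmamE1 (fun x => (g x + h x) / 2) L d = (lemmamE1 g L d + lemmamE1 h L d) / 2 := by
  induction L with
  | nil => intro d; rfl
  | cons v L ih =>
    intro d
    simp only [lemmamE1, ih]
    ring

private lemma lemmam_sym (g : ℝ → ℝ) (e : ℝ) (L : List ℝ) : ∀ d : ℝ,
    lemmamSE g L d = lemmamSE (fun x => g (2 * e - x)) L (2 * e - d) := by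
  induction L with
  | nil =>
    intro d
    simp only [lemmamSE]
    congr 1
    ring
  | cons v L ih =>
    intro d
    simp only [lemmamSE]
    rw [ih (d + v), ih (d - v), show 2 * e - (d + v) = 2 * e - d - v by ring,
      show 2 * e - (d - v) = 2 * e - d + v by ring]
    ring

private lemma lemmam_add_le (g h : ℝ → ℝ) (hgh : ∀ x, g x + h x ≤ 0) (L : List ℝ) : ∀ d : ℝ,
    lemmamSE g L d + lemmamSE h L d ≤ 0 := by
  induction L with
  | nil => intro d; exact hgh d
  | cons v L ih =>
    intro d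
    simp only [lemmamSE]
    linarith [ih (d + v), ih (d - v)]

private lemma lemmam_pair {f : ℝ → ℝ} (hf : Bump f) {K d : ℝ} (hd0 : 0 ≤ d) (hd : d ≤ K) {x : ℝ}
    (hx : 0 ≤ x) : f (d + x) * (d + x - K) + f (d - x) * (d - x - K) ≤ 0 := by
  have h1 : f (d + x) ≤ f (d - x) := by
    apply hf.anti
    rw [abs_of_nonneg (by linarith : (0 : ℝ) ≤ d + x)]
    exact abs_le.mpr ⟨by linarith, by linarith⟩
  have h2 := hf.nonneg (d + x)
  have h3 := hf.nonneg (d - x)
  rcases le_total (d + x) K with h | h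
  · have h4 : f (d + x) * (d + x - K) ≤ 0 := mul_nonpos_of_nonneg_of_nonpos h2 (by linarith)
    have h5 : f (d - x) * (d - x - K) ≤ 0 := mul_nonpos_of_nonneg_of_nonpos h3 (by linarith)
    linarith
  · have h4 : f (d + x) * (d + x - K) ≤ f (d - x) * (d + x - K) :=
      mul_le_mul_of_nonneg_right h1 (by linarith)
    have h5 : f (d - x) * (d + x - K) + f (d - x) * (d - x - K) = 2 * (f (d - x) * (d - K)) := by
      ring
    have h6 : f (d - x) * (d - K) ≤ 0 := mul_nonpos_of_nonneg_of_nonpos h3 (by linarith)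
    linarith

private lemma lemmam_step1 {f : ℝ → ℝ} (hf : Bump f) {K : ℝ} (hK : 0 ≤ K) (L : List ℝ)
    (hL : ∀ v ∈ L, 0 ≤ v ∧ v ≤ K) : ∀ d : ℝ, d ≤ K →
    lemmamSE (fun x => f x * (x - K)) L d ≤ 0 := by
  induction L with
  | nil =>
    intro d hd
    exact mul_nonpos_of_nonneg_of_nonpos (hf.nonneg d) (by linarith)
  | cons v L ih =>
    intro d hd
    have ih' := ih fun u hu => hL u (List.mem_cons_of_mem _ hu)
    obtain ⟨hv0, hvK⟩ := hL v List.mem_cons_self
    rcases le_total 0 d with hd0 | hd0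
    · have h1 := lemmam_sym (fun x => f x * (x - K)) d (v :: L) d
      rw [show 2 * d - d = d by ring] at h1
      have h2 := lemmam_add_le (fun x => f x * (x - K))
        (fun x => (fun x => f x * (x - K)) (2 * d - x)) (fun x => by
          show f x * (x - K) + f (2 * d - x) * (2 * d - x - K) ≤ 0
          rcases le_total d x with hx | hx
          · have := lemmam_pair hf hd0 hd (x := x - d) (by linarith)
            rw [show d + (x - d) = x by ring, show d - (x - d) = 2 * d - x by ring] at this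
            exact this
          · have := lemmam_pair hf hd0 hd (x := d - x) (by linarith)
            rw [show d + (d - x) = 2 * d - x by ring, show d - (d - x) = x by ring] at this
            linarith) (v :: L) d
      rw [← h1] at h2
      linarith
    · simp only [lemmamSE]
      have h1 := ih' (d + v) (by linarith)
      have h2 := ih' (d - v) (by linarith)
      linarith

private lemma lemmam_step2 {f : ℝ → ℝ} (hf : Bump f) {K : ℝ} (hK : 0 ≤ K) (L : List ℝ)
    (hL : ∀ v ∈ L, 0 ≤ v ∧ v ≤ K) : ∀ (Ls : List ℝ), (∀ v ∈ Ls, 0 ≤ v ∧ v ≤ K) → ∀ d : ℝ, d ≤ K →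
    lemmamE1 (lemmamSE (fun x => f x * (x - K)) Ls) L d ≤ 0 := by
  induction L with
  | nil =>
    intro Ls hLs d hd
    exact lemmam_step1 hf hK Ls hLs d hd
  | cons v L ih =>
    intro Ls hLs d hd
    have ih' := ih fun u hu => hL u (List.mem_cons_of_mem _ hu)
    obtain ⟨hv0, hvK⟩ := hL v List.mem_cons_self
    set g := lemmamSE (fun x => f x * (x - K)) Ls with hg
    have h1 := ih' Ls hLs (d - v) (by linarith)
    have h2 := ih' (v :: Ls) (fun u hu => by
      rcases List.mem_cons.mp hu with h | h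
      · rw [h]; exact ⟨hv0, hvK⟩
      · exact hLs u h) d hd
    have h3 : lemmamSE (fun x => f x * (x - K)) (v :: Ls) =
        fun x => ((fun x => g (x + v)) x + (fun x => g (x + -v)) x) / 2 := by
      funext x
      simp only [lemmamSE, hg, sub_eq_add_neg]
    rw [h3, lemmam_lin, ← lemmam_shift, ← lemmam_shift, ← sub_eq_add_neg] at h2
    simp only [lemmamE1]
    have hq1 : qq (-v) = 1 - qq v := by
      unfold qq
      rw [mm_neg]
      ring
    have hq2 : qq v ≤ 1 / 2 := by
      unfold qq
      linarith [mm_nonneg hv0]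
    have hq0 : 0 ≤ qq v := by
      unfold qq
      linarith [mm_lt_one v]
    rw [hq1]
    have h4 : qq v * lemmamE1 g L (d + v) + (1 - qq v) * lemmamE1 g L (d - v) =
        2 * qq v * ((lemmamE1 g L (d + v) + lemmamE1 g L (d - v)) / 2) +
          (1 - 2 * qq v) * lemmamE1 g L (d - v) := by ring
    rw [h4]
    have h5 := mul_nonpos_of_nonneg_of_nonpos (by linarith : (0 : ℝ) ≤ 2 * qq v) h2
    have h6 := mul_nonpos_of_nonneg_of_nonpos (by linarith : (0 : ℝ) ≤ 1 - 2 * qq v) h1
    linarith

theorem lemma_M {f : ℝ → ℝ} (hf : Bump f) {K : ℝ} (hK : 0 ≤ K) (L : List ℝ)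
    (hL : ∀ v ∈ L, 0 ≤ v ∧ v ≤ K) {d : ℝ} (hd : d ≤ K) (w : ℝ) :
    EL (fun x _ => f x * (x - K)) L d w ≤ 0 := by
  rw [lemmam_EL]
  exact lemmam_step2 hf hK L hL [] (by simp) d hd

end Pool.Agent.CubeWidth
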