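import Pool.Agent.Lib.MP_e8b094_gt.KFacts
import Pool.Agent.Lib.MP_e8b094_gt.KNum
import Pool.Agent.Lib.MP_e8b094_gt.ELBasic
import Pool.Agent.Lib.MP_e8b094_gt.LemmaM

/-!
# MP_e8b094_gt, stage 2, piece K6: the sign sum inequality if the largest step is at least 4
-/

namespace Pool.Agent.CubeWidth

open MeasureTheory Real Set Filter Topology

lemma unbig_qq_nonneg (x : ℝ) : 0 ≤ qq x := by
  unfold qq
  linarith [mm_lt_one x]

lemma unbig_cc_sq_lt : cc ^ 2 < 2 / 3 := by
  rw [cc_sq]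
  exact div_lt_div_of_pos_left (by norm_num) (by norm_num) pi_gt_three

lemma unbig_lt_cc_sq : 1 / 2 < cc ^ 2 := by
  rw [cc_sq, div_lt_div_iff₀ (by norm_num) pi_pos]
  linarith [pi_le_four, pi_lt_d2]

lemma unbig_four : cc ≤ (1 - cc ^ 2) * 4 := by
  have h1 := unbig_cc_sq_lt
  have h2 := cc_lt_one
  linarith

/-- dependence on the second variable: none if the integrand does not depend on it. -/
lemma unbig_indep (g : ℝ → ℝ) (L : List ℝ) : ∀ d w w' : ℝ,
    EL (fun x _ => g x) L d w = EL (fun x _ => g x) L d w' := by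
  induction L with
  | nil => intro d w w'; simp [EL]
  | cons v L ih =>
    intro d w w'
    simp only [EL]
    rw [ih (d + v) (w + ww v) (w' + ww v), ih (d - v) (w + ww (-v)) (w' + ww (-v))]

lemma unbig_nonneg {F : ℝ → ℝ → ℝ} (hF : ∀ x w, 0 ≤ F x w) (L : List ℝ) : ∀ d w : ℝ,
    0 ≤ EL F L d w := by
  induction L with
  | nil => intro d w; exact hF d w
  | cons v L ih =>
    intro d w
    simp only [EL]
    exact add_nonneg (mul_nonneg (unbig_qq_nonneg _) (ih _ _))
      (mul_nonneg (unbig_qq_nonneg _) (ih _ _))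

/-- (a) -/
lemma unbig_gen {f : ℝ → ℝ} (hf : Bump f) {K : ℝ} (hK : 0 ≤ K) (L : List ℝ)
    (hL : ∀ v ∈ L, 0 ≤ v ∧ v ≤ K) {d : ℝ} (hd : d ≤ K) (w w' : ℝ) :
    (w + (1 - cc ^ 2) * d - (1 - cc ^ 2) * K) * EL (fun x _ => f x) L d w' ≤
      EL (fun x w => f x * w) L d w := by
  have h1 := EL_tangent hf.nonneg L d w
  have h2 := lemma_M hf hK L hL hd w
  have h3 : EL (fun x _ => f x * (w - (1 - cc ^ 2) * (x - d))) L d w =
      (w + (1 - cc ^ 2) * d - (1 - cc ^ 2) * K) * EL (fun x _ => f x) L d w +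
        (-(1 - cc ^ 2)) * EL (fun x _ => f x * (x - K)) L d w := by
    rw [← EL_mul, ← EL_mul, ← EL_add]
    congr 1
    funext x _
    ring
  rw [h3] at h1
  rw [unbig_indep f L d w' w]
  have h4 : 0 ≤ (-(1 - cc ^ 2)) * EL (fun x _ => f x * (x - K)) L d w := by
    apply mul_nonneg_of_nonpos_of_nonpos _ h2
    linarith [unbig_cc_sq_lt]
  linarith

/-- the negative part functional of (c). -/
noncomputable def unbigNV (f : ℝ → ℝ) : List ℝ → ℝ → ℝ
  | [], d => f d * d
  | v :: L, d => qq v * unbigNV f L (d + v) + qq (-v) * (if 0 < d - v then unbigNV f L (d - v) else 0)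

/-- (c) -/
lemma unbig_c {f : ℝ → ℝ} (hf : Bump f) {v1 : ℝ} (h4 : 4 ≤ v1) (L : List ℝ) :
    L.Pairwise (fun a b => b ≤ a) → (∀ v ∈ L, 0 ≤ v ∧ v ≤ v1) → ∀ d w : ℝ, 0 < d →
      (1 - cc ^ 2) * v1 - cc ≤ w + (1 - cc ^ 2) * d →
      -((1 - cc ^ 2) * unbigNV f L d) ≤ EL (fun x w => f x * w) L d w := by
  have hA : 0 < 1 - cc ^ 2 := by linarith [unbig_cc_sq_lt]
  have hA4 : 0 ≤ (1 - cc ^ 2) * v1 - cc := by nlinarith [unbig_four]
  induction L with
  | nil =>
    intro _ _ d w hd hw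
    simp only [EL, unbigNV]
    have := hf.nonneg d
    nlinarith
  | cons v L ih =>
    intro hP hL d w hd hw
    rw [List.pairwise_cons] at hP
    have hv := hL v List.mem_cons_self
    have hL' : ∀ v ∈ L, 0 ≤ v ∧ v ≤ v1 := fun v' h' => hL v' (List.mem_cons_of_mem _ h')
    have hww : ∀ x : ℝ, 0 ≤ ww x + (1 - cc ^ 2) * x := by
      intro x
      have := lam_tangent x
      unfold ww
      linarith
    simp only [EL, unbigNV]
    have h1 := ih hP.2 hL' (d + v) (w + ww v) (by linarith) (by nlinarith [hww v])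
    have h2 : -((1 - cc ^ 2) * (if 0 < d - v then unbigNV f L (d - v) else 0)) ≤
        EL (fun x w => f x * w) L (d - v) (w + ww (-v)) := by
      split_ifs with h
      · exact ih hP.2 hL' (d - v) (w + ww (-v)) h (by nlinarith [hww (-v)])
      · have h3 := unbig_gen hf hv.1 L (fun v' h' => ⟨(hL' v' h').1, hP.1 v' h'⟩)
          (d := d - v) (by linarith) (w + ww (-v)) 0
        have h5 := ww_stop hv.1 hv.2 h4
        have h6 := unbig_nonneg (F := fun x _ => f x) (fun x _ => hf.nonneg x) L (d - v) 0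
        have h7 : 0 ≤ w + ww (-v) + (1 - cc ^ 2) * (d - v) - (1 - cc ^ 2) * v := by nlinarith
        have := mul_nonneg h7 h6
        linarith
    have h8 := mul_le_mul_of_nonneg_left h1 (unbig_qq_nonneg v)
    have h9 := mul_le_mul_of_nonneg_left h2 (unbig_qq_nonneg (-v))
    linarith

lemma unbig_even {f : ℝ → ℝ} (hf : Bump f) (x : ℝ) : f (-x) = f x :=
  le_antisymm (hf.anti _ _ (by simp)) (hf.anti _ _ (by simp))

/-- (d) -/
lemma unbig_d {f : ℝ → ℝ} (hf : Bump f) (L : List ℝ) :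
    L.Pairwise (fun a b => b ≤ a) → (∀ v ∈ L, 0 ≤ v) → ∀ d y T w : ℝ, 0 < d → T * d ≤ y → cc ≤ T →
      (∀ v ∈ L, bb v ≤ T * v) →
      Real.exp (-(2 * y)) * unbigNV f L d ≤ 1 / (2 * cc) * EL (fun x _ => f x) L (-d) w := by
  have hc := cc_pos
  induction L with
  | nil =>
    intro _ _ d y T w hd hy hT _
    simp only [EL, unbigNV]
    rw [unbig_even hf]
    have h1 : cc * d ≤ y := (mul_le_mul_of_nonneg_right hT hd.le).trans hy
    have h2 : Real.exp (-(2 * y)) ≤ Real.exp (-(2 * (cc * d))) :=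
      Real.exp_le_exp.2 (by linarith)
    have h3 : Real.exp (-(2 * (cc * d))) * (2 * (cc * d)) ≤ 1 := by
      rw [Real.exp_neg, inv_mul_le_iff₀ (Real.exp_pos _), mul_one]
      linarith [Real.add_one_le_exp (2 * (cc * d))]
    have h4 : Real.exp (-(2 * (cc * d))) * d ≤ 1 / (2 * cc) := by
      rw [le_div_iff₀ (by positivity)]
      linarith
    calc Real.exp (-(2 * y)) * (f d * d) = (Real.exp (-(2 * y)) * d) * f d := by ring
      _ ≤ (Real.exp (-(2 * (cc * d))) * d) * f d := by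
        apply mul_le_mul_of_nonneg_right _ (hf.nonneg d)
        exact mul_le_mul_of_nonneg_right h2 hd.le
      _ ≤ 1 / (2 * cc) * f d := mul_le_mul_of_nonneg_right h4 (hf.nonneg d)
  | cons v L ih =>
    intro hP hL d y T w hd hy hT hbb
    rw [List.pairwise_cons] at hP
    have hv : 0 ≤ v := hL v List.mem_cons_self
    have hL' : ∀ v ∈ L, 0 ≤ v := fun v' h' => hL v' (List.mem_cons_of_mem _ h')
    obtain ⟨T', hT1, hT2, hT3, hT4⟩ : ∃ T' : ℝ, cc ≤ T' ∧ T' ≤ T ∧ bb v = T' * v ∧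
        ∀ v' ∈ L, bb v' ≤ T' * v' := by
      rcases hv.eq_or_lt with h0 | h0
      · refine ⟨T, hT, le_rfl, ?_, fun v' h' => hbb v' (List.mem_cons_of_mem _ h')⟩
        rw [← h0, mul_zero, bb_zero]
      · refine ⟨bb v / v, ?_, ?_, ?_, ?_⟩
        · rw [le_div_iff₀ h0]
          exact bb_ge hv
        · rw [div_le_iff₀ h0]
          exact hbb v List.mem_cons_self
        · rw [div_mul_cancel₀ _ h0.ne']
        · intro v' h'
          have h1 := bb_div_mono (hL' v' h') (hP.1 v' h')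
          rw [div_mul_eq_mul_div, le_div_iff₀ h0]
          linarith
    have hy' : T' * d ≤ y := (mul_le_mul_of_nonneg_right hT2 hd.le).trans hy
    have h1 := ih hP.2 hL' (d + v) (y + bb v) T' (w + ww (-v)) (by linarith)
      (by rw [hT3]; linarith) hT1 hT4
    have h2 : Real.exp (-(2 * (y - bb v))) * (if 0 < d - v then unbigNV f L (d - v) else 0) ≤
        1 / (2 * cc) * EL (fun x _ => f x) L (-(d - v)) (w + ww v) := by
      split_ifs with h
      · exact ih hP.2 hL' (d - v) (y - bb v) T' (w + ww v) h (by rw [hT3]; linarith) hT1 hT4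
      · rw [mul_zero]
        exact mul_nonneg (by positivity)
          (unbig_nonneg (F := fun x _ => f x) (fun x _ => hf.nonneg x) L _ _)
    have h3 : Real.exp (-(2 * y)) * qq v = qq (-v) * Real.exp (-(2 * (y + bb v))) := by
      rw [qq_ratio v, show -(2 * (y + bb v)) = -(2 * y) + -(2 * bb v) by ring, Real.exp_add]
      ring
    have h4 : Real.exp (-(2 * y)) * qq (-v) = qq v * Real.exp (-(2 * (y - bb v))) := by
      rw [qq_ratio v, show -(2 * (y - bb v)) = -(2 * y) + 2 * bb v by ring, Real.exp_add,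
        Real.exp_neg (2 * bb v)]
      field_simp
    simp only [EL, unbigNV]
    rw [show -d - v = -(d + v) by ring, show -d + v = -(d - v) by ring]
    have h5 := mul_le_mul_of_nonneg_left h1 (unbig_qq_nonneg (-v))
    have h6 := mul_le_mul_of_nonneg_left h2 (unbig_qq_nonneg v)
    calc Real.exp (-(2 * y)) * (qq v * unbigNV f L (d + v) +
          qq (-v) * (if 0 < d - v then unbigNV f L (d - v) else 0))
        = (Real.exp (-(2 * y)) * qq v) * unbigNV f L (d + v) +
          (Real.exp (-(2 * y)) * qq (-v)) *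
            (if 0 < d - v then unbigNV f L (d - v) else 0) := by ring
      _ = qq (-v) * (Real.exp (-(2 * (y + bb v))) * unbigNV f L (d + v)) +
          qq v * (Real.exp (-(2 * (y - bb v))) *
            (if 0 < d - v then unbigNV f L (d - v) else 0)) := by
        rw [h3, h4]
        ring
      _ ≤ _ := add_le_add h5 h6
      _ = _ := by ring

theorem UN_big {f : ℝ → ℝ} (hf : Bump f) (v1 : ℝ) (h4 : 4 ≤ v1) (L : List ℝ)
    (hL : (v1 :: L).Pairwise (fun a b => b ≤ a)) (hL0 : ∀ v ∈ L, 0 ≤ v) :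
    0 ≤ EL (fun d w => f d * w) (v1 :: L) 0 0 := by
  have hc := cc_pos
  have hA : 0 < 1 - cc ^ 2 := by linarith [unbig_cc_sq_lt]
  have hv1 : 0 < v1 := by linarith
  rw [List.pairwise_cons] at hL
  have hL2 : ∀ v ∈ L, 0 ≤ v ∧ v ≤ v1 := fun v h => ⟨hL0 v h, hL.1 v h⟩
  simp only [EL, zero_add, zero_sub]
  -- first sign plus
  have h1 := unbig_c hf h4 L hL.2 hL2 v1 (ww v1) hv1 (by
    have := le_lam v1
    unfold ww
    linarith)
  -- first sign minus
  have h2 := unbig_gen hf hv1.le L hL2 (d := -v1) (by linarith) (ww (-v1)) 0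
  have h3 := unbig_d hf L hL.2 hL0 v1 (bb v1) (bb v1 / v1) 0 hv1
    (by rw [div_mul_cancel₀ _ hv1.ne']) (by rw [le_div_iff₀ hv1]; exact bb_ge hv1.le) (by
      intro v hv
      have h1 := bb_div_mono (hL0 v hv) (hL.1 v hv)
      rw [div_mul_eq_mul_div, le_div_iff₀ hv1]
      linarith)
  set M := EL (fun x _ => f x) L (-v1) 0 with hM
  have hM0 : 0 ≤ M := unbig_nonneg (F := fun x _ => f x) (fun x _ => hf.nonneg x) L _ _
  have hq := unbig_qq_nonneg (-v1)
  have h5 : ((2 * cc ^ 2 - 1) * 4 - cc) * M ≤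
      (ww (-v1) + (1 - cc ^ 2) * -v1 - (1 - cc ^ 2) * v1) * M := by
    apply mul_le_mul_of_nonneg_right _ hM0
    have h6 := lam_pos (-v1)
    have h7 := unbig_lt_cc_sq
    unfold ww
    nlinarith
  have h6 : (1 - cc ^ 2) / (2 * cc) * M ≤ ((2 * cc ^ 2 - 1) * 4 - cc) * M :=
    mul_le_mul_of_nonneg_right cc_num hM0
  have h7 := mul_le_mul_of_nonneg_left h1 (unbig_qq_nonneg v1)
  have h8 := mul_le_mul_of_nonneg_left (h6.trans (h5.trans h2)) hq
  have h9 : qq v1 * ((1 - cc ^ 2) * unbigNV f L v1) ≤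
      qq (-v1) * ((1 - cc ^ 2) / (2 * cc) * M) := by
    rw [qq_ratio v1]
    have := mul_le_mul_of_nonneg_left h3 (mul_nonneg hq hA.le)
    calc Real.exp (-(2 * bb v1)) * qq (-v1) * ((1 - cc ^ 2) * unbigNV f L v1)
        = qq (-v1) * (1 - cc ^ 2) * (Real.exp (-(2 * bb v1)) * unbigNV f L v1) := by ring
      _ ≤ _ := this
      _ = _ := by ring
  linarith

end Pool.Agent.CubeWidth
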