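import Pool.Agent.Lib.MP_e8b094_gt.DefsK
import Pool.Agent.Lib.MP_e8b094_gt.Gauss
import Pool.Agent.Lib.MP_e8b094_gt.KFacts
import Pool.Agent.Lib.MP_e8b094_gt.KNum

/-!
Sign sums, the inequality for small steps.
-/

namespace Pool.Agent.CubeWidth

open MeasureTheory Real Set Filter Topology

lemma unsmall_qq_nonneg (v : ℝ) : 0 ≤ qq v := by
  unfold qq
  have := mm_lt_one v
  linarith

lemma unsmall_kap_nonneg : 0 ≤ (1 - cc ^ 2) / cc := by
  have h1 := cc_pos
  have h2 := cc_lt_one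
  have h3 : cc ^ 2 ≤ 1 := pow_le_one₀ h1.le h2.le
  exact div_nonneg (by linarith) h1.le

/-- `ww v ≥ - kap * bb v`. -/
lemma unsmall_ww_ge {v : ℝ} (hv : 0 ≤ v) : -((1 - cc ^ 2) / cc * bb v) ≤ ww v := by
  have h1 := lam_tangent v
  have h2 := cc_pos
  have h3 : cc ^ 2 ≤ 1 := pow_le_one₀ h2.le cc_lt_one.le
  have h4 : (1 - cc ^ 2) * v ≤ (1 - cc ^ 2) / cc * bb v := by
    have h5 := mul_le_mul_of_nonneg_left (bb_ge hv) unsmall_kap_nonneg
    refine le_trans (le_of_eq ?_) h5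
    field_simp
  unfold ww
  linarith

lemma unsmall_exp (y : ℝ) : 0 ≤ y * (Real.exp y - Real.exp (-y)) := by
  rcases le_total 0 y with h | h
  · exact mul_nonneg h (sub_nonneg.mpr (Real.exp_le_exp.mpr (by linarith)))
  · exact mul_nonneg_of_nonpos_of_nonpos h (sub_nonpos.mpr (Real.exp_le_exp.mpr (by linarith)))

/-- pairing of opposite signs. -/
lemma unsmall_pair {f : ℝ → ℝ} (hf : ∀ x, 0 ≤ f x) (hfe : ∀ x, f (-x) = f x) (L : List ℝ) :
    (∀ v ∈ L, 0 ≤ v ∧ v ≤ 4) → ∀ d w w' y : ℝ, -((1 - cc ^ 2) / cc * y) ≤ w →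
      (1 - cc ^ 2) / cc * y ≤ w' →
      0 ≤ Real.exp (-y) * EL (fun d w => f d * w) L d w +
        Real.exp y * EL (fun d w => f d * w) L (-d) w' := by
  have hk := unsmall_kap_nonneg
  induction L with
  | nil =>
    intro _ d w w' y h1 h2
    simp only [EL, hfe]
    have h3 := unsmall_exp y
    have e1 := mul_le_mul_of_nonneg_left h1 (Real.exp_pos (-y)).le
    have e2 := mul_le_mul_of_nonneg_left h2 (Real.exp_pos y).le
    have e3 := mul_nonneg hk h3
    have e4 : 0 ≤ f d * (Real.exp (-y) * w + Real.exp y * w') :=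
      mul_nonneg (hf d) (by linarith)
    linarith
  | cons v L ih =>
    intro hL d w w' y h1 h2
    obtain ⟨hv, hv4⟩ := hL v List.mem_cons_self
    have hL' : ∀ v ∈ L, 0 ≤ v ∧ v ≤ 4 := fun x hx => hL x (List.mem_cons_of_mem _ hx)
    have a1 := unsmall_ww_ge hv
    have a2 := ww_neg_ge hv hv4
    have hA := ih hL' (d + v) (w + ww v) (w' + ww (-v)) (y + bb v)
      (by rw [mul_add]; linarith) (by rw [mul_add]; linarith)
    have hB := ih hL' (d - v) (w + ww (-v)) (w' + ww v) (y - bb v)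
      (by rw [mul_sub]; linarith) (by rw [mul_sub]; linarith)
    have hq : 0 ≤ Real.exp (-(bb v)) * qq (-v) :=
      mul_nonneg (Real.exp_pos _).le (unsmall_qq_nonneg _)
    have q1 : qq v = Real.exp (-(bb v)) * (Real.exp (-(bb v)) * qq (-v)) := by
      rw [qq_ratio v, ← mul_assoc, ← Real.exp_add]; ring_nf
    have q2 : qq (-v) = Real.exp (bb v) * (Real.exp (-(bb v)) * qq (-v)) := by
      rw [← mul_assoc, ← Real.exp_add, add_neg_cancel, Real.exp_zero, one_mul]
    have hA' := mul_nonneg hq hA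
    have hB' := mul_nonneg hq hB
    have x1 : Real.exp (-(y + bb v)) = Real.exp (-y) * Real.exp (-(bb v)) := by
      rw [← Real.exp_add]; ring_nf
    have x2 : Real.exp (y + bb v) = Real.exp y * Real.exp (bb v) := Real.exp_add _ _
    have x3 : Real.exp (-(y - bb v)) = Real.exp (-y) * Real.exp (bb v) := by
      rw [← Real.exp_add]; ring_nf
    have x4 : Real.exp (y - bb v) = Real.exp y * Real.exp (-(bb v)) := by
      rw [← Real.exp_add]; ring_nf
    rw [x1, x2] at hA'
    rw [x3, x4] at hB'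
    have d1 : -(d + v) = -d - v := by ring
    have d2 : -(d - v) = -d + v := by ring
    rw [d1] at hA'
    rw [d2] at hB'
    set q := Real.exp (-(bb v)) * qq (-v) with hqdef
    simp only [EL]
    rw [q1, q2]
    refine le_trans (add_nonneg hA' hB') (le_of_eq ?_)
    ring

theorem UN_small {f : ℝ → ℝ} (hf : ∀ x, 0 ≤ f x) (hfe : ∀ x, f (-x) = f x) (L : List ℝ)
    (hL : ∀ v ∈ L, 0 ≤ v ∧ v ≤ 4) : 0 ≤ EL (fun d w => f d * w) L 0 0 := by
  have h := unsmall_pair hf hfe L hL 0 0 0 0 (by simp) (by simp)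
  simp only [neg_zero, Real.exp_zero, one_mul] at h
  linarith

end Pool.Agent.CubeWidth
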