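import Pool.Agent.Lib.MP_e8b094_gt.DefsK
import Pool.Agent.Lib.MP_e8b094_gt.ELBasic
import Pool.Agent.Lib.MP_e8b094_gt.UNSmall
import Pool.Agent.Lib.MP_e8b094_gt.UNBig

/-!
The inequality for sign sums: nonnegative lists of any size.
-/

namespace Pool.Agent.CubeWidth

open MeasureTheory Real Set Filter Topology Pointwise
open scoped ENNReal

theorem un_even {f : ℝ → ℝ} (hf : Bump f) (x : ℝ) : f (-x) = f x :=
  le_antisymm (hf.anti x (-x) (by rw [abs_neg])) (hf.anti (-x) x (by rw [abs_neg]))

theorem UN {f : ℝ → ℝ} (hf : Bump f) (L : List ℝ) (hL : ∀ v ∈ L, 0 ≤ v) :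
    0 ≤ EL (fun d w => f d * w) L 0 0 := by
  have hp : L.Perm (L.insertionSort (fun a b => b ≤ a)) := (List.perm_insertionSort _ L).symm
  have hs : (L.insertionSort (fun a b => b ≤ a)).Pairwise (fun a b => b ≤ a) := by
    have := List.pairwise_insertionSort (fun a b : ℝ => b ≤ a) L
    exact this
  have hm : ∀ v ∈ L.insertionSort (fun a b => b ≤ a), 0 ≤ v :=
    fun v hv => hL v (hp.mem_iff.mpr hv)
  rw [EL_perm _ hp]
  generalize L.insertionSort (fun a b => b ≤ a) = M at hs hm
  cases M with
  | nil => simp [EL]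
  | cons v M =>
    rcases le_total v 4 with h | h
    · refine UN_small hf.nonneg (un_even hf) _ ?_
      intro a ha
      refine ⟨hm a ha, ?_⟩
      rcases List.mem_cons.mp ha with h1 | h1
      · rw [h1]; exact h
      · exact le_trans (List.rel_of_pairwise_cons hs h1) h
    · exact UN_big hf v h M hs (fun a ha => hm a (List.mem_cons_of_mem _ ha))

end Pool.Agent.CubeWidth
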