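import Pool.Agent.Lib.MP_e8b094_gt.DefsK
import Pool.Agent.Lib.MP_e8b094_gt.ELBasic
import Pool.Agent.Lib.MP_e8b094_gt.UN
import Pool.Agent.Lib.MP_e8b094_gt.Smear
import Pool.Agent.Lib.MP_e8b094_gt.OutInt

/-!
Weighted inequality in `m` coordinates (piece K10).
-/

namespace Pool.Agent.CubeWidth

open MeasureTheory Real Set Filter Topology
open scoped ENNReal


/-! ### measurability -/

lemma kmain_meas_cl : Measurable cl := by
  unfold cl; fun_prop

lemma kmain_meas_rho : Measurable rho := by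
  unfold rho
  exact measurable_id.sub kmain_meas_cl

lemma kmain_meas_fr {m : ℕ} : Measurable (fr : (Fin m → ℝ) → ℕ) := by
  have h : (fr : (Fin m → ℝ) → ℕ) = fun z => ∑ j, if |z j| < 1 then 1 else 0 := by
    funext z
    unfold fr
    rw [Finset.card_filter]
  rw [h]
  refine Finset.measurable_sum _ (fun j _ => Measurable.ite ?_ measurable_const measurable_const)
  exact measurableSet_lt ((measurable_pi_apply j).abs) measurable_const

lemma kmain_one_add_sum_le {ι : Type*} (s : Finset ι) (x : ι → ℝ) (hx : ∀ i, 0 ≤ x i) :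
    1 + ∑ i ∈ s, x i ≤ ∏ i ∈ s, (1 + x i) := by
  classical
  induction s using Finset.induction_on with
  | empty => simp
  | insert i s hi ih =>
    rw [Finset.sum_insert hi, Finset.prod_insert hi]
    have h0 : 0 ≤ ∑ i ∈ s, x i := Finset.sum_nonneg (fun j _ => hx j)
    have := hx i
    nlinarith [mul_nonneg this h0]

/-- Gaussian weight. -/
noncomputable def kmain_E {m : ℕ} (a : Fin m → ℝ) (s : ℝ) (z : Fin m → ℝ) : ℝ :=
  Real.exp (-(∑ j, (s * a j + rho (z j)) ^ 2) / 2)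

lemma kmain_E_pos {m : ℕ} (a : Fin m → ℝ) (s : ℝ) (z : Fin m → ℝ) : 0 < kmain_E a s z :=
  Real.exp_pos _

lemma kmain_meas_E {m : ℕ} (a : Fin m → ℝ) (s : ℝ) : Measurable (kmain_E a s) := by
  unfold kmain_E
  have h : ∀ j : Fin m, Measurable (fun z : Fin m → ℝ => rho (z j)) := fun j =>
    kmain_meas_rho.comp (measurable_pi_apply j)
  have h2 : Measurable (fun z : Fin m → ℝ => ∑ j, (s * a j + rho (z j)) ^ 2) :=
    Finset.measurable_sum _ (fun j _ => (measurable_const.add (h j)).pow_const 2)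
  exact Real.measurable_exp.comp (h2.neg.div_const 2)

lemma kmain_E_prod {m : ℕ} (a : Fin m → ℝ) (s : ℝ) (z : Fin m → ℝ) :
    kmain_E a s z = ∏ j, Real.exp (-(s * a j + rho (z j)) ^ 2 / 2) := by
  unfold kmain_E
  rw [← Real.exp_sum]
  congr 1
  rw [← Finset.sum_neg_distrib, Finset.sum_div]

lemma kmain_meas_sabs {m : ℕ} : Measurable (fun z : Fin m → ℝ => ∑ j, |rho (z j)|) :=
  Finset.measurable_sum _ (fun j _ => (kmain_meas_rho.comp (measurable_pi_apply j)).abs)

lemma kmain_meas_scl {m : ℕ} (a : Fin m → ℝ) :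
    Measurable (fun z : Fin m → ℝ => ∑ j, a j * cl (z j)) :=
  Finset.measurable_sum _ (fun j _ => (kmain_meas_cl.comp (measurable_pi_apply j)).const_mul _)

lemma kmain_sabs_nonneg {m : ℕ} (z : Fin m → ℝ) : 0 ≤ ∑ j, |rho (z j)| :=
  Finset.sum_nonneg (fun _ _ => abs_nonneg _)

lemma kmain_bound_integrable {m : ℕ} (a : Fin m → ℝ) (s : ℝ) (p : ℕ) :
    Integrable (fun z : Fin m → ℝ => (1 + ∑ j, |rho (z j)|) ^ p * kmain_E a s z) := by
  have h1 : Integrable (fun z : Fin m → ℝ =>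
      ∏ j, ((1 + |rho (z j)|) ^ p * Real.exp (-(s * a j + rho (z j)) ^ 2 / 2))) :=
    Integrable.fintype_prod
      (f := fun j z => (1 + |rho z|) ^ p * Real.exp (-(s * a j + rho z) ^ 2 / 2))
      (fun j => out_integrable (s * a j) p)
  refine h1.mono' ?_ ?_
  · exact (((measurable_const.add kmain_meas_sabs).pow_const p).mul
      (kmain_meas_E a s)).aestronglyMeasurable
  · refine Filter.Eventually.of_forall (fun z => ?_)
    have h0 := kmain_sabs_nonneg z
    rw [Real.norm_eq_abs, abs_of_nonneg (by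
      have := (kmain_E_pos a s z).le
      positivity), kmain_E_prod, Finset.prod_mul_distrib, Finset.prod_pow]
    refine mul_le_mul_of_nonneg_right ?_ (Finset.prod_nonneg (fun _ _ => (Real.exp_pos _).le))
    exact pow_le_pow_left₀ (by positivity)
      (kmain_one_add_sum_le _ _ (fun j => abs_nonneg _)) p

/-- the indicator of `fr z = k` as a real number. -/
noncomputable def kmain_I {m : ℕ} (k : ℕ) (z : Fin m → ℝ) : ℝ := if fr z = k then 1 else 0

lemma kmain_I_nonneg {m : ℕ} (k : ℕ) (z : Fin m → ℝ) : 0 ≤ kmain_I k z := by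
  unfold kmain_I; split_ifs <;> norm_num

lemma kmain_I_le {m : ℕ} (k : ℕ) (z : Fin m → ℝ) : kmain_I k z ≤ 1 := by
  unfold kmain_I; split_ifs <;> norm_num

lemma kmain_meas_I {m : ℕ} (k : ℕ) : Measurable (kmain_I k : (Fin m → ℝ) → ℝ) := by
  unfold kmain_I
  exact Measurable.ite (kmain_meas_fr (measurableSet_singleton k)) measurable_const
    measurable_const

lemma Bump.kmain_bound {f : ℝ → ℝ} (hf : Bump f) (x : ℝ) : |f x| ≤ f 0 := by
  rw [abs_of_nonneg (hf.nonneg x)]
  exact hf.anti 0 x (by simp)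

lemma kmain_integrable {m : ℕ} (a : Fin m → ℝ) (s : ℝ) {f : ℝ → ℝ} (hfm : Measurable f) {M : ℝ}
    (hM : ∀ x, |f x| ≤ M) (k : ℕ) (d w : ℝ) :
    Integrable (fun z : Fin m → ℝ => kmain_I k z * kmain_E a s z *
      (f (d + ∑ j, a j * cl (z j)) * (w + ∑ j, |rho (z j)|))) := by
  have hM0 : 0 ≤ M := (abs_nonneg _).trans (hM 0)
  refine ((kmain_bound_integrable a s 1).const_mul (M * (|w| + 1))).mono' ?_ ?_
  · exact (((kmain_meas_I k).mul (kmain_meas_E a s)).mul
      ((hfm.comp (measurable_const.add (kmain_meas_scl a))).mul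
        (measurable_const.add kmain_meas_sabs))).aestronglyMeasurable
  · refine Filter.Eventually.of_forall (fun z => ?_)
    have h0 := kmain_sabs_nonneg z
    have hE := (kmain_E_pos a s z).le
    rw [Real.norm_eq_abs, abs_mul, abs_mul, abs_mul, abs_of_nonneg hE,
      abs_of_nonneg (kmain_I_nonneg k z), pow_one]
    have h1 : |(w + ∑ j, |rho (z j)|)| ≤ (|w| + 1) * (1 + ∑ j, |rho (z j)|) := by
      refine (abs_add_le _ _).trans ?_
      rw [abs_of_nonneg h0]
      nlinarith [mul_nonneg (abs_nonneg w) h0, abs_nonneg w]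
    have h2 : |f (d + ∑ j, a j * cl (z j))| * |(w + ∑ j, |rho (z j)|)| ≤
        M * ((|w| + 1) * (1 + ∑ j, |rho (z j)|)) :=
      mul_le_mul (hM _) h1 (abs_nonneg _) hM0
    have h3 : kmain_I k z * kmain_E a s z ≤ kmain_E a s z := by
      nlinarith [kmain_I_le k z]
    calc kmain_I k z * kmain_E a s z * (|f (d + ∑ j, a j * cl (z j))| * |(w + ∑ j, |rho (z j)|)|)
        ≤ kmain_E a s z * (M * ((|w| + 1) * (1 + ∑ j, |rho (z j)|))) :=
          mul_le_mul h3 h2 (by positivity) hE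
      _ = _ := by ring

lemma kmain_integrable0 {m : ℕ} (a : Fin m → ℝ) (s : ℝ) {f : ℝ → ℝ} (hfm : Measurable f) {M : ℝ}
    (hM : ∀ x, |f x| ≤ M) (k : ℕ) (d : ℝ) :
    Integrable (fun z : Fin m → ℝ => kmain_I k z * kmain_E a s z *
      f (d + ∑ j, a j * cl (z j))) := by
  have h1 := (kmain_integrable a s hfm hM k d 1).sub (kmain_integrable a s hfm hM k d 0)
  refine h1.congr (Filter.Eventually.of_forall (fun z => ?_))
  simp only [Pi.sub_apply]
  ring

/-- the functional of the induction. -/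
noncomputable def kmain_X {m : ℕ} (a : Fin m → ℝ) (s : ℝ) (k : ℕ) (f : ℝ → ℝ) (d w : ℝ) : ℝ :=
  ∫ z : Fin m → ℝ, kmain_I k z * kmain_E a s z *
      (f (d + ∑ j, a j * cl (z j)) * (w - cc * ((m : ℝ) - k) + ∑ j, |rho (z j)|))

noncomputable def kmain_X0 {m : ℕ} (a : Fin m → ℝ) (s : ℝ) (k : ℕ) (f : ℝ → ℝ) (d : ℝ) : ℝ :=
  ∫ z : Fin m → ℝ, kmain_I k z * kmain_E a s z * f (d + ∑ j, a j * cl (z j))

lemma kmain_X_add {m : ℕ} (a : Fin m → ℝ) (s : ℝ) {f : ℝ → ℝ} (hfm : Measurable f) {M : ℝ}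
    (hM : ∀ x, |f x| ≤ M) (k : ℕ) (d w t : ℝ) :
    kmain_X a s k f d (w + t) = kmain_X a s k f d w + t * kmain_X0 a s k f d := by
  unfold kmain_X kmain_X0
  rw [← integral_const_mul, ← integral_add (kmain_integrable a s hfm hM k d _)
    ((kmain_integrable0 a s hfm hM k d).const_mul t)]
  refine integral_congr_ae (Filter.Eventually.of_forall (fun z => ?_))
  simp only
  ring

/-! ### peeling one coordinate -/

lemma kmain_fr_cons {m : ℕ} (x : ℝ) (z : Fin m → ℝ) :
    fr (Fin.cons x z : Fin (m + 1) → ℝ) = (if |x| < 1 then 1 else 0) + fr z := by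
  unfold fr
  rw [Finset.card_filter, Finset.card_filter, Fin.sum_univ_succ]
  simp

lemma kmain_E_cons {m : ℕ} (a : Fin (m + 1) → ℝ) (s x : ℝ) (z : Fin m → ℝ) :
    kmain_E a s (Fin.cons x z : Fin (m + 1) → ℝ) =
      Real.exp (-(s * a 0 + rho x) ^ 2 / 2) * kmain_E (fun j => a j.succ) s z := by
  rw [kmain_E_prod, kmain_E_prod, Fin.prod_univ_succ]
  simp

lemma kmain_peel {m : ℕ} {G : (Fin (m + 1) → ℝ) → ℝ} (hG : Integrable G) :
    (Integrable (fun x : ℝ => ∫ z : Fin m → ℝ, G (Fin.cons x z))) ∧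
    ∫ z, G z = ∫ x : ℝ, ∫ z : Fin m → ℝ, G (Fin.cons x z) := by
  have hmp := (volume_preserving_piFinSuccAbove (fun _ : Fin (m + 1) => ℝ) 0).symm
  have hs : ∀ p : ℝ × (Fin m → ℝ),
      (MeasurableEquiv.piFinSuccAbove (fun _ : Fin (m + 1) => ℝ) 0).symm p =
        (Fin.cons p.1 p.2 : Fin (m + 1) → ℝ) := by
    intro p
    exact Fin.insertNth_zero' p.1 p.2
  have hint : Integrable (fun p : ℝ × (Fin m → ℝ) => G (Fin.cons p.1 p.2))
      ((volume : Measure ℝ).prod (volume : Measure (Fin m → ℝ))) := by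
    have := (hmp.integrable_comp_emb (MeasurableEquiv.measurableEmbedding _)).2 hG
    refine Integrable.congr this (Filter.Eventually.of_forall (fun p => ?_))
    simp only [Function.comp_apply, hs]
  refine ⟨hint.integral_prod_left, ?_⟩
  rw [← integral_prod _ hint]
  have := hmp.integral_comp' (g := G)
  rw [← this]
  simp only [hs]
  rfl

lemma kmain_line_split {g : ℝ → ℝ} (hg : Integrable g) :
    ∫ x, g x = (∫ x in (-1 : ℝ)..1, g x) + ((∫ x in Ici (1 : ℝ), g x) +
      ∫ x in Iic (-1 : ℝ), g x) := by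
  have h1 : ∫ x, g x = (∫ x in Iic (-1 : ℝ), g x) + ∫ x in Ioi (-1 : ℝ), g x := by
    rw [← setIntegral_univ, ← Iic_union_Ioi (a := (-1 : ℝ)),
      setIntegral_union (Set.Iic_disjoint_Ioi le_rfl) measurableSet_Ioi hg.integrableOn
        hg.integrableOn]
  have h2 : ∫ x in Ioi (-1 : ℝ), g x = (∫ x in Ioc (-1 : ℝ) 1, g x) + ∫ x in Ioi (1 : ℝ), g x := by
    rw [← Ioc_union_Ioi_eq_Ioi (by norm_num : (-1 : ℝ) ≤ 1),
      setIntegral_union (Set.Ioc_disjoint_Ioi le_rfl) measurableSet_Ioi hg.integrableOn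
        hg.integrableOn]
  rw [h1, h2, intervalIntegral.integral_of_le (by norm_num : (-1 : ℝ) ≤ 1),
    integral_Ici_eq_integral_Ioi]
  ring

lemma kmain_rho_mid {x : ℝ} (h1 : -1 ≤ x) (h2 : x ≤ 1) : rho x = 0 := by
  unfold rho cl
  rw [min_eq_right h2, max_eq_right h1]; ring

lemma kmain_cl_mid {x : ℝ} (h1 : -1 ≤ x) (h2 : x ≤ 1) : cl x = x := by
  unfold cl
  rw [min_eq_right h2, max_eq_right h1]

lemma kmain_cl_pos {x : ℝ} (h1 : 1 ≤ x) : cl x = 1 := by
  unfold cl
  rw [min_eq_left h1]; norm_num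

lemma kmain_cl_neg {x : ℝ} (h1 : x ≤ -1) : cl x = -1 := by
  unfold cl
  rw [min_eq_right (by linarith), max_eq_left h1]

/-- the integral over the last coordinates. -/
lemma kmain_inner {m : ℕ} (a : Fin (m + 1) → ℝ) (s : ℝ) (k : ℕ) (f : ℝ → ℝ) (d w x : ℝ) :
    ∫ z : Fin m → ℝ, kmain_I k (Fin.cons x z : Fin (m + 1) → ℝ) *
        kmain_E a s (Fin.cons x z : Fin (m + 1) → ℝ) *
      (f (d + ∑ j, a j * cl ((Fin.cons x z : Fin (m + 1) → ℝ) j)) *
        (w - cc * (((m + 1 : ℕ) : ℝ) - k) + ∑ j, |rho ((Fin.cons x z : Fin (m + 1) → ℝ) j)|)) =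
    Real.exp (-(s * a 0 + rho x) ^ 2 / 2) * ∫ z : Fin m → ℝ,
      (if (if |x| < 1 then 1 else 0) + fr z = k then (1 : ℝ) else 0) *
        kmain_E (fun j => a j.succ) s z *
      (f (d + a 0 * cl x + ∑ j : Fin m, a j.succ * cl (z j)) *
        (w + |rho x| - cc - cc * ((m : ℝ) - k) + ∑ j, |rho (z j)|)) := by
  rw [← integral_const_mul]
  refine integral_congr_ae (Filter.Eventually.of_forall (fun z => ?_))
  simp only
  rw [kmain_E_cons]
  unfold kmain_I
  rw [kmain_fr_cons, Fin.sum_univ_succ, Fin.sum_univ_succ]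
  simp only [Fin.cons_zero, Fin.cons_succ]
  push_cast
  rw [← add_assoc d]
  ring

lemma kmain_inner_out {m : ℕ} (a : Fin (m + 1) → ℝ) (s : ℝ) {f : ℝ → ℝ} (hfm : Measurable f)
    {M : ℝ} (hM : ∀ x, |f x| ≤ M) (k : ℕ) (d w x : ℝ) (hx : ¬ |x| < 1) :
    ∫ z : Fin m → ℝ, kmain_I k (Fin.cons x z : Fin (m + 1) → ℝ) *
        kmain_E a s (Fin.cons x z : Fin (m + 1) → ℝ) *
      (f (d + ∑ j, a j * cl ((Fin.cons x z : Fin (m + 1) → ℝ) j)) *
        (w - cc * (((m + 1 : ℕ) : ℝ) - k) + ∑ j, |rho ((Fin.cons x z : Fin (m + 1) → ℝ) j)|)) =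
    Real.exp (-(s * a 0 + rho x) ^ 2 / 2) *
      (kmain_X (fun j => a j.succ) s k f (d + a 0 * cl x) w +
        (|rho x| - cc) * kmain_X0 (fun j => a j.succ) s k f (d + a 0 * cl x)) := by
  rw [kmain_inner, ← kmain_X_add _ _ hfm hM]
  congr 1
  unfold kmain_X kmain_I
  refine integral_congr_ae (Filter.Eventually.of_forall (fun z => ?_))
  simp only [if_neg hx, zero_add]
  ring

lemma kmain_inner_mid {m : ℕ} (a : Fin (m + 1) → ℝ) (s : ℝ) (f : ℝ → ℝ) (k : ℕ) (d w x : ℝ)
    (hx : |x| < 1) :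
    ∫ z : Fin m → ℝ, kmain_I (k + 1) (Fin.cons x z : Fin (m + 1) → ℝ) *
        kmain_E a s (Fin.cons x z : Fin (m + 1) → ℝ) *
      (f (d + ∑ j, a j * cl ((Fin.cons x z : Fin (m + 1) → ℝ) j)) *
        (w - cc * (((m + 1 : ℕ) : ℝ) - (k + 1 : ℕ)) +
          ∑ j, |rho ((Fin.cons x z : Fin (m + 1) → ℝ) j)|)) =
    Real.exp (-(s * a 0) ^ 2 / 2) * kmain_X (fun j => a j.succ) s k f (d + a 0 * x) w := by
  rw [kmain_inner]
  rw [kmain_rho_mid (abs_lt.1 hx).1.le (abs_lt.1 hx).2.le,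
    kmain_cl_mid (abs_lt.1 hx).1.le (abs_lt.1 hx).2.le, add_zero]
  congr 1
  unfold kmain_X kmain_I
  refine integral_congr_ae (Filter.Eventually.of_forall (fun z => ?_))
  simp only [if_pos hx, abs_zero, add_comm 1 (fr z), add_left_inj]
  push_cast
  ring

lemma kmain_inner_mid0 {m : ℕ} (a : Fin (m + 1) → ℝ) (s : ℝ) (f : ℝ → ℝ) (d w x : ℝ)
    (hx : |x| < 1) :
    ∫ z : Fin m → ℝ, kmain_I 0 (Fin.cons x z : Fin (m + 1) → ℝ) *
        kmain_E a s (Fin.cons x z : Fin (m + 1) → ℝ) *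
      (f (d + ∑ j, a j * cl ((Fin.cons x z : Fin (m + 1) → ℝ) j)) *
        (w - cc * (((m + 1 : ℕ) : ℝ) - (0 : ℕ)) +
          ∑ j, |rho ((Fin.cons x z : Fin (m + 1) → ℝ) j)|)) = 0 := by
  rw [kmain_inner]
  simp only [if_pos hx, Nat.add_eq_zero_iff, one_ne_zero, false_and, if_false, zero_mul,
    integral_zero, mul_zero]

/-- averaging over a free coordinate smears the function. -/
lemma kmain_smear {m : ℕ} (a : Fin m → ℝ) (s : ℝ) {f : ℝ → ℝ} (hfm : Measurable f) {M : ℝ}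
    (hM : ∀ x, |f x| ≤ M) (k : ℕ) (b d w : ℝ) :
    ∫ x in (-1 : ℝ)..1, kmain_X a s k f (d + b * x) w =
      kmain_X a s k (fun x => ∫ y in (-1 : ℝ)..1, f (x + b * y)) d w := by
  have hM0 : 0 ≤ M := (abs_nonneg _).trans (hM 0)
  unfold kmain_X
  rw [intervalIntegral.integral_of_le (by norm_num : (-1 : ℝ) ≤ 1)]
  rw [integral_integral_swap]
  · refine integral_congr_ae (Filter.Eventually.of_forall (fun z => ?_))
    simp only
    rw [intervalIntegral.integral_of_le (by norm_num : (-1 : ℝ) ≤ 1)]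
    rw [integral_const_mul, integral_mul_const]
    congr 3
    funext y
    congr 1
    ring
  · have h1 := ((kmain_bound_integrable a s 1).const_mul
      (M * (|w - cc * ((m : ℝ) - k)| + 1)))
    have h2 : Integrable (fun p : ℝ × (Fin m → ℝ) => (1 : ℝ) *
        (M * (|w - cc * ((m : ℝ) - k)| + 1) *
          ((1 + ∑ j, |rho (p.2 j)|) ^ 1 * kmain_E a s p.2)))
        ((volume.restrict (Ioc (-1 : ℝ) 1)).prod volume) := by
      have h3 : Integrable (fun _ : ℝ => (1 : ℝ)) (volume.restrict (Ioc (-1 : ℝ) 1)) :=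
        integrable_const _
      exact h3.mul_prod h1
    refine h2.mono' ?_ ?_
    · refine Measurable.aestronglyMeasurable ?_
      have m1 : Measurable (fun p : ℝ × (Fin m → ℝ) => kmain_I k p.2 * kmain_E a s p.2) :=
        ((kmain_meas_I k).mul (kmain_meas_E a s)).comp measurable_snd
      have m2 : Measurable (fun p : ℝ × (Fin m → ℝ) =>
          f (d + b * p.1 + ∑ j, a j * cl (p.2 j))) :=
        hfm.comp ((measurable_const.add (measurable_fst.const_mul b)).add
          ((kmain_meas_scl a).comp measurable_snd))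
      have m3 : Measurable (fun p : ℝ × (Fin m → ℝ) =>
          (w - cc * ((m : ℝ) - k) + ∑ j, |rho (p.2 j)|)) :=
        measurable_const.add (kmain_meas_sabs.comp measurable_snd)
      exact m1.mul (m2.mul m3)
    · refine Filter.Eventually.of_forall (fun p => ?_)
      obtain ⟨x, z⟩ := p
      simp only [Function.uncurry]
      have h0 := kmain_sabs_nonneg z
      have hE := (kmain_E_pos a s z).le
      set W := w - cc * ((m : ℝ) - k) with hW
      rw [Real.norm_eq_abs, abs_mul, abs_mul, abs_mul, abs_of_nonneg hE,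
        abs_of_nonneg (kmain_I_nonneg k z), pow_one]
      have h1 : |(W + ∑ j, |rho (z j)|)| ≤ (|W| + 1) * (1 + ∑ j, |rho (z j)|) := by
        refine (abs_add_le _ _).trans ?_
        rw [abs_of_nonneg h0]
        nlinarith [mul_nonneg (abs_nonneg W) h0, abs_nonneg W]
      have h2 : |f (d + b * x + ∑ j, a j * cl (z j))| * |(W + ∑ j, |rho (z j)|)| ≤
          M * ((|W| + 1) * (1 + ∑ j, |rho (z j)|)) :=
        mul_le_mul (hM _) h1 (abs_nonneg _) hM0
      have h3 : kmain_I k z * kmain_E a s z ≤ kmain_E a s z := by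
        nlinarith [kmain_I_le k z]
      calc kmain_I k z * kmain_E a s z *
            (|f (d + b * x + ∑ j, a j * cl (z j))| * |(W + ∑ j, |rho (z j)|)|)
          ≤ kmain_E a s z * (M * ((|W| + 1) * (1 + ∑ j, |rho (z j)|))) :=
            mul_le_mul h3 h2 (by positivity) hE
        _ = _ := by ring

/-- the contribution of the values `x ≥ 1`. -/
lemma kmain_out_pos {m : ℕ} (a : Fin (m + 1) → ℝ) (s : ℝ) {f : ℝ → ℝ} (hfm : Measurable f)
    {M : ℝ} (hM : ∀ x, |f x| ≤ M) (k : ℕ) (d w : ℝ) :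
    ∫ x in Ici (1 : ℝ), Real.exp (-(s * a 0 + rho x) ^ 2 / 2) *
      (kmain_X (fun j => a j.succ) s k f (d + a 0 * cl x) w +
        (|rho x| - cc) * kmain_X0 (fun j => a j.succ) s k f (d + a 0 * cl x)) =
    √(2 * π) * (qq (s * a 0) *
      kmain_X (fun j => a j.succ) s k f (d + a 0) (w + ww (s * a 0))) := by
  have h0 : Integrable (fun x : ℝ => Real.exp (-(s * a 0 + rho x) ^ 2 / 2)) := by
    simpa using out_integrable (s * a 0) 0
  have h1 : Integrable (fun x : ℝ => |rho x| * Real.exp (-(s * a 0 + rho x) ^ 2 / 2)) := by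
    refine ((out_integrable (s * a 0) 1).sub h0).congr (Filter.Eventually.of_forall (fun x => ?_))
    simp only [Pi.sub_apply]
    ring
  set A := kmain_X (fun j => a j.succ) s k f (d + a 0) w with hA
  set B := kmain_X0 (fun j => a j.succ) s k f (d + a 0) with hB
  have h2 : ∫ x in Ici (1 : ℝ), Real.exp (-(s * a 0 + rho x) ^ 2 / 2) *
      (kmain_X (fun j => a j.succ) s k f (d + a 0 * cl x) w +
        (|rho x| - cc) * kmain_X0 (fun j => a j.succ) s k f (d + a 0 * cl x)) =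
      ∫ x in Ici (1 : ℝ), ((A - cc * B) * Real.exp (-(s * a 0 + rho x) ^ 2 / 2) +
        B * (|rho x| * Real.exp (-(s * a 0 + rho x) ^ 2 / 2))) := by
    refine setIntegral_congr_fun measurableSet_Ici (fun x hx => ?_)
    rw [kmain_cl_pos hx, mul_one, ← hA, ← hB]
    ring
  rw [h2, integral_add (h0.integrableOn.const_mul _) (h1.integrableOn.const_mul _),
    integral_const_mul, integral_const_mul, out_pos, out_pos_abs, kmain_X_add _ _ hfm hM]
  rw [← hA, ← hB]
  ring

/-- the contribution of the values `x ≤ -1`. -/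
lemma kmain_out_neg {m : ℕ} (a : Fin (m + 1) → ℝ) (s : ℝ) {f : ℝ → ℝ} (hfm : Measurable f)
    {M : ℝ} (hM : ∀ x, |f x| ≤ M) (k : ℕ) (d w : ℝ) :
    ∫ x in Iic (-1 : ℝ), Real.exp (-(s * a 0 + rho x) ^ 2 / 2) *
      (kmain_X (fun j => a j.succ) s k f (d + a 0 * cl x) w +
        (|rho x| - cc) * kmain_X0 (fun j => a j.succ) s k f (d + a 0 * cl x)) =
    √(2 * π) * (qq (-(s * a 0)) *
      kmain_X (fun j => a j.succ) s k f (d - a 0) (w + ww (-(s * a 0)))) := by
  have h0 : Integrable (fun x : ℝ => Real.exp (-(s * a 0 + rho x) ^ 2 / 2)) := by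
    simpa using out_integrable (s * a 0) 0
  have h1 : Integrable (fun x : ℝ => |rho x| * Real.exp (-(s * a 0 + rho x) ^ 2 / 2)) := by
    refine ((out_integrable (s * a 0) 1).sub h0).congr (Filter.Eventually.of_forall (fun x => ?_))
    simp only [Pi.sub_apply]
    ring
  set A := kmain_X (fun j => a j.succ) s k f (d - a 0) w with hA
  set B := kmain_X0 (fun j => a j.succ) s k f (d - a 0) with hB
  have h2 : ∫ x in Iic (-1 : ℝ), Real.exp (-(s * a 0 + rho x) ^ 2 / 2) *
      (kmain_X (fun j => a j.succ) s k f (d + a 0 * cl x) w +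
        (|rho x| - cc) * kmain_X0 (fun j => a j.succ) s k f (d + a 0 * cl x)) =
      ∫ x in Iic (-1 : ℝ), ((A - cc * B) * Real.exp (-(s * a 0 + rho x) ^ 2 / 2) +
        B * (|rho x| * Real.exp (-(s * a 0 + rho x) ^ 2 / 2))) := by
    refine setIntegral_congr_fun measurableSet_Iic (fun x hx => ?_)
    rw [kmain_cl_neg hx, mul_neg, mul_one, ← sub_eq_add_neg, ← hA, ← hB]
    ring
  rw [h2, integral_add (h0.integrableOn.const_mul _) (h1.integrableOn.const_mul _),
    integral_const_mul, integral_const_mul, out_neg, out_neg_abs, kmain_X_add _ _ hfm hM]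
  rw [← hA, ← hB]
  ring

/-- the functional `kmain_X` with a general constant is an integral of an integrable function. -/
lemma kmain_X_integrable {m : ℕ} (a : Fin m → ℝ) (s : ℝ) {f : ℝ → ℝ} (hfm : Measurable f) {M : ℝ}
    (hM : ∀ x, |f x| ≤ M) (k : ℕ) (d w : ℝ) :
    Integrable (fun z : Fin m → ℝ => kmain_I k z * kmain_E a s z *
      (f (d + ∑ j, a j * cl (z j)) * (w - cc * ((m : ℝ) - k) + ∑ j, |rho (z j)|))) :=
  kmain_integrable a s hfm hM k d _

/-- outer part of the recursion. -/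
noncomputable def kmain_out {m : ℕ} (a : Fin (m + 1) → ℝ) (s : ℝ) (k : ℕ) (f : ℝ → ℝ)
    (d w : ℝ) : ℝ :=
  qq (s * a 0) * kmain_X (fun j => a j.succ) s k f (d + a 0) (w + ww (s * a 0)) +
    qq (-(s * a 0)) * kmain_X (fun j => a j.succ) s k f (d - a 0) (w + ww (-(s * a 0)))

lemma kmain_rec_zero {m : ℕ} (a : Fin (m + 1) → ℝ) (s : ℝ) {f : ℝ → ℝ} (hfm : Measurable f)
    {M : ℝ} (hM : ∀ x, |f x| ≤ M) (d w : ℝ) :
    kmain_X a s 0 f d w = √(2 * π) * kmain_out a s 0 f d w := by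
  have hint := kmain_X_integrable a s hfm hM 0 d w
  obtain ⟨h1, h2⟩ := kmain_peel hint
  unfold kmain_X
  rw [h2, kmain_line_split h1]
  have e1 : ∫ x in (-1 : ℝ)..1, (∫ z : Fin m → ℝ, kmain_I 0 (Fin.cons x z : Fin (m + 1) → ℝ) *
        kmain_E a s (Fin.cons x z : Fin (m + 1) → ℝ) *
      (f (d + ∑ j, a j * cl ((Fin.cons x z : Fin (m + 1) → ℝ) j)) *
        (w - cc * (((m + 1 : ℕ) : ℝ) - (0 : ℕ)) +
          ∑ j, |rho ((Fin.cons x z : Fin (m + 1) → ℝ) j)|))) = 0 := by
    rw [intervalIntegral.integral_of_le (by norm_num : (-1 : ℝ) ≤ 1),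
      integral_Ioc_eq_integral_Ioo]
    rw [setIntegral_congr_fun (g := fun _ => (0 : ℝ)) measurableSet_Ioo (fun x hx => ?_)]
    · simp
    · exact kmain_inner_mid0 a s f d w x (abs_lt.2 ⟨hx.1, hx.2⟩)
  have e2 : ∫ x in Ici (1 : ℝ), (∫ z : Fin m → ℝ, kmain_I 0 (Fin.cons x z : Fin (m + 1) → ℝ) *
        kmain_E a s (Fin.cons x z : Fin (m + 1) → ℝ) *
      (f (d + ∑ j, a j * cl ((Fin.cons x z : Fin (m + 1) → ℝ) j)) *
        (w - cc * (((m + 1 : ℕ) : ℝ) - (0 : ℕ)) +
          ∑ j, |rho ((Fin.cons x z : Fin (m + 1) → ℝ) j)|))) =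
      √(2 * π) * (qq (s * a 0) *
        kmain_X (fun j => a j.succ) s 0 f (d + a 0) (w + ww (s * a 0))) := by
    rw [← kmain_out_pos a s hfm hM 0 d w]
    refine setIntegral_congr_fun measurableSet_Ici (fun x hx => ?_)
    exact kmain_inner_out a s hfm hM 0 d w x (not_lt.2 (le_trans hx (le_abs_self x)))
  have e3 : ∫ x in Iic (-1 : ℝ), (∫ z : Fin m → ℝ, kmain_I 0 (Fin.cons x z : Fin (m + 1) → ℝ) *
        kmain_E a s (Fin.cons x z : Fin (m + 1) → ℝ) *
      (f (d + ∑ j, a j * cl ((Fin.cons x z : Fin (m + 1) → ℝ) j)) *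
        (w - cc * (((m + 1 : ℕ) : ℝ) - (0 : ℕ)) +
          ∑ j, |rho ((Fin.cons x z : Fin (m + 1) → ℝ) j)|))) =
      √(2 * π) * (qq (-(s * a 0)) *
        kmain_X (fun j => a j.succ) s 0 f (d - a 0) (w + ww (-(s * a 0)))) := by
    rw [← kmain_out_neg a s hfm hM 0 d w]
    refine setIntegral_congr_fun measurableSet_Iic (fun x hx => ?_)
    refine kmain_inner_out a s hfm hM 0 d w x (not_lt.2 ?_)
    have : x ≤ -1 := hx
    rw [abs_of_nonpos (by linarith)]
    linarith
  rw [e1, e2, e3]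
  unfold kmain_out
  ring

lemma kmain_rec_succ {m : ℕ} (a : Fin (m + 1) → ℝ) (s : ℝ) {f : ℝ → ℝ} (hfm : Measurable f)
    {M : ℝ} (hM : ∀ x, |f x| ≤ M) (k : ℕ) (d w : ℝ) :
    kmain_X a s (k + 1) f d w =
      Real.exp (-(s * a 0) ^ 2 / 2) * kmain_X (fun j => a j.succ) s k
        (fun x => ∫ y in (-1 : ℝ)..1, f (x + a 0 * y)) d w +
      √(2 * π) * kmain_out a s (k + 1) f d w := by
  have hint := kmain_X_integrable a s hfm hM (k + 1) d w
  obtain ⟨h1, h2⟩ := kmain_peel hint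
  rw [kmain_X, h2, kmain_line_split h1]
  have e1 : ∫ x in (-1 : ℝ)..1, (∫ z : Fin m → ℝ,
        kmain_I (k + 1) (Fin.cons x z : Fin (m + 1) → ℝ) *
        kmain_E a s (Fin.cons x z : Fin (m + 1) → ℝ) *
      (f (d + ∑ j, a j * cl ((Fin.cons x z : Fin (m + 1) → ℝ) j)) *
        (w - cc * (((m + 1 : ℕ) : ℝ) - (k + 1 : ℕ)) +
          ∑ j, |rho ((Fin.cons x z : Fin (m + 1) → ℝ) j)|))) =
      Real.exp (-(s * a 0) ^ 2 / 2) * kmain_X (fun j => a j.succ) s k
        (fun x => ∫ y in (-1 : ℝ)..1, f (x + a 0 * y)) d w := by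
    rw [← kmain_smear _ s hfm hM k (a 0) d w, ← intervalIntegral.integral_const_mul,
      intervalIntegral.integral_of_le (by norm_num : (-1 : ℝ) ≤ 1),
      intervalIntegral.integral_of_le (by norm_num : (-1 : ℝ) ≤ 1),
      integral_Ioc_eq_integral_Ioo, integral_Ioc_eq_integral_Ioo]
    refine setIntegral_congr_fun measurableSet_Ioo (fun x hx => ?_)
    exact kmain_inner_mid a s f k d w x (abs_lt.2 ⟨hx.1, hx.2⟩)
  have e2 : ∫ x in Ici (1 : ℝ), (∫ z : Fin m → ℝ,
        kmain_I (k + 1) (Fin.cons x z : Fin (m + 1) → ℝ) *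
        kmain_E a s (Fin.cons x z : Fin (m + 1) → ℝ) *
      (f (d + ∑ j, a j * cl ((Fin.cons x z : Fin (m + 1) → ℝ) j)) *
        (w - cc * (((m + 1 : ℕ) : ℝ) - (k + 1 : ℕ)) +
          ∑ j, |rho ((Fin.cons x z : Fin (m + 1) → ℝ) j)|))) =
      √(2 * π) * (qq (s * a 0) *
        kmain_X (fun j => a j.succ) s (k + 1) f (d + a 0) (w + ww (s * a 0))) := by
    rw [← kmain_out_pos a s hfm hM (k + 1) d w]
    refine setIntegral_congr_fun measurableSet_Ici (fun x hx => ?_)
    exact kmain_inner_out a s hfm hM (k + 1) d w x (not_lt.2 (le_trans hx (le_abs_self x)))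
  have e3 : ∫ x in Iic (-1 : ℝ), (∫ z : Fin m → ℝ,
        kmain_I (k + 1) (Fin.cons x z : Fin (m + 1) → ℝ) *
        kmain_E a s (Fin.cons x z : Fin (m + 1) → ℝ) *
      (f (d + ∑ j, a j * cl ((Fin.cons x z : Fin (m + 1) → ℝ) j)) *
        (w - cc * (((m + 1 : ℕ) : ℝ) - (k + 1 : ℕ)) +
          ∑ j, |rho ((Fin.cons x z : Fin (m + 1) → ℝ) j)|))) =
      √(2 * π) * (qq (-(s * a 0)) *
        kmain_X (fun j => a j.succ) s (k + 1) f (d - a 0) (w + ww (-(s * a 0)))) := by
    rw [← kmain_out_neg a s hfm hM (k + 1) d w]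
    refine setIntegral_congr_fun measurableSet_Iic (fun x hx => ?_)
    refine kmain_inner_out a s hfm hM (k + 1) d w x (not_lt.2 ?_)
    have : x ≤ -1 := hx
    rw [abs_of_nonpos (by linarith)]
    linarith
  rw [e1, e2, e3]
  unfold kmain_out
  ring

/-! ### the induction -/

lemma kmain_X_dim_zero (a : Fin 0 → ℝ) (s : ℝ) (k : ℕ) (f : ℝ → ℝ) (d w : ℝ) :
    kmain_X a s k f d w = if k = 0 then f d * w else 0 := by
  unfold kmain_X
  rw [integral_unique]
  have h1 : (volume : Measure (Fin 0 → ℝ)).real univ = 1 := by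
    rw [Measure.real, volume_pi, Measure.pi_univ]
    simp
  rw [h1, one_smul]
  unfold kmain_I kmain_E fr
  by_cases hk : k = 0
  · subst hk
    simp
  · simp [hk, Ne.symm hk]

lemma kmain_bump_scale {f : ℝ → ℝ} (hf : Bump f) {s : ℝ} :
    Bump (fun x => f (x / s)) := by
  refine ⟨fun x => hf.nonneg _, fun x y hxy => hf.anti _ _ ?_⟩
  rw [abs_div, abs_div]
  exact div_le_div_of_nonneg_right hxy (abs_nonneg s)

lemma kmain_EL_out {m : ℕ} (a : Fin (m + 1) → ℝ) {s : ℝ} (hs : 0 < s) (k : ℕ) (f : ℝ → ℝ)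
    (L : List ℝ) :
    EL (fun d w => kmain_out a s k f (d / s) w) L 0 0 =
      EL (fun d w => kmain_X (fun j => a j.succ) s k f (d / s) w) (L ++ [s * a 0]) 0 0 := by
  rw [EL_append]
  congr 1
  funext d w
  unfold kmain_out
  have h1 : (d + s * a 0) / s = d / s + a 0 := by field_simp
  have h2 : (d - s * a 0) / s = d / s - a 0 := by field_simp
  rw [h1, h2]

theorem kmain_nonneg {m : ℕ} : ∀ (a : Fin m → ℝ) (_ : ∀ j, 0 ≤ a j) {s : ℝ} (_ : 0 < s)
    {f : ℝ → ℝ} (_ : Bump f) (_ : Measurable f) (k : ℕ) (L : List ℝ) (_ : ∀ v ∈ L, 0 ≤ v),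
    0 ≤ EL (fun d w => kmain_X a s k f (d / s) w) L 0 0 := by
  induction m with
  | zero =>
    intro a _ s hs f hf _ k L hL
    simp only [kmain_X_dim_zero]
    by_cases hk : k = 0
    · simp only [hk, if_true]
      exact UN (kmain_bump_scale hf) L hL
    · simp only [hk, if_false]
      have := EL_mul 0 (fun _ _ => 0) L 0 0
      simp only [zero_mul] at this
      rw [this]
  | succ m ih =>
    intro a ha s hs f hf hfm k L hL
    have hM := hf.kmain_bound
    have hL' : ∀ v ∈ L ++ [s * a 0], 0 ≤ v := by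
      intro v hv
      rcases List.mem_append.1 hv with h | h
      · exact hL v h
      · rw [List.mem_singleton.1 h]
        exact mul_nonneg hs.le (ha 0)
    cases k with
    | zero =>
      have e : (fun d w => kmain_X a s 0 f (d / s) w) =
          fun d w => √(2 * π) * kmain_out a s 0 f (d / s) w := by
        funext d w
        exact kmain_rec_zero a s hfm hM (d / s) w
      rw [e, EL_mul, kmain_EL_out a hs]
      exact mul_nonneg (Real.sqrt_nonneg _)
        (ih (fun j => a j.succ) (fun j => ha _) hs hf hfm 0 _ hL')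
    | succ k =>
      have e : (fun d w => kmain_X a s (k + 1) f (d / s) w) =
          fun d w => Real.exp (-(s * a 0) ^ 2 / 2) * kmain_X (fun j => a j.succ) s k
              (fun x => ∫ y in (-1 : ℝ)..1, f (x + a 0 * y)) (d / s) w +
            √(2 * π) * kmain_out a s (k + 1) f (d / s) w := by
        funext d w
        exact kmain_rec_succ a s hfm hM k (d / s) w
      rw [e, EL_add (fun d w => Real.exp (-(s * a 0) ^ 2 / 2) * kmain_X (fun j => a j.succ) s k
              (fun x => ∫ y in (-1 : ℝ)..1, f (x + a 0 * y)) (d / s) w)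
            (fun d w => √(2 * π) * kmain_out a s (k + 1) f (d / s) w), EL_mul, EL_mul,
            kmain_EL_out a hs]
      have hb := bump_smear hf hfm (ha 0)
      exact add_nonneg (mul_nonneg (Real.exp_pos _).le
          (ih (fun j => a j.succ) (fun j => ha _) hs hb.1 hb.2 k L hL))
        (mul_nonneg (Real.sqrt_nonneg _)
          (ih (fun j => a j.succ) (fun j => ha _) hs hf hfm (k + 1) _ hL'))

/-! ### the statements -/

theorem weighted_ineq {m : ℕ} (a : Fin m → ℝ) (ha : ∀ j, 0 ≤ a j) {s : ℝ} (hs : 0 < s)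
    {f : ℝ → ℝ} (hf : Bump f) (hfm : Measurable f) (k : ℕ) :
    ∫ z : Fin m → ℝ, {z : Fin m → ℝ | fr z = k}.indicator
        (fun z => f (∑ j, a j * cl (z j)) * (cc * ((m : ℝ) - k)) *
          Real.exp (-(∑ j, (s * a j + rho (z j)) ^ 2) / 2)) z ≤
      ∫ z : Fin m → ℝ, {z : Fin m → ℝ | fr z = k}.indicator
        (fun z => f (∑ j, a j * cl (z j)) * (∑ j, |rho (z j)|) *
          Real.exp (-(∑ j, (s * a j + rho (z j)) ^ 2) / 2)) z := by
  have hM := hf.kmain_bound
  have h := kmain_nonneg a ha hs hf hfm k [] (by simp)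
  simp only [EL, zero_div] at h
  have i0 := kmain_integrable0 a s hfm hM k 0
  have i1 := kmain_integrable a s hfm hM k 0 0
  have e1 : ∫ z : Fin m → ℝ, {z : Fin m → ℝ | fr z = k}.indicator
        (fun z => f (∑ j, a j * cl (z j)) * (cc * ((m : ℝ) - k)) *
          Real.exp (-(∑ j, (s * a j + rho (z j)) ^ 2) / 2)) z =
      ∫ z : Fin m → ℝ, (cc * ((m : ℝ) - k)) * (kmain_I k z * kmain_E a s z *
        f (0 + ∑ j, a j * cl (z j))) := by
    refine integral_congr_ae (Filter.Eventually.of_forall (fun z => ?_))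
    simp only [indicator, mem_ofPred_eq, kmain_I, kmain_E, zero_add]
    split_ifs <;> ring
  have e2 : ∫ z : Fin m → ℝ, {z : Fin m → ℝ | fr z = k}.indicator
        (fun z => f (∑ j, a j * cl (z j)) * (∑ j, |rho (z j)|) *
          Real.exp (-(∑ j, (s * a j + rho (z j)) ^ 2) / 2)) z =
      ∫ z : Fin m → ℝ, (kmain_I k z * kmain_E a s z *
        (f (0 + ∑ j, a j * cl (z j)) * (0 + ∑ j, |rho (z j)|))) := by
    refine integral_congr_ae (Filter.Eventually.of_forall (fun z => ?_))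
    simp only [indicator, mem_ofPred_eq, kmain_I, kmain_E, zero_add]
    split_ifs <;> ring
  rw [e1, e2, ← sub_nonneg, ← integral_sub i1 (i0.const_mul _)]
  refine h.trans_eq ?_
  unfold kmain_X
  refine integral_congr_ae (Filter.Eventually.of_forall (fun z => ?_))
  simp only
  ring

theorem weighted_integrable {m : ℕ} (a : Fin m → ℝ) (s : ℝ)
    {f : ℝ → ℝ} (hf : Bump f) (hfm : Measurable f) (p : ℕ) :
    Integrable (fun z : Fin m → ℝ => f (∑ j, a j * cl (z j)) * (∑ j, |rho (z j)|) ^ p *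
          Real.exp (-(∑ j, (s * a j + rho (z j)) ^ 2) / 2)) := by
  have hM := hf.kmain_bound
  have hM0 : 0 ≤ f 0 := hf.nonneg 0
  refine ((kmain_bound_integrable a s p).const_mul (f 0)).mono' ?_ ?_
  · exact (((hfm.comp (kmain_meas_scl a)).mul (kmain_meas_sabs.pow_const p)).mul
      (kmain_meas_E a s)).aestronglyMeasurable
  · refine Filter.Eventually.of_forall (fun z => ?_)
    have h0 := kmain_sabs_nonneg z
    have hE := (kmain_E_pos a s z).le
    change ‖f (∑ j, a j * cl (z j)) * (∑ j, |rho (z j)|) ^ p * kmain_E a s z‖ ≤ _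
    rw [Real.norm_eq_abs, abs_mul, abs_mul, abs_of_nonneg hE, abs_of_nonneg (pow_nonneg h0 p),
      mul_assoc]
    refine mul_le_mul (hM _) ?_ (mul_nonneg (pow_nonneg h0 p) hE) hM0
    exact mul_le_mul_of_nonneg_right (pow_le_pow_left₀ h0 (by linarith) p) hE

end Pool.Agent.CubeWidth
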