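import Pool.Agent.Lib.MP_e8b094_gt.Defs2
import Pool.Agent.Lib.MP_e8b094_gt.Psi
import Pool.Agent.Lib.MP_e8b094_gt.Polya

/-!
The two key inequalities for the maximum (piece P3).
-/

namespace Pool.Agent.CubeWidth

open MeasureTheory Real Set Filter Topology Pointwise

lemma key_aa_lt {x : ℝ} (hx : 0 < x) : aa x < x ^ 2 / π := by
  have h := polya hx
  have h1 := Real.log_lt_log (Real.exp_pos _) h
  rw [Real.log_exp] at h1
  unfold aa
  have h2 : 2 * x ^ 2 / π = 2 * (x ^ 2 / π) := by ring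
  rw [h2] at h1
  linarith

lemma key_aa_le {x : ℝ} (hx : 0 ≤ x) : aa x ≤ x ^ 2 / π := by
  rcases hx.eq_or_lt with h | h
  · rw [← h, aa_zero]; simp
  · exact (key_aa_lt h).le

/-- convexity part: `th (A+B)(x) + (1-th) x^2/pi <= th^2 psi y`. -/
lemma key_aux {x y : ℝ} (hx : 0 ≤ x) (hy : 0 < y) (hxy : x ≤ y) :
    (x / y) * psi x + (1 - x / y) * (x ^ 2 / π) ≤ (x / y) ^ 2 * psi y := by
  have hth0 : 0 ≤ x / y := div_nonneg hx hy.le
  have hth1 : x / y ≤ 1 := (div_le_one hy).2 hxy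
  have h := convex_psi.2 (x := y) (y := 0) (mem_Ici.2 hy.le) (mem_Ici.2 le_rfl) hth0
    (sub_nonneg.2 hth1) (by ring)
  have hxe : (x / y) * y = x := by field_simp
  simp only [smul_eq_mul, mul_zero, add_zero, psi_zero] at h
  rw [hxe] at h
  have h3 : psi x - x ^ 2 / π ≤ x / y * (psi y - y ^ 2 / π) := by
    simpa using h
  have h4 := mul_le_mul_of_nonneg_left h3 hth0
  have h5 : x / y * (x / y * (psi y - y ^ 2 / π)) = (x / y) ^ 2 * psi y - x ^ 2 / π := by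
    have : (x / y) ^ 2 * (y ^ 2 / π) = x ^ 2 / π := by
      field_simp
    calc x / y * (x / y * (psi y - y ^ 2 / π)) = (x / y) ^ 2 * psi y - (x / y) ^ 2 * (y ^ 2 / π) := by ring
      _ = _ := by rw [this]
  rw [h5] at h4
  linarith

theorem key_small {x y : ℝ} (hx : 0 ≤ x) (hy : 0 < y) (hxy : x ≤ y) :
    aa x + (x / y) * bb x ≤ (x / y) ^ 2 * psi y := by
  have hth1 : x / y ≤ 1 := (div_le_one hy).2 hxy
  have h1 := key_aux hx hy hxy
  have h2 := key_aa_le hx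
  rw [← aa_add_bb] at h1
  nlinarith [mul_nonneg (sub_nonneg.2 hth1) (sub_nonneg.2 h2)]

theorem key_small_strict {x y : ℝ} (hx : 0 < x) (hxy : x < y) :
    aa x + (x / y) * bb x < (x / y) ^ 2 * psi y := by
  have hy : 0 < y := hx.trans hxy
  have hth1 : x / y < 1 := (div_lt_one hy).2 hxy
  have h1 := key_aux hx.le hy hxy.le
  have h2 := key_aa_lt hx
  rw [← aa_add_bb x] at h1
  nlinarith [mul_pos (sub_pos.2 hth1) (sub_pos.2 h2)]

theorem key_big {a b s : ℝ} (ha : 0 < a) (hb : 0 ≤ b) (hab : b ≤ a) (h : a ^ 2 + b ^ 2 = 1)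
    (hs : 0 ≤ s) :
    psi (s * a) + (b / a) * psi (s * b) + (1 - b / a) * (s ^ 2 * b ^ 2 / π) ≤ 2 * psi (s / √2) := by
  have hr0 : 0 ≤ b / a := div_nonneg hb ha.le
  have hr1 : b / a ≤ 1 := (div_le_one ha).2 hab
  -- two step Jensen
  have e1 := concave_psi.2 (x := s * b) (y := 0) (mem_Ici.2 (mul_nonneg hs hb)) (mem_Ici.2 le_rfl)
    hr0 (sub_nonneg.2 hr1) (by ring)
  have hm1 : s * a ∈ Ici (0 : ℝ) := mem_Ici.2 (mul_nonneg hs ha.le)
  have hm2 : b / a * (s * b) ∈ Ici (0 : ℝ) := mem_Ici.2 (mul_nonneg hr0 (mul_nonneg hs hb))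
  have e2 := concave_psi.2 hm1 hm2 (by norm_num : (0 : ℝ) ≤ 1 / 2)
    (by norm_num : (0 : ℝ) ≤ 1 / 2) (by norm_num)
  simp only [smul_eq_mul, mul_zero, add_zero, psi_zero] at e1 e2
  have hpt : 1 / 2 * (s * a) + 1 / 2 * (b / a * (s * b)) = s / (2 * a) := by
    field_simp
    linear_combination s * h
  rw [hpt] at e2
  have hs2 : (0:ℝ) < √2 := by positivity
  have hsq : √2 ^ 2 = 2 := Real.sq_sqrt (by norm_num)
  have ha2 : √2 ≤ 2 * a := by
    apply Real.sqrt_le_iff.2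
    constructor
    · positivity
    · nlinarith
  have hle : s / (2 * a) ≤ s / √2 := div_le_div_of_nonneg_left hs hs2 ha2
  have e3 := mono_psi (mem_Ici.2 (div_nonneg hs (by positivity : (0:ℝ) ≤ 2 * a)))
    (mem_Ici.2 (div_nonneg hs hs2.le)) hle
  simp only at e3
  have hq : (s / √2) ^ 2 = s ^ 2 / 2 := by rw [div_pow, hsq]
  rw [hq] at e3
  have hpi : 1 / π ≤ 1 / 2 := by
    apply div_le_div_of_nonneg_left (by norm_num) (by norm_num)
    linarith [Real.pi_gt_three]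
  have hfin : (1 - b / a) * (s ^ 2 * b ^ 2 / π) ≤ (1 - b / a) * (s ^ 2 * b ^ 2) * (1 / 2) := by
    have : (1 - b / a) * (s ^ 2 * b ^ 2 / π) = (1 - b / a) * (s ^ 2 * b ^ 2) * (1 / π) := by ring
    rw [this]
    exact mul_le_mul_of_nonneg_left hpi (mul_nonneg (sub_nonneg.2 hr1) (by positivity))
  have ha' : a ^ 2 = 1 - b ^ 2 := by linarith
  have e1' : b / a * psi (s * b) - b / a * ((s * b) ^ 2 / 2) ≤
      psi (b / a * (s * b)) - (b / a * (s * b)) ^ 2 / 2 := by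
    have := e1
    ring_nf at this ⊢
    linarith
  have e2' : (psi (s * a) - (s * a) ^ 2 / 2) + (psi (b / a * (s * b)) - (b / a * (s * b)) ^ 2 / 2)
      ≤ 2 * (psi (s / (2 * a)) - (s / (2 * a)) ^ 2 / 2) := by
    linarith
  have e4 : psi (s * a) + b / a * psi (s * b) ≤ 2 * psi (s / √2) - s ^ 2 / 2 + (s * a) ^ 2 / 2
      + b / a * ((s * b) ^ 2 / 2) := by
    linarith
  have e5 : (s * a) ^ 2 = s ^ 2 - s ^ 2 * b ^ 2 := by
    rw [mul_pow, ha']; ring
  rw [e5] at e4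
  have e6 : b / a * ((s * b) ^ 2 / 2) = b / a * (s ^ 2 * b ^ 2) * (1 / 2) := by ring
  rw [e6] at e4
  linarith

end Pool.Agent.CubeWidth
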