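import Pool.Agent.Lib.MP_e8b094_gt.Defs2

/-!
P11: upper bounds for `E |X|`.
-/

namespace Pool.Agent.CubeWidth

open MeasureTheory Real Set Filter Topology

variable {ι : Type*} [Fintype ι] [DecidableEq ι]

private lemma khin_upd (u : ι → ℝ) {s : Finset ι} {i : ι} (hi : i ∉ s) (e : ι → Bool) (b : Bool) :
    ∑ j ∈ s, u j * sg (Function.update e i b j) = ∑ j ∈ s, u j * sg (e j) := by
  refine Finset.sum_congr rfl fun j hj => ?_
  have hne : j ≠ i := by rintro rfl; exact hi hj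
  rw [Function.update_of_ne hne]

private lemma khin_mom (u : ι → ℝ) (s : Finset ι) :
    EE (fun e => (∑ j ∈ s, u j * sg (e j)) ^ 2) = ∑ j ∈ s, u j ^ 2 ∧
    EE (fun e => (∑ j ∈ s, u j * sg (e j)) ^ 4) = 3 * (∑ j ∈ s, u j ^ 2) ^ 2 -
      2 * ∑ j ∈ s, u j ^ 4 ∧
    EE (fun e => (∑ j ∈ s, u j * sg (e j)) ^ 6) = 15 * (∑ j ∈ s, u j ^ 2) ^ 3 -
      30 * (∑ j ∈ s, u j ^ 2) * (∑ j ∈ s, u j ^ 4) + 16 * ∑ j ∈ s, u j ^ 6 := by
  induction s using Finset.induction_on with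
  | empty => simp [EE_const]
  | insert i s hi ih =>
    obtain ⟨ih2, ih4, ih6⟩ := ih
    have hst : ∀ k : ℕ, EE (fun e => (∑ j ∈ insert i s, u j * sg (e j)) ^ k) =
        EE (fun e => ((u i + ∑ j ∈ s, u j * sg (e j)) ^ k +
          (-u i + ∑ j ∈ s, u j * sg (e j)) ^ k) / 2) := by
      intro k
      rw [EE_split i]
      refine EE_congr fun e => ?_
      rw [Finset.sum_insert hi, Finset.sum_insert hi, khin_upd u hi, khin_upd u hi,
        Function.update_self, Function.update_self, sg_true, sg_false, mul_one, mul_neg_one]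
    refine ⟨?_, ?_, ?_⟩
    · rw [hst, Finset.sum_insert hi, ← ih2]
      have : ∀ e : ι → Bool, ((u i + ∑ j ∈ s, u j * sg (e j)) ^ 2 +
          (-u i + ∑ j ∈ s, u j * sg (e j)) ^ 2) / 2 =
          u i ^ 2 + (∑ j ∈ s, u j * sg (e j)) ^ 2 := fun e => by ring
      rw [EE_congr this, EE_add, EE_const]
    · rw [hst, Finset.sum_insert hi, Finset.sum_insert hi]
      have : ∀ e : ι → Bool, ((u i + ∑ j ∈ s, u j * sg (e j)) ^ 4 +
          (-u i + ∑ j ∈ s, u j * sg (e j)) ^ 4) / 2 =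
          u i ^ 4 + 6 * u i ^ 2 * (∑ j ∈ s, u j * sg (e j)) ^ 2 +
            (∑ j ∈ s, u j * sg (e j)) ^ 4 := fun e => by ring
      rw [EE_congr this, EE_add, EE_add, EE_const, EE_mul_left, ih2, ih4]
      ring
    · rw [hst, Finset.sum_insert hi, Finset.sum_insert hi, Finset.sum_insert hi]
      have : ∀ e : ι → Bool, ((u i + ∑ j ∈ s, u j * sg (e j)) ^ 6 +
          (-u i + ∑ j ∈ s, u j * sg (e j)) ^ 6) / 2 =
          u i ^ 6 + 15 * u i ^ 4 * (∑ j ∈ s, u j * sg (e j)) ^ 2 +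
          15 * u i ^ 2 * (∑ j ∈ s, u j * sg (e j)) ^ 4 +
            (∑ j ∈ s, u j * sg (e j)) ^ 6 := fun e => by ring
      rw [EE_congr this, EE_add, EE_add, EE_add, EE_const, EE_mul_left, EE_mul_left, ih2, ih4, ih6]
      ring

private lemma khin_pt {a r : ℝ} (ha : 0 < a) :
    (|a + r| + |-a + r|) / 2 ≤ a + r ^ 2 / (4 * a) := by
  have h1 : (|a + r| + |-a + r|) / 2 ≤ max a |r| := by
    rcases abs_cases (a + r) with ⟨e1, _⟩ | ⟨e1, _⟩ <;>
    rcases abs_cases (-a + r) with ⟨e2, _⟩ | ⟨e2, _⟩ <;>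
    rcases abs_cases r with ⟨e3, _⟩ | ⟨e3, _⟩ <;>
    rw [e1, e2, e3] <;> rcases max_cases a r with ⟨e4, _⟩ | ⟨e4, _⟩ <;>
    rcases max_cases a (-r) with ⟨e5, _⟩ | ⟨e5, _⟩ <;> simp only [e4, e5] <;> linarith
  refine h1.trans ?_
  apply max_le
  · have : 0 ≤ r ^ 2 / (4 * a) := by positivity
    linarith
  · have h2 : |r| ≤ a + |r| ^ 2 / (4 * a) := by
      rw [← sub_nonneg]
      have : a + |r| ^ 2 / (4 * a) - |r| = (|r| - 2 * a) ^ 2 / (4 * a) := by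
        field_simp
        ring
      rw [this]
      positivity
    rwa [sq_abs] at h2

theorem khin_upper1 {n : ℕ} (u : Fin n → ℝ) (hu : ∑ i, u i ^ 2 = 1) (i : Fin n) (hi : 0 < u i) :
    EE (fun e => |XX u e|) ≤ u i + (1 - u i ^ 2) / (4 * u i) := by
  set s := Finset.univ.erase i with hs
  have his : i ∉ s := Finset.notMem_erase i _
  have h1 : EE (fun e => |XX u e|) = EE (fun e => (|u i + ∑ j ∈ s, u j * sg (e j)| +
      |-u i + ∑ j ∈ s, u j * sg (e j)|) / 2) := by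
    rw [EE_split i]
    refine EE_congr fun e => ?_
    rw [XX_update, XX_update, sg_true, sg_false, mul_one, mul_neg_one]
  have h2 : ∑ j ∈ s, u j ^ 2 = 1 - u i ^ 2 := by
    rw [← hu, ← Finset.add_sum_erase _ _ (Finset.mem_univ i)]
    ring
  calc EE (fun e => |XX u e|) ≤ EE (fun e => u i + (∑ j ∈ s, u j * sg (e j)) ^ 2 / (4 * u i)) := by
        rw [h1]
        exact EE_mono fun e => khin_pt hi
    _ = u i + (1 - u i ^ 2) / (4 * u i) := by
        rw [EE_add, EE_const, EE_div, (khin_mom u s).1, h2]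

private lemma khin_maj (x : ℝ) (hx : 0 ≤ x) :
    x ≤ 5 / 459 * (x ^ 6 - 129 / 10 * x ^ 4 + 7437 / 100 * x ^ 2 + 30923 / 1000) := by
  have h : 5 / 459 * (x ^ 6 - 129 / 10 * x ^ 4 + 7437 / 100 * x ^ 2 + 30923 / 1000) - x =
      5 / 459 * ((x ^ 2 - 3 * x + 17 / 10) ^ 2 * (x ^ 2 + 6 * x + 107 / 10)) := by ring
  have h2 : 0 ≤ 5 / 459 * ((x ^ 2 - 3 * x + 17 / 10) ^ 2 * (x ^ 2 + 6 * x + 107 / 10)) := by
    positivity
  linarith

theorem khin_upper2 {n : ℕ} (u : Fin n → ℝ) (hu0 : ∀ i, 0 ≤ u i) (hu : ∑ i, u i ^ 2 = 1)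
    (hu2 : ∀ i, u i ≤ 1 / 2) :
    EE (fun e => |XX u e|) ≤ 8 / 9 := by
  obtain ⟨m2, m4, m6⟩ := khin_mom u Finset.univ
  rw [hu] at m2 m4 m6
  set S2 := ∑ j, u j ^ 4 with hS2
  set S3 := ∑ j, u j ^ 6 with hS3
  have hS2n : 0 ≤ S2 := Finset.sum_nonneg fun j _ => by positivity
  have hS3 : S3 ≤ S2 / 4 := by
    rw [hS2, hS3, Finset.sum_div]
    refine Finset.sum_le_sum fun j _ => ?_
    have h1 : u j ^ 2 ≤ (1 / 2) ^ 2 := pow_le_pow_left₀ (hu0 j) (hu2 j) 2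
    have h2 : 0 ≤ u j ^ 4 := by positivity
    nlinarith
  have h1 : EE (fun e => |XX u e|) ≤ EE (fun e => 5 / 459 * ((∑ j, u j * sg (e j)) ^ 6 -
      129 / 10 * (∑ j, u j * sg (e j)) ^ 4 + 7437 / 100 * (∑ j, u j * sg (e j)) ^ 2 +
        30923 / 1000)) := by
    refine EE_mono fun e => ?_
    have h := khin_maj |XX u e| (abs_nonneg _)
    have e6 : |XX u e| ^ 6 = XX u e ^ 6 := by
      rw [show (6 : ℕ) = 2 * 3 from rfl, pow_mul, pow_mul, sq_abs]
    have e4 : |XX u e| ^ 4 = XX u e ^ 4 := by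
      rw [show (4 : ℕ) = 2 * 2 from rfl, pow_mul, pow_mul, sq_abs]
    rw [e6, e4, sq_abs] at h
    exact h
  refine h1.trans ?_
  rw [EE_mul_left, EE_add, EE_add, EE_sub, EE_mul_left, EE_mul_left, EE_const, m2, m4, m6]
  linarith

end Pool.Agent.CubeWidth
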