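import Pool.Agent.Lib.MP_e8b094_gt.Defs2
import Pool.Agent.Lib.MP_e8b094_gt.TanhLe
import Pool.Agent.Lib.MP_e8b094_gt.GGmono

/-!
# MP_e8b094_gt, piece P14: the pointwise inequality of the large case (helper60)
-/

namespace Pool.Agent.CubeWidth

open MeasureTheory Real Set Filter Topology


variable {n : ℕ}

lemma largept_RR_update_self (u : Fin n → ℝ) (i : Fin n) (e : Fin n → Bool) (b : Bool) :
    RR u i (Function.update e i b) = RR u i e := by
  unfold RR
  apply Finset.sum_congr rfl
  intro j hj
  rw [Function.update_of_ne (Finset.ne_of_mem_erase hj)]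

lemma largept_prod_update_self (g : Fin n → Bool → ℝ) (i : Fin n) (e : Fin n → Bool) (b : Bool) :
    ∏ j ∈ Finset.univ.erase i, g j (Function.update e i b j) =
      ∏ j ∈ Finset.univ.erase i, g j (e j) := by
  apply Finset.prod_congr rfl
  intro j hj
  rw [Function.update_of_ne (Finset.ne_of_mem_erase hj)]

lemma largept_RR_not (u : Fin n → ℝ) (i : Fin n) (e : Fin n → Bool) :
    RR u i (fun j => !(e j)) = - RR u i e := by
  unfold RR
  simp

lemma largept_RR_mono (u : Fin n → ℝ) (hu0 : ∀ i, 0 ≤ u i) (i j : Fin n)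
    (hj : j ∈ Finset.univ.erase i) (e : Fin n → Bool) :
    RR u i (Function.update e j false) ≤ RR u i (Function.update e j true) := by
  unfold RR
  rw [← Finset.add_sum_erase _ _ hj, ← Finset.add_sum_erase (Finset.univ.erase i) _ hj]
  have : ∑ k ∈ (Finset.univ.erase i).erase j, u k * sg (Function.update e j false k) =
      ∑ k ∈ (Finset.univ.erase i).erase j, u k * sg (Function.update e j true k) := by
    apply Finset.sum_congr rfl
    intro k hk
    rw [Function.update_of_ne (Finset.ne_of_mem_erase hk),
      Function.update_of_ne (Finset.ne_of_mem_erase hk)]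
  rw [this]
  simp only [Function.update_self, sg_true, sg_false]
  have := hu0 j
  linarith

/-- `E W = 1` for the product of the other weights. -/
lemma largept_EE_weight (m : Fin n → ℝ) (S : Finset (Fin n)) :
    EE (fun e => ∏ j ∈ S, (1 - m j * sg (e j))) = 1 := by
  have h := EE_prod (fun (j : Fin n) (b : Bool) => if j ∈ S then (1 - m j * sg b) else 1)
  have h2 : ∀ e : Fin n → Bool, ∏ j, (if j ∈ S then (1 - m j * sg (e j)) else 1) =
      ∏ j ∈ S, (1 - m j * sg (e j)) := by
    intro e
    rw [Finset.prod_ite_mem]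
    simp
  rw [EE_congr h2] at h
  rw [h]
  apply Finset.prod_eq_one
  intro j _
  by_cases hj : j ∈ S
  · simp only [hj, if_true, sg_true, sg_false]; ring
  · simp only [hj, if_false]; norm_num

/-- clamp. -/
noncomputable def largept_clamp (a r : ℝ) : ℝ := max (-a) (min r a)

lemma largept_clamp_mono (a : ℝ) : Monotone (largept_clamp a) := by
  intro x y hxy
  unfold largept_clamp
  exact max_le_max le_rfl (min_le_min hxy le_rfl)

lemma largept_clamp_id {a : ℝ} (ha : 0 ≤ a) (r : ℝ) :
    a - max (a + r) 0 + max (-a + r) 0 = - largept_clamp a r := by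
  unfold largept_clamp
  rcases le_total r a with h1 | h1
  · rw [min_eq_left h1]
    rcases le_total (-a) r with h2 | h2
    · rw [max_eq_right h2, max_eq_left (by linarith), max_eq_right (by linarith)]
      ring
    · rw [max_eq_left h2, max_eq_right (by linarith), max_eq_right (by linarith)]
      ring
  · rw [min_eq_right h1, max_eq_right (show -a ≤ a by linarith),
      max_eq_left (show 0 ≤ a + r by linarith), max_eq_left (show 0 ≤ -a + r by linarith)]
    ring

lemma largept_clamp_neg {a : ℝ} (ha : 0 ≤ a) (r : ℝ) :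
    largept_clamp a (-r) = - largept_clamp a r := by
  have e1 := largept_clamp_id ha r
  have e2 := largept_clamp_id ha (-r)
  have h1 : max (a + -r) 0 = (a - r) + max (-a + r) 0 := by
    rcases le_total a r with h | h
    · rw [max_eq_right (by linarith), max_eq_left (by linarith)]; ring
    · rw [max_eq_left (by linarith), max_eq_right (by linarith)]; ring
  have h2 : max (a + r) 0 = (a + r) + max (-a + -r) 0 := by
    rcases le_total (-a) r with h | h
    · rw [max_eq_left (by linarith), max_eq_right (by linarith)]; ring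
    · rw [max_eq_right (by linarith), max_eq_left (by linarith)]; ring
  linarith

lemma largept_clamp_sinh {a : ℝ} (ha : 0 ≤ a) (k r : ℝ) :
    largept_clamp a r * Real.sinh (k * r) = min |r| a * Real.sinh (k * |r|) := by
  rcases le_total 0 r with h | h
  · rw [abs_of_nonneg h]
    congr 1
    unfold largept_clamp
    rw [max_eq_right]
    exact le_min (by linarith) (by linarith)
  · rw [abs_of_nonpos h]
    have : largept_clamp a r = - min (-r) a := by
      have e1 := largept_clamp_neg ha (-r)
      rw [neg_neg] at e1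
      rw [e1]
      congr 1
      unfold largept_clamp
      rw [max_eq_right]
      exact le_min (by linarith) (by linarith)
    rw [this, mul_neg, Real.sinh_neg]
    ring

lemma largept_pos_exp {a : ℝ} (ha : 0 ≤ a) (k r : ℝ) :
    max (r - a) 0 * Real.exp (-(k * r)) + max (-r - a) 0 * Real.exp (-(k * (-r))) =
      max (|r| - a) 0 * Real.exp (-(k * |r|)) := by
  rcases le_total 0 r with h | h
  · rw [abs_of_nonneg h, max_eq_right (show -r - a ≤ 0 by linarith)]
    ring
  · rw [abs_of_nonpos h, max_eq_right (show r - a ≤ 0 by linarith)]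
    ring

/-- splitting off the sign `i` in `F_u`. -/
lemma largept_FF (u : Fin n → ℝ) (i : Fin n) (s : ℝ) :
    FF u s = EE (fun e => (qq (u i * s) * max (u i + RR u i e) 0 +
        (1 - qq (u i * s)) * max (-u i + RR u i e) 0) *
        ∏ j ∈ Finset.univ.erase i, (1 - mm (s * u j) * sg (e j))) := by
  unfold FF GG
  rw [EE_split i]
  apply EE_congr
  intro e
  have h1 : ∀ b : Bool, XX u (Function.update e i b) = u i * sg b + RR u i e := by
    intro b; rw [XX_update]; rfl
  have h2 : ∀ b : Bool, ∏ j, (1 - mm (s * u j) * sg (Function.update e i b j)) =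
      (1 - mm (s * u i) * sg b) *
        ∏ j ∈ Finset.univ.erase i, (1 - mm (s * u j) * sg (e j)) := by
    intro b
    rw [← Finset.mul_prod_erase _ _ (Finset.mem_univ i)]
    rw [largept_prod_update_self (fun j b => 1 - mm (s * u j) * sg b)]
    simp
  rw [h1, h1, h2, h2]
  unfold qq
  rw [mul_comm (u i) s]
  simp only [sg_true, sg_false]
  ring_nf

lemma largept_one_sub_tanh (y : ℝ) (b : Bool) :
    1 - Real.tanh y * sg b = Real.exp (-(y * sg b)) / Real.cosh y := by
  have hc := (Real.cosh_pos y).ne'
  rw [Real.tanh_eq_sinh_div_cosh, eq_div_iff hc]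
  cases b
  · simp only [sg_false]
    rw [Real.sinh_eq, Real.cosh_eq] at *
    field_simp
    ring
  · simp only [sg_true]
    rw [Real.sinh_eq, Real.cosh_eq] at *
    field_simp
    ring

lemma largept_prod_tanh (u : Fin n → ℝ) (i : Fin n) (k : ℝ) (e : Fin n → Bool) :
    ∏ j ∈ Finset.univ.erase i, (1 - Real.tanh (k * u j) * sg (e j)) =
      Real.exp (-(k * RR u i e)) / ∏ j ∈ Finset.univ.erase i, Real.cosh (k * u j) := by
  rw [Finset.prod_congr rfl (fun j _ => largept_one_sub_tanh (k * u j) (e j)),
    Finset.prod_div_distrib, ← Real.exp_sum]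
  congr 2
  unfold RR
  rw [Finset.mul_sum, ← Finset.sum_neg_distrib]
  apply Finset.sum_congr rfl
  intro j _
  ring

lemma largept_sum_sq (u : Fin n → ℝ) (hu : ∑ i, u i ^ 2 = 1) (i : Fin n) :
    ∑ j ∈ Finset.univ.erase i, u j ^ 2 = 1 - u i ^ 2 := by
  rw [← Finset.add_sum_erase _ _ (Finset.mem_univ i)] at hu
  linarith

lemma largept_prod_cosh_le (u : Fin n → ℝ) (hu : ∑ i, u i ^ 2 = 1) (i : Fin n) (k : ℝ) :
    ∏ j ∈ Finset.univ.erase i, Real.cosh (k * u j) ≤ Real.exp (k ^ 2 * (1 - u i ^ 2) / 2) := by
  have h1 : ∏ j ∈ Finset.univ.erase i, Real.cosh (k * u j) ≤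
      ∏ j ∈ Finset.univ.erase i, Real.exp ((k * u j) ^ 2 / 2) := by
    apply Finset.prod_le_prod
    · intro j _; exact (Real.cosh_pos _).le
    · intro j _; exact Real.cosh_le_exp_half_sq _
  refine h1.trans (le_of_eq ?_)
  rw [← Real.exp_sum]
  congr 1
  rw [← largept_sum_sq u hu i, Finset.mul_sum, Finset.sum_div]
  apply Finset.sum_congr rfl
  intro j _
  ring

lemma largept_one_le_prod (u : Fin n → ℝ) (i : Fin n) (k : ℝ) :
    1 ≤ ∏ j ∈ Finset.univ.erase i, Real.cosh (k * u j) := by
  calc (1 : ℝ) = ∏ j ∈ Finset.univ.erase i, (1 : ℝ) := by simp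
    _ ≤ ∏ j ∈ Finset.univ.erase i, Real.cosh (k * u j) := by
      apply Finset.prod_le_prod
      · intro j _; norm_num
      · intro j _; exact Real.one_le_cosh _

theorem large_pt {n : ℕ} (u : Fin n → ℝ) (hu0 : ∀ i, 0 ≤ u i) (hu : ∑ i, u i ^ 2 = 1)
    (i : Fin n) {s : ℝ} (hs : 0 ≤ s) :
    EE (fun e => qq (u i * s) * (min |RR u i e| (u i) * Real.sinh (cc * s * |RR u i e|) *
        Real.exp (-(cc ^ 2 * s ^ 2 * (1 - u i ^ 2) / 2))) -
        max (|RR u i e| - u i) 0 * Real.exp (-(cc * s * |RR u i e|)) / 2)
      ≤ u i * qq (u i * s) - FF u s := by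
  have ha := hu0 i
  set a := u i with hadef
  set Q := qq (a * s) with hQ
  have hQ0 : 0 ≤ Q := by
    rw [hQ]; unfold qq
    have := mm_lt_one (a * s)
    linarith
  set k := cc * s with hk
  have hk0 : 0 ≤ k := mul_nonneg cc_pos.le hs
  set W : (Fin n → Bool) → ℝ := fun e => ∏ j ∈ Finset.univ.erase i, (1 - mm (s * u j) * sg (e j))
    with hW
  set W' : (Fin n → Bool) → ℝ :=
    fun e => ∏ j ∈ Finset.univ.erase i, (1 - Real.tanh (k * u j) * sg (e j)) with hW'
  set P := ∏ j ∈ Finset.univ.erase i, Real.cosh (k * u j) with hP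
  have hP1 : 1 ≤ P := largept_one_le_prod u i k
  have hP0 : 0 < P := by linarith
  have hW'e : ∀ e, W' e = Real.exp (-(k * RR u i e)) / P := fun e => largept_prod_tanh u i k e
  -- the identity
  have hid : u i * Q - FF u s = Q * EE (fun e => (- largept_clamp a (RR u i e)) * W e) +
      EE (fun e => (- max (-a + RR u i e) 0) * W e) := by
    rw [largept_FF u i s]
    have h1 : u i * Q = EE (fun e => a * Q * W e) := by
      rw [EE_mul_left, largept_EE_weight]
      ring
    rw [h1, ← EE_sub, ← EE_mul_left, ← EE_add]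
    apply EE_congr
    intro e
    rw [← largept_clamp_id ha]
    ring
  rw [← hadef] at hid
  rw [hid]
  have ht0 : ∀ j, 0 ≤ Real.tanh (k * u j) := by
    intro j
    rw [Real.tanh_eq_sinh_div_cosh]
    exact div_nonneg (Real.sinh_nonneg_iff.mpr (mul_nonneg hk0 (hu0 j))) (Real.cosh_pos _).le
  have htm : ∀ j, Real.tanh (k * u j) ≤ mm (s * u j) := by
    intro j
    have := tanh_le_mm (x := s * u j) (mul_nonneg hs (hu0 j))
    rwa [← mul_assoc] at this
  have hm1 : ∀ j, mm (s * u j) ≤ 1 := fun j => (mm_lt_one _).le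
  -- first term
  have hA : EE (fun e => (- largept_clamp a (RR u i e)) * W' e) ≤
      EE (fun e => (- largept_clamp a (RR u i e)) * W e) := by
    apply EE_tilt_mono (fun e => - largept_clamp a (RR u i e)) (fun j => Real.tanh (k * u j))
      (fun j => mm (s * u j)) (Finset.univ.erase i) ?_ ht0 htm hm1
    intro j hj e
    exact neg_le_neg (largept_clamp_mono a (largept_RR_mono u hu0 i j hj e))
  have hB : EE (fun e => (- max (-a + RR u i e) 0) * W' e) ≤
      EE (fun e => (- max (-a + RR u i e) 0) * W e) := by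
    apply EE_tilt_mono (fun e => - max (-a + RR u i e) 0) (fun j => Real.tanh (k * u j))
      (fun j => mm (s * u j)) (Finset.univ.erase i) ?_ ht0 htm hm1
    intro j hj e
    have := largept_RR_mono u hu0 i j hj e
    apply neg_le_neg
    apply max_le_max _ le_rfl
    linarith
  have hA' : EE (fun e => (- largept_clamp a (RR u i e)) * W' e) =
      EE (fun e => min |RR u i e| a * Real.sinh (k * |RR u i e|)) / P := by
    have h1 : EE (fun e => (- largept_clamp a (RR u i e)) * W' e) =
        EE (fun e => (- largept_clamp a (RR u i e)) * Real.exp (-(k * RR u i e))) / P := by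
      rw [← EE_div]
      apply EE_congr
      intro e
      rw [hW'e]
      ring
    rw [h1]
    congr 1
    have h2 := EE_flip (fun e : Fin n → Bool =>
      (- largept_clamp a (RR u i e)) * Real.exp (-(k * RR u i e)))
    have h3 : EE (fun e => (- largept_clamp a (RR u i e)) * Real.exp (-(k * RR u i e))) =
        EE (fun e => ((- largept_clamp a (RR u i e)) * Real.exp (-(k * RR u i e)) +
          (- largept_clamp a (RR u i (fun j => !(e j)))) *
            Real.exp (-(k * RR u i (fun j => !(e j))))) / 2) := by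
      rw [EE_div, EE_add, h2]
      ring
    rw [h3]
    apply EE_congr
    intro e
    rw [largept_RR_not, largept_clamp_neg ha, ← largept_clamp_sinh ha, Real.sinh_eq]
    rw [show -(k * -RR u i e) = k * RR u i e by ring]
    ring
  have hB' : EE (fun e => (max (-a + RR u i e) 0) * W' e) =
      EE (fun e => max (|RR u i e| - a) 0 * Real.exp (-(k * |RR u i e|)) / 2) / P := by
    have h1 : EE (fun e => (max (-a + RR u i e) 0) * W' e) =
        EE (fun e => (max (RR u i e - a) 0) * Real.exp (-(k * RR u i e))) / P := by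
      rw [← EE_div]
      apply EE_congr
      intro e
      rw [hW'e, show -a + RR u i e = RR u i e - a by ring]
      ring
    rw [h1]
    congr 1
    have h2 := EE_flip (fun e : Fin n → Bool =>
      (max (RR u i e - a) 0) * Real.exp (-(k * RR u i e)))
    have h3 : EE (fun e => (max (RR u i e - a) 0) * Real.exp (-(k * RR u i e))) =
        EE (fun e => ((max (RR u i e - a) 0) * Real.exp (-(k * RR u i e)) +
          (max (RR u i (fun j => !(e j)) - a) 0) *
            Real.exp (-(k * RR u i (fun j => !(e j))))) / 2) := by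
      rw [EE_div, EE_add, h2]
      ring
    rw [h3]
    apply EE_congr
    intro e
    rw [largept_RR_not, largept_pos_exp ha]
  -- nonnegativity
  have hS0 : 0 ≤ EE (fun e => min |RR u i e| a * Real.sinh (k * |RR u i e|)) := by
    apply EE_nonneg
    intro e
    exact mul_nonneg (le_min (abs_nonneg _) ha)
      (Real.sinh_nonneg_iff.mpr (mul_nonneg hk0 (abs_nonneg _)))
  have hT0 : 0 ≤ EE (fun e => max (|RR u i e| - a) 0 * Real.exp (-(k * |RR u i e|)) / 2) := by
    apply EE_nonneg
    intro e
    have := le_max_right (|RR u i e| - a) 0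
    positivity
  have hexp : EE (fun e => min |RR u i e| a * Real.sinh (k * |RR u i e|)) *
      Real.exp (-(cc ^ 2 * s ^ 2 * (1 - a ^ 2) / 2)) ≤
      EE (fun e => min |RR u i e| a * Real.sinh (k * |RR u i e|)) / P := by
    rw [div_eq_mul_inv]
    apply mul_le_mul_of_nonneg_left _ hS0
    rw [Real.exp_neg]
    apply inv_anti₀ hP0
    have := largept_prod_cosh_le u hu i k
    rw [hk, mul_pow] at this
    exact this
  have hL : EE (fun e => Q * (min |RR u i e| a * Real.sinh (k * |RR u i e|) *
        Real.exp (-(cc ^ 2 * s ^ 2 * (1 - a ^ 2) / 2))) -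
        max (|RR u i e| - a) 0 * Real.exp (-(k * |RR u i e|)) / 2) =
      Q * (EE (fun e => min |RR u i e| a * Real.sinh (k * |RR u i e|)) *
        Real.exp (-(cc ^ 2 * s ^ 2 * (1 - a ^ 2) / 2))) -
      EE (fun e => max (|RR u i e| - a) 0 * Real.exp (-(k * |RR u i e|)) / 2) := by
    rw [EE_sub, EE_mul_left, EE_mul_right]
  rw [hL]
  have hB2 : EE (fun e => (- max (-a + RR u i e) 0) * W' e) =
      - EE (fun e => (max (-a + RR u i e) 0) * W' e) := by
    rw [← EE_neg]
    apply EE_congr
    intro e
    ring
  have hB3 : EE (fun e => max (|RR u i e| - a) 0 * Real.exp (-(k * |RR u i e|)) / 2) / P ≤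
      EE (fun e => max (|RR u i e| - a) 0 * Real.exp (-(k * |RR u i e|)) / 2) :=
    div_le_self hT0 hP1
  have hA2 : Q * (EE (fun e => min |RR u i e| a * Real.sinh (k * |RR u i e|)) *
        Real.exp (-(cc ^ 2 * s ^ 2 * (1 - a ^ 2) / 2))) ≤
      Q * EE (fun e => (- largept_clamp a (RR u i e)) * W e) := by
    apply mul_le_mul_of_nonneg_left _ hQ0
    rw [hA'] at hA
    linarith
  rw [hB2, hB'] at hB
  linarith

end Pool.Agent.CubeWidth
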