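import Pool.Agent.Lib.MP_e8b094_gt.LargeInt
import Pool.Agent.Lib.MP_e8b094_gt.Cint
import Pool.Agent.Lib.MP_e8b094_gt.FFbasic
import Pool.Agent.Lib.MP_e8b094_gt.LargePt

/-!
The case of one large coefficient: `∫ F_u < c/2` if some `u_i` is in `[2/3, 1)`.
-/

namespace Pool.Agent.CubeWidth

open MeasureTheory Real Set Filter Topology

/-- first part of the integrand -/
noncomputable def largeasm1 (a r s : ℝ) : ℝ :=
  qq (a * s) * (min r a * Real.sinh (cc * s * r) * Real.exp (-(cc ^ 2 * s ^ 2 * (1 - a ^ 2) / 2)))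

/-- second part of the integrand -/
noncomputable def largeasm2 (a r s : ℝ) : ℝ := max (r - a) 0 * Real.exp (-(cc * s * r)) / 2

/-- the function after substitution -/
noncomputable def largeasmG (x c t : ℝ) : ℝ :=
  qq t * Real.sinh (cc * t * x) * Real.exp (-(c * t ^ 2 / 2))

lemma largeasm1_eq {a r : ℝ} (ha : 0 < a) (s : ℝ) :
    largeasm1 a r s = min r a * largeasmG (r / a) (cc ^ 2 * (1 - a ^ 2) / a ^ 2) (a * s) := by
  unfold largeasm1 largeasmG
  have h1 : cc * (a * s) * (r / a) = cc * s * r := by field_simp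
  have h2 : cc ^ 2 * (1 - a ^ 2) / a ^ 2 * (a * s) ^ 2 / 2 = cc ^ 2 * s ^ 2 * (1 - a ^ 2) / 2 := by
    field_simp
  rw [h1, h2]; ring

lemma largeasm_c_nonneg {a : ℝ} (ha : 0 < a) (ha1 : a < 1) :
    0 ≤ cc ^ 2 * (1 - a ^ 2) / a ^ 2 := by
  have : 0 ≤ 1 - a ^ 2 := by nlinarith
  positivity

lemma largeasmG_integrable {x c : ℝ} (hc : 0 ≤ c) : IntegrableOn (largeasmG x c) (Ioi 0) :=
  large_int_integrable hc

lemma largeasm1_integrable {a r : ℝ} (ha : 0 < a) (ha1 : a < 1) :
    IntegrableOn (largeasm1 a r) (Ioi 0) := by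
  have h1 : largeasm1 a r =
      fun s => min r a * largeasmG (r / a) (cc ^ 2 * (1 - a ^ 2) / a ^ 2) (a * s) :=
    funext (largeasm1_eq ha)
  rw [h1]
  apply Integrable.const_mul
  have h2 := (integrableOn_Ioi_comp_mul_left_iff
    (largeasmG (r / a) (cc ^ 2 * (1 - a ^ 2) / a ^ 2)) 0 ha).2 (by
      rw [mul_zero]; exact largeasmG_integrable (largeasm_c_nonneg ha ha1))
  exact h2

lemma largeasm1_integral {a r : ℝ} (ha : 0 < a) :
    ∫ s in Ioi (0 : ℝ), largeasm1 a r s =
      min r a * (a⁻¹ * ∫ t in Ioi (0 : ℝ), largeasmG (r / a) (cc ^ 2 * (1 - a ^ 2) / a ^ 2) t) := by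
  have h1 : largeasm1 a r =
      fun s => min r a * largeasmG (r / a) (cc ^ 2 * (1 - a ^ 2) / a ^ 2) (a * s) :=
    funext (largeasm1_eq ha)
  rw [h1, integral_const_mul, integral_comp_mul_left_Ioi _ _ ha, mul_zero, smul_eq_mul]

lemma largeasm2_integrable {a r : ℝ} (ha : 0 < a) :
    IntegrableOn (largeasm2 a r) (Ioi 0) := by
  rcases le_or_gt r a with h | h
  · have h1 : largeasm2 a r = fun _ => 0 := by
      funext s
      unfold largeasm2
      rw [max_eq_right (by linarith)]; ring
    rw [h1]; exact integrableOn_zero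
  · have hc := cc_pos
    have hneg : -(cc * r) < 0 := by
      have := mul_pos hc (ha.trans h); linarith
    have h2 : IntegrableOn (fun s => max (r - a) 0 / 2 * Real.exp (-(cc * r) * s)) (Ioi 0) :=
      (integrableOn_exp_mul_Ioi hneg 0).const_mul (max (r - a) 0 / 2)
    have h3 : largeasm2 a r = fun s => max (r - a) 0 / 2 * Real.exp (-(cc * r) * s) := by
      funext s
      unfold largeasm2
      have : -(cc * r) * s = -(cc * s * r) := by ring
      rw [this]; ring
    rw [h3]; exact h2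

lemma largeasm2_integral {a r : ℝ} (ha : 0 < a) (h : a < r) :
    ∫ s in Ioi (0 : ℝ), largeasm2 a r s = (1 - 1 / (r / a)) / (2 * cc) := by
  have hc := cc_pos
  have hr : 0 < r := ha.trans h
  have hneg : -(cc * r) < 0 := by
    have := mul_pos hc hr; linarith
  have h2 := integral_exp_mul_Ioi hneg 0
  have h3 : largeasm2 a r = fun s => (r - a) / 2 * Real.exp (-(cc * r) * s) := by
    funext s
    unfold largeasm2
    rw [max_eq_left (by linarith)]
    have : -(cc * r) * s = -(cc * s * r) := by ring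
    rw [this]; ring
  rw [h3, integral_const_mul, h2, mul_zero, Real.exp_zero]
  field_simp

lemma largeasmG_nonneg {x c t : ℝ} (hx : 0 ≤ x) (ht : 0 ≤ t) : 0 ≤ largeasmG x c t := by
  unfold largeasmG
  have h1 := (cint_qq_pos t).le
  have h2 : 0 ≤ Real.sinh (cc * t * x) := by
    rw [Real.sinh_nonneg_iff]
    have := cc_pos
    positivity
  positivity

lemma largeasmG_pos {x c t : ℝ} (hx : 0 < x) (ht : 0 < t) : 0 < largeasmG x c t := by
  unfold largeasmG
  have h1 := cint_qq_pos t
  have h2 : 0 < Real.sinh (cc * t * x) := by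
    rw [Real.sinh_pos_iff]
    have := cc_pos
    positivity
  positivity

lemma largeasmG_integral_pos {x c : ℝ} (hx : 0 < x) (hc : 0 ≤ c) :
    0 < ∫ t in Ioi (0 : ℝ), largeasmG x c t := by
  rw [setIntegral_pos_iff_support_of_nonneg_ae]
  · have h1 : Ioi (0 : ℝ) ⊆ Function.support (largeasmG x c) ∩ Ioi 0 := by
      intro t ht
      exact ⟨(largeasmG_pos hx ht).ne', ht⟩
    refine lt_of_lt_of_le ?_ (measure_mono h1)
    rw [Real.volume_Ioi]; exact ENNReal.zero_lt_top
  · refine (ae_restrict_iff' measurableSet_Ioi).2 (Eventually.of_forall fun t ht => ?_)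
    exact largeasmG_nonneg hx.le (le_of_lt ht)
  · exact largeasmG_integrable hc

/-- the lower bound of the integral of the first part, `r > a` -/
lemma largeasm_key {a r : ℝ} (ha : 2 / 3 ≤ a) (ha1 : a < 1) (h : a < r) :
    (1 - 1 / (r / a)) / (2 * cc) <
      ∫ t in Ioi (0 : ℝ), largeasmG (r / a) (cc ^ 2 * (1 - a ^ 2) / a ^ 2) t := by
  have ha0 : 0 < a := by linarith
  have hx : 1 ≤ r / a := by rw [le_div_iff₀ ha0]; linarith
  refine (large_int hx).trans_le ?_
  have hpi := Real.pi_pos
  have hc5 : (0 : ℝ) ≤ 5 / (2 * π) := by positivity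
  have hcle : cc ^ 2 * (1 - a ^ 2) / a ^ 2 ≤ 5 / (2 * π) := by
    rw [cc_sq, div_le_div_iff₀ (by positivity) (by positivity)]
    have h1 : 2 / π * (1 - a ^ 2) * (2 * π) = 4 * (1 - a ^ 2) := by field_simp; ring
    rw [h1]
    nlinarith
  refine setIntegral_mono_on (large_int_integrable hc5)
    (largeasmG_integrable (largeasm_c_nonneg ha0 ha1)) measurableSet_Ioi ?_
  intro t ht
  have ht' : (0 : ℝ) < t := ht
  unfold largeasmG
  have h1 := (cint_qq_pos t).le
  have h2 : 0 ≤ Real.sinh (cc * t * (r / a)) := by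
    rw [Real.sinh_nonneg_iff]
    have := cc_pos
    positivity
  apply mul_le_mul_of_nonneg_left _ (mul_nonneg h1 h2)
  apply Real.exp_le_exp.2
  have := mul_le_mul_of_nonneg_right hcle (sq_nonneg t)
  linarith

/-- `Phi(r) >= 0`, strict for `r > 0`. -/
lemma largeasm_phi_pos {a r : ℝ} (ha : 2 / 3 ≤ a) (ha1 : a < 1) (hr : 0 < r) :
    0 < (∫ s in Ioi (0 : ℝ), largeasm1 a r s) - ∫ s in Ioi (0 : ℝ), largeasm2 a r s := by
  have ha0 : 0 < a := by linarith
  rcases le_or_gt r a with h | h
  · have h1 : largeasm2 a r = fun _ => 0 := by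
      funext s
      unfold largeasm2
      rw [max_eq_right (by linarith)]; ring
    rw [h1, integral_zero, sub_zero, largeasm1_integral ha0]
    have h2 := largeasmG_integral_pos (x := r / a) (c := cc ^ 2 * (1 - a ^ 2) / a ^ 2)
      (by positivity) (largeasm_c_nonneg ha0 ha1)
    have h3 : 0 < min r a := lt_min hr ha0
    positivity
  · rw [largeasm1_integral ha0, largeasm2_integral ha0 h, min_eq_right h.le, ← mul_assoc,
      mul_inv_cancel₀ ha0.ne', one_mul]
    have := largeasm_key ha ha1 h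
    linarith

lemma largeasm_phi_zero {a : ℝ} (ha : 0 < a) :
    (∫ s in Ioi (0 : ℝ), largeasm1 a 0 s) - ∫ s in Ioi (0 : ℝ), largeasm2 a 0 s = 0 := by
  have h1 : largeasm1 a 0 = fun _ => 0 := by
    funext s
    unfold largeasm1
    rw [min_eq_left ha.le]; ring
  have h2 : largeasm2 a 0 = fun _ => 0 := by
    funext s
    unfold largeasm2
    rw [max_eq_right (by linarith)]; ring
  rw [h1, h2, integral_zero, sub_zero]

theorem large_case {n : ℕ} (u : Fin n → ℝ) (hu0 : ∀ i, 0 ≤ u i) (hu : ∑ i, u i ^ 2 = 1)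
    (i : Fin n) (hi : 2 / 3 ≤ u i) (hi1 : u i < 1) :
    ∫ s in Ioi (0 : ℝ), FF u s < cc / 2 := by
  have ha0 : 0 < u i := by linarith
  -- the integrals of the two sides
  have hq : IntegrableOn (fun s => u i * qq (u i * s)) (Ioi 0) := by
    apply Integrable.const_mul
    exact (integrableOn_Ioi_comp_mul_left_iff qq 0 ha0).2 (by rw [mul_zero]; exact integrable_qq)
  have hqi : ∫ s in Ioi (0 : ℝ), u i * qq (u i * s) = cc / 2 := by
    rw [integral_const_mul, integral_comp_mul_left_Ioi _ _ ha0, mul_zero, smul_eq_mul,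
      integral_qq, ← mul_assoc, mul_inv_cancel₀ ha0.ne', one_mul]
  have hF := integrable_FF u hu
  have hI1 : ∀ e : Fin n → Bool, IntegrableOn
      (fun s => largeasm1 (u i) |RR u i e| s - largeasm2 (u i) |RR u i e| s) (Ioi 0) :=
    fun e => (largeasm1_integrable ha0 hi1).sub (largeasm2_integrable ha0)
  have hEE : ∀ g : (Fin n → Bool) → ℝ → ℝ, (fun s => EE (fun e => g e s)) =
      fun s => (∑ e, g e s) / 2 ^ Fintype.card (Fin n) := fun g => rfl
  have hI2 : IntegrableOn (fun s => EE (fun e => largeasm1 (u i) |RR u i e| s -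
      largeasm2 (u i) |RR u i e| s)) (Ioi 0) := by
    rw [hEE]
    apply Integrable.div_const
    apply integrable_finsetSum
    intro e _
    exact hI1 e
  have hI3 : ∫ s in Ioi (0 : ℝ), EE (fun e => largeasm1 (u i) |RR u i e| s -
      largeasm2 (u i) |RR u i e| s) =
      EE (fun e => (∫ s in Ioi (0 : ℝ), largeasm1 (u i) |RR u i e| s) -
        ∫ s in Ioi (0 : ℝ), largeasm2 (u i) |RR u i e| s) := by
    rw [hEE, integral_div, integral_finsetSum _ (fun e _ => hI1 e)]
    unfold EE
    congr 1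
    apply Finset.sum_congr rfl
    intro e _
    exact integral_sub (largeasm1_integrable ha0 hi1) (largeasm2_integrable ha0)
  have hmono : ∫ s in Ioi (0 : ℝ), EE (fun e => largeasm1 (u i) |RR u i e| s -
      largeasm2 (u i) |RR u i e| s) ≤ ∫ s in Ioi (0 : ℝ), (u i * qq (u i * s) - FF u s) := by
    refine setIntegral_mono_on hI2 (hq.sub hF) measurableSet_Ioi ?_
    intro s hs
    exact large_pt u hu0 hu i (le_of_lt hs)
  rw [integral_sub hq hF, hqi, hI3] at hmono
  -- positivity
  have hpos : 0 < EE (fun e => (∫ s in Ioi (0 : ℝ), largeasm1 (u i) |RR u i e| s) -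
        ∫ s in Ioi (0 : ℝ), largeasm2 (u i) |RR u i e| s) := by
    have h0 : EE (fun _ : Fin n → Bool => (0 : ℝ)) = 0 := EE_const 0
    refine h0.symm.trans_lt (EE_lt (fun e => ?_) (fun _ => true) ?_)
    · rcases (abs_nonneg (RR u i e)).eq_or_lt with h | h
      · rw [← h, largeasm_phi_zero ha0]
      · exact (largeasm_phi_pos hi hi1 h).le
    · apply largeasm_phi_pos hi hi1
      have h1 : 0 < RR u i (fun _ => true) := by
        unfold RR
        have h2 : u i ^ 2 + ∑ j ∈ Finset.univ.erase i, u j ^ 2 = 1 := by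
          rw [Finset.add_sum_erase _ (fun j => u j ^ 2) (Finset.mem_univ i)]; exact hu
        by_contra hcon
        push Not at hcon
        simp only [sg_true, mul_one] at hcon
        have h3 : ∑ j ∈ Finset.univ.erase i, u j = 0 :=
          le_antisymm hcon (Finset.sum_nonneg fun j _ => hu0 j)
        have h4 : ∀ j ∈ Finset.univ.erase i, u j = 0 :=
          (Finset.sum_eq_zero_iff_of_nonneg (fun j _ => hu0 j)).1 h3
        have h5 : ∑ j ∈ Finset.univ.erase i, u j ^ 2 = 0 :=
          Finset.sum_eq_zero fun j hj => by rw [h4 j hj]; ring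
        rw [h5] at h2
        nlinarith
      exact abs_pos.2 h1.ne'
  linarith

end Pool.Agent.CubeWidth
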