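import Pool.Agent.Lib.MP_e8b094_gt.Defs2

/-!
An explicit Gaussian integral inequality used in the case of a large coordinate.
-/

namespace Pool.Agent.CubeWidth

open MeasureTheory Real Set Filter Topology

lemma largeint_sinh {y : ℝ} (hy : 0 ≤ y) : y + y ^ 3 / 6 ≤ Real.sinh y := by
  have h := Real.hasSum_sinh y
  have h2 := sum_le_hasSum (Finset.range 2) (fun i _ => by positivity) h
  simp only [Finset.sum_range_succ, Finset.range_zero, Finset.sum_empty, mul_zero, zero_add,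
    pow_one, Nat.factorial, Nat.cast_one, div_one, mul_one] at h2
  norm_num at h2
  linarith

lemma largeint_qq_nonneg (t : ℝ) : 0 ≤ qq t := by
  unfold qq; linarith [mm_lt_one t]

lemma largeint_qq_le {t : ℝ} (ht : 0 ≤ t) : qq t ≤ Real.exp (-t ^ 2 / 2) / 2 := by
  unfold qq; linarith [one_sub_mm_le ht]

lemma largeint_continuous_qq : Continuous qq := by
  unfold qq
  exact (continuous_const.sub continuous_mm).div_const _

lemma largeint_hasDerivAt_qq (t : ℝ) : HasDerivAt qq (-(cc * Real.exp (-t ^ 2 / 2)) / 2) t := by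
  have h := ((hasDerivAt_mm t).const_sub 1).div_const 2
  exact h

lemma largeint_tendsto_qq : Tendsto qq atTop (𝓝 0) := by
  have h := (tendsto_mm_atTop.const_sub 1).div_const 2
  rw [sub_self, zero_div] at h
  exact h

theorem large_int_integrable {x c : ℝ} (hc : 0 ≤ c) :
    IntegrableOn (fun t => qq t * Real.sinh (cc * t * x) * Real.exp (-(c * t ^ 2 / 2))) (Ioi 0) := by
  have hbound : Integrable (fun t : ℝ => Real.exp ((cc * |x|) ^ 2) * Real.exp (-(1 / 4) * t ^ 2)) :=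
    (integrable_exp_neg_mul_sq (by norm_num)).const_mul _
  refine Integrable.mono' hbound.integrableOn ?_ ?_
  · refine Continuous.aestronglyMeasurable ?_
    have := largeint_continuous_qq
    fun_prop
  · refine (ae_restrict_iff' measurableSet_Ioi).2 (Eventually.of_forall fun t ht => ?_)
    have ht : 0 < t := ht
    have hcc := cc_pos
    rw [norm_mul, norm_mul, Real.norm_eq_abs, Real.norm_eq_abs, Real.norm_eq_abs,
      abs_of_nonneg (largeint_qq_nonneg t), abs_of_nonneg (Real.exp_pos _).le]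
    have h1 : |Real.sinh (cc * t * x)| ≤ Real.exp (cc * t * |x|) := by
      rw [Real.abs_sinh]
      have e : |cc * t * x| = cc * t * |x| := by
        rw [abs_mul, abs_of_pos (by positivity)]
      rw [e, Real.sinh_eq]
      have := Real.exp_pos (cc * t * |x|)
      have := Real.exp_pos (-(cc * t * |x|))
      linarith
    have h2 : qq t ≤ Real.exp (-t ^ 2 / 2) := by
      have := largeint_qq_le ht.le
      have := Real.exp_pos (-t ^ 2 / 2)
      linarith
    have h3 : Real.exp (-(c * t ^ 2 / 2)) ≤ 1 := by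
      rw [Real.exp_le_one_iff]
      have : 0 ≤ c * t ^ 2 / 2 := by positivity
      linarith
    calc qq t * |Real.sinh (cc * t * x)| * Real.exp (-(c * t ^ 2 / 2))
        ≤ Real.exp (-t ^ 2 / 2) * Real.exp (cc * t * |x|) * 1 := by
          refine mul_le_mul (mul_le_mul h2 h1 (abs_nonneg _) (Real.exp_pos _).le) h3
            (Real.exp_pos _).le (by positivity)
      _ = Real.exp (-t ^ 2 / 2 + cc * t * |x|) := by rw [mul_one, ← Real.exp_add]
      _ ≤ Real.exp ((cc * |x|) ^ 2 + -(1 / 4) * t ^ 2) := by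
          rw [Real.exp_le_exp]
          nlinarith [sq_nonneg (cc * |x| - t / 2)]
      _ = Real.exp ((cc * |x|) ^ 2) * Real.exp (-(1 / 4) * t ^ 2) := by rw [← Real.exp_add]

lemma largeint_tail2 {b : ℝ} (hb : 0 < b) :
    Tendsto (fun t : ℝ => t ^ 2 * Real.exp (-(b * t ^ 2 / 2))) atTop (𝓝 0) := by
  have h1 : Tendsto (fun t : ℝ => b * t ^ 2 / 2) atTop atTop := by
    have h4 : Tendsto (fun t : ℝ => t ^ 2) atTop atTop := tendsto_pow_atTop (by norm_num)
    exact (h4.const_mul_atTop hb).atTop_div_const (by norm_num)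
  have h2 := (Real.tendsto_pow_mul_exp_neg_atTop_nhds_zero 1).comp h1
  have h3 := h2.const_mul (2 / b)
  rw [mul_zero] at h3
  refine h3.congr fun t => ?_
  simp only [Function.comp, pow_one]
  field_simp

lemma largeint_tail0 {b : ℝ} (hb : 0 < b) :
    Tendsto (fun t : ℝ => Real.exp (-(b * t ^ 2 / 2))) atTop (𝓝 0) := by
  have h1 : Tendsto (fun t : ℝ => b * t ^ 2 / 2) atTop atTop := by
    have h4 : Tendsto (fun t : ℝ => t ^ 2) atTop atTop := tendsto_pow_atTop (by norm_num)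
    exact (h4.const_mul_atTop hb).atTop_div_const (by norm_num)
  have h2 := (Real.tendsto_pow_mul_exp_neg_atTop_nhds_zero 0).comp h1
  refine h2.congr fun t => ?_
  simp [Function.comp]

lemma largeint_tail1 {b : ℝ} (hb : 0 < b) :
    Tendsto (fun t : ℝ => t * Real.exp (-(b * t ^ 2 / 2))) atTop (𝓝 0) := by
  have h := ((largeint_tail0 hb).add (largeint_tail2 hb))
  rw [add_zero] at h
  refine squeeze_zero_norm' ?_ h
  filter_upwards [eventually_ge_atTop (0 : ℝ)] with t ht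
  rw [Real.norm_eq_abs, abs_of_nonneg (by positivity)]
  have h1 := Real.exp_pos (-(b * t ^ 2 / 2))
  have h2 : t ≤ 1 + t ^ 2 := by nlinarith [sq_nonneg (t - 1)]
  nlinarith

/-- the antiderivative of `qq t * t * exp (-(g t^2/2))` -/
noncomputable def largeintH1 (g q : ℝ) (t : ℝ) : ℝ :=
  -(1 / g) * (qq t * Real.exp (-(g * t ^ 2 / 2))) - 1 / (2 * g) * q * mm (t / q)

/-- the antiderivative of `qq t * t^3 * exp (-(g t^2/2))` -/
noncomputable def largeintH3 (g q : ℝ) (t : ℝ) : ℝ :=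
  -(qq t * ((t ^ 2 / g + 2 / g ^ 2) * Real.exp (-(g * t ^ 2 / 2))))
    - 1 / (2 * g) * (-(cc * q ^ 2 * (t * Real.exp (-(t / q) ^ 2 / 2))) + q ^ 3 * mm (t / q))
    - 1 / g ^ 2 * q * mm (t / q)

lemma largeint_exp_mul {g q : ℝ} (hq : 0 < q) (hgq : q ^ 2 * (1 + g) = 1) (t : ℝ) :
    Real.exp (-(t / q) ^ 2 / 2) = Real.exp (-t ^ 2 / 2) * Real.exp (-(g * t ^ 2 / 2)) := by
  rw [← Real.exp_add]
  congr 1
  rw [div_pow]
  have h : t ^ 2 / q ^ 2 = t ^ 2 * (1 + g) := by
    rw [div_eq_iff (by positivity)]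
    linear_combination (-t ^ 2) * hgq
  have h2 : -(t ^ 2 / q ^ 2) / 2 = -(t ^ 2 * (1 + g)) / 2 := by rw [h]
  rw [h2]
  ring

lemma largeint_hasDerivAt_exp (g t : ℝ) :
    HasDerivAt (fun t : ℝ => Real.exp (-(g * t ^ 2 / 2))) (-(g * t) * Real.exp (-(g * t ^ 2 / 2))) t := by
  have h1 : HasDerivAt (fun t : ℝ => -(g * t ^ 2 / 2)) (-(g * t)) t := by
    have := (((hasDerivAt_pow 2 t).const_mul g).div_const 2).neg
    exact this.congr_deriv (by simp; ring)
  exact h1.exp.congr_deriv (by ring)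

lemma largeint_hasDerivAt_expq (q t : ℝ) :
    HasDerivAt (fun t : ℝ => Real.exp (-(t / q) ^ 2 / 2))
      (-(t / q ^ 2) * Real.exp (-(t / q) ^ 2 / 2)) t := by
  have h1 : HasDerivAt (fun t : ℝ => -(t / q) ^ 2 / 2) (-(t / q ^ 2)) t := by
    have h0 : HasDerivAt (fun t : ℝ => t / q) (1 / q) t := (hasDerivAt_id t).div_const q
    have := ((h0.pow 2).neg).div_const 2
    refine this.congr_deriv ?_
    simp only [Nat.cast_ofNat, Nat.add_one_sub_one, pow_one]
    ring
  exact h1.exp.congr_deriv (by ring)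

lemma largeint_hasDerivAt_mmq (q t : ℝ) :
    HasDerivAt (fun t : ℝ => mm (t / q)) (cc * Real.exp (-(t / q) ^ 2 / 2) / q) t := by
  have h0 : HasDerivAt (fun t : ℝ => t / q) (1 / q) t := (hasDerivAt_id t).div_const q
  have := (hasDerivAt_mm (t / q)).comp t h0
  exact this.congr_deriv (by ring)

lemma largeint_deriv1 {g q : ℝ} (hg : 0 < g) (hq : 0 < q) (hgq : q ^ 2 * (1 + g) = 1) (t : ℝ) :
    HasDerivAt (largeintH1 g q) (qq t * t * Real.exp (-(g * t ^ 2 / 2))) t := by
  have h1 := ((largeint_hasDerivAt_qq t).mul (largeint_hasDerivAt_exp g t)).const_mul (-(1 / g))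
  have h2 := (largeint_hasDerivAt_mmq q t).const_mul (1 / (2 * g) * q)
  refine (h1.sub h2).congr_deriv ?_
  rw [largeint_exp_mul hq hgq]
  field_simp
  ring

lemma largeint_deriv3 {g q : ℝ} (hg : 0 < g) (hq : 0 < q) (hgq : q ^ 2 * (1 + g) = 1) (t : ℝ) :
    HasDerivAt (largeintH3 g q) (qq t * t ^ 3 * Real.exp (-(g * t ^ 2 / 2))) t := by
  have h0 : HasDerivAt (fun t : ℝ => t ^ 2 / g + 2 / g ^ 2) (2 * t / g) t := by
    have := ((hasDerivAt_pow 2 t).div_const g).add_const (2 / g ^ 2)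
    exact this.congr_deriv (by simp)
  have h1 := ((largeint_hasDerivAt_qq t).mul (h0.mul (largeint_hasDerivAt_exp g t))).neg
  have h2 := ((((hasDerivAt_id t).mul (largeint_hasDerivAt_expq q t)).const_mul (cc * q ^ 2)).neg.add
    ((largeint_hasDerivAt_mmq q t).const_mul (q ^ 3))).const_mul (1 / (2 * g))
  have h3 := (largeint_hasDerivAt_mmq q t).const_mul (1 / g ^ 2 * q)
  refine ((h1.sub h2).sub h3).congr_deriv ?_
  simp only [id, Pi.mul_apply]
  rw [largeint_exp_mul hq hgq]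
  field_simp
  ring

lemma largeint_lim1 {g q : ℝ} (hg : 0 < g) (hq : 0 < q) :
    Tendsto (largeintH1 g q) atTop (𝓝 (-(q / (2 * g)))) := by
  have h1 := ((largeint_tendsto_qq.mul (largeint_tail0 hg)).const_mul (-(1 / g)))
  have h2 : Tendsto (fun t : ℝ => mm (t / q)) atTop (𝓝 1) :=
    tendsto_mm_atTop.comp (tendsto_id.atTop_div_const hq)
  have h3 := h1.sub (h2.const_mul (1 / (2 * g) * q))
  have e : -(q / (2 * g)) = -(1 / g) * (0 * 0) - 1 / (2 * g) * q * 1 := by ring
  rw [e]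
  exact h3

lemma largeint_lim3 {g q : ℝ} (hg : 0 < g) (hq : 0 < q) (hgq : q ^ 2 * (1 + g) = 1) :
    Tendsto (largeintH3 g q) atTop (𝓝 (-(q ^ 3 / (2 * g)) - q / g ^ 2)) := by
  have h1 : Tendsto (fun t : ℝ => (t ^ 2 / g + 2 / g ^ 2) * Real.exp (-(g * t ^ 2 / 2))) atTop (𝓝 0) := by
    have := ((largeint_tail2 hg).const_mul (1 / g)).add ((largeint_tail0 hg).const_mul (2 / g ^ 2))
    simp only [mul_zero, add_zero] at this
    refine this.congr fun t => ?_
    ring
  have h2 : Tendsto (fun t : ℝ => mm (t / q)) atTop (𝓝 1) :=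
    tendsto_mm_atTop.comp (tendsto_id.atTop_div_const hq)
  have h4 : Tendsto (fun t : ℝ => t * Real.exp (-(t / q) ^ 2 / 2)) atTop (𝓝 0) := by
    refine (largeint_tail1 (b := 1 + g) (by linarith)).congr fun t => ?_
    rw [largeint_exp_mul hq hgq, ← Real.exp_add]
    congr 2
    ring
  have h5 := ((largeint_tendsto_qq.mul h1).neg.sub
    (((h4.const_mul (cc * q ^ 2)).neg.add (h2.const_mul (q ^ 3))).const_mul (1 / (2 * g)))).sub
    (h2.const_mul (1 / g ^ 2 * q))
  have e : -(q ^ 3 / (2 * g)) - q / g ^ 2 =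
      -(0 * 0) - 1 / (2 * g) * (-(cc * q ^ 2 * 0) + q ^ 3 * 1) - 1 / g ^ 2 * q * 1 := by ring
  rw [e]
  exact h5

theorem large_int {x : ℝ} (hx : 1 ≤ x) :
    (1 - 1 / x) / (2 * cc) <
      ∫ t in Ioi (0 : ℝ), qq t * Real.sinh (cc * t * x) * Real.exp (-(5 / (2 * π) * t ^ 2 / 2)) := by
  have hcc := cc_pos
  have hpi := Real.pi_pos
  have hcsq := cc_sq
  set g : ℝ := 5 / (2 * π) with hgdef
  have hg : 0 < g := by positivity
  set q : ℝ := √(1 / (1 + g)) with hqdef
  have hq : 0 < q := Real.sqrt_pos.2 (by positivity)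
  have hq2 : q ^ 2 = 1 / (1 + g) := Real.sq_sqrt (by positivity)
  have hgq : q ^ 2 * (1 + g) = 1 := by rw [hq2]; field_simp
  -- lower bound by the integral of the first two terms
  set H : ℝ → ℝ := fun t => cc * x * largeintH1 g q t + (cc * x) ^ 3 / 6 * largeintH3 g q t with hH
  have hHd : ∀ t : ℝ, HasDerivAt H
      (qq t * (cc * t * x + (cc * t * x) ^ 3 / 6) * Real.exp (-(g * t ^ 2 / 2))) t := by
    intro t
    have := ((largeint_deriv1 hg hq hgq t).const_mul (cc * x)).add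
      ((largeint_deriv3 hg hq hgq t).const_mul ((cc * x) ^ 3 / 6))
    exact this.congr_deriv (by ring)
  have hHl : Tendsto H atTop (𝓝 (cc * x * (-(q / (2 * g))) +
      (cc * x) ^ 3 / 6 * (-(q ^ 3 / (2 * g)) - q / g ^ 2))) :=
    ((largeint_lim1 hg hq).const_mul _).add ((largeint_lim3 hg hq hgq).const_mul _)
  have hpos : ∀ t ∈ Ioi (0 : ℝ), 0 ≤ qq t * (cc * t * x + (cc * t * x) ^ 3 / 6) *
      Real.exp (-(g * t ^ 2 / 2)) := by
    intro t ht
    have ht : 0 < t := ht
    have := largeint_qq_nonneg t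
    positivity
  have hint := integrableOn_Ioi_deriv_of_nonneg' (a := 0) (fun t _ => hHd t) hpos hHl
  have hval := integral_Ioi_of_hasDerivAt_of_nonneg' (a := 0) (fun t _ => hHd t) hpos hHl
  have hmono : ∫ t in Ioi (0 : ℝ), qq t * (cc * t * x + (cc * t * x) ^ 3 / 6) *
      Real.exp (-(g * t ^ 2 / 2)) ≤
      ∫ t in Ioi (0 : ℝ), qq t * Real.sinh (cc * t * x) * Real.exp (-(g * t ^ 2 / 2)) := by
    refine setIntegral_mono_on hint (large_int_integrable hg.le) measurableSet_Ioi ?_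
    intro t ht
    have ht : 0 < t := ht
    refine mul_le_mul_of_nonneg_right ?_ (Real.exp_pos _).le
    refine mul_le_mul_of_nonneg_left ?_ (largeint_qq_nonneg t)
    exact largeint_sinh (by positivity)
  refine lt_of_lt_of_le ?_ hmono
  rw [hval]
  have hH0 : H 0 = cc * x * (-(1 / (2 * g))) + (cc * x) ^ 3 / 6 * (-(1 / g ^ 2)) := by
    have e0 : Real.exp (-(g * 0 ^ 2 / 2)) = 1 := by simp
    simp only [hH, largeintH1, largeintH3, qq, mm_zero, zero_div, e0]
    ring
  rw [hH0]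
  -- now algebra
  have hg' : cc ^ 2 = 4 / 5 * g := by
    rw [hcsq, hgdef]; field_simp; norm_num
  have hq1 : q < 74624 / 100000 := by
    have h1 : q ^ 2 < (74624 / 100000) ^ 2 := by
      rw [hq2, hgdef]
      have h2 := Real.pi_lt_d4
      rw [div_lt_iff₀ (by positivity)]
      have h3 : (5 : ℝ) / (2 * π) > 5 / (2 * 3.1416) := by
        apply div_lt_div_of_pos_left (by norm_num) (by positivity)
        linarith
      norm_num at h3 ⊢
      linarith
    exact lt_of_pow_lt_pow_left₀ 2 (by norm_num) h1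
  have e1 : cc * x * -(q / (2 * g)) + (cc * x) ^ 3 / 6 * (-(q ^ 3 / (2 * g)) - q / g ^ 2) -
      (cc * x * -(1 / (2 * g)) + (cc * x) ^ 3 / 6 * -(1 / g ^ 2)) =
      ((4 / 5) * (1 - q) * x + (8 / 75) * (1 - q) ^ 2 * (2 + q) * x ^ 3) / (2 * cc) := by
    rw [eq_div_iff (by positivity)]
    have e2 : (cc * x * -(q / (2 * g)) + (cc * x) ^ 3 / 6 * (-(q ^ 3 / (2 * g)) - q / g ^ 2) -
      (cc * x * -(1 / (2 * g)) + (cc * x) ^ 3 / 6 * -(1 / g ^ 2))) * (2 * cc) =
      cc ^ 2 * x * ((1 - q) / g) + (cc ^ 2) ^ 2 * x ^ 3 / 3 * ((1 - q) / g ^ 2 - q ^ 3 / (2 * g)) := by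
      ring
    rw [e2, hg']
    have e3 : (4 / 5 * g) * x * ((1 - q) / g) = 4 / 5 * (1 - q) * x := by field_simp
    have e4 : (4 / 5 * g) ^ 2 * x ^ 3 / 3 * ((1 - q) / g ^ 2 - q ^ 3 / (2 * g)) =
        x ^ 3 * (16 / 75 * (1 - q) - 8 / 75 * (q ^ 2 * g) * q) := by
      field_simp
      ring
    have e5 : q ^ 2 * g = 1 - q ^ 2 := by linear_combination hgq
    rw [e3, e4, e5]
    ring
  rw [e1, div_lt_div_iff_of_pos_right (by positivity)]
  have hx0 : 0 < x := by linarith
  have a1 : 203 / 1000 ≤ 4 / 5 * (1 - q) := by linarith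
  have a2 : 188 / 10000 ≤ 8 / 75 * (1 - q) ^ 2 * (2 + q) := by
    have b1 : (25376 / 100000) ^ 2 * (274624 / 100000 : ℝ) ≤ (1 - q) ^ 2 * (2 + q) := by
      nlinarith [mul_pos hq hq, sq_nonneg (q - 74624 / 100000)]
    nlinarith
  have a3 : 203 / 1000 * x + 188 / 10000 * x ^ 3 ≤
      4 / 5 * (1 - q) * x + 8 / 75 * (1 - q) ^ 2 * (2 + q) * x ^ 3 :=
    add_le_add (mul_le_mul_of_nonneg_right a1 hx0.le)
      (mul_le_mul_of_nonneg_right a2 (by positivity))
  refine lt_of_lt_of_le ?_ a3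
  rw [show (1 : ℝ) - 1 / x = (x - 1) / x by field_simp, div_lt_iff₀ hx0]
  nlinarith [sq_nonneg (x ^ 2 - 27 / 10), sq_nonneg (x - 16424 / 10000)]

end Pool.Agent.CubeWidth
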