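import Pool.Agent.Lib.MP_e8b094_gt.Defs2

/-!
The sharp Khinchine inequality of Szarek (proof of Latala and Oleszkiewicz).
-/

namespace Pool.Agent.CubeWidth

open MeasureTheory Real Set Filter Topology

/-- flip the `i`-th sign. -/
def szarekFlip {n : ℕ} (i : Fin n) (e : Fin n → Bool) : Fin n → Bool :=
  Function.update e i (!(e i))

/-- the energy. -/
noncomputable def szarekD {n : ℕ} (f : (Fin n → Bool) → ℝ) : ℝ :=
  ∑ i, EE (fun e => (f e - f (szarekFlip i e)) ^ 2)

lemma szarek_D_nonneg {n : ℕ} (f : (Fin n → Bool) → ℝ) : 0 ≤ szarekD f :=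
  Finset.sum_nonneg fun _ _ => EE_nonneg fun _ => sq_nonneg _

lemma szarek_cons {n : ℕ} (f : (Fin (n + 1) → Bool) → ℝ) :
    EE f = (EE (fun e : Fin n → Bool => f (Fin.cons true e)) +
      EE (fun e : Fin n → Bool => f (Fin.cons false e))) / 2 := by
  unfold EE
  have h : ∑ e, f e = ∑ e : Fin n → Bool, f (Fin.cons true e) +
      ∑ e : Fin n → Bool, f (Fin.cons false e) := by
    rw [← (Fin.consEquiv (fun _ : Fin (n + 1) => Bool)).sum_comp, Fintype.sum_prod_type]
    simp [Fin.consEquiv]
  rw [h]
  simp only [Fintype.card_fin, pow_succ]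
  field_simp

/-- even part of `f` in the first sign -/
noncomputable def szarekA {n : ℕ} (f : (Fin (n + 1) → Bool) → ℝ) (e : Fin n → Bool) : ℝ :=
  (f (Fin.cons true e) + f (Fin.cons false e)) / 2

/-- odd part of `f` in the first sign -/
noncomputable def szarekB {n : ℕ} (f : (Fin (n + 1) → Bool) → ℝ) (e : Fin n → Bool) : ℝ :=
  (f (Fin.cons true e) - f (Fin.cons false e)) / 2

lemma szarek_EE_A {n : ℕ} (f : (Fin (n + 1) → Bool) → ℝ) : EE f = EE (szarekA f) := by
  rw [szarek_cons]
  unfold szarekA
  rw [EE_div, EE_add]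

lemma szarek_EE_sq {n : ℕ} (f : (Fin (n + 1) → Bool) → ℝ) :
    EE (fun e => f e ^ 2) = EE (fun e => szarekA f e ^ 2) + EE (fun e => szarekB f e ^ 2) := by
  rw [szarek_cons, ← EE_add, ← EE_add, ← EE_div]
  apply EE_congr
  intro e
  unfold szarekA szarekB
  ring

lemma szarek_flip_zero {n : ℕ} (b : Bool) (e : Fin n → Bool) :
    szarekFlip 0 (Fin.cons b e : Fin (n + 1) → Bool) = Fin.cons (!b) e := by
  unfold szarekFlip
  rw [Fin.cons_zero, Fin.update_cons_zero]

lemma szarek_flip_succ {n : ℕ} (b : Bool) (e : Fin n → Bool) (j : Fin n) :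
    szarekFlip j.succ (Fin.cons b e : Fin (n + 1) → Bool) = Fin.cons b (szarekFlip j e) := by
  unfold szarekFlip
  rw [Fin.cons_succ, Fin.cons_update]

lemma szarek_D_succ {n : ℕ} (f : (Fin (n + 1) → Bool) → ℝ) :
    szarekD f = szarekD (szarekA f) + szarekD (szarekB f) +
      4 * EE (fun e => szarekB f e ^ 2) := by
  unfold szarekD
  rw [Fin.sum_univ_succ]
  have h0 : EE (fun e => (f e - f (szarekFlip 0 e)) ^ 2) = 4 * EE (fun e => szarekB f e ^ 2) := by
    rw [szarek_cons, ← EE_add, ← EE_div, ← EE_mul_left]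
    apply EE_congr
    intro e
    rw [szarek_flip_zero, szarek_flip_zero]
    unfold szarekB
    simp only [Bool.not_true, Bool.not_false]
    ring
  have h1 : ∀ j : Fin n, EE (fun e => (f e - f (szarekFlip j.succ e)) ^ 2) =
      EE (fun e => (szarekA f e - szarekA f (szarekFlip j e)) ^ 2) +
      EE (fun e => (szarekB f e - szarekB f (szarekFlip j e)) ^ 2) := by
    intro j
    rw [szarek_cons, ← EE_add, ← EE_add, ← EE_div]
    apply EE_congr
    intro e
    rw [szarek_flip_succ, szarek_flip_succ]
    unfold szarekA szarekB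
    ring
  rw [h0, Finset.sum_congr rfl (fun j _ => h1 j), Finset.sum_add_distrib]
  ring

lemma szarek_zero (f : (Fin 0 → Bool) → ℝ) : EE f = f default := by
  unfold EE
  rw [Fintype.sum_unique, Fintype.card_fin, pow_zero, div_one]
  exact congrArg f (Subsingleton.elim _ _)

/-- the Poincare inequality on the cube -/
lemma szarek_poinc {n : ℕ} (f : (Fin n → Bool) → ℝ) :
    4 * (EE (fun e => f e ^ 2) - EE f ^ 2) ≤ szarekD f := by
  induction n with
  | zero =>
    rw [szarek_zero, szarek_zero]
    have := szarek_D_nonneg f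
    linarith
  | succ n ih =>
    have h1 := ih (szarekA f)
    have h2 := szarek_D_nonneg (szarekB f)
    rw [szarek_EE_sq, szarek_EE_A, szarek_D_succ]
    linarith

/-- the Poincare inequality on the cube for even functions -/
lemma szarek_poinc_even {n : ℕ} (f : (Fin n → Bool) → ℝ) (hf : ∀ e, f (fun i => !(e i)) = f e) :
    8 * (EE (fun e => f e ^ 2) - EE f ^ 2) ≤ szarekD f := by
  induction n with
  | zero =>
    rw [szarek_zero, szarek_zero]
    have := szarek_D_nonneg f
    linarith
  | succ n ih =>
    have hc : ∀ (b : Bool) (e : Fin n → Bool),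
        f (Fin.cons b (fun i => !(e i))) = f (Fin.cons (!b) e) := by
      intro b e
      have h := hf (Fin.cons (!b) e)
      rw [← h]
      congr 1
      funext i
      refine Fin.cases ?_ (fun j => ?_) i
      · simp
      · simp
    have hA : ∀ e, szarekA f (fun i => !(e i)) = szarekA f e := by
      intro e
      unfold szarekA
      rw [hc, hc]
      simp only [Bool.not_true, Bool.not_false]
      ring
    have hB : ∀ e, szarekB f (fun i => !(e i)) = - szarekB f e := by
      intro e
      unfold szarekB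
      rw [hc, hc]
      simp only [Bool.not_true, Bool.not_false]
      ring
    have hEB : EE (szarekB f) = 0 := by
      have h := EE_flip (szarekB f)
      rw [EE_congr hB, EE_neg] at h
      linarith
    have h1 := ih (szarekA f) hA
    have h2 := szarek_poinc (szarekB f)
    rw [hEB] at h2
    rw [szarek_EE_sq, szarek_EE_A, szarek_D_succ]
    linarith

lemma szarek_XX_flip {n : ℕ} (u : Fin n → ℝ) (i : Fin n) (e : Fin n → Bool) :
    XX u (szarekFlip i e) = XX u e - 2 * (u i * sg (e i)) := by
  unfold szarekFlip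
  rw [XX_update, XX_erase u e i, sg_not]
  ring

theorem szarek {n : ℕ} (u : Fin n → ℝ) (hu : ∑ i, u i ^ 2 = 1) :
    1 / √2 ≤ EE (fun e => |XX u e|) := by
  set f : (Fin n → Bool) → ℝ := fun e => |XX u e| with hf
  have heven : ∀ e, f (fun i => !(e i)) = f e := by
    intro e
    simp only [hf]
    rw [XX_not, abs_neg]
  have h1 := szarek_poinc_even f heven
  have hsq : EE (fun e => f e ^ 2) = 1 := by
    simp only [hf, sq_abs]
    rw [EE_XX_sq, hu]
  have hpt : ∀ e, ∑ i, (f e - f (szarekFlip i e)) ≤ 2 * f e := by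
    intro e
    rw [Finset.sum_sub_distrib, Finset.sum_const, Finset.card_univ, Fintype.card_fin, nsmul_eq_mul]
    have h2 : ∑ i, XX u (szarekFlip i e) = (n - 2) * XX u e := by
      simp only [szarek_XX_flip]
      rw [Finset.sum_sub_distrib, Finset.sum_const, Finset.card_univ, Fintype.card_fin,
        nsmul_eq_mul, ← Finset.mul_sum]
      unfold XX
      ring
    have h3 : |((n : ℝ) - 2) * XX u e| ≤ ∑ i, f (szarekFlip i e) := by
      rw [← h2]
      exact Finset.abs_sum_le_sum_abs _ _
    have h4 : ((n : ℝ) - 2) * |XX u e| ≤ |((n : ℝ) - 2) * XX u e| := by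
      rw [abs_mul]
      exact mul_le_mul_of_nonneg_right (le_abs_self _) (abs_nonneg _)
    have h5 : f e = |XX u e| := rfl
    rw [h5]
    linarith
  have hD : szarekD f ≤ 4 := by
    have h2 : ∀ i, EE (fun e => (f e - f (szarekFlip i e)) ^ 2) =
        2 * EE (fun e => f e * (f e - f (szarekFlip i e))) := by
      intro i
      have h3 : EE (fun e => f (szarekFlip i e) ^ 2) = EE (fun e => f e ^ 2) :=
        EE_flip_one i (fun e => f e ^ 2)
      have h4 : EE (fun e => (f e - f (szarekFlip i e)) ^ 2) =
          EE (fun e => f (szarekFlip i e) ^ 2) + EE (fun e => f e ^ 2)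
            - 2 * EE (fun e => f e * f (szarekFlip i e)) := by
        rw [← EE_add, ← EE_mul_left, ← EE_sub]
        apply EE_congr
        intro e
        ring
      have h5 : EE (fun e => f e * (f e - f (szarekFlip i e))) =
          EE (fun e => f e ^ 2) - EE (fun e => f e * f (szarekFlip i e)) := by
        rw [← EE_sub]
        apply EE_congr
        intro e
        ring
      rw [h4, h5, h3]
      ring
    unfold szarekD
    rw [Finset.sum_congr rfl (fun i _ => h2 i), ← Finset.mul_sum, ← EE_sum]
    have h6 : EE (fun e => ∑ i, f e * (f e - f (szarekFlip i e))) ≤ EE (fun e => 2 * f e ^ 2) := by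
      apply EE_mono
      intro e
      rw [← Finset.mul_sum]
      have h7 : 0 ≤ f e := abs_nonneg _
      have h8 := mul_le_mul_of_nonneg_left (hpt e) h7
      calc _ ≤ f e * (2 * f e) := h8
        _ = 2 * f e ^ 2 := by ring
    rw [EE_mul_left, hsq] at h6
    linarith
  have hE : 1 / 2 ≤ EE f ^ 2 := by
    rw [hsq] at h1
    linarith
  have hpos : 0 ≤ EE f := EE_nonneg fun e => abs_nonneg _
  have h9 : (1 / √2) ^ 2 ≤ EE f ^ 2 := by
    rw [div_pow, Real.sq_sqrt (by norm_num)]
    linarith
  exact (sq_le_sq₀ (by positivity) hpos).1 h9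

end Pool.Agent.CubeWidth
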