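import Pool.Agent.Lib.MP_e8b094_gt.Defs2
import Pool.Agent.Lib.MP_e8b094_gt.EBasic
import Pool.Agent.Lib.MP_e8b094_gt.Key
import Pool.Agent.Lib.MP_e8b094_gt.Polya
import Pool.Agent.Lib.MP_e8b094_gt.Szarek
import Pool.Agent.Lib.MP_e8b094_gt.Jensen

/-!
Pointwise comparison of `F_u(s)` with the extremal function `T(s)`.
-/

namespace Pool.Agent.CubeWidth

open MeasureTheory Real Set Filter Topology

private lemma lowerPt_aa_le {x : ℝ} (hx : 0 ≤ x) : aa x ≤ x ^ 2 / π := by
  rcases hx.eq_or_lt with h | h
  · rw [← h, aa_zero]; simp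
  · have h1 := polya h
    have h2 := Real.log_lt_log (Real.exp_pos _) h1
    rw [Real.log_exp] at h2
    unfold aa
    have e : -(2 * x ^ 2 / π) = -2 * (x ^ 2 / π) := by ring
    rw [e] at h2
    linarith

private lemma lowerPt_exp (y : ℝ) : Real.exp (-(2 * psi y)) = (1 - mm y) ^ 2 := by
  have h1 : 0 < 1 - mm y := by linarith [mm_lt_one y]
  unfold psi
  have e : -(2 * -Real.log (1 - mm y)) = Real.log (1 - mm y) + Real.log (1 - mm y) := by ring
  rw [e, Real.exp_add, Real.exp_log h1]
  ring

private lemma lowerPt_TT (s : ℝ) : TT s = (1 / √2) / 2 * (1 - mm (s / √2)) ^ 2 := by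
  unfold TT qq
  have h : (√2 : ℝ) ^ 2 = 2 := Real.sq_sqrt (by norm_num)
  have h0 : (√2 : ℝ) ≠ 0 := by positivity
  field_simp
  nlinarith [h]

theorem lower_pt_strict {n : ℕ} (u : Fin n → ℝ) (hu0 : ∀ i, 0 ≤ u i) (hu : ∑ i, u i ^ 2 = 1)
    (hne : ¬ ∃ i j, i ≠ j ∧ u i = 1 / √2 ∧ u j = 1 / √2) {s : ℝ} (hs : 0 < s) :
    TT s < FF u s := by
  have h2 : (√2 : ℝ) ^ 2 = 2 := Real.sq_sqrt (by norm_num)
  have h2p : (0 : ℝ) < √2 := by positivity
  have hm1 : 0 < 1 - mm (s / √2) := by linarith [mm_lt_one (s / √2)]
  rw [lowerPt_TT, ← lowerPt_exp]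
  by_cases hall : ∀ i, u i ≤ 1 / √2
  · -- all entries at most `1/√2`
    have hy : 0 < s / √2 := by positivity
    have hk : (0 : ℝ) < 1 / √2 := by positivity
    have hGG := GG_ge_exp u (fun i => s * u i) (1 / √2) hu0
      (fun i => mul_nonneg hs.le (hu0 i)) hk (szarek u hu)
    refine lt_of_lt_of_le ?_ hGG
    refine mul_lt_mul_of_pos_left ?_ (by positivity)
    apply Real.exp_lt_exp.2
    rw [neg_lt_neg_iff]
    have hth : ∀ i, s * u i / (s / √2) = u i / (1 / √2) := by
      intro i
      field_simp
    have hle : ∀ i, aa (s * u i) + bb (s * u i) * u i / (1 / √2) ≤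
        (2 * u i ^ 2) * psi (s / √2) := by
      intro i
      have h := key_small (x := s * u i) (y := s / √2) (mul_nonneg hs.le (hu0 i)) hy (by
        have := mul_le_mul_of_nonneg_left (hall i) hs.le
        calc s * u i ≤ s * (1 / √2) := this
          _ = s / √2 := by ring)
      rw [hth] at h
      have e1 : (u i / (1 / √2)) ^ 2 = 2 * u i ^ 2 := by
        rw [div_pow, div_pow, h2]; field_simp
      rw [e1] at h
      calc _ = aa (s * u i) + u i / (1 / √2) * bb (s * u i) := by ring
        _ ≤ _ := h
    have hlt : ∃ i, aa (s * u i) + bb (s * u i) * u i / (1 / √2) <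
        (2 * u i ^ 2) * psi (s / √2) := by
      by_contra hcon
      push Not at hcon
      -- then every entry is `0` or `1/√2`
      have h01 : ∀ i, u i = 0 ∨ u i = 1 / √2 := by
        intro i
        by_contra h
        push Not at h
        have hpos : 0 < u i := lt_of_le_of_ne (hu0 i) (Ne.symm h.1)
        have hlt : u i < 1 / √2 := lt_of_le_of_ne (hall i) h.2
        have h' := key_small_strict (x := s * u i) (y := s / √2) (mul_pos hs hpos) (by
          have := mul_lt_mul_of_pos_left hlt hs
          calc s * u i < s * (1 / √2) := this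
            _ = s / √2 := by ring)
        rw [hth] at h'
        have e1 : (u i / (1 / √2)) ^ 2 = 2 * u i ^ 2 := by
          rw [div_pow, div_pow, h2]; field_simp
        rw [e1] at h'
        have h'' := hcon i
        have e2 : aa (s * u i) + bb (s * u i) * u i / (1 / √2) =
          aa (s * u i) + u i / (1 / √2) * bb (s * u i) := by ring
        rw [e2] at h''
        linarith
      -- there is a nonzero entry
      obtain ⟨i, hi⟩ : ∃ i, u i ≠ 0 := by
        by_contra h
        push Not at h
        simp [h] at hu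
      have hi' : u i = 1 / √2 := (h01 i).resolve_left hi
      obtain ⟨j, hij, hj⟩ : ∃ j, j ≠ i ∧ u j ≠ 0 := by
        by_contra h
        push Not at h
        have : ∑ j, u j ^ 2 = u i ^ 2 := by
          refine Finset.sum_eq_single i (fun j _ hj => ?_) (fun h => absurd (Finset.mem_univ i) h)
          rw [h j hj]; simp
        rw [hu, hi', div_pow, h2] at this
        norm_num at this
      exact hne ⟨i, j, hij.symm, hi', (h01 j).resolve_left hj⟩
    obtain ⟨i, hi⟩ := hlt
    calc ∑ i, (aa (s * u i) + bb (s * u i) * u i / (1 / √2))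
        < ∑ i, (2 * u i ^ 2) * psi (s / √2) :=
          Finset.sum_lt_sum (fun i _ => hle i) ⟨i, Finset.mem_univ _, hi⟩
      _ = 2 * psi (s / √2) := by
          rw [← Finset.sum_mul, ← Finset.mul_sum, hu, mul_one]
  · -- a large entry
    push Not at hall
    obtain ⟨i0, hi0⟩ := hall
    set a : ℝ := u i0 with ha
    have hap : 0 < a := lt_trans (by positivity) hi0
    have ha2 : 1 / 2 < a ^ 2 := by
      have : (1 / √2) ^ 2 < a ^ 2 := by
        exact pow_lt_pow_left₀ hi0 (by positivity) (by norm_num)
      rwa [div_pow, h2, one_pow] at this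
    have hsum : a ^ 2 + ∑ j ∈ Finset.univ.erase i0, u j ^ 2 = 1 := by
      rw [← hu, ← Finset.add_sum_erase _ _ (Finset.mem_univ i0)]
    have hrest : 0 ≤ ∑ j ∈ Finset.univ.erase i0, u j ^ 2 :=
      Finset.sum_nonneg fun j _ => sq_nonneg _
    set b : ℝ := √(1 - a ^ 2) with hb
    have hb2 : b ^ 2 = 1 - a ^ 2 := Real.sq_sqrt (by linarith)
    have hb0 : 0 ≤ b := Real.sqrt_nonneg _
    have hab : b ≤ a := by
      refine le_of_sq_le_sq ?_ hap.le
      rw [hb2]; linarith
    have hkey := key_big (a := a) (b := b) (s := s) hap hb0 hab (by rw [hb2]; ring) hs.le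
    have hba : b / a ≤ 1 := (div_le_one hap).2 hab
    have hba0 : 0 ≤ b / a := div_nonneg hb0 hap.le
    have hGG := GG_ge_exp u (fun i => s * u i) a hu0
      (fun i => mul_nonneg hs.le (hu0 i)) hap (by
        have := abs_le_EE u i0
        rwa [abs_of_pos hap] at this)
    have hterm : ∀ j ∈ Finset.univ.erase i0, aa (s * u j) + bb (s * u j) * u j / a ≤
        (b / a) * (u j ^ 2 / b ^ 2) * psi (s * b) + (1 - b / a) * (s ^ 2 * u j ^ 2 / π) := by
      intro j hj
      have huj : u j ^ 2 ≤ b ^ 2 := by
        have := Finset.single_le_sum (f := fun j => u j ^ 2) (fun k _ => sq_nonneg _) hj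
        have h' : u j ^ 2 ≤ ∑ j ∈ Finset.univ.erase i0, u j ^ 2 := this
        rw [hb2]; linarith
      have huj' : u j ≤ b := le_of_sq_le_sq huj hb0
      have haa := lowerPt_aa_le (x := s * u j) (mul_nonneg hs.le (hu0 j))
      rcases hb0.eq_or_lt with h | h
      · have hj0 : u j = 0 := le_antisymm (by rw [h]; exact huj') (hu0 j)
        rw [hj0, ← h]
        simp [aa_zero]
      · have hks := key_small (x := s * u j) (y := s * b) (mul_nonneg hs.le (hu0 j))
          (mul_pos hs h) (mul_le_mul_of_nonneg_left huj' hs.le)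
        have e1 : s * u j / (s * b) = u j / b := by
          field_simp
        rw [e1] at hks
        have h3 := mul_le_mul_of_nonneg_left hks hba0
        have h4 := mul_le_mul_of_nonneg_left haa (by linarith : (0 : ℝ) ≤ 1 - b / a)
        have e2 : (b / a) * (aa (s * u j) + u j / b * bb (s * u j)) =
            (b / a) * aa (s * u j) + bb (s * u j) * u j / a := by
          field_simp
        have e3 : (b / a) * ((u j / b) ^ 2 * psi (s * b)) =
            (b / a) * (u j ^ 2 / b ^ 2) * psi (s * b) := by
          rw [div_pow]; ring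
        have e4 : (s * u j) ^ 2 / π = s ^ 2 * u j ^ 2 / π := by ring
        rw [e2, e3] at h3
        rw [e4] at h4
        linarith
    have hsumle : ∑ i, (aa (s * u i) + bb (s * u i) * u i / a) ≤ 2 * psi (s / √2) := by
      rw [← Finset.add_sum_erase _ _ (Finset.mem_univ i0)]
      have e0 : aa (s * u i0) + bb (s * u i0) * u i0 / a = psi (s * a) := by
        rw [← ha, mul_div_assoc, div_self hap.ne', mul_one, aa_add_bb]
      rw [e0]
      have h5 := Finset.sum_le_sum hterm
      have e5 : ∑ j ∈ Finset.univ.erase i0, ((b / a) * (u j ^ 2 / b ^ 2) * psi (s * b) +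
          (1 - b / a) * (s ^ 2 * u j ^ 2 / π)) =
          (b / a) * psi (s * b) + (1 - b / a) * (s ^ 2 * b ^ 2 / π) := by
        have e6 : ∑ j ∈ Finset.univ.erase i0, u j ^ 2 = b ^ 2 := by rw [hb2]; linarith
        rw [Finset.sum_add_distrib]
        congr 1
        · have : ∀ j ∈ Finset.univ.erase i0, (b / a) * (u j ^ 2 / b ^ 2) * psi (s * b) =
            u j ^ 2 * ((b / a) * (1 / b ^ 2) * psi (s * b)) := fun j _ => by ring
          rw [Finset.sum_congr rfl this, ← Finset.sum_mul, e6]
          rcases hb0.eq_or_lt with h | h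
          · rw [← h]; simp
          · field_simp
        · have : ∀ j ∈ Finset.univ.erase i0, (1 - b / a) * (s ^ 2 * u j ^ 2 / π) =
            u j ^ 2 * ((1 - b / a) * (s ^ 2 / π)) := fun j _ => by ring
          rw [Finset.sum_congr rfl this, ← Finset.sum_mul, e6]
          ring
      rw [e5] at h5
      linarith
    calc (1 / √2) / 2 * Real.exp (-(2 * psi (s / √2)))
        < a / 2 * Real.exp (-(2 * psi (s / √2))) := by
          refine mul_lt_mul_of_pos_right (by linarith) (Real.exp_pos _)
      _ ≤ a / 2 * Real.exp (-∑ i, (aa (s * u i) + bb (s * u i) * u i / a)) := by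
          refine mul_le_mul_of_nonneg_left ?_ (by positivity)
          apply Real.exp_le_exp.2
          linarith
      _ ≤ _ := hGG

end Pool.Agent.CubeWidth
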