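import Pool.Agent.Lib.MP_e8b094_gt.Defs2

/-!
Numerical lower bound of the integral `I(2/3, 7/8)` (piece P13a).
-/

namespace Pool.Agent.CubeWidth

open MeasureTheory Real Set Filter Topology

/-- truncated series of `(1-y)^(-13/4)`. -/
noncomputable def num1S (y : ℝ) : ℝ :=
  1 + (13/4) * y + (221/32) * y ^ 2 + (1547/128) * y ^ 3 + (38675/2048) * y ^ 4 + (224315/8192) * y ^ 5 + (2467465/65536) * y ^ 6 + (13042315/262144) * y ^ 7 + (534734915/8388608) * y ^ 8 + (2673674575/33554432) * y ^ 9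

/-- its derivative. -/
noncomputable def num1D (y : ℝ) : ℝ :=
  (13/4) + (221/16) * y + (4641/128) * y ^ 2 + (38675/512) * y ^ 3 + (1121575/8192) * y ^ 4 + (7402395/32768) * y ^ 5 + (91296205/262144) * y ^ 6 + (534734915/1048576) * y ^ 7 + (24063071175/33554432) * y ^ 8

/-- coefficients of the lower function as a polynomial in `exp (-(4/3) t)`. -/
noncomputable def num1q : ℕ → ℝ
  | 0 => (478281389109/68719476736)
  | 1 => (-967219181541/34359738368)
  | 2 => (4108331610825/68719476736)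
  | 3 => (-764298720471/8589934592)
  | 4 => (3404258954733/34359738368)
  | 5 => (-1430587948335/17179869184)
  | 6 => (1789854023685/34359738368)
  | 7 => (-201889748775/8589934592)
  | 8 => (496481805105/68719476736)
  | 9 => (-46521937605/34359738368)
  | 10 => (8021023725/68719476736)
  | _ => 0

lemma num1_hasDerivAt (y : ℝ) : HasDerivAt num1S (num1D y) y := by
  have h := fun (k : ℕ) => hasDerivAt_pow k y
  have h1 := hasDerivAt_id y
  have : HasDerivAt (fun y : ℝ => 1 + (13/4) * y + (221/32) * y ^ 2 + (1547/128) * y ^ 3 + (38675/2048) * y ^ 4 + (224315/8192) * y ^ 5 + (2467465/65536) * y ^ 6 + (13042315/262144) * y ^ 7 + (534734915/8388608) * y ^ 8 + (2673674575/33554432) * y ^ 9) (num1D y) y := by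
    have e := ((((((((((hasDerivAt_const y (1:ℝ)).add (h1.const_mul (13/4))).add
      ((h 2).const_mul (221/32))).add ((h 3).const_mul (1547/128))).add
      ((h 4).const_mul (38675/2048))).add ((h 5).const_mul (224315/8192))).add
      ((h 6).const_mul (2467465/65536))).add ((h 7).const_mul (13042315/262144))).add
      ((h 8).const_mul (534734915/8388608))).add ((h 9).const_mul (2673674575/33554432)))
    refine (e.congr_deriv ?_).congr_of_eventuallyEq (Eventually.of_forall fun z => ?_)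
    · unfold num1D
      push_cast
      ring
    · simp only [Pi.add_apply, id]
  exact this

lemma num1_ode (y : ℝ) : (1 - y) * num1D y - 13 / 4 * num1S y = - ((131010054175/134217728) * y ^ 9) := by
  unfold num1D num1S
  ring

lemma num1_le {y : ℝ} (hy : 0 ≤ y) (hy1 : y < 1) : num1S y * (1 - y) ^ (13 / 4 : ℝ) ≤ 1 := by
  have hd : ∀ z : ℝ, z < 1 → HasDerivAt (fun z => num1S z * (1 - z) ^ (13 / 4 : ℝ))
      (- ((131010054175/134217728) * z ^ 9) * (1 - z) ^ (9 / 4 : ℝ)) z := by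
    intro z hz
    have h1 : HasDerivAt (fun z : ℝ => 1 - z) (-1) z := by
      simpa using (hasDerivAt_id z).const_sub 1
    have hz' : (1 : ℝ) - z ≠ 0 := by linarith
    have h2 := h1.rpow_const (p := (13 / 4 : ℝ)) (Or.inl hz')
    have h3 := (num1_hasDerivAt z).mul h2
    refine h3.congr_deriv ?_
    have e1 : (13 / 4 : ℝ) - 1 = 9 / 4 := by norm_num
    have e2 : (1 - z) ^ (13 / 4 : ℝ) = (1 - z) ^ (9 / 4 : ℝ) * (1 - z) := by
      rw [← Real.rpow_add_one hz']; norm_num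
    rw [e1, e2, ← num1_ode z]
    ring
  have hanti : AntitoneOn (fun z => num1S z * (1 - z) ^ (13 / 4 : ℝ)) (Ico 0 1) := by
    apply antitoneOn_of_deriv_nonpos (convex_Ico 0 1)
    · intro z hz
      exact (hd z hz.2).continuousAt.continuousWithinAt
    · intro z hz
      rw [interior_Ico] at hz
      exact (hd z hz.2).differentiableAt.differentiableWithinAt
    · intro z hz
      rw [interior_Ico] at hz
      rw [(hd z hz.2).deriv]
      have h1 : 0 ≤ (1 - z) ^ (9 / 4 : ℝ) := Real.rpow_nonneg (by linarith [hz.2]) _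
      have h2 : 0 ≤ z ^ 9 := pow_nonneg hz.1.le _
      have h3 : 0 ≤ (131010054175/134217728) * z ^ 9 := by positivity
      nlinarith [mul_nonneg h3 h1]
  have h0 := hanti (left_mem_Ico.2 one_pos) (show y ∈ Ico (0:ℝ) 1 from ⟨hy, hy1⟩) hy
  simpa [num1S] using h0

/-- the integrand. -/
noncomputable def num1F (t : ℝ) : ℝ := Real.exp (-((7 / 8) * t)) *
    ((1 / (2 / 3 : ℝ)) * (Real.tanh ((2 / 3) * t) * Real.cosh ((2 / 3) * t) ^ (-(1 / (2 / 3 : ℝ) ^ 2))))

lemma num1_F_eq (t : ℝ) : num1F t = 3 / 2 * Real.exp (-(19 / 8 * t)) *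
    (((1 - Real.exp (-(4 / 3 * t))) / 2) *
      (1 - (1 - Real.exp (-(4 / 3 * t))) / 2) ^ (-(13 / 4) : ℝ)) := by
  unfold num1F
  set w := Real.exp (-(2 / 3 * t)) with hw
  have hw0 : 0 < w := Real.exp_pos _
  have hz : Real.exp (-(4 / 3 * t)) = w ^ 2 := by
    rw [hw, ← Real.exp_nat_mul]; congr 1; push_cast; ring
  have hE : Real.exp (2 / 3 * t) = 1 / w := by
    rw [hw, Real.exp_neg]; simp
  have hcosh : Real.cosh (2 / 3 * t) = (1 + w ^ 2) / 2 * w⁻¹ := by
    rw [Real.cosh_eq, hE, ← hw]; field_simp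
  have hsinh : Real.sinh (2 / 3 * t) = (1 - w ^ 2) / 2 * w⁻¹ := by
    rw [Real.sinh_eq, hE, ← hw]; field_simp
  have htanh : Real.tanh (2 / 3 * t) = ((1 - w ^ 2) / 2) / ((1 + w ^ 2) / 2) := by
    rw [Real.tanh_eq_sinh_div_cosh, hcosh, hsinh]; field_simp
  rw [hz, htanh, hcosh]
  have hc : 1 - (1 - w ^ 2) / 2 = (1 + w ^ 2) / 2 := by ring
  rw [hc]
  have hp : 0 < (1 + w ^ 2) / 2 := by positivity
  have e1 : (-(1 / (2 / 3 : ℝ) ^ 2)) = -(9 / 4) := by norm_num
  rw [e1, Real.mul_rpow hp.le (inv_nonneg.2 hw0.le)]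
  have e2 : w⁻¹ ^ (-(9 / 4) : ℝ) = Real.exp (-(3 / 2 * t)) := by
    rw [Real.inv_rpow hw0.le, Real.rpow_neg hw0.le, inv_inv, hw, ← Real.exp_mul]
    congr 1; ring
  have e3 : ((1 + w ^ 2) / 2) ^ (-(13 / 4) : ℝ) = ((1 + w ^ 2) / 2) ^ (-(9 / 4) : ℝ) / ((1 + w ^ 2) / 2) := by
    rw [← Real.rpow_sub_one hp.ne']; norm_num
  have e4 : Real.exp (-(19 / 8 * t)) = Real.exp (-((7 / 8) * t)) * Real.exp (-(3 / 2 * t)) := by
    rw [← Real.exp_add]; congr 1; ring
  rw [e2, e3, e4]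
  ring

lemma num1_ge {t : ℝ} (ht : 0 < t) : 3 / 2 * Real.exp (-(19 / 8 * t)) *
    (((1 - Real.exp (-(4 / 3 * t))) / 2) * num1S ((1 - Real.exp (-(4 / 3 * t))) / 2)) ≤ num1F t := by
  rw [num1_F_eq]
  have hz0 : 0 < Real.exp (-(4 / 3 * t)) := Real.exp_pos _
  have hz1 : Real.exp (-(4 / 3 * t)) < 1 := by
    rw [← Real.exp_zero]; exact Real.exp_lt_exp.2 (by linarith)
  set y := (1 - Real.exp (-(4 / 3 * t))) / 2 with hy
  have hy0 : 0 ≤ y := by rw [hy]; linarith
  have hy1 : y < 1 := by rw [hy]; linarith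
  have h1 := num1_le hy0 hy1
  have hp : 0 < (1 - y) ^ (13 / 4 : ℝ) := Real.rpow_pos_of_pos (by linarith) _
  have h2 : num1S y ≤ (1 - y) ^ (-(13 / 4) : ℝ) := by
    rw [Real.rpow_neg (by linarith), ← one_div, le_div_iff₀ hp]
    exact h1
  exact mul_le_mul_of_nonneg_left (mul_le_mul_of_nonneg_left h2 hy0) (by positivity)

lemma num1_expand (t : ℝ) : 3 / 2 * Real.exp (-(19 / 8 * t)) *
    (((1 - Real.exp (-(4 / 3 * t))) / 2) * num1S ((1 - Real.exp (-(4 / 3 * t))) / 2)) =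
    ∑ j ∈ Finset.range 11, num1q j * Real.exp (-(19 / 8 + 4 / 3 * (j : ℝ)) * t) := by
  have h : ∀ j : ℕ, Real.exp (-(19 / 8 + 4 / 3 * (j : ℝ)) * t) =
      Real.exp (-(19 / 8 * t)) * Real.exp (-(4 / 3 * t)) ^ j := by
    intro j
    rw [← Real.exp_nat_mul, ← Real.exp_add]; congr 1; ring
  simp only [h]
  generalize Real.exp (-(19 / 8 * t)) = E
  generalize Real.exp (-(4 / 3 * t)) = z
  simp only [Finset.sum_range_succ, Finset.sum_range_zero, num1q, num1S]
  ring

lemma num1_int_exp (j : ℕ) :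
    IntegrableOn (fun t : ℝ => num1q j * Real.exp (-(19 / 8 + 4 / 3 * (j : ℝ)) * t)) (Ioi 0) ∧
    ∫ t in Ioi (0 : ℝ), num1q j * Real.exp (-(19 / 8 + 4 / 3 * (j : ℝ)) * t) =
      num1q j * (1 / (19 / 8 + 4 / 3 * (j : ℝ))) := by
  have hb : (0 : ℝ) < 19 / 8 + 4 / 3 * (j : ℝ) := by positivity
  constructor
  · exact (exp_neg_integrableOn_Ioi 0 hb).const_mul _
  · rw [integral_const_mul]
    congr 1
    have := integral_exp_mul_Ioi (a := -(19 / 8 + 4 / 3 * (j : ℝ))) (by linarith) 0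
    rw [this, mul_zero, Real.exp_zero, neg_div_neg_eq]

lemma num1_integrable : IntegrableOn num1F (Ioi 0) := by
  have hb : IntegrableOn (fun t : ℝ => 3 / 2 * Real.exp (-(7 / 8) * t)) (Ioi 0) :=
    (exp_neg_integrableOn_Ioi 0 (by norm_num : (0:ℝ) < 7 / 8)).const_mul _
  refine Integrable.mono' hb ?_ ?_
  · apply Continuous.aestronglyMeasurable
    unfold num1F
    refine Continuous.mul (by fun_prop) (continuous_const.mul (Continuous.mul ?_ ?_))
    · simp only [Real.tanh_eq_sinh_div_cosh]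
      exact (Real.continuous_sinh.comp (by fun_prop)).div (Real.continuous_cosh.comp (by fun_prop))
        (fun x => (Real.cosh_pos _).ne')
    · exact (Real.continuous_cosh.comp (by fun_prop)).rpow_const
        (fun x => Or.inl (Real.cosh_pos _).ne')
  · refine (ae_restrict_mem measurableSet_Ioi).mono fun t ht => ?_
    have ht' : (0 : ℝ) < t := ht
    unfold num1F
    have h1 : 0 ≤ Real.tanh (2 / 3 * t) := by
      rw [Real.tanh_eq_sinh_div_cosh]
      exact div_nonneg (Real.sinh_nonneg_iff.2 (by positivity)) (Real.cosh_pos _).le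
    have h2 : Real.tanh (2 / 3 * t) ≤ 1 := (Real.tanh_lt_one _).le
    have h3 : Real.cosh (2 / 3 * t) ^ (-(1 / (2 / 3 : ℝ) ^ 2)) ≤ 1 :=
      Real.rpow_le_one_of_one_le_of_nonpos (Real.one_le_cosh _) (by norm_num)
    have h4 : 0 ≤ Real.cosh (2 / 3 * t) ^ (-(1 / (2 / 3 : ℝ) ^ 2)) :=
      Real.rpow_nonneg (Real.cosh_pos _).le _
    have h5 : Real.exp (-(7 / 8) * t) = Real.exp (-((7 / 8) * t)) := by congr 1; ring
    rw [Real.norm_eq_abs, abs_of_nonneg (by positivity), h5]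
    have h6 : Real.tanh (2 / 3 * t) * Real.cosh (2 / 3 * t) ^ (-(1 / (2 / 3 : ℝ) ^ 2)) ≤ 1 :=
      mul_le_one₀ h2 h4 h3
    have h7 : (1 : ℝ) / (2 / 3) = 3 / 2 := by norm_num
    rw [h7]
    have h8 := Real.exp_pos (-((7 / 8) * t))
    nlinarith [mul_le_mul_of_nonneg_left h6 h8.le]

theorem num1 : 1 - 2 / π < ∫ t in Ioi (0 : ℝ), Real.exp (-((7 / 8) * t)) *
    ((1 / (2 / 3 : ℝ)) * (Real.tanh ((2 / 3) * t) * Real.cosh ((2 / 3) * t) ^ (-(1 / (2 / 3 : ℝ) ^ 2)))) := by
  change 1 - 2 / π < ∫ t in Ioi (0 : ℝ), num1F t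
  have hI : IntegrableOn (fun t : ℝ => ∑ j ∈ Finset.range 11,
      num1q j * Real.exp (-(19 / 8 + 4 / 3 * (j : ℝ)) * t)) (Ioi 0) :=
    integrable_finsetSum _ fun j _ => (num1_int_exp j).1
  have h1 : ∫ t in Ioi (0 : ℝ), ∑ j ∈ Finset.range 11,
      num1q j * Real.exp (-(19 / 8 + 4 / 3 * (j : ℝ)) * t) ≤ ∫ t in Ioi (0 : ℝ), num1F t := by
    apply setIntegral_mono_on hI num1_integrable measurableSet_Ioi
    intro t ht
    rw [← num1_expand]
    exact num1_ge ht
  rw [integral_finsetSum _ fun j _ => (num1_int_exp j).1] at h1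
  simp only [(num1_int_exp _).2] at h1
  have h2 : (36339 / 100000 : ℝ) < ∑ j ∈ Finset.range 11, num1q j * (1 / (19 / 8 + 4 / 3 * (j : ℝ))) := by
    simp only [Finset.sum_range_succ, Finset.sum_range_zero, num1q]
    norm_num
  have h3 : 1 - 2 / π < 36339 / 100000 := by
    have hpi := Real.pi_lt_d4
    have hpi0 := Real.pi_pos
    have : (2 : ℝ) / 3.1416 < 2 / π := div_lt_div_of_pos_left (by norm_num) hpi0 hpi
    have e : (1 : ℝ) - 2 / 3.1416 < 36339 / 100000 := by norm_num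
    linarith
  linarith

end Pool.Agent.CubeWidth
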