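import Mathlib

/-!
Numerical lower bound of an explicit integral (exponent 4).
-/

namespace Pool.Agent.CubeWidth

open MeasureTheory Real Set Filter Topology

/-- coefficients of the polynomial `(1 - z) * ∑ k < 9, C(k+4, 4) ((1 - z) / 2)^k` -/
noncomputable def num2C : ℕ → ℝ
  | 0 => 7099 / 256
  | 1 => -36159 / 256
  | 2 => 22625 / 64
  | 3 => -36185 / 64
  | 4 => 79905 / 128
  | 5 => -62069 / 128
  | 6 => 16737 / 64
  | 7 => -5985 / 64
  | 8 => 5115 / 256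
  | 9 => -495 / 256
  | _ => 0

lemma num2_poly {z : ℝ} (hz0 : 0 < z) (hz1 : z ≤ 1) :
    ∑ j ∈ Finset.range 10, num2C j * z ^ j ≤ 32 * (1 - z) / (1 + z) ^ 5 := by
  rw [le_div_iff₀ (by positivity)]
  simp only [Finset.sum_range_succ, Finset.sum_range_zero, num2C]
  have h1 : (0 : ℝ) ≤ 1 - z := by linarith
  have key : 32 * (1 - z) - (0 + 7099 / 256 * z ^ 0 + -36159 / 256 * z ^ 1 + 22625 / 64 * z ^ 2 +
      -36185 / 64 * z ^ 3 + 79905 / 128 * z ^ 4 + -62069 / 128 * z ^ 5 + 16737 / 64 * z ^ 6 +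
      -5985 / 64 * z ^ 7 + 5115 / 256 * z ^ 8 + -495 / 256 * z ^ 9) * (1 + z) ^ 5 =
      32 * (1 - z) * (((1 - z) / 2) ^ 9 * (1 + 9 * ((1 + z) / 2) + 45 * ((1 + z) / 2) ^ 2 +
        165 * ((1 + z) / 2) ^ 3 + 495 * ((1 + z) / 2) ^ 4)) := by
    ring
  have h2 : 0 ≤ 32 * (1 - z) * (((1 - z) / 2) ^ 9 * (1 + 9 * ((1 + z) / 2) +
      45 * ((1 + z) / 2) ^ 2 + 165 * ((1 + z) / 2) ^ 3 + 495 * ((1 + z) / 2) ^ 4)) := by
    positivity
  linarith

lemma num2_rpow (t : ℝ) : Real.cosh ((1 / 2) * t) ^ (-(1 / (1 / 2 : ℝ) ^ 2)) =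
    (Real.cosh ((1 / 2) * t) ^ 4)⁻¹ := by
  have h1 : (-(1 / (1 / 2 : ℝ) ^ 2)) = -((4 : ℕ) : ℝ) := by norm_num
  rw [h1, Real.rpow_neg (Real.cosh_pos _).le, Real.rpow_natCast]

lemma num2_pt {t : ℝ} (ht : 0 < t) :
    ∑ j ∈ Finset.range 10, num2C j * Real.exp (-(26 / 9 + (j : ℝ)) * t) ≤
      Real.exp (-((8 / 9) * t)) * ((1 / (1 / 2 : ℝ)) *
        (Real.tanh ((1 / 2) * t) * Real.cosh ((1 / 2) * t) ^ (-(1 / (1 / 2 : ℝ) ^ 2)))) := by
  rw [num2_rpow]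
  set w : ℝ := Real.exp (-((1 / 2) * t)) with hw
  have hw0 : 0 < w := Real.exp_pos _
  have hw1 : Real.exp ((1 / 2) * t) = w⁻¹ := by rw [hw, Real.exp_neg, inv_inv]
  have hz : Real.exp (-t) = w ^ 2 := by
    rw [hw, ← Real.exp_nat_mul]
    congr 1
    push_cast
    ring
  have hz1 : w ^ 2 ≤ 1 := by
    rw [← hz]
    exact Real.exp_le_one_iff.2 (by linarith)
  have hc : Real.cosh ((1 / 2) * t) = (1 + w ^ 2) / (2 * w) := by
    rw [Real.cosh_eq, hw1, ← hw]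
    field_simp
  have hs : Real.sinh ((1 / 2) * t) = (1 - w ^ 2) / (2 * w) := by
    rw [Real.sinh_eq, hw1, ← hw]
    field_simp
  have e1 : Real.tanh ((1 / 2) * t) * (Real.cosh ((1 / 2) * t) ^ 4)⁻¹ =
      (w ^ 2) ^ 2 / 2 * (32 * (1 - w ^ 2) / (1 + w ^ 2) ^ 5) := by
    rw [Real.tanh_eq_sinh_div_cosh, hc, hs]
    have : 1 + w ^ 2 ≠ 0 := by positivity
    field_simp
    ring
  have e2 : ∑ j ∈ Finset.range 10, num2C j * Real.exp (-(26 / 9 + (j : ℝ)) * t) =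
      Real.exp (-((8 / 9) * t)) * ((w ^ 2) ^ 2 *
        ∑ j ∈ Finset.range 10, num2C j * (w ^ 2) ^ j) := by
    rw [Finset.mul_sum, Finset.mul_sum]
    refine Finset.sum_congr rfl fun j _ => ?_
    have : Real.exp (-(26 / 9 + (j : ℝ)) * t) =
        Real.exp (-((8 / 9) * t)) * ((w ^ 2) ^ 2 * (w ^ 2) ^ j) := by
      rw [← hz, ← Real.exp_nat_mul, ← Real.exp_nat_mul, ← Real.exp_add, ← Real.exp_add]
      congr 1
      push_cast
      ring
    rw [this]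
    ring
  rw [e1, e2]
  refine mul_le_mul_of_nonneg_left ?_ (Real.exp_pos _).le
  have h3 := num2_poly (z := w ^ 2) (by positivity) hz1
  calc (w ^ 2) ^ 2 * ∑ j ∈ Finset.range 10, num2C j * (w ^ 2) ^ j
      ≤ (w ^ 2) ^ 2 * (32 * (1 - w ^ 2) / (1 + w ^ 2) ^ 5) :=
        mul_le_mul_of_nonneg_left h3 (by positivity)
    _ = 1 / (1 / 2 : ℝ) * ((w ^ 2) ^ 2 / 2 * (32 * (1 - w ^ 2) / (1 + w ^ 2) ^ 5)) := by ring

lemma num2_int1 (j : ℕ) : IntegrableOn (fun t : ℝ => num2C j *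
    Real.exp (-(26 / 9 + (j : ℝ)) * t)) (Ioi 0) := by
  have h : -(26 / 9 + (j : ℝ)) < 0 := by
    have : (0 : ℝ) ≤ j := Nat.cast_nonneg j
    linarith
  exact (integrableOn_exp_mul_Ioi h 0).const_mul _

lemma num2_int2 : IntegrableOn (fun t : ℝ => Real.exp (-((8 / 9) * t)) * ((1 / (1 / 2 : ℝ)) *
    (Real.tanh ((1 / 2) * t) * Real.cosh ((1 / 2) * t) ^ (-(1 / (1 / 2 : ℝ) ^ 2))))) (Ioi 0) := by
  have h1 : IntegrableOn (fun t : ℝ => 2 * Real.exp ((-(8 / 9)) * t)) (Ioi 0) :=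
    (integrableOn_exp_mul_Ioi (by norm_num : (-(8 / 9) : ℝ) < 0) 0).const_mul 2
  refine Integrable.mono' h1 ?_ ?_
  · have hcont : Continuous (fun t : ℝ => Real.exp (-((8 / 9) * t)) * ((1 / (1 / 2 : ℝ)) *
        (Real.tanh ((1 / 2) * t) *
          Real.cosh ((1 / 2) * t) ^ (-(1 / (1 / 2 : ℝ) ^ 2))))) := by
      have hf : (fun t : ℝ => Real.exp (-((8 / 9) * t)) * ((1 / (1 / 2 : ℝ)) *
          (Real.tanh ((1 / 2) * t) *
            Real.cosh ((1 / 2) * t) ^ (-(1 / (1 / 2 : ℝ) ^ 2))))) =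
          fun t : ℝ => Real.exp (-((8 / 9) * t)) * ((1 / (1 / 2 : ℝ)) *
          (Real.sinh ((1 / 2) * t) / Real.cosh ((1 / 2) * t) *
            (Real.cosh ((1 / 2) * t) ^ 4)⁻¹)) := by
        funext t
        rw [num2_rpow, Real.tanh_eq_sinh_div_cosh]
      rw [hf]
      have hne : ∀ t : ℝ, Real.cosh ((1 / 2) * t) ≠ 0 := fun t => (Real.cosh_pos _).ne'
      have hne4 : ∀ t : ℝ, Real.cosh ((1 / 2) * t) ^ 4 ≠ 0 := fun t => pow_ne_zero _ (hne t)
      have c1 : Continuous (fun t : ℝ => Real.cosh ((1 / 2) * t)) :=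
        Real.continuous_cosh.comp (continuous_const.mul continuous_id)
      have c2 : Continuous (fun t : ℝ => Real.sinh ((1 / 2) * t)) :=
        Real.continuous_sinh.comp (continuous_const.mul continuous_id)
      have c3 : Continuous (fun t : ℝ => Real.exp (-((8 / 9) * t))) := by fun_prop
      exact c3.mul (continuous_const.mul ((c2.div c1 hne).mul ((c1.pow 4).inv₀ hne4)))
    exact hcont.aestronglyMeasurable
  · refine (ae_restrict_iff' measurableSet_Ioi).2 (ae_of_all _ fun t ht => ?_)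
    have ht' : (0 : ℝ) < t := ht
    rw [num2_rpow, Real.norm_eq_abs]
    have h2 : |Real.tanh ((1 / 2) * t)| ≤ 1 := by
      rw [Real.tanh_eq_sinh_div_cosh, abs_div, abs_of_pos (Real.cosh_pos _),
        div_le_one (Real.cosh_pos _), abs_of_nonneg (Real.sinh_nonneg_iff.2 (by positivity))]
      exact (Real.sinh_lt_cosh _).le
    have h3 : |(Real.cosh ((1 / 2) * t) ^ 4)⁻¹| ≤ 1 := by
      rw [abs_inv, abs_of_pos (pow_pos (Real.cosh_pos _) 4)]
      exact inv_le_one_of_one_le₀ (one_le_pow₀ (Real.one_le_cosh _))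
    rw [abs_mul, abs_mul, abs_mul, abs_of_pos (Real.exp_pos _)]
    have h4 : |Real.tanh ((1 / 2) * t)| * |(Real.cosh ((1 / 2) * t) ^ 4)⁻¹| ≤ 1 :=
      mul_le_one₀ h2 (abs_nonneg _) h3
    have h5 : |(1 / (1 / 2 : ℝ))| = 2 := by norm_num
    rw [h5]
    have h6 : Real.exp ((-(8 / 9)) * t) = Real.exp (-((8 / 9) * t)) := by congr 1; ring
    rw [h6]
    have h7 := mul_le_mul_of_nonneg_left h4 (mul_nonneg (Real.exp_pos (-((8 / 9) * t))).le
      (by norm_num : (0 : ℝ) ≤ 2))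
    linarith

lemma num2_sum : ∫ t in Ioi (0 : ℝ), ∑ j ∈ Finset.range 10,
    num2C j * Real.exp (-(26 / 9 + (j : ℝ)) * t) =
      ∑ j ∈ Finset.range 10, num2C j / (26 / 9 + (j : ℝ)) := by
  rw [integral_finsetSum _ (fun j _ => num2_int1 j)]
  refine Finset.sum_congr rfl fun j _ => ?_
  have h : -(26 / 9 + (j : ℝ)) < 0 := by
    have : (0 : ℝ) ≤ j := Nat.cast_nonneg j
    linarith
  rw [integral_const_mul, integral_exp_mul_Ioi h]
  simp only [mul_zero, Real.exp_zero]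
  rw [neg_div_neg_eq, mul_one_div]

theorem num2 : 1 - 2 / π < ∫ t in Ioi (0 : ℝ), Real.exp (-((8 / 9) * t)) *
    ((1 / (1 / 2 : ℝ)) * (Real.tanh ((1 / 2) * t) * Real.cosh ((1 / 2) * t) ^ (-(1 / (1 / 2 : ℝ) ^ 2)))) := by
  have h1 : ∑ j ∈ Finset.range 10, num2C j / (26 / 9 + (j : ℝ)) ≤
      ∫ t in Ioi (0 : ℝ), Real.exp (-((8 / 9) * t)) * ((1 / (1 / 2 : ℝ)) *
        (Real.tanh ((1 / 2) * t) * Real.cosh ((1 / 2) * t) ^ (-(1 / (1 / 2 : ℝ) ^ 2)))) := by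
    rw [← num2_sum]
    refine setIntegral_mono_on ?_ num2_int2 measurableSet_Ioi fun t ht => num2_pt ht
    exact integrable_finsetSum _ fun j _ => num2_int1 j
  refine lt_of_lt_of_le ?_ h1
  have h2 : 1 - 2 / π < 1 - 2 / 3.1416 := by
    have hp := Real.pi_lt_d4
    have hp0 := Real.pi_pos
    have : 2 / 3.1416 < 2 / π := by
      apply div_lt_div_of_pos_left (by norm_num) hp0
      linarith
    linarith
  refine h2.trans ?_
  simp only [Finset.sum_range_succ, Finset.sum_range_zero, num2C]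
  norm_num

end Pool.Agent.CubeWidth
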