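import Pool.Agent.Lib.MP_e8b094_gt.PolarBasic

/-!
Gaussian expectation of a support function in polar coordinates.
-/

namespace Pool.Agent.CubeWidth

open MeasureTheory Real Set Filter Topology Pointwise
open scoped ENNReal

lemma kap_eq (m : ℕ) : kap m = √π ^ m / Real.Gamma (m / 2 + 1) := by
  rcases Nat.eq_zero_or_pos m with h | h
  · subst h
    unfold kap
    have : Metric.ball (0 : EuclideanSpace ℝ (Fin 0)) 1 = univ := by
      ext x
      simp [Subsingleton.elim x 0]
    rw [this, volume_euclideanSpace_eq_dirac]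
    simp
  · unfold kap
    have : Nonempty (Fin m) := ⟨⟨0, h⟩⟩
    rw [EuclideanSpace.volume_ball]
    simp only [Fintype.card_fin, ENNReal.ofReal_one, one_pow, one_mul]
    rw [ENNReal.toReal_ofReal]
    positivity

lemma gauss_const {n : ℕ} (hn : 1 ≤ n) :
    kap (n - 1) * (√(2 * π) * ((√(2 * π))⁻¹ ^ n * ∫ r in Ioi (0 : ℝ), r ^ n * Real.exp (-r ^ 2 / 2))) = 1 := by
  obtain ⟨m, rfl⟩ : ∃ m, n = m + 1 := ⟨n - 1, by omega⟩
  have h1 : ∫ r in Ioi (0 : ℝ), r ^ (m + 1) * Real.exp (-r ^ 2 / 2) =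
      (1 / 2 : ℝ) ^ (-((m + 1 : ℝ) + 1) / 2) * (1 / 2) * Real.Gamma (((m + 1 : ℝ) + 1) / 2) := by
    have := integral_rpow_mul_exp_neg_mul_rpow (p := 2) (q := (m + 1 : ℝ)) (b := 1 / 2) (by norm_num)
      (by have : (0 : ℝ) ≤ m := Nat.cast_nonneg m
          linarith) (by norm_num)
    rw [← this]
    apply setIntegral_congr_fun measurableSet_Ioi
    intro r hr
    simp only
    have e1 : r ^ ((m : ℝ) + 1) = r ^ (m + 1) := by
      rw [← Real.rpow_natCast]; push_cast; rfl
    rw [e1]
    congr 2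
    rw [Real.rpow_two]; ring
  rw [h1, kap_eq]
  simp only [Nat.add_sub_cancel]
  have hG : Real.Gamma (((m + 1 : ℝ) + 1) / 2) = Real.Gamma (m / 2 + 1) := by congr 1; ring
  rw [hG]
  have hGpos : 0 < Real.Gamma ((m : ℝ) / 2 + 1) := Real.Gamma_pos_of_pos (by positivity)
  have h2 : (1 / 2 : ℝ) ^ (-((m + 1 : ℝ) + 1) / 2) = √2 ^ m * 2 := by
    have e : (1 / 2 : ℝ) ^ (-((m + 1 : ℝ) + 1) / 2) = (2 : ℝ) ^ ((m : ℝ) / 2 + 1) := by
      rw [one_div, Real.inv_rpow (by norm_num), ← Real.rpow_neg (by norm_num)]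
      congr 1; ring
    rw [e, Real.rpow_add (by norm_num), Real.rpow_one]
    congr 1
    rw [Real.sqrt_eq_rpow, ← Real.rpow_natCast, ← Real.rpow_mul (by norm_num)]
    congr 1; ring
  rw [h2]
  have h3 : √(2 * π) = √2 * √π := Real.sqrt_mul (by norm_num) _
  rw [h3]
  have hs2 : 0 < √2 := by positivity
  have hsp : 0 < √π := by positivity
  rw [inv_pow, pow_succ, mul_pow]
  field_simp

theorem polar_gauss {n : ℕ} (hn : 2 ≤ n) (K : Set (EuclideanSpace ℝ (Fin n))) (hK : IsCompact K)
    (h0 : (0 : EuclideanSpace ℝ (Fin n)) ∈ K) :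
    ∫ x : Metric.sphere (0 : EuclideanSpace ℝ (Fin n)) 1, supp K x
        ∂(volume : Measure (EuclideanSpace ℝ (Fin n))).toSphere =
      kap (n - 1) * (√(2 * π) * ∫ x : EuclideanSpace ℝ (Fin n), supp K x *
        ((√(2 * π))⁻¹ ^ n * Real.exp (-‖x‖ ^ 2 / 2))) := by
  have : Nonempty (Fin n) := ⟨⟨0, by omega⟩⟩
  have : Nontrivial (EuclideanSpace ℝ (Fin n)) := by
    infer_instance
  have hcont := continuous_supp hK h0
  have hnn := supp_nonneg hK h0
  set w : ℝ → ℝ := fun r => (√(2 * π))⁻¹ ^ n * Real.exp (-r ^ 2 / 2) with hw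
  have hwc : Continuous w := by fun_prop
  have hwpos : ∀ r, 0 ≤ w r := fun r => by positivity
  have hint : ∫ x : EuclideanSpace ℝ (Fin n), supp K x * w ‖x‖ =
      (∫ x : Metric.sphere (0 : EuclideanSpace ℝ (Fin n)) 1, supp K x
        ∂(volume : Measure (EuclideanSpace ℝ (Fin n))).toSphere) * ∫ r in Ioi (0 : ℝ), r ^ n * w r := by
    rw [integral_eq_lintegral_of_nonneg_ae (ae_of_all _ fun x => mul_nonneg (hnn x) (hwpos _))
      (by fun_prop)]
    rw [lintegral_polar volume (by fun_prop)]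
    rw [integral_eq_lintegral_of_nonneg_ae (f := fun x : Metric.sphere (0 : EuclideanSpace ℝ (Fin n)) 1 =>
      supp K x) (ae_of_all _ fun x => hnn x)
      (hcont.comp continuous_subtype_val).aestronglyMeasurable]
    rw [integral_eq_lintegral_of_nonneg_ae]
    · rw [← ENNReal.toReal_mul]
      congr 1
      rw [← lintegral_mul_const]
      · apply lintegral_congr
        intro θ
        rw [← lintegral_const_mul]
        · apply setLIntegral_congr_fun measurableSet_Ioi
          intro r hr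
          have hr' : (0 : ℝ) < r := hr
          simp only
          have hθ : ‖(θ : EuclideanSpace ℝ (Fin n))‖ = 1 := by simp
          rw [← ENNReal.ofReal_mul (by positivity), ← ENNReal.ofReal_mul (hnn _), supp_smul hK h0 _ hr'.le,
            norm_smul, hθ, mul_one, Real.norm_eq_abs, abs_of_pos hr']
          congr 1
          have e : r ^ n = r ^ (Module.finrank ℝ (EuclideanSpace ℝ (Fin n)) - 1) * r := by
            rw [← pow_succ]
            congr 1
            simp
            omega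
          rw [e]; ring
        · fun_prop
      · exact (hcont.comp continuous_subtype_val).measurable.ennreal_ofReal
    · rw [EventuallyLE, ae_restrict_iff' measurableSet_Ioi]
      exact ae_of_all _ fun r hr => mul_nonneg (pow_nonneg (le_of_lt hr) _) (hwpos r)
    · fun_prop
  rw [hint]
  have hc : ∫ r in Ioi (0 : ℝ), r ^ n * w r = (√(2 * π))⁻¹ ^ n * ∫ r in Ioi (0 : ℝ), r ^ n * Real.exp (-r ^ 2 / 2) := by
    rw [← integral_const_mul]
    congr 1; ext r; simp only [hw]; ring
  rw [hc]
  have := gauss_const (n := n) (by omega)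
  linear_combination (-(∫ x : Metric.sphere (0 : EuclideanSpace ℝ (Fin n)) 1, supp K x
        ∂(volume : Measure (EuclideanSpace ℝ (Fin n))).toSphere)) * this

end Pool.Agent.CubeWidth
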