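import Pool.Agent.Lib.MP_e8b094_gt.TanhLe
import Pool.Agent.Lib.MP_e8b094_gt.CoshProd
import Pool.Agent.Lib.MP_e8b094_gt.GGmono
import Pool.Agent.Lib.MP_e8b094_gt.FFbasic

/-!
The integral of `F_u` in the case where all coordinates are small (piece P12).
-/

namespace Pool.Agent.CubeWidth

open MeasureTheory Real Set Filter Topology

/-- `W(t) = cosh(at)^(-1/a^2)` -/
noncomputable def smallintW (a t : ℝ) : ℝ := Real.cosh (a * t) ^ (-(1 / a ^ 2))

/-- `w = -W'` -/
noncomputable def smallintw (a t : ℝ) : ℝ :=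
  (1 / a) * (Real.tanh (a * t) * Real.cosh (a * t) ^ (-(1 / a ^ 2)))

lemma smallint_W_pos (a t : ℝ) : 0 < smallintW a t := Real.rpow_pos_of_pos (Real.cosh_pos _) _

lemma smallint_w_nonneg {a t : ℝ} (ha : 0 < a) (ht : 0 ≤ t) : 0 ≤ smallintw a t := by
  unfold smallintw
  have h1 : 0 ≤ Real.tanh (a * t) := by
    rw [Real.tanh_eq_sinh_div_cosh]
    exact div_nonneg (Real.sinh_nonneg_iff.2 (by positivity)) (Real.cosh_pos _).le
  have h2 := (Real.rpow_pos_of_pos (Real.cosh_pos (a * t)) (-(1 / a ^ 2))).le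
  positivity

lemma smallint_hasDerivAt_W {a : ℝ} (ha : 0 < a) (t : ℝ) :
    HasDerivAt (smallintW a) (-(smallintw a t)) t := by
  have h1 : HasDerivAt (fun t : ℝ => a * t) a t := by
    simpa using (hasDerivAt_id t).const_mul a
  have h2 := h1.cosh
  have h3 := h2.rpow_const (p := -(1 / a ^ 2)) (Or.inl (Real.cosh_pos _).ne')
  refine h3.congr_deriv ?_
  unfold smallintw
  rw [Real.rpow_sub_one (Real.cosh_pos _).ne', Real.tanh_eq_sinh_div_cosh]
  have := (Real.cosh_pos (a * t)).ne'
  field_simp

lemma smallint_continuous_W {a : ℝ} (ha : 0 < a) : Continuous (smallintW a) :=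
  continuous_iff_continuousAt.2 fun t => (smallint_hasDerivAt_W ha t).continuousAt

lemma smallint_continuous_w (a : ℝ) : Continuous (smallintw a) := by
  unfold smallintw
  simp only [Real.tanh_eq_sinh_div_cosh]
  refine continuous_const.mul (Continuous.mul ?_ ?_)
  · exact (Real.continuous_sinh.comp (by fun_prop)).div (Real.continuous_cosh.comp (by fun_prop))
      fun t => (Real.cosh_pos _).ne'
  · exact (Real.continuous_cosh.comp (by fun_prop)).rpow_const fun t => Or.inl (Real.cosh_pos _).ne'

lemma smallint_tendsto_W {a : ℝ} (ha : 0 < a) : Tendsto (smallintW a) atTop (𝓝 0) := by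
  have h1 : Tendsto (fun t : ℝ => Real.cosh (a * t)) atTop atTop := by
    have h0 : Tendsto (fun t : ℝ => Real.exp (a * t) / 2) atTop atTop :=
      (Real.tendsto_exp_atTop.comp (tendsto_id.const_mul_atTop ha)).atTop_div_const (by norm_num)
    refine tendsto_atTop_mono (fun t => ?_) h0
    rw [Real.cosh_eq]
    have := Real.exp_pos (-(a * t))
    linarith
  exact (tendsto_rpow_neg_atTop (y := 1 / a ^ 2) (by positivity)).comp h1

/-- the full derivative is integrable, with integral one. -/
lemma smallint_parts {a r : ℝ} (ha : 0 < a) (hr : 0 ≤ r) :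
    IntegrableOn (fun t => r * Real.exp (-(t * r)) * smallintW a t) (Ioi 0) ∧
    IntegrableOn (fun t => Real.exp (-(t * r)) * smallintw a t) (Ioi 0) ∧
    (∫ t in Ioi (0 : ℝ), r * Real.exp (-(t * r)) * smallintW a t) =
      1 - ∫ t in Ioi (0 : ℝ), Real.exp (-(t * r)) * smallintw a t := by
  have hd : ∀ t, HasDerivAt (fun t => -(Real.exp (-(t * r)) * smallintW a t))
      (r * Real.exp (-(t * r)) * smallintW a t + Real.exp (-(t * r)) * smallintw a t) t := by
    intro t
    have h1 : HasDerivAt (fun t : ℝ => -(t * r)) (-r) t := by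
      have h := ((hasDerivAt_id t).mul_const r).neg
      rw [one_mul] at h
      exact h
    have h2 := (h1.exp.mul (smallint_hasDerivAt_W ha t)).neg
    exact h2.congr_deriv (by ring)
  have hnn1 : ∀ t ∈ Ioi (0 : ℝ), 0 ≤ r * Real.exp (-(t * r)) * smallintW a t := by
    intro t _
    have := smallint_W_pos a t
    positivity
  have hnn2 : ∀ t ∈ Ioi (0 : ℝ), 0 ≤ Real.exp (-(t * r)) * smallintw a t := by
    intro t ht
    have := smallint_w_nonneg ha (le_of_lt ht)
    positivity
  have hnn : ∀ t ∈ Ioi (0 : ℝ),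
      0 ≤ r * Real.exp (-(t * r)) * smallintW a t + Real.exp (-(t * r)) * smallintw a t :=
    fun t ht => add_nonneg (hnn1 t ht) (hnn2 t ht)
  have hlim : Tendsto (fun t => -(Real.exp (-(t * r)) * smallintW a t)) atTop (𝓝 0) := by
    rw [← neg_zero]
    apply Tendsto.neg
    refine squeeze_zero' (g := smallintW a) ?_ ?_ (smallint_tendsto_W ha)
    · exact Eventually.of_forall fun t => by
        have := smallint_W_pos a t
        positivity
    · filter_upwards [eventually_ge_atTop (0 : ℝ)] with t ht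
      have h1 : Real.exp (-(t * r)) ≤ 1 := by
        rw [Real.exp_le_one_iff]
        have := mul_nonneg ht hr
        linarith
      have h2 := (smallint_W_pos a t).le
      calc Real.exp (-(t * r)) * smallintW a t ≤ 1 * smallintW a t :=
            mul_le_mul_of_nonneg_right h1 h2
        _ = smallintW a t := one_mul _
  have hcont : ContinuousWithinAt (fun t => -(Real.exp (-(t * r)) * smallintW a t)) (Ici 0) 0 :=
    (hd 0).continuousAt.continuousWithinAt
  have hint := integrableOn_Ioi_deriv_of_nonneg hcont (fun t _ => hd t) hnn hlim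
  have hval := integral_Ioi_of_hasDerivAt_of_nonneg hcont (fun t _ => hd t) hnn hlim
  have hc1 : Continuous (fun t => r * Real.exp (-(t * r)) * smallintW a t) :=
    (by fun_prop : Continuous fun t : ℝ => r * Real.exp (-(t * r))).mul (smallint_continuous_W ha)
  have hc2 : Continuous (fun t => Real.exp (-(t * r)) * smallintw a t) :=
    (by fun_prop : Continuous fun t : ℝ => Real.exp (-(t * r))).mul (smallint_continuous_w a)
  have hI1 : IntegrableOn (fun t => r * Real.exp (-(t * r)) * smallintW a t) (Ioi 0) := by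
    refine Integrable.mono' hint hc1.aestronglyMeasurable ?_
    filter_upwards [self_mem_ae_restrict measurableSet_Ioi] with t ht
    rw [Real.norm_of_nonneg (hnn1 t ht)]
    exact le_add_of_nonneg_right (hnn2 t ht)
  have hI2 : IntegrableOn (fun t => Real.exp (-(t * r)) * smallintw a t) (Ioi 0) := by
    refine Integrable.mono' hint hc2.aestronglyMeasurable ?_
    filter_upwards [self_mem_ae_restrict measurableSet_Ioi] with t ht
    rw [Real.norm_of_nonneg (hnn2 t ht)]
    exact le_add_of_nonneg_left (hnn1 t ht)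
  refine ⟨hI1, hI2, ?_⟩
  rw [integral_add hI1 hI2] at hval
  have h0 : smallintW a 0 = 1 := by simp [smallintW]
  simp only [zero_mul, neg_zero, Real.exp_zero, one_mul, h0] at hval
  linarith

/-- pointwise bound for `F_u`. -/
lemma smallint_pt {n : ℕ} (u : Fin n → ℝ) (hu0 : ∀ i, 0 ≤ u i) (hu : ∑ i, u i ^ 2 = 1)
    {a : ℝ} (ha : 0 < a) (hua : ∀ i, u i ≤ a) {s : ℝ} (hs : 0 ≤ s) :
    FF u s ≤ EE (fun e => |XX u e| * Real.exp (-(cc * s * |XX u e|)) * smallintW a (cc * s)) / 2 := by
  have hc := cc_pos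
  have h1 : FF u s ≤ GG u (fun i => Real.tanh ((cc * s) * u i)) := by
    unfold FF
    apply GG_anti u _ _ hu0
    · intro i
      rw [Real.tanh_eq_sinh_div_cosh]
      exact div_nonneg (Real.sinh_nonneg_iff.2 (by have := hu0 i; positivity)) (Real.cosh_pos _).le
    · intro i
      have := tanh_le_mm (x := s * u i) (mul_nonneg hs (hu0 i))
      rwa [← mul_assoc] at this
    · intro i; exact (mm_lt_one _).le
  refine h1.trans ?_
  rw [GG_tanh, EE_mul_right, div_div, mul_div_assoc, div_eq_mul_inv]
  have h2 := prod_cosh_ge u hu0 hu ha hua (t := cc * s) (by positivity)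
  have h3 : 0 < Real.cosh (a * (cc * s)) ^ (1 / a ^ 2) := Real.rpow_pos_of_pos (Real.cosh_pos _) _
  have h4 : (∏ i, Real.cosh (cc * s * u i))⁻¹ ≤ smallintW a (cc * s) := by
    unfold smallintW
    rw [Real.rpow_neg (Real.cosh_pos _).le]
    exact inv_anti₀ h3 h2
  have h5 : 0 ≤ EE (fun e => |XX u e| * Real.exp (-(cc * s * |XX u e|))) :=
    EE_nonneg fun e => by positivity
  have h6 : (2 * ∏ i, Real.cosh (cc * s * u i))⁻¹ = (∏ i, Real.cosh (cc * s * u i))⁻¹ / 2 := by
    rw [mul_inv]; ring
  rw [h6]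
  apply mul_le_mul_of_nonneg_left _ h5
  linarith

theorem small_int {n : ℕ} (u : Fin n → ℝ) (hu0 : ∀ i, 0 ≤ u i) (hu : ∑ i, u i ^ 2 = 1)
    {a k : ℝ} (ha : 0 < a) (hua : ∀ i, u i ≤ a) (hk : EE (fun e => |XX u e|) ≤ k)
    (hI : 1 - 2 / π < ∫ t in Ioi (0 : ℝ),
      Real.exp (-(k * t)) * ((1 / a) * (Real.tanh (a * t) * Real.cosh (a * t) ^ (-(1 / a ^ 2))))) :
    ∫ s in Ioi (0 : ℝ), FF u s < cc / 2 := by
  have hc := cc_pos
  have hk0 : 0 ≤ k := le_trans (EE_nonneg fun e => abs_nonneg _) hk
  set g : ℝ → ℝ := fun t => EE (fun e => |XX u e| * Real.exp (-(t * |XX u e|)) * smallintW a t) with hg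
  have hp := fun e => smallint_parts (r := |XX u e|) ha (abs_nonneg _)
  have hgint : IntegrableOn g (Ioi 0) := by
    have : g = fun t => (∑ e, |XX u e| * Real.exp (-(t * |XX u e|)) * smallintW a t) /
        2 ^ Fintype.card (Fin n) := rfl
    rw [this]
    exact (integrable_finsetSum _ fun e _ => (hp e).1).div_const _
  have hgval : ∫ t in Ioi (0 : ℝ), g t =
      1 - ∫ t in Ioi (0 : ℝ), EE (fun e => Real.exp (-(t * |XX u e|))) * smallintw a t := by
    have h1 : ∫ t in Ioi (0 : ℝ), g t = EE (fun e => ∫ t in Ioi (0 : ℝ),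
        |XX u e| * Real.exp (-(t * |XX u e|)) * smallintW a t) := by
      simp only [hg, EE]
      rw [integral_div, integral_finsetSum _ fun e _ => (hp e).1]
    have h2 : ∫ t in Ioi (0 : ℝ), EE (fun e => Real.exp (-(t * |XX u e|))) * smallintw a t =
        EE (fun e => ∫ t in Ioi (0 : ℝ), Real.exp (-(t * |XX u e|)) * smallintw a t) := by
      have : ∀ t, EE (fun e => Real.exp (-(t * |XX u e|))) * smallintw a t =
          EE (fun e => Real.exp (-(t * |XX u e|)) * smallintw a t) := by
        intro t; rw [EE_mul_right]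
      simp only [this]
      simp only [EE]
      rw [integral_div, integral_finsetSum _ fun e _ => (hp e).2.1]
    rw [h1, h2, EE_congr (fun e => (hp e).2.2), EE_sub, EE_const]
  have hJ : ∫ t in Ioi (0 : ℝ), Real.exp (-(t * k)) * smallintw a t ≤
      ∫ t in Ioi (0 : ℝ), EE (fun e => Real.exp (-(t * |XX u e|))) * smallintw a t := by
    refine setIntegral_mono_on (smallint_parts ha hk0).2.1 ?_ measurableSet_Ioi ?_
    · have : ∀ t, EE (fun e => Real.exp (-(t * |XX u e|))) * smallintw a t =
          (∑ e, Real.exp (-(t * |XX u e|)) * smallintw a t) / 2 ^ Fintype.card (Fin n) := by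
        intro t; rw [← EE_mul_right]; rfl
      simp only [this]
      exact (integrable_finsetSum _ fun e _ => (hp e).2.1).div_const _
    · intro t ht
      have ht0 : (0 : ℝ) ≤ t := le_of_lt ht
      apply mul_le_mul_of_nonneg_right _ (smallint_w_nonneg ha ht0)
      have h1 : ∀ e : Fin n → Bool, Real.exp (-(t * k)) * (1 + t * k - t * |XX u e|) ≤
          Real.exp (-(t * |XX u e|)) := by
        intro e
        have h2 := Real.add_one_le_exp (t * k - t * |XX u e|)
        have h3 : Real.exp (-(t * |XX u e|)) = Real.exp (-(t * k)) * Real.exp (t * k - t * |XX u e|) := by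
          rw [← Real.exp_add]; congr 1; ring
        rw [h3]
        apply mul_le_mul_of_nonneg_left _ (Real.exp_pos _).le
        linarith
      have h4 := EE_mono h1
      refine le_trans ?_ h4
      rw [EE_mul_left, EE_sub, EE_const, EE_mul_left]
      have h5 : (1 : ℝ) ≤ 1 + t * k - t * EE (fun e => |XX u e|) := by
        have := mul_le_mul_of_nonneg_left hk ht0
        linarith
      have h6 := Real.exp_pos (-(t * k))
      nlinarith
  have hI' : 1 - 2 / π < ∫ t in Ioi (0 : ℝ), Real.exp (-(t * k)) * smallintw a t := by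
    have : (fun t => Real.exp (-(t * k)) * smallintw a t) = fun t => Real.exp (-(k * t)) *
        ((1 / a) * (Real.tanh (a * t) * Real.cosh (a * t) ^ (-(1 / a ^ 2)))) := by
      ext t; rw [mul_comm t k]; rfl
    rw [this]; exact hI
  have hgc : IntegrableOn (fun s => g (cc * s) / 2) (Ioi 0) := by
    refine Integrable.div_const ?_ _
    have := (integrableOn_Ioi_comp_mul_left_iff g 0 hc).2 (by rwa [mul_zero])
    exact this
  have hle : ∫ s in Ioi (0 : ℝ), FF u s ≤ ∫ s in Ioi (0 : ℝ), g (cc * s) / 2 := by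
    refine setIntegral_mono_on (integrable_FF u hu) hgc measurableSet_Ioi ?_
    intro s hs
    exact smallint_pt u hu0 hu ha hua (le_of_lt hs)
  have hval : ∫ s in Ioi (0 : ℝ), g (cc * s) / 2 = cc⁻¹ * (∫ t in Ioi (0 : ℝ), g t) / 2 := by
    rw [integral_div]
    have := integral_comp_mul_left_Ioi g 0 hc
    rw [mul_zero, smul_eq_mul] at this
    rw [this]
  have hlt : ∫ t in Ioi (0 : ℝ), g t < 2 / π := by
    rw [hgval]; linarith
  rw [hval] at hle
  refine lt_of_le_of_lt hle ?_
  have h1 : cc⁻¹ * (∫ t in Ioi (0 : ℝ), g t) < cc⁻¹ * cc ^ 2 := by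
    rw [cc_sq]
    exact mul_lt_mul_of_pos_left hlt (inv_pos.2 hc)
  have h2 : cc⁻¹ * cc ^ 2 = cc := by field_simp
  linarith

end Pool.Agent.CubeWidth
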