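import Pool.Agent.Lib.MP_e8b094_gt.PolarBasic

/-!
First Steiner coefficient of a compact set as a limit.
-/

namespace Pool.Agent.CubeWidth

open MeasureTheory Real Set Filter Topology Pointwise
open scoped ENNReal

lemma steiner_lintegral_pow {n : ℕ} (hn : 1 ≤ n) {a : ℝ} (ha : 0 ≤ a) :
    ∫⁻ r in Ioc (0 : ℝ) a, ENNReal.ofReal (r ^ (n - 1)) = ENNReal.ofReal (a ^ n / n) := by
  rw [← ofReal_integral_eq_lintegral_ofReal]
  · rw [← intervalIntegral.integral_of_le ha, integral_pow]
    congr 1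
    obtain ⟨m, rfl⟩ : ∃ m, n = m + 1 := ⟨n - 1, by omega⟩
    simp
  · exact (continuous_pow _).integrableOn_Icc.mono_set Ioc_subset_Icc_self
  · filter_upwards [ae_restrict_mem measurableSet_Ioc] with r hr
    exact pow_nonneg hr.1.le _

section

variable {n : ℕ} {K : Set (EuclideanSpace ℝ (Fin n))}

lemma steiner_upper_incl (hK : IsCompact K) {t r : ℝ}
    (θ : Metric.sphere (0 : EuclideanSpace ℝ (Fin n)) 1)
    (hx : r • (θ : EuclideanSpace ℝ (Fin n)) ∈ K + Metric.closedBall (0 : EuclideanSpace ℝ (Fin n)) t) :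
    r ≤ supp K θ + t := by
  obtain ⟨y, hy, z, hz, hyz⟩ := Set.mem_add.1 hx
  have hθ : ‖(θ : EuclideanSpace ℝ (Fin n))‖ = 1 := by simp
  have h1 : inner ℝ (θ : EuclideanSpace ℝ (Fin n)) (r • (θ : EuclideanSpace ℝ (Fin n))) = r := by
    rw [inner_smul_right, real_inner_self_eq_norm_sq, hθ]; ring
  rw [← hyz, inner_add_right] at h1
  have h2 := le_supp hK (θ : EuclideanSpace ℝ (Fin n)) hy
  have h3 : inner ℝ (θ : EuclideanSpace ℝ (Fin n)) z ≤ ‖(θ : EuclideanSpace ℝ (Fin n))‖ * ‖z‖ :=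
    real_inner_le_norm _ _
  rw [hθ, one_mul] at h3
  have h4 : ‖z‖ ≤ t := by simpa using hz
  linarith

lemma steiner_lower_incl (hK : IsCompact K) (h0 : (0 : EuclideanSpace ℝ (Fin n)) ∈ K) {M : ℝ}
    (hM0 : 0 < M) (hM : ∀ y ∈ K, ‖y‖ ≤ M) {t r : ℝ} (ht : 2 * M ≤ t) (hr : 0 ≤ r)
    (θ : Metric.sphere (0 : EuclideanSpace ℝ (Fin n)) 1)
    (hx : r ≤ supp K θ + √(t ^ 2 - M ^ 2)) :
    r • (θ : EuclideanSpace ℝ (Fin n)) ∈ K + Metric.closedBall (0 : EuclideanSpace ℝ (Fin n)) t := by
  obtain ⟨y, hy, h⟩ := exists_supp hK h0 (θ : EuclideanSpace ℝ (Fin n))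
  have hθ : ‖(θ : EuclideanSpace ℝ (Fin n))‖ = 1 := by simp
  refine Set.mem_add.2 ⟨y, hy, r • (θ : EuclideanSpace ℝ (Fin n)) - y, ?_, by abel⟩
  rw [mem_closedBall_zero_iff]
  have hs0 : 0 ≤ t ^ 2 - M ^ 2 := by nlinarith
  have hs : √(t ^ 2 - M ^ 2) ^ 2 = t ^ 2 - M ^ 2 := Real.sq_sqrt hs0
  have hsn := Real.sqrt_nonneg (t ^ 2 - M ^ 2)
  have hsM : M ≤ √(t ^ 2 - M ^ 2) := by
    apply Real.le_sqrt_of_sq_le
    nlinarith
  have hsupp : supp K (θ : EuclideanSpace ℝ (Fin n)) ≤ M := by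
    have := supp_le hK h0 hM (θ : EuclideanSpace ℝ (Fin n))
    rwa [hθ, mul_one] at this
  have hyM := hM y hy
  have hsq : ‖r • (θ : EuclideanSpace ℝ (Fin n)) - y‖ ^ 2 ≤ t ^ 2 := by
    rw [norm_sub_sq_real, norm_smul, hθ, inner_smul_left, h]
    simp only [Real.norm_eq_abs, mul_one, sq_abs, conj_trivial]
    have h1 : (r - supp K (θ : EuclideanSpace ℝ (Fin n))) ^ 2 ≤ √(t ^ 2 - M ^ 2) ^ 2 := by
      apply sq_le_sq'
      · linarith
      · linarith
    have h2 : ‖y‖ ^ 2 ≤ M ^ 2 := by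
      have := norm_nonneg y
      nlinarith
    nlinarith [sq_nonneg (supp K (θ : EuclideanSpace ℝ (Fin n)))]
  have ht0 : 0 ≤ t := by linarith
  exact abs_le_of_sq_le_sq' hsq ht0 |>.2

lemma steiner_vol (hn : 2 ≤ n) (hK : IsCompact K) (t : ℝ) :
    volume (K + Metric.closedBall (0 : EuclideanSpace ℝ (Fin n)) t) =
      ∫⁻ θ : Metric.sphere (0 : EuclideanSpace ℝ (Fin n)) 1, ∫⁻ r in Ioi (0 : ℝ),
      ENNReal.ofReal (r ^ (n - 1)) * (K + Metric.closedBall (0 : EuclideanSpace ℝ (Fin n)) t).indicator 1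
        (r • (θ : EuclideanSpace ℝ (Fin n))) ∂volume
        ∂(volume : Measure (EuclideanSpace ℝ (Fin n))).toSphere := by
  have : Nonempty (Fin n) := ⟨⟨0, by omega⟩⟩
  have hmeas : MeasurableSet (K + Metric.closedBall (0 : EuclideanSpace ℝ (Fin n)) t) :=
    (hK.add (isCompact_closedBall _ _)).measurableSet
  rw [← lintegral_indicator_one hmeas, lintegral_polar volume (measurable_one.indicator hmeas)]
  simp

lemma steiner_vol_le (hn : 2 ≤ n) (hK : IsCompact K) (h0 : (0 : EuclideanSpace ℝ (Fin n)) ∈ K)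
    {t : ℝ} (ht : 0 ≤ t) :
    volume (K + Metric.closedBall (0 : EuclideanSpace ℝ (Fin n)) t) ≤
      ∫⁻ θ : Metric.sphere (0 : EuclideanSpace ℝ (Fin n)) 1, ENNReal.ofReal ((supp K θ + t) ^ n / n)
        ∂(volume : Measure (EuclideanSpace ℝ (Fin n))).toSphere := by
  rw [steiner_vol hn hK t]
  apply lintegral_mono
  intro θ
  simp only
  have hnn := supp_nonneg hK h0 (θ : EuclideanSpace ℝ (Fin n))
  rw [← steiner_lintegral_pow (by omega) (by linarith)]
  calc ∫⁻ r in Ioi (0 : ℝ),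
      ENNReal.ofReal (r ^ (n - 1)) * (K + Metric.closedBall (0 : EuclideanSpace ℝ (Fin n)) t).indicator 1
        (r • (θ : EuclideanSpace ℝ (Fin n)))
      ≤ ∫⁻ r in Ioi (0 : ℝ), (Ioc (0 : ℝ) (supp K θ + t)).indicator
          (fun r => ENNReal.ofReal (r ^ (n - 1))) r := by
        apply setLIntegral_mono_ae'  measurableSet_Ioi
        refine ae_of_all _ fun r hr => ?_
        by_cases hx : r • (θ : EuclideanSpace ℝ (Fin n)) ∈ K + Metric.closedBall (0 : EuclideanSpace ℝ (Fin n)) t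
        · have h1 := steiner_upper_incl hK θ hx
          rw [indicator_of_mem (show r ∈ Ioc (0 : ℝ) (supp K θ + t) from ⟨hr, h1⟩)]
          rw [indicator_of_mem hx]
          simp
        · rw [indicator_of_notMem hx]
          simp
    _ ≤ ∫⁻ r in Ioc (0 : ℝ) (supp K θ + t), ENNReal.ofReal (r ^ (n - 1)) := by
        rw [setLIntegral_indicator measurableSet_Ioc]
        exact lintegral_mono_set inter_subset_left

lemma steiner_le_vol (hn : 2 ≤ n) (hK : IsCompact K) (h0 : (0 : EuclideanSpace ℝ (Fin n)) ∈ K)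
    {M : ℝ} (hM0 : 0 < M) (hM : ∀ y ∈ K, ‖y‖ ≤ M) {t : ℝ} (ht : 2 * M ≤ t) :
    ∫⁻ θ : Metric.sphere (0 : EuclideanSpace ℝ (Fin n)) 1,
        ENNReal.ofReal ((supp K θ + √(t ^ 2 - M ^ 2)) ^ n / n)
        ∂(volume : Measure (EuclideanSpace ℝ (Fin n))).toSphere ≤
    volume (K + Metric.closedBall (0 : EuclideanSpace ℝ (Fin n)) t) := by
  rw [steiner_vol hn hK t]
  apply lintegral_mono
  intro θ
  simp only
  have hnn := supp_nonneg hK h0 (θ : EuclideanSpace ℝ (Fin n))
  have hsn := Real.sqrt_nonneg (t ^ 2 - M ^ 2)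
  rw [← steiner_lintegral_pow (by omega) (by linarith)]
  calc ∫⁻ r in Ioc (0 : ℝ) (supp K θ + √(t ^ 2 - M ^ 2)), ENNReal.ofReal (r ^ (n - 1))
      ≤ ∫⁻ r in Ioi (0 : ℝ), (Ioc (0 : ℝ) (supp K θ + √(t ^ 2 - M ^ 2))).indicator
          (fun r => ENNReal.ofReal (r ^ (n - 1))) r := by
        rw [setLIntegral_indicator measurableSet_Ioc]
        apply lintegral_mono_set
        intro r hr
        exact ⟨hr, hr.1⟩
    _ ≤ _ := by
        apply setLIntegral_mono_ae'  measurableSet_Ioi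
        refine ae_of_all _ fun r hr => ?_
        by_cases hx : r ≤ supp K θ + √(t ^ 2 - M ^ 2)
        · have h1 := steiner_lower_incl hK h0 hM0 hM ht (le_of_lt hr) θ hx
          rw [indicator_of_mem h1]
          rw [indicator_of_mem (show r ∈ Ioc (0 : ℝ) (supp K θ + √(t ^ 2 - M ^ 2)) from ⟨hr, hx⟩)]
          simp
        · rw [indicator_of_notMem (fun h => hx h.2)]
          simp


lemma steiner_quot {a t : ℝ} (hn : 1 ≤ n) (ht : 0 < t) :
    (a ^ n - t ^ n) / (n * t ^ (n - 1)) = (a - t) * ((∑ i ∈ Finset.range n, (a / t) ^ i) / n) := by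
  have h := geom_sum₂_mul a t n
  rw [← h]
  have h2 : ∑ i ∈ Finset.range n, a ^ i * t ^ (n - 1 - i) = t ^ (n - 1) * ∑ i ∈ Finset.range n, (a / t) ^ i := by
    rw [Finset.mul_sum]
    apply Finset.sum_congr rfl
    intro i hi
    have hi' : i < n := Finset.mem_range.1 hi
    have e : t ^ (n - 1) = t ^ (n - 1 - i) * t ^ i := by rw [← pow_add]; congr 1; omega
    rw [e, div_pow]
    field_simp
  rw [h2]
  have hn0 : (n : ℝ) ≠ 0 := by positivity
  field_simp

lemma steiner_ptwise (hn : 1 ≤ n) {h : ℝ} {τ : ℝ → ℝ} (hτ : Tendsto (fun t => τ t - t) atTop (𝓝 0)) :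
    Tendsto (fun t : ℝ => ((h + τ t) ^ n - t ^ n) / (n * t ^ (n - 1))) atTop (𝓝 h) := by
  have h1 : Tendsto (fun t => h + τ t - t) atTop (𝓝 h) := by
    have := hτ.const_add h
    rw [add_zero] at this
    refine this.congr fun t => by ring
  have h2 : Tendsto (fun t => (h + τ t) / t) atTop (𝓝 1) := by
    have h3 : Tendsto (fun t => 1 + (h + τ t - t) * t⁻¹) atTop (𝓝 (1 + h * 0)) :=
      (h1.mul tendsto_inv_atTop_zero).const_add 1
    rw [mul_zero, add_zero] at h3
    refine h3.congr' ?_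
    filter_upwards [eventually_gt_atTop 0] with t ht
    field_simp
    ring
  have h4 : Tendsto (fun t => (∑ i ∈ Finset.range n, ((h + τ t) / t) ^ i) / n) atTop (𝓝 1) := by
    have h5 : Tendsto (fun t => (∑ i ∈ Finset.range n, ((h + τ t) / t) ^ i) / n) atTop
        (𝓝 ((∑ i ∈ Finset.range n, (1 : ℝ) ^ i) / n)) :=
      (tendsto_finsetSum _ fun i _ => h2.pow i).div_const _
    have hn0 : (n : ℝ) ≠ 0 := by positivity
    simpa [hn0] using h5
  have h6 := h1.mul h4
  rw [mul_one] at h6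
  refine h6.congr' ?_
  filter_upwards [eventually_gt_atTop 0] with t ht
  rw [steiner_quot hn ht]

lemma steiner_dct (hn : 2 ≤ n) (hK : IsCompact K) (h0 : (0 : EuclideanSpace ℝ (Fin n)) ∈ K)
    {τ : ℝ → ℝ} (hτ : Tendsto (fun t => τ t - t) atTop (𝓝 0))
    (hτ0 : ∀ᶠ t in atTop, 0 ≤ τ t ∧ τ t ≤ t) :
    Tendsto (fun t : ℝ => ((∫ θ : Metric.sphere (0 : EuclideanSpace ℝ (Fin n)) 1, (supp K θ + τ t) ^ n / n
        ∂(volume : Measure (EuclideanSpace ℝ (Fin n))).toSphere) - kap n * t ^ n) / t ^ (n - 1)) atTop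
      (𝓝 (∫ x : Metric.sphere (0 : EuclideanSpace ℝ (Fin n)) 1, supp K x
        ∂(volume : Measure (EuclideanSpace ℝ (Fin n))).toSphere)) := by
  obtain ⟨M, hM0, hM⟩ := exists_bound hK
  have hcont := continuous_supp hK h0
  have hcontS : Continuous (fun θ : Metric.sphere (0 : EuclideanSpace ℝ (Fin n)) 1 => supp K θ) :=
    hcont.comp continuous_subtype_val
  have hn0 : (n : ℝ) ≠ 0 := by positivity
  have hbS : ∀ θ : Metric.sphere (0 : EuclideanSpace ℝ (Fin n)) 1, supp K θ ≤ M := by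
    intro θ
    have := supp_le hK h0 hM (θ : EuclideanSpace ℝ (Fin n))
    have hθ : ‖(θ : EuclideanSpace ℝ (Fin n))‖ = 1 := by simp
    rwa [hθ, mul_one] at this
  have hnnS : ∀ θ : Metric.sphere (0 : EuclideanSpace ℝ (Fin n)) 1, 0 ≤ supp K θ :=
    fun θ => supp_nonneg hK h0 _
  have hint : ∀ t : ℝ, Integrable (fun θ : Metric.sphere (0 : EuclideanSpace ℝ (Fin n)) 1 =>
      (supp K θ + τ t) ^ n / n) (volume : Measure (EuclideanSpace ℝ (Fin n))).toSphere := by
    intro t
    exact ((hcontS.add continuous_const).pow n |>.div_const _).integrable_of_hasCompactSupport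
      (HasCompactSupport.of_compactSpace _)
  have hkap : ∀ t : ℝ, kap n * t ^ n = ∫ θ : Metric.sphere (0 : EuclideanSpace ℝ (Fin n)) 1, t ^ n / n
        ∂(volume : Measure (EuclideanSpace ℝ (Fin n))).toSphere := by
    intro t
    rw [integral_const, Measure.toSphere_real_apply_univ]
    simp only [finrank_euclideanSpace, Fintype.card_fin, smul_eq_mul]
    unfold kap Measure.real
    field_simp
  have hmain : Tendsto (fun t : ℝ => ∫ θ : Metric.sphere (0 : EuclideanSpace ℝ (Fin n)) 1,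
        ((supp K θ + τ t) ^ n - t ^ n) / (n * t ^ (n - 1))
        ∂(volume : Measure (EuclideanSpace ℝ (Fin n))).toSphere) atTop
      (𝓝 (∫ x : Metric.sphere (0 : EuclideanSpace ℝ (Fin n)) 1, supp K x
        ∂(volume : Measure (EuclideanSpace ℝ (Fin n))).toSphere)) := by
    apply tendsto_integral_filter_of_dominated_convergence (fun _ => (M + 1) * 2 ^ n)
    · refine Eventually.of_forall fun t => ?_
      exact (((hcontS.add continuous_const).pow n).sub continuous_const |>.div_const _).aestronglyMeasurable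
    · have e1 : ∀ᶠ t in atTop, |τ t - t| < 1 := by
        have := hτ.abs
        rw [abs_zero] at this
        exact this.eventually_lt_const one_pos
      filter_upwards [hτ0, eventually_ge_atTop M, e1] with t ht1 ht2 ht3
      refine ae_of_all _ fun θ => ?_
      have ht0 : 0 < t := by linarith
      rw [steiner_quot (by omega) ht0, norm_mul]
      have hb := hbS θ
      have hnn := hnnS θ
      apply mul_le_mul
      · rw [Real.norm_eq_abs]
        calc |supp K θ + τ t - t| = |supp K θ + (τ t - t)| := by ring_nf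
          _ ≤ |supp K θ| + |τ t - t| := abs_add_le _ _
          _ ≤ M + 1 := by
            rw [abs_of_nonneg hnn]; linarith
      · have hq0 : 0 ≤ (supp K θ + τ t) / t := div_nonneg (by linarith) ht0.le
        have hq2 : (supp K θ + τ t) / t ≤ 2 := by
          rw [div_le_iff₀ ht0]; linarith
        have hS : ∑ i ∈ Finset.range n, ((supp K θ + τ t) / t) ^ i ≤ ∑ i ∈ Finset.range n, (2 : ℝ) ^ n := by
          apply Finset.sum_le_sum
          intro i hi
          calc ((supp K θ + τ t) / t) ^ i ≤ 2 ^ i := pow_le_pow_left₀ hq0 hq2 i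
            _ ≤ 2 ^ n := pow_le_pow_right₀ (by norm_num) (Finset.mem_range.1 hi).le
        rw [Finset.sum_const, Finset.card_range, nsmul_eq_mul] at hS
        have hS0 : 0 ≤ ∑ i ∈ Finset.range n, ((supp K θ + τ t) / t) ^ i :=
          Finset.sum_nonneg fun i _ => pow_nonneg hq0 i
        have hnpos : (0 : ℝ) < n := by positivity
        rw [Real.norm_eq_abs, abs_of_nonneg (by positivity), div_le_iff₀ hnpos]
        linarith
      · positivity
      · positivity
    · exact integrable_const _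
    · refine ae_of_all _ fun θ => ?_
      exact steiner_ptwise (by omega) hτ
  refine hmain.congr' ?_
  filter_upwards [eventually_gt_atTop 0] with t ht
  rw [hkap t, ← integral_sub (hint t) (integrable_const _), ← integral_div]
  congr 1
  ext θ
  field_simp

theorem steiner_limit {n : ℕ} (hn : 2 ≤ n) (K : Set (EuclideanSpace ℝ (Fin n))) (hK : IsCompact K)
    (h0 : (0 : EuclideanSpace ℝ (Fin n)) ∈ K) :
    Tendsto (fun t : ℝ => ((volume (K + Metric.closedBall (0 : EuclideanSpace ℝ (Fin n)) t)).toReal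
        - kap n * t ^ n) / t ^ (n - 1)) atTop
      (𝓝 (∫ x : Metric.sphere (0 : EuclideanSpace ℝ (Fin n)) 1, supp K x
        ∂(volume : Measure (EuclideanSpace ℝ (Fin n))).toSphere)) := by
  obtain ⟨M, hM0, hM⟩ := exists_bound hK
  have hcont := continuous_supp hK h0
  have hcontS : Continuous (fun θ : Metric.sphere (0 : EuclideanSpace ℝ (Fin n)) 1 => supp K θ) :=
    hcont.comp continuous_subtype_val
  have hnnS : ∀ θ : Metric.sphere (0 : EuclideanSpace ℝ (Fin n)) 1, 0 ≤ supp K θ :=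
    fun θ => supp_nonneg hK h0 _
  have hint : ∀ t : ℝ, Integrable (fun θ : Metric.sphere (0 : EuclideanSpace ℝ (Fin n)) 1 =>
      (supp K θ + t) ^ n / n) (volume : Measure (EuclideanSpace ℝ (Fin n))).toSphere := by
    intro t
    exact ((hcontS.add continuous_const).pow n |>.div_const _).integrable_of_hasCompactSupport
      (HasCompactSupport.of_compactSpace _)
  have hto : ∀ t : ℝ, 0 ≤ t → ∫⁻ θ : Metric.sphere (0 : EuclideanSpace ℝ (Fin n)) 1,
      ENNReal.ofReal ((supp K θ + t) ^ n / n) ∂(volume : Measure (EuclideanSpace ℝ (Fin n))).toSphere =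
      ENNReal.ofReal (∫ θ : Metric.sphere (0 : EuclideanSpace ℝ (Fin n)) 1, (supp K θ + t) ^ n / n
        ∂(volume : Measure (EuclideanSpace ℝ (Fin n))).toSphere) := by
    intro t ht
    rw [ofReal_integral_eq_lintegral_ofReal (hint t)]
    refine ae_of_all _ fun θ => ?_
    have := hnnS θ
    simp only [Pi.zero_apply]
    positivity
  have hLnn : ∀ t : ℝ, 0 ≤ t → 0 ≤ ∫ θ : Metric.sphere (0 : EuclideanSpace ℝ (Fin n)) 1, (supp K θ + t) ^ n / n
        ∂(volume : Measure (EuclideanSpace ℝ (Fin n))).toSphere := by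
    intro t ht
    refine integral_nonneg fun θ => ?_
    have := hnnS θ
    simp only [Pi.zero_apply]
    positivity
  have hfin : ∀ t : ℝ, volume (K + Metric.closedBall (0 : EuclideanSpace ℝ (Fin n)) t) ≠ ⊤ := fun t =>
    (hK.add (isCompact_closedBall _ _)).measure_lt_top.ne
  have hup : Tendsto (fun t : ℝ => ((∫ θ : Metric.sphere (0 : EuclideanSpace ℝ (Fin n)) 1, (supp K θ + t) ^ n / n
        ∂(volume : Measure (EuclideanSpace ℝ (Fin n))).toSphere) - kap n * t ^ n) / t ^ (n - 1)) atTop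
      (𝓝 (∫ x : Metric.sphere (0 : EuclideanSpace ℝ (Fin n)) 1, supp K x
        ∂(volume : Measure (EuclideanSpace ℝ (Fin n))).toSphere)) := by
    apply steiner_dct hn hK h0 (τ := fun t => t)
    · simp
    · filter_upwards [eventually_ge_atTop 0] with t ht
      exact ⟨ht, le_rfl⟩
  have hlow : Tendsto (fun t : ℝ => ((∫ θ : Metric.sphere (0 : EuclideanSpace ℝ (Fin n)) 1,
        (supp K θ + √(t ^ 2 - M ^ 2)) ^ n / n
        ∂(volume : Measure (EuclideanSpace ℝ (Fin n))).toSphere) - kap n * t ^ n) / t ^ (n - 1)) atTop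
      (𝓝 (∫ x : Metric.sphere (0 : EuclideanSpace ℝ (Fin n)) 1, supp K x
        ∂(volume : Measure (EuclideanSpace ℝ (Fin n))).toSphere)) := by
    apply steiner_dct hn hK h0 (τ := fun t => √(t ^ 2 - M ^ 2))
    · -- t - sqrt(t^2 - M^2) = M^2 / (t + sqrt) <= M^2 / t
      have hb : Tendsto (fun t : ℝ => -(M ^ 2 * t⁻¹)) atTop (𝓝 0) := by
        have := (tendsto_inv_atTop_zero (𝕜 := ℝ)).const_mul (M ^ 2)
        rw [mul_zero] at this
        simpa using this.neg
      refine tendsto_of_tendsto_of_tendsto_of_le_of_le' hb tendsto_const_nhds ?_ ?_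
      · filter_upwards [eventually_ge_atTop M] with t ht
        have ht0 : 0 < t := by linarith
        have h2 : t ^ 2 - M ^ 2 ≥ 0 := by nlinarith
        have h1 : t - M ^ 2 * t⁻¹ ≤ √(t ^ 2 - M ^ 2) := by
          apply Real.le_sqrt_of_sq_le
          have e : (t - M ^ 2 * t⁻¹) ^ 2 = t ^ 2 - M ^ 2 - M ^ 2 * t⁻¹ ^ 2 * (t ^ 2 - M ^ 2) := by
            field_simp
          rw [e]
          have : 0 ≤ M ^ 2 * t⁻¹ ^ 2 * (t ^ 2 - M ^ 2) := by positivity
          linarith
        linarith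
      · filter_upwards [eventually_ge_atTop M] with t ht
        have ht0 : 0 < t := by linarith
        have : √(t ^ 2 - M ^ 2) ≤ t := by
          rw [Real.sqrt_le_left ht0.le]
          nlinarith [sq_nonneg M]
        linarith
    · filter_upwards [eventually_ge_atTop M] with t ht
      have ht0 : 0 < t := by linarith
      refine ⟨Real.sqrt_nonneg _, ?_⟩
      rw [Real.sqrt_le_left ht0.le]
      nlinarith [sq_nonneg M]
  refine tendsto_of_tendsto_of_tendsto_of_le_of_le' hlow hup ?_ ?_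
  · filter_upwards [eventually_ge_atTop (2 * M)] with t ht
    have ht0 : 0 < t := by linarith
    apply div_le_div_of_nonneg_right _ (by positivity)
    apply sub_le_sub_right
    have h1 := steiner_le_vol hn hK h0 hM0 hM ht
    rw [hto _ (Real.sqrt_nonneg _)] at h1
    rwa [ENNReal.ofReal_le_iff_le_toReal (hfin t)] at h1
  · filter_upwards [eventually_ge_atTop (2 * M)] with t ht
    have ht0 : 0 < t := by linarith
    apply div_le_div_of_nonneg_right _ (by positivity)
    apply sub_le_sub_right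
    have h1 := steiner_vol_le hn hK h0 ht0.le
    rw [hto _ ht0.le] at h1
    exact ENNReal.toReal_le_of_le_ofReal (hLnn t ht0.le) h1

end

end Pool.Agent.CubeWidth
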