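import Pool.Agent.Lib.MP_e8b094_gt.LowerPt
import Pool.Agent.Lib.MP_e8b094_gt.LargeAsm
import Pool.Agent.Lib.MP_e8b094_gt.SmallInt
import Pool.Agent.Lib.MP_e8b094_gt.Khin
import Pool.Agent.Lib.MP_e8b094_gt.Num1
import Pool.Agent.Lib.MP_e8b094_gt.Num2
import Pool.Agent.Lib.MP_e8b094_gt.Cint
import Pool.Agent.Lib.MP_e8b094_gt.FFbasic
import Pool.Agent.Lib.MP_e8b094_gt.HAsm
import Pool.Agent.Lib.MP_e8b094_gt.Steiner
import Pool.Agent.Lib.MP_e8b094_gt.Polar

namespace Pool.Agent.CubeWidth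

open MeasureTheory Real Set Filter Topology Pointwise

/-! ### the minimum -/

theorem min_case {n : ℕ} (u : Fin n → ℝ) (hu0 : ∀ i, 0 ≤ u i) (hu : ∑ i, u i ^ 2 = 1)
    (hne : ∀ i, u i ≠ 1) : ∫ s in Ioi (0 : ℝ), FF u s < cc / 2 := by
  have hn : Nonempty (Fin n) := by
    by_contra h
    rw [not_nonempty_iff] at h
    simp at hu
  obtain ⟨i, hi⟩ := Finite.exists_max u
  have hle : ∀ j, u j ≤ 1 := by
    intro j
    have h1 : u j ^ 2 ≤ ∑ i, u i ^ 2 :=
      Finset.single_le_sum (f := fun i => u i ^ 2) (fun i _ => sq_nonneg _) (Finset.mem_univ j)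
    rw [hu] at h1
    nlinarith [hu0 j]
  rcases le_or_gt (2 / 3) (u i) with h | h
  · exact large_case u hu0 hu i h (lt_of_le_of_ne (hle i) (hne i))
  · rcases le_or_gt (1 / 2) (u i) with h2 | h2
    · refine small_int u hu0 hu (a := 2 / 3) (k := 7 / 8) (by norm_num) (fun j => (hi j).trans h.le) ?_ num1
      refine (khin_upper1 u hu i (by linarith)).trans ?_
      have hpos : 0 < u i := by linarith
      have h3 : (1 - u i ^ 2) / (4 * u i) ≤ 7 / 8 - u i := by
        rw [div_le_iff₀ (by linarith)]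
        nlinarith [mul_nonneg (sub_nonneg.2 h2) (sub_nonneg.2 h.le)]
      linarith
    · refine small_int u hu0 hu (a := 1 / 2) (k := 8 / 9) (by norm_num) (fun j => (hi j).trans h2.le) ?_ num2
      exact khin_upper2 u hu0 hu (fun j => (hi j).trans h2.le)

/-! ### both bounds, arbitrary signs -/

lemma sum_abs_sq {n : ℕ} (u : Fin n → ℝ) : ∑ i, |u i| ^ 2 = ∑ i, u i ^ 2 :=
  Finset.sum_congr rfl fun i _ => sq_abs (u i)

lemma FF_abs_fun {n : ℕ} (u : Fin n → ℝ) : FF (fun i => |u i|) = FF u := by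
  ext s; exact FF_abs u s

theorem int_upper {n : ℕ} (u : Fin n → ℝ) (hu : ∑ i, u i ^ 2 = 1) :
    (∫ s in Ioi (0 : ℝ), FF u s ≤ cc / 2) ∧
      ((∫ s in Ioi (0 : ℝ), FF u s = cc / 2) ↔ ∃ i, |u i| = 1) := by
  by_cases h : ∃ i, |u i| = 1
  · obtain ⟨i, hi⟩ := h
    have h1 : ∫ s in Ioi (0 : ℝ), FF u s = cc / 2 := by
      rw [← integral_qq]
      congr 1
      ext s
      exact FF_single u hu i hi s
    exact ⟨h1.le, fun _ => ⟨i, hi⟩, fun _ => h1⟩
  · have h1 : ∫ s in Ioi (0 : ℝ), FF u s < cc / 2 := by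
      have := min_case (fun i => |u i|) (fun i => abs_nonneg _) (by rw [sum_abs_sq, hu])
        (fun i hi => h ⟨i, hi⟩)
      rwa [FF_abs_fun] at this
    exact ⟨h1.le, fun h2 => absurd h2 h1.ne, fun h2 => absurd h2 h⟩

theorem int_lower {n : ℕ} (u : Fin n → ℝ) (hu : ∑ i, u i ^ 2 = 1) :
    ((2 - √2) / √(2 * π) ≤ ∫ s in Ioi (0 : ℝ), FF u s) ∧
      ((∫ s in Ioi (0 : ℝ), FF u s = (2 - √2) / √(2 * π)) ↔
        ∃ i j, i ≠ j ∧ |u i| = 1 / √2 ∧ |u j| = 1 / √2) := by
  by_cases h : ∃ i j, i ≠ j ∧ |u i| = 1 / √2 ∧ |u j| = 1 / √2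
  · obtain ⟨i, j, hij, hi, hj⟩ := h
    have h1 : ∫ s in Ioi (0 : ℝ), FF u s = (2 - √2) / √(2 * π) := by
      rw [← integral_TT]
      congr 1
      ext s
      exact FF_pair u hu i j hij hi hj s
    exact ⟨h1.ge, fun _ => ⟨i, j, hij, hi, hj⟩, fun _ => h1⟩
  · have h1 : (2 - √2) / √(2 * π) < ∫ s in Ioi (0 : ℝ), FF u s := by
      rw [← integral_TT]
      have hlt : ∀ s ∈ Ioi (0 : ℝ), TT s < FF u s := by
        intro s hs
        have := lower_pt_strict (fun i => |u i|) (fun i => abs_nonneg _) (by rw [sum_abs_sq, hu]) h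
          (s := s) hs
        rwa [FF_abs_fun] at this
      have hI := integrable_FF u hu
      have hT := integrable_TT
      have hpos : 0 < ∫ s in Ioi (0 : ℝ), (FF u s - TT s) := by
        rw [setIntegral_pos_iff_support_of_nonneg_ae]
        · have : Ioi (0 : ℝ) ⊆ Function.support (fun s => FF u s - TT s) ∩ Ioi 0 := by
            intro s hs
            refine ⟨?_, hs⟩
            simp only [Function.mem_support]
            exact (sub_pos.2 (hlt s hs)).ne'
          refine lt_of_lt_of_le ?_ (measure_mono this)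
          simp
        · rw [EventuallyLE, ae_restrict_iff' measurableSet_Ioi]
          exact ae_of_all _ fun s hs => (sub_pos.2 (hlt s hs)).le
        · exact hI.sub hT
      rw [integral_sub hI hT] at hpos
      linarith
    exact ⟨h1.le, fun h2 => absurd h2 h1.ne', fun h2 => absurd h2 h⟩

/-! ### the section -/

/-- central section of the cube -/
def cubeSection {n : ℕ} (u : EuclideanSpace ℝ (Fin n)) : Set (EuclideanSpace ℝ (Fin n)) :=
  {x | (∀ i, |x i| ≤ 1) ∧ inner ℝ x u = 0}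

lemma zero_mem_cubeSection {n : ℕ} (u : EuclideanSpace ℝ (Fin n)) : 0 ∈ cubeSection u := by
  refine ⟨fun i => by simp, by simp⟩

lemma isCompact_cubeSection {n : ℕ} (u : EuclideanSpace ℝ (Fin n)) :
    IsCompact (cubeSection u) := by
  apply Metric.isCompact_of_isClosed_isBounded
  · have h1 : IsClosed {x : EuclideanSpace ℝ (Fin n) | ∀ i, |x i| ≤ 1} := by
      simp only [ofPred_forall]
      exact isClosed_iInter fun i => isClosed_le (by fun_prop) continuous_const
    have h2 : IsClosed {x : EuclideanSpace ℝ (Fin n) | inner ℝ x u = 0} :=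
      isClosed_eq (by fun_prop) continuous_const
    exact h1.inter h2
  · rw [isBounded_iff_forall_norm_le]
    refine ⟨√n, fun x hx => ?_⟩
    rw [EuclideanSpace.norm_eq]
    apply Real.sqrt_le_sqrt
    calc ∑ i, ‖x i‖ ^ 2 ≤ ∑ i : Fin n, (1 : ℝ) := by
          apply Finset.sum_le_sum
          intro i _
          have h := hx.1 i
          rw [Real.norm_eq_abs]
          have h0 := abs_nonneg (x i)
          nlinarith
      _ = n := by simp

lemma supp_cubeSection {n : ℕ} (u x : EuclideanSpace ℝ (Fin n)) :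
    supp (cubeSection u) x = hh (fun i => u i) (fun i => x i) := by
  unfold supp hh
  congr 1
  ext r
  simp only [mem_image, mem_ofPred_eq, cubeSection]
  constructor
  · rintro ⟨y, ⟨hy1, hy2⟩, rfl⟩
    refine ⟨fun i => y i, hy1, ?_, ?_⟩
    · rw [PiLp.inner_apply] at hy2
      rw [← hy2]
      apply Finset.sum_congr rfl
      intro i _
      simp [mul_comm]
    · rw [PiLp.inner_apply]
      apply Finset.sum_congr rfl
      intro i _
      simp [mul_comm]
  · rintro ⟨y, hy1, hy2, rfl⟩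
    refine ⟨WithLp.toLp 2 y, ⟨hy1, ?_⟩, ?_⟩
    · rw [PiLp.inner_apply]
      rw [← hy2]
      apply Finset.sum_congr rfl
      intro i _
      simp [mul_comm]
    · rw [PiLp.inner_apply]
      apply Finset.sum_congr rfl
      intro i _
      simp [mul_comm]

lemma gw_eq {n : ℕ} (x : EuclideanSpace ℝ (Fin n)) :
    (√(2 * π))⁻¹ ^ n * Real.exp (-‖x‖ ^ 2 / 2) = gw (fun i => x i) := by
  unfold gw
  rw [Finset.prod_mul_distrib, ← Real.exp_sum]
  congr 1
  · rw [Finset.prod_const, Finset.card_univ, Fintype.card_fin]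
    congr 1
    have h := cc_mul_sqrt
    have h2 : 0 < √(2 * π) := by positivity
    field_simp
    linarith
  · congr 1
    rw [EuclideanSpace.real_norm_sq_eq, ← Finset.sum_div, Finset.sum_neg_distrib]

theorem gauss_int {n : ℕ} (u : EuclideanSpace ℝ (Fin n)) (hu : ‖u‖ = 1) :
    √(2 * π) * ∫ x : EuclideanSpace ℝ (Fin n), supp (cubeSection u) x *
        ((√(2 * π))⁻¹ ^ n * Real.exp (-‖x‖ ^ 2 / 2)) =
      2 * n - 2 * √(2 * π) * ∫ s in Ioi (0 : ℝ), FF (fun i => u i) s := by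
  have hu2 : ∑ i, u i ^ 2 = 1 := by
    rw [← EuclideanSpace.real_norm_sq_eq, hu]; norm_num
  have h1 : ∫ x : EuclideanSpace ℝ (Fin n), supp (cubeSection u) x *
        ((√(2 * π))⁻¹ ^ n * Real.exp (-‖x‖ ^ 2 / 2)) =
      ∫ x : EuclideanSpace ℝ (Fin n), (fun y : Fin n → ℝ => hh (fun i => u i) y * gw y) (fun i => x i) := by
    congr 1
    ext x
    rw [supp_cubeSection, gw_eq]
  have h2 : ∫ x : EuclideanSpace ℝ (Fin n), (fun y : Fin n → ℝ => hh (fun i => u i) y * gw y) (fun i => x i)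
      = ∫ y : Fin n → ℝ, hh (fun i => u i) y * gw y := by
    have := (EuclideanSpace.volume_preserving_symm_measurableEquiv_toLp (Fin n)).integral_comp'
      (g := fun y : Fin n → ℝ => hh (fun i => u i) y * gw y)
    rw [← this]
    rfl
  rw [h1, h2, integral_hh _ hu2]
  have h := cc_mul_sqrt
  linear_combination (n : ℝ) * h

/-- the first intrinsic volume of the section. -/
noncomputable def V1 {n : ℕ} (u : EuclideanSpace ℝ (Fin n)) : ℝ :=
  2 * n - 2 * √(2 * π) * ∫ s in Ioi (0 : ℝ), FF (fun i => u i) s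

lemma kap_pos (m : ℕ) : 0 < kap m := by
  unfold kap
  apply ENNReal.toReal_pos
  · exact (Metric.measure_ball_pos _ _ one_pos).ne'
  · exact Metric.isBounded_ball.measure_lt_top.ne

theorem tendsto_V1 {n : ℕ} (hn : 2 ≤ n) (u : EuclideanSpace ℝ (Fin n)) (hu : ‖u‖ = 1) :
    Tendsto (fun t : ℝ => ((volume (cubeSection u + Metric.closedBall (0 : EuclideanSpace ℝ (Fin n)) t)).toReal
        - kap n * t ^ n) / (kap (n - 1) * t ^ (n - 1))) atTop (𝓝 (V1 u)) := by
  have h := steiner_limit hn (cubeSection u) (isCompact_cubeSection u) (zero_mem_cubeSection u)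
  rw [polar_gauss hn _ (isCompact_cubeSection u) (zero_mem_cubeSection u), gauss_int u hu] at h
  have h2 := h.div_const (kap (n - 1))
  have hk := kap_pos (n - 1)
  have h3 : kap (n - 1) * (2 * n - 2 * √(2 * π) * ∫ s in Ioi (0 : ℝ), FF (fun i => u i) s) / kap (n - 1)
      = V1 u := by
    unfold V1; field_simp
  rw [h3] at h2
  refine h2.congr fun t => ?_
  rw [div_div]
  congr 1
  ring

theorem bounds_V1 {n : ℕ} (u : EuclideanSpace ℝ (Fin n)) (hu : ‖u‖ = 1) :
    2 * ((n : ℝ) - 1) ≤ V1 u ∧ V1 u ≤ 2 * ((n : ℝ) - 2) + 2 * √2 ∧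
    (V1 u = 2 * ((n : ℝ) - 1) ↔ ∃ i, |u i| = 1) ∧
    (V1 u = 2 * ((n : ℝ) - 2) + 2 * √2 ↔ ∃ i j, i ≠ j ∧ |u i| = 1 / √2 ∧ |u j| = 1 / √2) := by
  have hu2 : ∑ i, u i ^ 2 = 1 := by
    rw [← EuclideanSpace.real_norm_sq_eq, hu]; norm_num
  obtain ⟨h1, h2⟩ := int_upper (fun i => u i) hu2
  obtain ⟨h3, h4⟩ := int_lower (fun i => u i) hu2
  have hs : 0 < √(2 * π) := by positivity
  have hc := cc_mul_sqrt
  rw [← h2, ← h4]
  unfold V1
  set I := ∫ s in Ioi (0 : ℝ), FF (fun i => u i) s with hI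
  have e1 : √(2 * π) * (cc / 2) = 1 := by linarith
  have e2 : √(2 * π) * ((2 - √2) / √(2 * π)) = 2 - √2 := by field_simp
  refine ⟨?_, ?_, ?_, ?_⟩
  · nlinarith
  · nlinarith
  · constructor
    · intro h
      have : √(2 * π) * I = √(2 * π) * (cc / 2) := by rw [e1]; linarith
      exact mul_left_cancel₀ hs.ne' this
    · intro h
      rw [h]; nlinarith
  · constructor
    · intro h
      have : √(2 * π) * I = √(2 * π) * ((2 - √2) / √(2 * π)) := by rw [e2]; linarith
      exact mul_left_cancel₀ hs.ne' this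
    · intro h
      rw [h, mul_assoc, e2]; ring

/-- any Steiner coefficients have first coefficient equal to the limit. -/
theorem steiner_coeff {n : ℕ} (hn : 2 ≤ n) (W : ℝ → ℝ) (L : ℝ)
    (hL : Tendsto (fun t : ℝ => (W t - kap n * t ^ n) / (kap (n - 1) * t ^ (n - 1))) atTop (𝓝 L))
    (v : ℕ → ℝ)
    (hv : ∀ t : ℝ, 0 ≤ t → W t = ∑ j ∈ Finset.range (n + 1), kap (n - j) * v j * t ^ (n - j)) :
    v 1 = L := by
  have hk := kap_pos (n - 1)
  -- the remaining terms
  let P : ℝ → ℝ := fun x => ∑ j ∈ Finset.range n, kap (n - (j + 1)) * v (j + 1) / kap (n - 1) * x ^ j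
  have hPc : Continuous P := by fun_prop
  have hP0 : P 0 = v 1 := by
    obtain ⟨m, rfl⟩ : ∃ m, n = m + 1 := ⟨n - 1, by omega⟩
    simp only [P]
    rw [Finset.sum_range_succ']
    simp only [ne_eq, Nat.add_eq_zero_iff, one_ne_zero, and_false, not_false_eq_true, zero_pow, mul_zero,
      Finset.sum_const_zero, zero_add, pow_zero, mul_one]
    field_simp
  have hPt : Tendsto (fun t : ℝ => P t⁻¹) atTop (𝓝 (v 1)) := by
    have := (hPc.tendsto 0).comp tendsto_inv_atTop_zero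
    rw [hP0] at this
    exact this
  have hform : ∀ t : ℝ, 0 < t → (W t - kap n * t ^ n) / (kap (n - 1) * t ^ (n - 1)) =
      kap n * (v 0 - 1) / kap (n - 1) * t + P t⁻¹ := by
    intro t ht
    rw [hv t ht.le, Finset.sum_range_succ']
    simp only [P, Nat.sub_zero]
    have hterm : ∀ j ∈ Finset.range n, kap (n - (j + 1)) * v (j + 1) * t ^ (n - (j + 1)) =
        kap (n - 1) * t ^ (n - 1) * (kap (n - (j + 1)) * v (j + 1) / kap (n - 1) * t⁻¹ ^ j) := by
      intro j hj
      have hj' : j < n := Finset.mem_range.1 hj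
      have e : t ^ (n - 1) = t ^ (n - (j + 1)) * t ^ j := by
        rw [← pow_add]; congr 1; omega
      rw [e, inv_pow]
      field_simp
    rw [Finset.sum_congr rfl hterm, ← Finset.mul_sum]
    have e2 : t ^ n = t ^ (n - 1) * t := by
      rw [← pow_succ]; congr 1; omega
    rw [e2]
    have ht1 : 0 < t ^ (n - 1) := by positivity
    field_simp
    ring
  have hv0 : kap n * (v 0 - 1) / kap (n - 1) = 0 := by
    have h1 : Tendsto (fun t : ℝ => (W t - kap n * t ^ n) / (kap (n - 1) * t ^ (n - 1)) * t⁻¹ - P t⁻¹ * t⁻¹)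
        atTop (𝓝 (L * 0 - v 1 * 0)) :=
      (hL.mul tendsto_inv_atTop_zero).sub (hPt.mul tendsto_inv_atTop_zero)
    have h2 : Tendsto (fun t : ℝ => (W t - kap n * t ^ n) / (kap (n - 1) * t ^ (n - 1)) * t⁻¹ - P t⁻¹ * t⁻¹)
        atTop (𝓝 (kap n * (v 0 - 1) / kap (n - 1))) := by
      refine tendsto_const_nhds.congr' ?_
      filter_upwards [eventually_gt_atTop 0] with t ht
      rw [hform t ht]
      field_simp
      ring
    have := tendsto_nhds_unique h2 h1
    simpa using this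
  have h3 : Tendsto (fun t : ℝ => (W t - kap n * t ^ n) / (kap (n - 1) * t ^ (n - 1))) atTop (𝓝 (v 1)) := by
    refine hPt.congr' ?_
    filter_upwards [eventually_gt_atTop 0] with t ht
    rw [hform t ht, hv0]; ring
  exact tendsto_nhds_unique h3 hL

theorem main_theorem (n : ℕ) (hn : 2 ≤ n) :
    ∃ V : EuclideanSpace ℝ (Fin n) → ℝ, ∀ u : EuclideanSpace ℝ (Fin n), ‖u‖ = 1 →
      Tendsto (fun t : ℝ => ((volume (cubeSection u +
          Metric.closedBall (0 : EuclideanSpace ℝ (Fin n)) t)).toReal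
        - kap n * t ^ n) / (kap (n - 1) * t ^ (n - 1))) atTop (𝓝 (V u)) ∧
      (∀ v : ℕ → ℝ, (∀ t : ℝ, 0 ≤ t → (volume (cubeSection u +
          Metric.closedBall (0 : EuclideanSpace ℝ (Fin n)) t)).toReal =
          ∑ j ∈ Finset.range (n + 1), kap (n - j) * v j * t ^ (n - j)) → v 1 = V u) ∧
      2 * ((n : ℝ) - 1) ≤ V u ∧ V u ≤ 2 * ((n : ℝ) - 2) + 2 * √2 ∧
      (V u = 2 * ((n : ℝ) - 1) ↔ ∃ i, |u i| = 1) ∧
      (V u = 2 * ((n : ℝ) - 2) + 2 * √2 ↔ ∃ i j, i ≠ j ∧ |u i| = 1 / √2 ∧ |u j| = 1 / √2) := by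
  refine ⟨V1, fun u hu => ⟨tendsto_V1 hn u hu, fun v hv => steiner_coeff hn _ _ (tendsto_V1 hn u hu) v hv,
    bounds_V1 u hu⟩⟩

end Pool.Agent.CubeWidth
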