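import Mathlib
import Pool.Agent.Lib.MP_e8b094_gt.DefsK

/-!
Reflections of coordinates: the parallel bodies of the sections orthogonal to `u` and to `|u|`
have the same volume.
-/

namespace Pool.Agent.CubeWidth

open MeasureTheory Real Set Filter Topology Pointwise
open scoped ENNReal

/-- the change of the signs of the coordinates with `u i < 0`. -/
private noncomputable def reflectE {m : ℕ} (u : EuclideanSpace ℝ (Fin m)) :
    EuclideanSpace ℝ (Fin m) ≃ₗᵢ[ℝ] EuclideanSpace ℝ (Fin m) :=
  LinearIsometryEquiv.piLpCongrRight 2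
    (fun i => if u i < 0 then LinearIsometryEquiv.neg ℝ else LinearIsometryEquiv.refl ℝ ℝ)

private lemma reflectE_apply {m : ℕ} (u y : EuclideanSpace ℝ (Fin m)) (i : Fin m) :
    reflectE u y i = (if u i < 0 then -1 else 1) * y i := by
  unfold reflectE
  rw [LinearIsometryEquiv.piLpCongrRight_apply]
  show (if u i < 0 then LinearIsometryEquiv.neg ℝ else LinearIsometryEquiv.refl ℝ ℝ) (y i) = _
  split_ifs <;> simp

private lemma reflectE_abs {m : ℕ} (u y : EuclideanSpace ℝ (Fin m)) (i : Fin m) :
    |reflectE u y i| = |y i| := by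
  rw [reflectE_apply]
  split_ifs <;> simp

private lemma reflectE_invol {m : ℕ} (u y : EuclideanSpace ℝ (Fin m)) :
    reflectE u (reflectE u y) = y := by
  ext i
  rw [reflectE_apply, reflectE_apply]
  split_ifs <;> simp

private lemma reflectE_inner {m : ℕ} (u y : EuclideanSpace ℝ (Fin m)) :
    inner ℝ (reflectE u y) (WithLp.toLp 2 (fun i => |u i|) : EuclideanSpace ℝ (Fin m)) =
      inner ℝ y u := by
  rw [PiLp.inner_apply, PiLp.inner_apply]
  refine Finset.sum_congr rfl fun i _ => ?_
  rw [reflectE_apply]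
  simp only [RCLike.inner_apply, conj_trivial]
  split_ifs with h
  · rw [abs_of_neg h]; ring
  · rw [abs_of_nonneg (not_lt.mp h)]; ring

theorem vol_abs {m : ℕ} (u : EuclideanSpace ℝ (Fin m)) (t : ℝ) :
    volume ({y : EuclideanSpace ℝ (Fin m) | (∀ i, |y i| ≤ 1) ∧ inner ℝ y u = 0} +
        Metric.closedBall (0 : EuclideanSpace ℝ (Fin m)) t) =
    volume ({y : EuclideanSpace ℝ (Fin m) | (∀ i, |y i| ≤ 1) ∧
        inner ℝ y (WithLp.toLp 2 (fun i => |u i|) : EuclideanSpace ℝ (Fin m)) = 0} +
        Metric.closedBall (0 : EuclideanSpace ℝ (Fin m)) t) := by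
  have hp : MeasurePreserving (reflectE u).toHomeomorph.toMeasurableEquiv volume volume :=
    (reflectE u).measurePreserving
  rw [← hp.measure_preimage_equiv]
  congr 1
  ext x
  constructor
  · rintro ⟨y, ⟨hy1, hy2⟩, z, hz, hyz⟩
    have hyz' : y + z = reflectE u x := hyz
    refine ⟨reflectE u y, ⟨fun i => by rw [reflectE_abs]; exact hy1 i, ?_⟩, reflectE u z, ?_, ?_⟩
    · rw [reflectE_inner]; exact hy2
    · rw [mem_closedBall_zero_iff] at hz ⊢
      rwa [LinearIsometryEquiv.norm_map]
    · show reflectE u y + reflectE u z = x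
      rw [← map_add, hyz', reflectE_invol]
  · rintro ⟨y, ⟨hy1, hy2⟩, z, hz, rfl⟩
    refine ⟨reflectE u y, ⟨fun i => by rw [reflectE_abs]; exact hy1 i, ?_⟩, reflectE u z, ?_, ?_⟩
    · rw [← reflectE_inner, reflectE_invol]; exact hy2
    · rw [mem_closedBall_zero_iff] at hz ⊢
      rwa [LinearIsometryEquiv.norm_map]
    · exact ((reflectE u).map_add y z).symm

end Pool.Agent.CubeWidth
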