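import Pool.Agent.Lib.MP_e8b094_gt.DefsK
import Pool.Agent.Lib.MP_e8b094_gt.Polar
import Pool.Agent.Lib.MP_e8b094_gt.SxBasic
import Pool.Agent.Lib.MP_e8b094_gt.CKsum
import Pool.Agent.Lib.MP_e8b094_gt.Scale
import Pool.Agent.Lib.MP_e8b094_gt.CKfin
import Pool.Agent.Lib.MP_e8b094_gt.Nearest

/-!
Steiner formula for the central sections of the cube.
-/

namespace Pool.Agent.CubeWidth

open MeasureTheory Real Set Filter Topology Pointwise
open scoped ENNReal

/-! ### Measurability -/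

private lemma steinerk_cl_cont : Continuous cl := by
  unfold cl; fun_prop

private lemma steinerk_rho_cont : Continuous rho := by
  unfold rho
  exact continuous_id.sub steinerk_cl_cont

private lemma steinerk_fr_meas {m : ℕ} : Measurable (fr : (Fin m → ℝ) → ℕ) := by
  have : (fr : (Fin m → ℝ) → ℕ) = fun z => ∑ j, if |z j| < 1 then 1 else 0 := by
    funext z
    rw [fr, Finset.card_filter]
  rw [this]
  refine Finset.measurable_fun_sum _ fun j _ => ?_
  refine Measurable.ite ?_ measurable_const measurable_const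
  exact measurableSet_lt (by fun_prop) measurable_const

private lemma steinerk_Ti_cont {n : ℕ} (u : Fin (n + 1) → ℝ) (i : Fin (n + 1)) :
    Continuous (Ti u i) := by
  unfold Ti
  refine continuous_finsetSum _ fun j _ => ?_
  exact continuous_const.mul (steinerk_cl_cont.comp (continuous_apply j))

private lemma steinerk_ins_cont {n : ℕ} (u : Fin (n + 1) → ℝ) (i : Fin (n + 1)) :
    Continuous (ins u i) := by
  unfold ins
  exact Continuous.finInsertNth i ((steinerk_Ti_cont u i).neg.div_const _) continuous_id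

private lemma steinerk_qsq_cont {m : ℕ} (u : Fin m → ℝ) :
    Continuous (fun p : ℝ × (Fin m → ℝ) => qsq u p.1 p.2) := by
  unfold qsq; fun_prop

private def steinerk_set {n : ℕ} (u : Fin (n + 1) → ℝ) (k : ℕ) (i : Fin (n + 1)) :
    Set (Fin n → ℝ) := {z : Fin n → ℝ | -(u i) < Ti u i z ∧ Ti u i z ≤ u i ∧ fr z = k}

private lemma steinerk_set_meas {n : ℕ} (u : Fin (n + 1) → ℝ) (k : ℕ) (i : Fin (n + 1)) :
    MeasurableSet (steinerk_set u k i) := by
  unfold steinerk_set
  refine MeasurableSet.inter ?_ (MeasurableSet.inter ?_ ?_)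
  · exact measurableSet_lt measurable_const (steinerk_Ti_cont u i).measurable
  · exact measurableSet_le (steinerk_Ti_cont u i).measurable measurable_const
  · exact steinerk_fr_meas (measurableSet_singleton k)

private noncomputable def steinerk_map {n : ℕ} (u : Fin (n + 1) → ℝ) (i : Fin (n + 1)) :
    ℝ × (Fin n → ℝ) → ℝ × (Fin (n + 1) → ℝ) := fun p => (p.1, fun j => rho (ins u i p.2 j))

private lemma steinerk_map_meas {n : ℕ} (u : Fin (n + 1) → ℝ) (i : Fin (n + 1)) :
    Measurable (steinerk_map u i) := by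
  refine Continuous.measurable ?_
  unfold steinerk_map
  refine continuous_fst.prodMk (continuous_pi fun j => ?_)
  exact steinerk_rho_cont.comp ((continuous_apply j).comp ((steinerk_ins_cont u i).comp continuous_snd))

private noncomputable def steinerk_meas {n : ℕ} (u : Fin (n + 1) → ℝ) (k : ℕ) :
    Measure (ℝ × (Fin (n + 1) → ℝ)) :=
  Measure.sum fun i : Fin (n + 1) => ENNReal.ofReal (u i) •
    Measure.map (steinerk_map u i)
      ((volume : Measure ℝ).prod ((volume : Measure (Fin n → ℝ)).restrict (steinerk_set u k i)))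

private instance steinerk_sfinite {n : ℕ} (u : Fin (n + 1) → ℝ) (k : ℕ) :
    SFinite (steinerk_meas u k) := by
  unfold steinerk_meas
  infer_instance

private lemma steinerk_CK {n : ℕ} (u : Fin (n + 1) → ℝ) (k : ℕ)
    (Γ : ℝ → (Fin (n + 1) → ℝ) → ℝ≥0∞) (hΓ : Measurable (Function.uncurry Γ)) :
    CK u k Γ = ∫⁻ p, Γ p.1 p.2 ∂(steinerk_meas u k) := by
  unfold steinerk_meas CK
  rw [lintegral_sum_measure, tsum_fintype]
  refine Finset.sum_congr rfl fun i _ => ?_
  rw [lintegral_smul_measure, smul_eq_mul]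
  congr 1
  have h1 := lintegral_map (μ := (volume : Measure ℝ).prod
    ((volume : Measure (Fin n → ℝ)).restrict (steinerk_set u k i))) hΓ (steinerk_map_meas u i)
  have h2 : (fun p : ℝ × (Fin (n + 1) → ℝ) => Γ p.1 p.2) = Function.uncurry Γ := rfl
  have h3 := lintegral_prod (μ := (volume : Measure ℝ))
    (ν := (volume : Measure (Fin n → ℝ)).restrict (steinerk_set u k i))
    (fun a => Function.uncurry Γ (steinerk_map u i a))
    (hΓ.comp (steinerk_map_meas u i)).aemeasurable
  rw [h2, h1, h3]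
  refine lintegral_congr fun s => ?_
  rw [← lintegral_indicator (steinerk_set_meas u k i)]
  rfl

/-! ### The ball functional -/

private noncomputable def steinerk_B {n : ℕ} (u : Fin (n + 1) → ℝ) (t : ℝ) (s : ℝ)
    (r : Fin (n + 1) → ℝ) : ℝ≥0∞ := if qsq u s r ≤ t ^ 2 then 1 else 0

private lemma steinerk_B_meas {n : ℕ} (u : Fin (n + 1) → ℝ) (t : ℝ) :
    Measurable (Function.uncurry (steinerk_B u t)) := by
  unfold steinerk_B
  refine Measurable.ite ?_ measurable_const measurable_const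
  exact measurableSet_le (steinerk_qsq_cont u).measurable measurable_const

private lemma steinerk_qsq_scale {m : ℕ} (u : Fin m → ℝ) (c s : ℝ) (r : Fin m → ℝ) :
    qsq u (c * s) (fun j => c * r j) = c ^ 2 * qsq u s r := by
  unfold qsq
  rw [Finset.mul_sum]
  refine Finset.sum_congr rfl fun j _ => ?_
  ring

private lemma steinerk_B_one {n : ℕ} (u : Fin (n + 1) → ℝ) :
    (fun s r => if qsq u s r ≤ 1 then (1 : ℝ≥0∞) else 0) = steinerk_B u 1 := by
  funext s r
  simp [steinerk_B]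

private lemma steinerk_CK_B {n : ℕ} (u : Fin (n + 1) → ℝ) (k : ℕ) (hk : k ≤ n) {t : ℝ}
    (ht : 0 < t) :
    CK u k (steinerk_B u t) = ENNReal.ofReal (t ^ (n + 1 - k)) * CK u k (steinerk_B u 1) := by
  have h := CK_scale u k hk (inv_pos.mpr ht) (steinerk_B u 1) (steinerk_B_meas u 1)
  have h2 : (fun s q => steinerk_B u 1 (t⁻¹ * s) (fun j => t⁻¹ * q j)) = steinerk_B u t := by
    funext s q
    unfold steinerk_B
    rw [steinerk_qsq_scale]
    have : (t⁻¹ ^ 2 * qsq u s q ≤ 1 ^ 2) ↔ (qsq u s q ≤ t ^ 2) := by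
      rw [inv_pow, one_pow, inv_mul_le_iff₀ (by positivity), mul_one]
    simp only [this]
  rw [h2] at h
  rw [← h, ← mul_assoc, ← ENNReal.ofReal_mul (by positivity), ← mul_pow, mul_inv_cancel₀ ht.ne',
    one_pow, ENNReal.ofReal_one, one_mul]

private lemma steinerk_AA {n : ℕ} (u : Fin (n + 1) → ℝ) (k : ℕ) :
    AA u k = (CK u k (steinerk_B u 1)).toReal := by
  unfold AA
  rw [← steinerk_B_one]

private lemma steinerk_B_lt {n : ℕ} (u : Fin (n + 1) → ℝ) (hu0 : ∀ i, 0 ≤ u i)
    (hu : ∑ i, u i ^ 2 = 1) (k : ℕ) : CK u k (steinerk_B u 1) < ⊤ := by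
  rw [← steinerk_B_one]
  exact CK_ball_lt_top u hu0 hu k

private lemma steinerk_exists_pos {m : ℕ} (u : Fin m → ℝ) (hu0 : ∀ i, 0 ≤ u i)
    (hu : ∑ i, u i ^ 2 = 1) : ∃ i, 0 < u i := by
  by_contra h
  push Not at h
  have : ∀ i, u i = 0 := fun i => le_antisymm (h i) (hu0 i)
  simp [this] at hu

private lemma steinerk_norm {m : ℕ} (u : EuclideanSpace ℝ (Fin m)) (hu : ‖u‖ = 1) :
    ∑ i, u i ^ 2 = 1 := by
  have h := EuclideanSpace.real_norm_sq_eq u
  rw [hu] at h
  rw [← h]; norm_num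

private noncomputable def steinerk_q {m : ℕ} (u : Fin m → ℝ) (x : Fin m → ℝ) : ℝ :=
  qsq u (Sx u x) (fun i => rho (xp u x i))

private lemma steinerk_q_meas {m : ℕ} (u : Fin m → ℝ) (hu0 : ∀ i, 0 ≤ u i) (hu : ∃ i, 0 < u i) :
    Measurable (steinerk_q u) := by
  have hSx := measurable_Sx u hu0 hu
  have h0 : ∀ i, Measurable fun x : Fin m → ℝ => xp u x i := fun i =>
    (measurable_pi_apply i).sub (hSx.mul_const (u i))
  have h0' : ∀ i, Measurable fun x : Fin m → ℝ => rho (xp u x i) := fun i =>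
    Measurable.comp (f := fun x : Fin m → ℝ => xp u x i) steinerk_rho_cont.measurable (h0 i)
  have h1 : Measurable fun x : Fin m → ℝ => (Sx u x, fun i => rho (xp u x i)) :=
    Measurable.prodMk hSx (measurable_pi_lambda _ h0')
  have h2 : steinerk_q u = (fun p : ℝ × (Fin m → ℝ) => qsq u p.1 p.2) ∘
      (fun x : Fin m → ℝ => (Sx u x, fun i => rho (xp u x i))) := rfl
  rw [h2]
  exact Measurable.comp (steinerk_qsq_cont u).measurable h1

private lemma steinerk_vol {n : ℕ} (u : EuclideanSpace ℝ (Fin (n + 1))) (hu0 : ∀ i, 0 ≤ u i)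
    (hu : ‖u‖ = 1) {t : ℝ} (ht : 0 ≤ t) :
    volume ({y : EuclideanSpace ℝ (Fin (n + 1)) | (∀ i, |y i| ≤ 1) ∧ inner ℝ y u = 0} +
        Metric.closedBall (0 : EuclideanSpace ℝ (Fin (n + 1))) t) =
      ∫⁻ x, steinerk_B (fun i => u i) t (Sx (fun i => u i) x)
          (fun i => rho (xp (fun i => u i) x i)) := by
  have hm := steinerk_q_meas (fun i => u i) hu0 (steinerk_exists_pos _ hu0 (steinerk_norm u hu))
  have hms : MeasurableSet {x : Fin (n + 1) → ℝ | steinerk_q (fun i => u i) x ≤ t ^ 2} :=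
    measurableSet_le hm measurable_const
  have hset : ({y : EuclideanSpace ℝ (Fin (n + 1)) | (∀ i, |y i| ≤ 1) ∧ inner ℝ y u = 0} +
      Metric.closedBall (0 : EuclideanSpace ℝ (Fin (n + 1))) t) =
      (MeasurableEquiv.toLp 2 (Fin (n + 1) → ℝ)).symm ⁻¹'
        {x : Fin (n + 1) → ℝ | steinerk_q (fun i => u i) x ≤ t ^ 2} := by
    ext x
    exact mem_parallel u hu0 hu ht x
  have hv := (EuclideanSpace.volume_preserving_symm_measurableEquiv_toLp
    (Fin (n + 1))).measure_preimage hms.nullMeasurableSet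
  have hi := lintegral_indicator_one (μ := (volume : Measure (Fin (n + 1) → ℝ))) hms
  rw [hset, hv, ← hi]
  refine lintegral_congr fun x => ?_
  unfold steinerk_B
  rw [indicator_apply]
  rfl

theorem vol_parallel {n : ℕ} (u : EuclideanSpace ℝ (Fin (n + 1))) (hu0 : ∀ i, 0 ≤ u i)
    (hu : ‖u‖ = 1) {t : ℝ} (ht : 0 ≤ t) :
    (volume ({y : EuclideanSpace ℝ (Fin (n + 1)) | (∀ i, |y i| ≤ 1) ∧ inner ℝ y u = 0} +
        Metric.closedBall (0 : EuclideanSpace ℝ (Fin (n + 1))) t)).toReal =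
      ∑ k ∈ Finset.range (n + 1), AA (fun i => u i) k * t ^ (n + 1 - k) := by
  have hus : ∑ i, (fun i => u i) i ^ 2 = 1 := steinerk_norm u hu
  rcases ht.eq_or_lt with h0 | h0
  · -- `t = 0`
    subst h0
    have hz : ∑ k ∈ Finset.range (n + 1), AA (fun i => u i) k * (0 : ℝ) ^ (n + 1 - k) = 0 := by
      refine Finset.sum_eq_zero fun k hk => ?_
      have := Finset.mem_range.mp hk
      rw [zero_pow (by omega), mul_zero]
    rw [hz]
    have hsub : ({y : EuclideanSpace ℝ (Fin (n + 1)) | (∀ i, |y i| ≤ 1) ∧ inner ℝ y u = 0} +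
        Metric.closedBall (0 : EuclideanSpace ℝ (Fin (n + 1))) 0) ⊆
        (((ℝ ∙ u)ᗮ : Submodule ℝ (EuclideanSpace ℝ (Fin (n + 1)))) :
          Set (EuclideanSpace ℝ (Fin (n + 1)))) := by
      rw [Metric.closedBall_zero]
      rintro x ⟨y, hy, z, hz, rfl⟩
      rw [mem_singleton_iff] at hz
      subst hz
      simp only [add_zero]
      rw [SetLike.mem_coe, Submodule.mem_orthogonal_singleton_iff_inner_left]
      exact hy.2
    have hne : ((ℝ ∙ u)ᗮ : Submodule ℝ (EuclideanSpace ℝ (Fin (n + 1)))) ≠ ⊤ := by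
      intro h
      have hu1 : u ∈ ((ℝ ∙ u)ᗮ : Submodule ℝ (EuclideanSpace ℝ (Fin (n + 1)))) := by
        rw [h]; exact Submodule.mem_top
      rw [Submodule.mem_orthogonal_singleton_iff_inner_left] at hu1
      rw [inner_self_eq_zero] at hu1
      rw [hu1] at hu
      simp at hu
    have := Measure.addHaar_submodule (volume : Measure (EuclideanSpace ℝ (Fin (n + 1)))) _ hne
    rw [measure_mono_null hsub this]
    simp
  · have hvol := steinerk_vol u hu0 hu h0.le
    rw [hvol, CK_sum (fun i => u i) hu0 (steinerk_exists_pos _ hu0 hus) _ (steinerk_B_meas _ t),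
      ENNReal.toReal_sum]
    · refine Finset.sum_congr rfl fun k hk => ?_
      have hk' : k ≤ n := by
        have := Finset.mem_range.mp hk
        omega
      rw [steinerk_CK_B _ k hk' h0, steinerk_AA, ENNReal.toReal_mul,
        ENNReal.toReal_ofReal (by positivity), mul_comm]
    · intro k hk
      have hk' : k ≤ n := by
        have := Finset.mem_range.mp hk
        omega
      rw [steinerk_CK_B _ k hk' h0]
      exact ENNReal.mul_ne_top ENNReal.ofReal_ne_top (steinerk_B_lt _ hu0 hus k).ne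

/-! ### Layer cake -/

private lemma steinerk_deriv (t : ℝ) :
    HasDerivAt (fun t : ℝ => -Real.exp (-t ^ 2 / 2)) (t * Real.exp (-t ^ 2 / 2)) t := by
  have h1 : HasDerivAt (fun t : ℝ => -t ^ 2 / 2) (-t) t := by
    exact (((hasDerivAt_pow 2 t).neg).div_const 2).congr_deriv (by simp; ring)
  exact h1.exp.neg.congr_deriv (by ring)

private lemma steinerk_tendsto :
    Tendsto (fun t : ℝ => -Real.exp (-t ^ 2 / 2)) atTop (𝓝 0) := by
  have h1 : Tendsto (fun t : ℝ => -t ^ 2 / 2) atTop atBot := by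
    have h2 : Tendsto (fun t : ℝ => t ^ 2 / 2) atTop atTop :=
      (tendsto_pow_atTop (by norm_num)).atTop_div_const (by norm_num)
    have h3 := tendsto_neg_atTop_atBot.comp h2
    refine h3.congr fun t => ?_
    simp only [Function.comp]
    ring
  have := (Real.tendsto_exp_atBot.comp h1).neg
  simpa using this

private lemma steinerk_layer {q : ℝ} (hq : 0 ≤ q) :
    ENNReal.ofReal (Real.exp (-q / 2)) =
      ∫⁻ t in Ioi (0 : ℝ), ENNReal.ofReal (t * Real.exp (-t ^ 2 / 2)) *
        (if q ≤ t ^ 2 then 1 else 0) := by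
  have hs : 0 ≤ √q := Real.sqrt_nonneg q
  have hint : ∫ t in Ioi (√q), t * Real.exp (-t ^ 2 / 2) = Real.exp (-q / 2) := by
    rw [integral_Ioi_of_hasDerivAt_of_nonneg' (fun t _ => steinerk_deriv t)
      (fun t ht => mul_nonneg (hs.trans (le_of_lt ht)) (Real.exp_pos _).le) steinerk_tendsto]
    rw [Real.sq_sqrt hq]; ring
  have hI : IntegrableOn (fun t : ℝ => t * Real.exp (-t ^ 2 / 2)) (Ioi (√q)) :=
    integrableOn_Ioi_deriv_of_nonneg' (fun t _ => steinerk_deriv t)
      (fun t ht => mul_nonneg (hs.trans (le_of_lt ht)) (Real.exp_pos _).le) steinerk_tendsto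
  have h1 : ∫⁻ t in Ioi (0 : ℝ), ENNReal.ofReal (t * Real.exp (-t ^ 2 / 2)) *
        (if q ≤ t ^ 2 then 1 else 0) =
      ∫⁻ t in Ioi (0 : ℝ), (Ici (√q)).indicator
        (fun t => ENNReal.ofReal (t * Real.exp (-t ^ 2 / 2))) t := by
    refine setLIntegral_congr_fun measurableSet_Ioi fun t ht => ?_
    rw [indicator_apply]
    have : q ≤ t ^ 2 ↔ t ∈ Ici (√q) := by
      rw [mem_Ici, Real.sqrt_le_left (le_of_lt ht)]
    by_cases h : q ≤ t ^ 2
    · rw [if_pos h, if_pos (this.mp h), mul_one]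
    · rw [if_neg h, if_neg (fun h' => h (this.mpr h')), mul_zero]
  rw [h1, setLIntegral_indicator measurableSet_Ici]
  have h2 : (Ici (√q) ∩ Ioi (0 : ℝ) : Set ℝ) =ᵐ[volume] Ioi (√q) := by
    have h3 : (Ioi (√q) : Set ℝ) ⊆ Ici (√q) ∩ Ioi 0 := fun t ht =>
      ⟨mem_Ici.mpr (mem_Ioi.mp ht).le, lt_of_le_of_lt hs ht⟩
    have h4 : (Ici (√q) ∩ Ioi (0 : ℝ) : Set ℝ) ⊆ Ici (√q) := inter_subset_left
    have h5 : (Ioi (√q) : Set ℝ) =ᵐ[volume] Ici (√q) := Ioi_ae_eq_Ici
    exact (h4.eventuallyLE.trans h5.symm.le).antisymm h3.eventuallyLE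
  rw [setLIntegral_congr h2, ← hint, ofReal_integral_eq_lintegral_ofReal hI]
  exact (ae_restrict_iff' measurableSet_Ioi).mpr
    (ae_of_all _ fun t ht => mul_nonneg (hs.trans (le_of_lt ht)) (Real.exp_pos _).le)

private lemma steinerk_qsq_nonneg {m : ℕ} (u : Fin m → ℝ) (s : ℝ) (r : Fin m → ℝ) :
    0 ≤ qsq u s r := Finset.sum_nonneg fun _ _ => sq_nonneg _

private lemma steinerk_gauss {n : ℕ} (u : Fin (n + 1) → ℝ) (k : ℕ) (hk : k ≤ n) :
    CK u k (fun s r => ENNReal.ofReal (Real.exp (-(qsq u s r) / 2))) =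
      (∫⁻ t in Ioi (0 : ℝ), ENNReal.ofReal (t ^ (n + 1 - k + 1) * Real.exp (-t ^ 2 / 2))) *
        CK u k (steinerk_B u 1) := by
  have hm1 : Measurable (Function.uncurry fun (s : ℝ) (r : Fin (n + 1) → ℝ) =>
      ENNReal.ofReal (Real.exp (-(qsq u s r) / 2))) := by
    have := (steinerk_qsq_cont u).measurable
    exact (Real.measurable_exp.comp (this.neg.div_const 2)).ennreal_ofReal
  rw [steinerk_CK u k _ hm1]
  have h1 : ∀ p : ℝ × (Fin (n + 1) → ℝ), ENNReal.ofReal (Real.exp (-(qsq u p.1 p.2) / 2)) =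
      ∫⁻ t in Ioi (0 : ℝ), ENNReal.ofReal (t * Real.exp (-t ^ 2 / 2)) *
        steinerk_B u t p.1 p.2 := fun p => steinerk_layer (steinerk_qsq_nonneg u p.1 p.2)
  simp_rw [h1]
  have hm2 : Measurable (Function.uncurry fun (p : ℝ × (Fin (n + 1) → ℝ)) (t : ℝ) =>
      ENNReal.ofReal (t * Real.exp (-t ^ 2 / 2)) * steinerk_B u t p.1 p.2) := by
    refine Measurable.mul ?_ ?_
    · exact (Continuous.measurable (by fun_prop)).ennreal_ofReal
    · unfold steinerk_B
      refine Measurable.ite ?_ measurable_const measurable_const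
      refine measurableSet_le ((steinerk_qsq_cont u).measurable.comp measurable_fst) ?_
      exact (measurable_snd).pow_const 2
  rw [lintegral_lintegral_swap hm2.aemeasurable]
  have h2 : ∀ t ∈ Ioi (0 : ℝ), ∫⁻ p, ENNReal.ofReal (t * Real.exp (-t ^ 2 / 2)) *
      steinerk_B u t p.1 p.2 ∂(steinerk_meas u k) =
      ENNReal.ofReal (t ^ (n + 1 - k + 1) * Real.exp (-t ^ 2 / 2)) * CK u k (steinerk_B u 1) := by
    intro t ht
    have ht' : (0 : ℝ) < t := ht
    have e1 := lintegral_const_mul (μ := steinerk_meas u k)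
      (ENNReal.ofReal (t * Real.exp (-t ^ 2 / 2))) (f := fun p => steinerk_B u t p.1 p.2)
      (steinerk_B_meas u t)
    rw [e1, ← steinerk_CK u k _ (steinerk_B_meas u t),
      steinerk_CK_B u k hk ht', ← mul_assoc, ← ENNReal.ofReal_mul (by positivity)]
    congr 2
    rw [pow_succ]; ring
  rw [setLIntegral_congr_fun measurableSet_Ioi h2, lintegral_mul_const]
  exact (Continuous.measurable (by fun_prop)).ennreal_ofReal

theorem AA_eq {n : ℕ} (u : Fin (n + 1) → ℝ) (hu0 : ∀ i, 0 ≤ u i) (hu : ∑ i, u i ^ 2 = 1)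
    (k : ℕ) (hk : k ≤ n) :
    AA u k = kap (n + 1 - k) * (BB u k / √(2 * π) ^ (n + 1 - k)) := by
  obtain ⟨m, hm⟩ : ∃ m, n + 1 - k = m := ⟨_, rfl⟩
  have hg := steinerk_gauss u k hk
  rw [hm] at hg ⊢
  have hB : BB u k = (∫ r in Ioi (0 : ℝ), r ^ (m + 1) * Real.exp (-r ^ 2 / 2)) * AA u k := by
    unfold BB
    rw [hg, ENNReal.toReal_mul, steinerk_AA]
    congr 1
    rw [integral_eq_lintegral_of_nonneg_ae]
    · refine (ae_restrict_iff' measurableSet_Ioi).mpr (ae_of_all _ fun t ht => ?_)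
      have ht' : (0 : ℝ) < t := ht
      exact mul_nonneg (by positivity) (Real.exp_pos _).le
    · exact (Continuous.aestronglyMeasurable (by fun_prop))
  have hc := gauss_const (n := m + 1) (by omega)
  simp only [Nat.add_sub_cancel] at hc
  have hp : 0 < √(2 * π) := by positivity
  rw [hB]
  set I := ∫ r in Ioi (0 : ℝ), r ^ (m + 1) * Real.exp (-r ^ 2 / 2)
  have hc2 : kap m * (I / √(2 * π) ^ m) = 1 := by
    rw [← hc, inv_pow, pow_succ]
    field_simp
  calc AA u k = (kap m * (I / √(2 * π) ^ m)) * AA u k := by rw [hc2, one_mul]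
    _ = _ := by ring

end Pool.Agent.CubeWidth
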