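import Pool.Agent.Lib.MP_e8b094_gt.Main
import Pool.Agent.Lib.MP_e8b094_gt.DBineq
import Pool.Agent.Lib.MP_e8b094_gt.BDrel
import Pool.Agent.Lib.MP_e8b094_gt.SteinerK
import Pool.Agent.Lib.MP_e8b094_gt.Reflect

/-!
Assembly: the minimum of all intrinsic volumes of central sections of the cube.
-/

namespace Pool.Agent.CubeWidth

open MeasureTheory Real Set Filter Topology Pointwise

/-! ### comparison of Steiner coefficients -/

/-- the zeroth coefficient is one. -/
theorem steiner_coeff0 {n : ℕ} (hn : 2 ≤ n) (W : ℝ → ℝ) (L : ℝ)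
    (hL : Tendsto (fun t : ℝ => (W t - kap n * t ^ n) / (kap (n - 1) * t ^ (n - 1))) atTop (𝓝 L))
    (v : ℕ → ℝ)
    (hv : ∀ t : ℝ, 0 ≤ t → W t = ∑ j ∈ Finset.range (n + 1), kap (n - j) * v j * t ^ (n - j)) :
    v 0 = 1 := by
  have hk := kap_pos (n - 1)
  have hkn := kap_pos n
  -- the remaining terms
  let P : ℝ → ℝ := fun x => ∑ j ∈ Finset.range n, kap (n - (j + 1)) * v (j + 1) / kap (n - 1) * x ^ j
  have hPc : Continuous P := by fun_prop
  have hPt : Tendsto (fun t : ℝ => P t⁻¹) atTop (𝓝 (P 0)) :=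
    (hPc.tendsto 0).comp tendsto_inv_atTop_zero
  have hform : ∀ t : ℝ, 0 < t → (W t - kap n * t ^ n) / (kap (n - 1) * t ^ (n - 1)) =
      kap n * (v 0 - 1) / kap (n - 1) * t + P t⁻¹ := by
    intro t ht
    rw [hv t ht.le, Finset.sum_range_succ']
    simp only [P, Nat.sub_zero]
    have hterm : ∀ j ∈ Finset.range n, kap (n - (j + 1)) * v (j + 1) * t ^ (n - (j + 1)) =
        kap (n - 1) * t ^ (n - 1) * (kap (n - (j + 1)) * v (j + 1) / kap (n - 1) * t⁻¹ ^ j) := by
      intro j hj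
      have hj' : j < n := Finset.mem_range.1 hj
      have e : t ^ (n - 1) = t ^ (n - (j + 1)) * t ^ j := by
        rw [← pow_add]; congr 1; omega
      rw [e, inv_pow]
      field_simp
    rw [Finset.sum_congr rfl hterm, ← Finset.mul_sum]
    have e2 : t ^ n = t ^ (n - 1) * t := by
      rw [← pow_succ]; congr 1; omega
    rw [e2]
    have ht1 : 0 < t ^ (n - 1) := by positivity
    field_simp
    ring
  have hv0 : kap n * (v 0 - 1) / kap (n - 1) = 0 := by
    have h1 : Tendsto (fun t : ℝ => (W t - kap n * t ^ n) / (kap (n - 1) * t ^ (n - 1)) * t⁻¹ - P t⁻¹ * t⁻¹)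
        atTop (𝓝 (L * 0 - P 0 * 0)) :=
      (hL.mul tendsto_inv_atTop_zero).sub (hPt.mul tendsto_inv_atTop_zero)
    have h2 : Tendsto (fun t : ℝ => (W t - kap n * t ^ n) / (kap (n - 1) * t ^ (n - 1)) * t⁻¹ - P t⁻¹ * t⁻¹)
        atTop (𝓝 (kap n * (v 0 - 1) / kap (n - 1))) := by
      refine tendsto_const_nhds.congr' ?_
      filter_upwards [eventually_gt_atTop 0] with t ht
      rw [hform t ht]
      field_simp
      ring
    have := tendsto_nhds_unique h2 h1
    simpa using this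
  have h3 : kap n * (v 0 - 1) = 0 := by
    rcases div_eq_zero_iff.1 hv0 with h | h
    · exact h
    · exact absurd h hk.ne'
  rcases mul_eq_zero.1 h3 with h | h
  · exact absurd h hkn.ne'
  · linarith

/-- Steiner coefficients are unique. -/
theorem steiner_unique {n : ℕ} (v v' : ℕ → ℝ)
    (h : ∀ t : ℝ, 0 ≤ t → ∑ j ∈ Finset.range (n + 1), kap (n - j) * v j * t ^ (n - j) =
      ∑ j ∈ Finset.range (n + 1), kap (n - j) * v' j * t ^ (n - j)) :
    ∀ k ≤ n, v k = v' k := by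
  have key : ∀ w : ℕ → ℝ, ∀ t : ℝ, (∑ j ∈ Finset.range (n + 1),
      Polynomial.C (kap (n - j) * w j) * Polynomial.X ^ (n - j)).eval t =
      ∑ j ∈ Finset.range (n + 1), kap (n - j) * w j * t ^ (n - j) := by
    intro w t
    simp [Polynomial.eval_finsetSum]
  have hcoef : ∀ w : ℕ → ℝ, ∀ k ≤ n, (∑ j ∈ Finset.range (n + 1),
      Polynomial.C (kap (n - j) * w j) * Polynomial.X ^ (n - j)).coeff (n - k) =
      kap (n - k) * w k := by
    intro w k hk
    rw [Polynomial.finsetSum_coeff]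
    rw [Finset.sum_eq_single k]
    · rw [Polynomial.coeff_C_mul, Polynomial.coeff_X_pow, if_pos rfl, mul_one]
    · intro j hj hjk
      rw [Polynomial.coeff_C_mul, Polynomial.coeff_X_pow, if_neg, mul_zero]
      have := Finset.mem_range.1 hj
      omega
    · intro h
      exact absurd (Finset.mem_range.2 (by omega)) h
  have heq : (∑ j ∈ Finset.range (n + 1), Polynomial.C (kap (n - j) * v j) * Polynomial.X ^ (n - j)) =
      (∑ j ∈ Finset.range (n + 1), Polynomial.C (kap (n - j) * v' j) * Polynomial.X ^ (n - j)) := by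
    apply Polynomial.eq_of_infinite_eval_eq
    apply Set.Infinite.mono _ (Set.Ici_infinite (0 : ℝ))
    intro t ht
    simp only [mem_ofPred_eq, key]
    exact h t ht
  intro k hk
  have h1 := congrArg (fun p => Polynomial.coeff p (n - k)) heq
  simp only [hcoef v k hk, hcoef v' k hk] at h1
  exact mul_left_cancel₀ (kap_pos (n - k)).ne' h1

/-! ### the coefficients -/

/-- intrinsic volumes of the section. -/
noncomputable def VK {n : ℕ} (u : EuclideanSpace ℝ (Fin (n + 1))) (k : ℕ) : ℝ :=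
  if k ≤ n then BB (fun i => |u i|) k / √(2 * π) ^ (n + 1 - k) else 0

lemma absvec_norm {m : ℕ} (u : EuclideanSpace ℝ (Fin m)) :
    ‖(WithLp.toLp 2 (fun i => |u i|) : EuclideanSpace ℝ (Fin m))‖ = ‖u‖ := by
  rw [EuclideanSpace.norm_eq, EuclideanSpace.norm_eq]
  simp

theorem VK_steiner {n : ℕ} (u : EuclideanSpace ℝ (Fin (n + 1))) (hu : ‖u‖ = 1) {t : ℝ}
    (ht : 0 ≤ t) :
    (volume (cubeSection u + Metric.closedBall (0 : EuclideanSpace ℝ (Fin (n + 1))) t)).toReal =
      ∑ k ∈ Finset.range (n + 1 + 1), kap (n + 1 - k) * VK u k * t ^ (n + 1 - k) := by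
  have hu2 : ∑ i, |u i| ^ 2 = 1 := by
    have h1 : ∑ i, |u i| ^ 2 = ∑ i, u i ^ 2 := Finset.sum_congr rfl fun i _ => sq_abs _
    rw [h1, ← EuclideanSpace.real_norm_sq_eq, hu]; norm_num
  unfold cubeSection
  rw [vol_abs u t]
  rw [vol_parallel (WithLp.toLp 2 (fun i => |u i|) : EuclideanSpace ℝ (Fin (n + 1)))
    (fun i => abs_nonneg _) (by rw [absvec_norm, hu]) ht]
  rw [Finset.sum_range_succ _ (n + 1)]
  have h0 : VK u (n + 1) = 0 := by
    unfold VK; rw [if_neg (by omega)]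
  rw [h0]
  simp only [mul_zero, zero_mul, add_zero]
  apply Finset.sum_congr rfl
  intro k hk
  have hk' : k ≤ n := by have := Finset.mem_range.1 hk; omega
  have h1 := AA_eq (fun i => |u i|) (fun i => abs_nonneg _) hu2 k hk'
  rw [VK, if_pos hk', ← h1]

theorem VK_chain {n : ℕ} (u : EuclideanSpace ℝ (Fin (n + 1))) (hu : ‖u‖ = 1) {k : ℕ} (hk : k < n) :
    2 * ((n : ℝ) - k) * VK u k ≤ ((k : ℝ) + 1) * VK u (k + 1) := by
  have hu2 : ∑ i, |u i| ^ 2 = 1 := by
    have h1 : ∑ i, |u i| ^ 2 = ∑ i, u i ^ 2 := Finset.sum_congr rfl fun i _ => sq_abs _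
    rw [h1, ← EuclideanSpace.real_norm_sq_eq, hu]; norm_num
  have h1 := DD_ge (fun i => |u i|) (fun i => abs_nonneg _) hu2 k hk.le
  have h2 := BB_DD (fun i => |u i|) (fun i => abs_nonneg _) hu2 k hk
  have hc := cc_mul_sqrt
  have hs : 0 < √(2 * π) := by positivity
  rw [VK, if_pos hk.le, VK, if_pos (by omega)]
  have e1 : n + 1 - (k + 1) = n - k := by omega
  have e2 : √(2 * π) ^ (n + 1 - k) = √(2 * π) ^ (n - k) * √(2 * π) := by
    rw [← pow_succ]; congr 1; omega
  rw [e1, e2, ← mul_div_assoc, ← mul_div_assoc, h2]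
  rw [div_le_div_iff₀ (by positivity) (by positivity)]
  have hp : 0 < √(2 * π) ^ (n - k) := by positivity
  have h3 : 2 * ((n : ℝ) - k) * BB (fun i => |u i|) k ≤ √(2 * π) * DD (fun i => |u i|) k := by
    calc 2 * ((n : ℝ) - k) * BB (fun i => |u i|) k
        = √(2 * π) * (cc * ((n : ℝ) - k) * BB (fun i => |u i|) k) := by
          linear_combination (-((n : ℝ) - k) * BB (fun i => |u i|) k) * hc
      _ ≤ _ := mul_le_mul_of_nonneg_left h1 hs.le
  nlinarith [mul_le_mul_of_nonneg_left h3 hp.le]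

theorem VK_chain_eq {n : ℕ} (u : EuclideanSpace ℝ (Fin (n + 1))) (hu : ‖u‖ = 1) {i : Fin (n + 1)}
    (hi : |u i| = 1) {k : ℕ} (hk : k < n) :
    ((k : ℝ) + 1) * VK u (k + 1) = 2 * ((n : ℝ) - k) * VK u k := by
  have hu2 : ∑ i, |u i| ^ 2 = 1 := by
    have h1 : ∑ i, |u i| ^ 2 = ∑ i, u i ^ 2 := Finset.sum_congr rfl fun i _ => sq_abs _
    rw [h1, ← EuclideanSpace.real_norm_sq_eq, hu]; norm_num
  have h1 := DD_eq_single (fun i => |u i|) (fun i => abs_nonneg _) hu2 i hi k hk.le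
  have h2 := BB_DD (fun i => |u i|) (fun i => abs_nonneg _) hu2 k hk
  have hc := cc_mul_sqrt
  have hs : 0 < √(2 * π) := by positivity
  rw [VK, if_pos (by omega), VK, if_pos hk.le]
  have e1 : n + 1 - (k + 1) = n - k := by omega
  have e2 : √(2 * π) ^ (n + 1 - k) = √(2 * π) ^ (n - k) * √(2 * π) := by
    rw [← pow_succ]; congr 1; omega
  rw [e1, e2, ← mul_div_assoc, ← mul_div_assoc, h2, h1]
  have hp : 0 < √(2 * π) ^ (n - k) := by positivity
  rw [div_eq_div_iff hp.ne' (by positivity)]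
  linear_combination ((n : ℝ) - k) * BB (fun i => |u i|) k * √(2 * π) ^ (n - k) * hc

theorem VK_zero {n : ℕ} (hn : 1 ≤ n) (u : EuclideanSpace ℝ (Fin (n + 1))) (hu : ‖u‖ = 1) :
    VK u 0 = 1 :=
  steiner_coeff0 (by omega) _ _ (tendsto_V1 (by omega) u hu) _ (fun _ ht => VK_steiner u hu ht)

theorem VK_one {n : ℕ} (hn : 1 ≤ n) (u : EuclideanSpace ℝ (Fin (n + 1))) (hu : ‖u‖ = 1) :
    VK u 1 = V1 u :=
  steiner_coeff (by omega) _ _ (tendsto_V1 (by omega) u hu) _ (fun _ ht => VK_steiner u hu ht)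

lemma choose_step (n k : ℕ) :
    ((k : ℝ) + 1) * (2 ^ (k + 1) * (n.choose (k + 1) : ℝ)) =
      2 * ((n : ℝ) - k) * (2 ^ k * (n.choose k : ℝ)) := by
  rcases le_or_gt k n with hk | hk
  · have h := Nat.choose_succ_right_eq n k
    have h2 : ((n.choose (k + 1) : ℝ)) * ((k : ℝ) + 1) = (n.choose k : ℝ) * ((n : ℝ) - k) := by
      have h3 := congrArg (fun x : ℕ => (x : ℝ)) h
      simp only [Nat.cast_mul, Nat.cast_add, Nat.cast_one, Nat.cast_sub hk] at h3
      exact h3
    rw [pow_succ]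
    linear_combination 2 * 2 ^ k * h2
  · rw [Nat.choose_eq_zero_of_lt hk, Nat.choose_eq_zero_of_lt (by omega)]
    simp

theorem VK_ge {n : ℕ} (hn : 1 ≤ n) (u : EuclideanSpace ℝ (Fin (n + 1))) (hu : ‖u‖ = 1) :
    ∀ k ≤ n, 2 ^ k * (n.choose k : ℝ) ≤ VK u k := by
  intro k
  induction k with
  | zero => intro _; rw [VK_zero hn u hu]; simp
  | succ k ih =>
    intro hk
    have h1 := ih (by omega)
    have h2 := VK_chain u hu (k := k) (by omega)
    have h3 := choose_step n k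
    have hkn : (0 : ℝ) ≤ (n : ℝ) - k := by
      rw [sub_nonneg]; exact_mod_cast (by omega : k ≤ n)
    have h4 : 2 * ((n : ℝ) - k) * (2 ^ k * (n.choose k : ℝ)) ≤ 2 * ((n : ℝ) - k) * VK u k :=
      mul_le_mul_of_nonneg_left h1 (by linarith)
    have hk1 : (0 : ℝ) < (k : ℝ) + 1 := by positivity
    refine le_of_mul_le_mul_left ?_ hk1
    linarith

theorem VK_eq_single {n : ℕ} (hn : 1 ≤ n) (u : EuclideanSpace ℝ (Fin (n + 1))) (hu : ‖u‖ = 1)
    {i : Fin (n + 1)} (hi : |u i| = 1) : ∀ k ≤ n, VK u k = 2 ^ k * (n.choose k : ℝ) := by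
  intro k
  induction k with
  | zero => intro _; rw [VK_zero hn u hu]; simp
  | succ k ih =>
    intro hk
    have h1 := ih (by omega)
    have h2 := VK_chain_eq u hu hi (k := k) (by omega)
    have h3 := choose_step n k
    have hk1 : (0 : ℝ) < (k : ℝ) + 1 := by positivity
    rw [h1] at h2
    exact mul_left_cancel₀ hk1.ne' (h2.trans h3.symm)

theorem VK_gt {n : ℕ} (hn : 1 ≤ n) (u : EuclideanSpace ℝ (Fin (n + 1))) (hu : ‖u‖ = 1)
    (hne : ¬ ∃ i, |u i| = 1) : ∀ k, 1 ≤ k → k ≤ n → 2 ^ k * (n.choose k : ℝ) < VK u k := by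
  intro k hk1
  induction k, hk1 using Nat.le_induction with
  | base =>
    intro _
    rw [VK_one hn u hu]
    obtain ⟨h1, -, h3, -⟩ := bounds_V1 u hu
    have h4 : V1 u ≠ 2 * (((n + 1 : ℕ) : ℝ) - 1) := fun h => hne (h3.1 h)
    have h5 := lt_of_le_of_ne h1 (Ne.symm h4)
    push_cast at h5
    simp only [pow_one, Nat.choose_one_right]
    linarith
  | succ k hk1 ih =>
    intro hk
    have h1 := ih (by omega)
    have h2 := VK_chain u hu (k := k) (by omega)
    have h3 := choose_step n k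
    have hkn : (0 : ℝ) < (n : ℝ) - k := by
      rw [sub_pos]; exact_mod_cast (by omega : k < n)
    have h4 : 2 * ((n : ℝ) - k) * (2 ^ k * (n.choose k : ℝ)) < 2 * ((n : ℝ) - k) * VK u k :=
      mul_lt_mul_of_pos_left h1 (by linarith)
    have hk1 : (0 : ℝ) < (k : ℝ) + 1 := by positivity
    refine lt_of_mul_lt_mul_left ?_ hk1.le
    linarith

theorem main_min (n : ℕ) (hn : 2 ≤ n) :
    ∃ V : EuclideanSpace ℝ (Fin n) → ℕ → ℝ, ∀ u : EuclideanSpace ℝ (Fin n), ‖u‖ = 1 →
      (∀ t : ℝ, 0 ≤ t → (volume (cubeSection u +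
          Metric.closedBall (0 : EuclideanSpace ℝ (Fin n)) t)).toReal =
          ∑ j ∈ Finset.range (n + 1), kap (n - j) * V u j * t ^ (n - j)) ∧
      (∀ v : ℕ → ℝ, (∀ t : ℝ, 0 ≤ t → (volume (cubeSection u +
          Metric.closedBall (0 : EuclideanSpace ℝ (Fin n)) t)).toReal =
          ∑ j ∈ Finset.range (n + 1), kap (n - j) * v j * t ^ (n - j)) →
          ∀ k ≤ n, v k = V u k) ∧
      (∀ k, k + 1 < n → 2 * ((n : ℝ) - 1 - k) * V u k ≤ ((k : ℝ) + 1) * V u (k + 1)) ∧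
      (∀ k, k < n → 2 ^ k * ((n - 1).choose k : ℝ) ≤ V u k) ∧
      (∀ k, 1 ≤ k → k < n → (V u k = 2 ^ k * ((n - 1).choose k : ℝ) ↔ ∃ i, |u i| = 1)) := by
  obtain ⟨m, rfl⟩ : ∃ m, n = m + 1 := ⟨n - 1, by omega⟩
  refine ⟨VK, fun u hu => ⟨fun t ht => VK_steiner u hu ht, ?_, ?_, ?_, ?_⟩⟩
  · intro v hv
    exact steiner_unique v (VK u) fun t ht => by rw [← hv t ht, ← VK_steiner u hu ht]
  · intro k hk
    have := VK_chain u hu (k := k) (by omega)
    push_cast
    simpa using this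
  · intro k hk
    simpa using VK_ge (by omega) u hu k (by omega)
  · intro k hk1 hk
    simp only [Nat.add_sub_cancel]
    constructor
    · intro h
      by_contra hne
      exact absurd h (VK_gt (by omega) u hu hne k hk1 (by omega)).ne'
    · rintro ⟨i, hi⟩
      exact VK_eq_single (by omega) u hu hi k (by omega)

end Pool.Agent.CubeWidth
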